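import Mathlib.FieldTheory.Finite.GaloisField
import Mathlib.GroupTheory.Commutator.Basic

/-! Steinberg relations over the alphabet `F_8 ∪ {s0, s1, t0, t1}`. -/

namespace Pool.Agent.Work.MP_3b70de_al.E

open scoped commutatorElement

/-- The field with eight elements. -/
abbrev K8 : Type := GaloisField 2 3

/-- Letters: field elements, `s false, s true` and their left inverses `t false, t true`. -/
abbrev Lt : Type := K8 ⊕ Bool × Bool

def lk (a : K8) : Lt := Sum.inl a
def ls (b : Bool) : Lt := Sum.inr (false, b)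
def lt (b : Bool) : Lt := Sum.inr (true, b)

variable {G : Type} [Group G]

/-- The value of a word. -/
def ev {S : Type} (g : S → G) (w : List S) : G := (w.map g).prod

@[simp] theorem ev_nil {S : Type} (g : S → G) : ev g [] = 1 := rfl
@[simp] theorem ev_cons {S : Type} (g : S → G) (a : S) (w : List S) :
    ev g (a :: w) = g a * ev g w := rfl
@[simp] theorem ev_append {S : Type} (g : S → G) (u v : List S) :
    ev g (u ++ v) = ev g u * ev g v := by simp [ev]
theorem ev_map {S T : Type} (g : T → G) (f : S → T) (w : List S) :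
    ev g (w.map f) = ev (fun s => g (f s)) w := by simp [ev, Function.comp_def]
theorem map_ev {S G' : Type} [Group G'] (f : G →* G') (g : S → G) (w : List S) :
    f (ev g w) = ev (fun s => f (g s)) w := by simp [ev, map_list_prod, Function.comp_def]
theorem ev_reverse {S : Type} {g : S → G} (h : ∀ s, g s * g s = 1) (w : List S) :
    ev g w.reverse = (ev g w)⁻¹ := by
  induction w with
  | nil => simp
  | cons a w ih => simp [ih, inv_eq_of_mul_eq_one_right (h a)]

/-- The finitely many Steinberg relations between the generators `x i j a`. -/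
structure StRel (x : Fin 5 → Fin 5 → Lt → G) : Prop where
  sq : ∀ i j a, x i j a * x i j a = 1
  comm : ∀ i j k l a b, i ≠ j → k ≠ l → j ≠ k → i ≠ l → Commute (x i j a) (x k l b)
  one_l : ∀ i j k a, i ≠ j → j ≠ k → i ≠ k → ⁅x i j (lk 1), x j k a⁆ = x i k a
  one_r : ∀ i j k a, i ≠ j → j ≠ k → i ≠ k → ⁅x i j a, x j k (lk 1)⁆ = x i k a
  add : ∀ i j a b, i ≠ j → x i j (lk (a + b)) = x i j (lk a) * x i j (lk b)
  mul : ∀ i j k a b, i ≠ j → j ≠ k → i ≠ k → ⁅x i j (lk a), x j k (lk b)⁆ = x i k (lk (a * b))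
  cen : ∀ i j k a b, i ≠ j → j ≠ k → i ≠ k → ⁅x i j (lk a), x j k b⁆ = ⁅x i j b, x j k (lk a)⁆
  ts : ∀ i j k a b, i ≠ j → j ≠ k → i ≠ k →
    ⁅x i j (lt a), x j k (ls b)⁆ = x i k (lk (if a = b then 1 else 0))

theorem StRel.map {G' : Type} [Group G'] {x : Fin 5 → Fin 5 → Lt → G} (h : StRel x)
    (f : G →* G') : StRel fun i j a => f (x i j a) where
  sq i j a := by rw [← map_mul, h.sq, map_one]
  comm i j k l a b h1 h2 h3 h4 := (h.comm i j k l a b h1 h2 h3 h4).map f
  one_l i j k a h1 h2 h3 := by rw [← map_commutatorElement, h.one_l i j k a h1 h2 h3]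
  one_r i j k a h1 h2 h3 := by rw [← map_commutatorElement, h.one_r i j k a h1 h2 h3]
  add i j a b h1 := by rw [← map_mul, h.add i j a b h1]
  mul i j k a b h1 h2 h3 := by rw [← map_commutatorElement, h.mul i j k a b h1 h2 h3]
  cen i j k a b h1 h2 h3 := by
    rw [← map_commutatorElement, ← map_commutatorElement, h.cen i j k a b h1 h2 h3]
  ts i j k a b h1 h2 h3 := by rw [← map_commutatorElement, h.ts i j k a b h1 h2 h3]

/-- All Steinberg relations over a ring `R`. -/
structure IsSt {R : Type} [Ring R] (X : Fin 5 → Fin 5 → R → G) : Prop where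
  add : ∀ i j r s, i ≠ j → X i j (r + s) = X i j r * X i j s
  comm : ∀ i j k l r s, i ≠ j → k ≠ l → j ≠ k → i ≠ l → Commute (X i j r) (X k l s)
  st : ∀ i j k r s, i ≠ j → j ≠ k → i ≠ k → ⁅X i j r, X j k s⁆ = X i k (r * s)

theorem IsSt.map {G' : Type} [Group G'] {R : Type} [Ring R] {X : Fin 5 → Fin 5 → R → G}
    (h : IsSt X) (f : G →* G') : IsSt fun i j r => f (X i j r) where
  add i j a b h1 := by rw [← map_mul, h.add i j a b h1]
  comm i j k l a b h1 h2 h3 h4 := (h.comm i j k l a b h1 h2 h3 h4).map f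
  st i j k a b h1 h2 h3 := by rw [← map_commutatorElement, h.st i j k a b h1 h2 h3]

/-- The ring `R` is generated by the letters, which satisfy the Leavitt type relations. -/
structure IsLv {R : Type} [Ring R] (ℓ : Lt → R) : Prop where
  one : ℓ (lk 1) = 1
  add : ∀ a b, ℓ (lk (a + b)) = ℓ (lk a) + ℓ (lk b)
  mul : ∀ a b, ℓ (lk (a * b)) = ℓ (lk a) * ℓ (lk b)
  cen : ∀ a b, ℓ (lk a) * ℓ b = ℓ b * ℓ (lk a)
  ts : ∀ a b, ℓ (lt a) * ℓ (ls b) = if a = b then 1 else 0
  gen : ∀ P : R → Prop, (∀ a, P (ℓ a)) → (∀ r s, P r → P s → P (r + s)) →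
    (∀ r s, P r → P s → P (r * s)) → ∀ r, P r

theorem K8_add_self (a : K8) : a + a = 0 := CharTwo.add_self_eq_zero a

theorem IsLv.zero {R : Type} [Ring R] {ℓ : Lt → R} (h : IsLv ℓ) : ℓ (lk 0) = 0 := by
  have := h.add 0 0
  rw [add_zero] at this
  exact left_eq_add.1 this

theorem IsLv.add_self {R : Type} [Ring R] {ℓ : Lt → R} (h : IsLv ℓ) (r : R) : r + r = 0 := by
  have := h.add 1 1
  rw [K8_add_self, h.zero, h.one] at this
  rw [← one_mul r, ← add_mul, ← this, zero_mul]

theorem IsSt.zero {R : Type} [Ring R] {X : Fin 5 → Fin 5 → R → G} (h : IsSt X) {i j : Fin 5}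
    (hij : i ≠ j) : X i j 0 = 1 := by
  have := h.add i j 0 0 hij
  rw [add_zero] at this
  exact left_eq_mul.1 this

theorem IsSt.sq {R : Type} [Ring R] {ℓ : Lt → R} (hl : IsLv ℓ) {X : Fin 5 → Fin 5 → R → G}
    (h : IsSt X) {i j : Fin 5} (hij : i ≠ j) (r : R) : X i j r * X i j r = 1 := by
  rw [← h.add i j r r hij, hl.add_self, h.zero hij]

/-- The Weyl type element `x_ij(a) x_ji(b) x_ij(a)`. -/
def ws (x : Fin 5 → Fin 5 → Lt → G) (i j : Fin 5) (a b : Lt) : G := x i j a * x j i b * x i j a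

/-- The doubling element: it maps the sites of index `0, 1` onto those of index `0, 2, 1, 3`. -/
noncomputable def dd (x : Fin 5 → Fin 5 → Lt → G) : G :=
  ws x 0 4 (lk 1) (lk 1) * ws x 0 4 (ls false) (lt false) * ws x 0 2 (ls true) (lt true) *
    (ws x 1 4 (lk 1) (lk 1) * ws x 1 4 (ls false) (lt false) * ws x 1 3 (ls true) (lt true))

/-- Vectors fixed by all Steinberg generators. -/
def F0 {H : Type} [SMul G H] (x : Fin 5 → Fin 5 → Lt → G) (ξ : H) : Prop :=
  ∀ i j a, i ≠ j → x i j a • ξ = ξ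

theorem F0.ws {H : Type} [MulAction G H] {x : Fin 5 → Fin 5 → Lt → G} {ξ : H} (h : F0 x ξ)
    {i j : Fin 5} (hij : i ≠ j) (a b : Lt) : ws x i j a b • ξ = ξ := by
  rw [E.ws, mul_smul, mul_smul, h i j a hij, h j i b hij.symm, h i j a hij]

theorem F0.dd {H : Type} [MulAction G H] {x : Fin 5 → Fin 5 → Lt → G} {ξ : H} (h : F0 x ξ) :
    dd x • ξ = ξ := by
  simp only [E.dd, mul_smul]
  rw [h.ws (by decide), h.ws (by decide), h.ws (by decide), h.ws (by decide), h.ws (by decide),
    h.ws (by decide)]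

end Pool.Agent.Work.MP_3b70de_al.E
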