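import Pool.Agent.Work.MP_3b70de_al.E.Hil
import Pool.Agent.Work.MP_3b70de_al.E.StDefs

/-! Averages over finite groups of unitaries, and the angle between the fixed spaces of two
subgroups of a Heisenberg group over the field with eight elements.

Plan. `avg_isProj`: `f a * avg f = avg f` by reindexing (`Equiv.addLeft`), `f 0 = 1`,
`star (f a) = f (-a)` and reindexing by `Equiv.neg`.
`angle`: `P = avg x, Q = avg y, p = avg z`; `p` commutes with `P, Q`. Split `ξ = p ξ + (ξ - p ξ)`;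
both parts stay orthogonal under `P, Q`, so both sides of the inequality are additive. On the range
of `p`, `x a` and `y b` commute, so `1 - P` and `1 - Q` commute there and the inner product is
`‖(1 - P)(1 - Q) η‖² ≥ 0`. On the kernel of `p`: for `a ≠ 0` and `y`-fixed `η` with `p η = 0`,
`⟪η, x a η⟫ = ⟪y b η, x a y b η⟫` up to `z (a • b)`: `⟪η, x a η⟫ = ⟪η, x a (z (a • b) η)⟫` for all
`b`; average over `b` (`b ↦ a • b` is a bijection) to get `⟪η, x a (p η)⟫ = 0`. So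
`‖P η‖² = ⟪η, P η⟫ = ‖η‖² / 8` (`Fintype.card K8 = 8` by `GaloisField.card`). Hence for `p η = 0`:
`re ⟪P η, Q η⟫ ≤ ‖P η‖ ‖P (Q η)‖ ≤ (3/8) ‖P η‖ ‖Q η‖ ≤ (3/16) s` with `s = ‖P η‖² + ‖Q η‖²`
`= re ⟪η, P η + Q η⟫`. So `A = ‖P η + Q η‖² ≤ (11/8) s`, `s² ≤ n A` with `n = ‖η‖²`, so
`s ≤ (11/8) n`; the claim is `A - (3 + 3/8) s + (2 + 6/8) n ≥ 0`, and `n` times it is at least
`(2 n - s) ((11/8) n - s) ≥ 0`. -/

namespace Pool.Agent.Work.MP_3b70de_al.E

open scoped InnerProductSpace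

/-- The average of a finite family of unitaries. -/
noncomputable def avg {C : Type} [CStarAlgebra C] {ι : Type} [Fintype ι] (f : ι → unitary C) : C :=
  (Fintype.card ι : ℂ)⁻¹ • ∑ i, (f i : C)

theorem map_avg {C D : Type} [CStarAlgebra C] [CStarAlgebra D] (π : C →⋆ₐ[ℂ] D) {ι : Type}
    [Fintype ι] (f : ι → unitary C) : π (avg f) = avg fun i => umap π (f i) := by
  simp [avg]

theorem Angle_zero {G B : Type} [Group G] [AddCommGroup B] {f : B → G}
    (hf : ∀ a b, f (a + b) = f a * f b) : f 0 = 1 := by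
  have := hf 0 0
  rw [add_zero] at this
  exact left_eq_mul.1 this

theorem Angle_const {E B : Type} [AddCommGroup E] [Module ℂ E] [AddCommGroup B] [Fintype B]
    (v : E) : (Fintype.card B : ℂ)⁻¹ • ∑ _a : B, v = v := by
  rw [Finset.sum_const, Finset.card_univ, ← Nat.cast_smul_eq_nsmul ℂ,
    inv_smul_smul₀ (Nat.cast_ne_zero.2 Fintype.card_ne_zero)]

theorem Angle_mul {C : Type} [CStarAlgebra C] {B : Type} [AddCommGroup B] [Fintype B]
    {f : B → unitary C} (hf : ∀ a b, f (a + b) = f a * f b) (a : B) : (f a : C) * avg f = avg f := by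
  rw [avg, mul_smul_comm, Finset.mul_sum, ← Equiv.sum_comp (Equiv.addLeft a) fun b => (f b : C)]
  simp only [Equiv.coe_addLeft, hf, Submonoid.coe_mul]

theorem avg_isStarProjection {C : Type} [CStarAlgebra C] {B : Type} [AddCommGroup B] [Fintype B]
    {f : B → unitary C} (hf : ∀ a b, f (a + b) = f a * f b) : IsStarProjection (avg f) := by
  refine ⟨?_, ?_⟩
  · show avg f * avg f = avg f
    nth_rewrite 1 [avg]
    rw [smul_mul_assoc, Finset.sum_mul, Finset.sum_congr rfl fun a _ => Angle_mul hf a, Angle_const]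
  · show star (avg f) = avg f
    have h1 : ∀ a, star (f a : C) = f (-a) := fun a => by
      rw [← Unitary.coe_star, Unitary.star_eq_inv, inv_eq_of_mul_eq_one_right
        (by rw [← hf, add_neg_cancel, Angle_zero hf] : f a * f (-a) = 1)]
    rw [avg, star_smul, star_sum, star_inv₀, star_natCast, Finset.sum_congr rfl fun a _ => h1 a,
      ← Equiv.sum_comp (Equiv.neg B) fun a => (f a : C)]
    rfl

variable {H : Type} [NormedAddCommGroup H] [InnerProductSpace ℂ H] [CompleteSpace H]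

theorem Angle_apply {ι : Type} [Fintype ι] (f : ι → UH H) (ξ : H) :
    avg f ξ = (Fintype.card ι : ℂ)⁻¹ • ∑ i, f i • ξ := by
  simp [avg, usmul_def]

theorem Angle_swap {A B : Type} [Fintype A] [Fintype B] {x : A → UH H} {y : B → UH H} {η : H}
    (h : ∀ a b, x a • y b • η = y b • x a • η) : avg x (avg y η) = avg y (avg x η) := by
  simp only [Angle_apply, usmul_smul, Finset.smul_sum, h]
  rw [Finset.sum_comm]
  exact Finset.sum_congr rfl fun _ _ => Finset.sum_congr rfl fun _ _ => smul_comm _ _ _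

section

variable {P Q : H →L[ℂ] H} {F F' : H → Prop}

theorem Angle_re (hP : IsProj P F) (η : H) : (⟪η, P η⟫_ℂ).re = ‖P η‖ ^ 2 := by
  rw [hP.inner_self]
  exact inner_self_eq_norm_sq (𝕜 := ℂ) _

theorem Angle_split (hP : IsProj P F) (u v : H) :
    ⟪u, v⟫_ℂ = ⟪P u, P v⟫_ℂ + ⟪u - P u, v - P v⟫_ℂ := by
  rw [inner_sub_left, inner_sub_right, inner_sub_right, hP.symm, hP.idem, hP.symm u v]
  ring

theorem Angle_c (hP : IsProj P F) (hQ : IsProj Q F') {η : H} (h : P (Q η) = Q (P η)) :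
    0 ≤ (⟪η - P η, η - Q η⟫_ℂ).re := by
  have h1 : η - Q η - P (η - Q η) = η - P η - Q (η - P η) := by
    rw [map_sub, map_sub, h]
    abel
  have h2 : P (η - P η) = 0 := by rw [map_sub, hP.idem, sub_self]
  rw [Angle_split hP, h2, inner_zero_left, zero_add, sub_zero, h1]
  generalize η - P η = u
  have h3 : Q (u - Q u) = 0 := by rw [map_sub, hQ.idem, sub_self]
  rw [Angle_split hQ, h3, inner_zero_right, zero_add, sub_zero]
  exact inner_self_nonneg (𝕜 := ℂ)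

theorem Angle_k (hP : IsProj P F) (hQ : IsProj Q F') {η : H}
    (h : ‖P (Q η)‖ ^ 2 = ‖Q η‖ ^ 2 / 8) :
    -(3 / 8 * (‖η - P η‖ ^ 2 + ‖η - Q η‖ ^ 2)) ≤ 2 * (⟪η - P η, η - Q η⟫_ℂ).re := by
  have h1 := Angle_re hP η
  have h2 := Angle_re hQ η
  have h3 := hP.norm_sq η
  have h4 := hQ.norm_sq η
  have h5 : ‖P η + Q η‖ ^ 2 = ‖P η‖ ^ 2 + 2 * (⟪P η, Q η⟫_ℂ).re + ‖Q η‖ ^ 2 :=
    norm_add_sq (𝕜 := ℂ) _ _
  have h6 : (⟪P η, P (Q η)⟫_ℂ).re ≤ ‖P η‖ * ‖P (Q η)‖ := re_inner_le_norm (𝕜 := ℂ) _ _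
  rw [hP.inner_mem (hP.mem η)] at h6
  have h7 : (⟪η, P η + Q η⟫_ℂ).re ≤ ‖η‖ * ‖P η + Q η‖ := re_inner_le_norm (𝕜 := ℂ) _ _
  have h8 : (⟪η, η⟫_ℂ).re = ‖η‖ ^ 2 := inner_self_eq_norm_sq (𝕜 := ℂ) _
  rw [inner_add_right, Complex.add_re] at h7
  rw [inner_sub_left, inner_sub_right, inner_sub_right, hP.symm η η]
  simp only [Complex.sub_re]
  nlinarith [sq_nonneg (11 / 8 * ‖η‖ - ‖P η + Q η‖), sq_nonneg (3 * ‖P η‖ - 8 * ‖P (Q η)‖),
    sq_nonneg ‖Q η‖]

end

theorem avg_isProj {B : Type} [AddCommGroup B] [Fintype B] {f : B → UH H}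
    (hf : ∀ a b, f (a + b) = f a * f b) : IsProj (avg f) fun ξ => ∀ a, f a • ξ = ξ := by
  refine ⟨avg_isStarProjection hf, fun ξ => ⟨fun h a => ?_, fun h => ?_⟩⟩
  · rw [← h]
    exact congrArg (fun T : H →L[ℂ] H => T ξ) (Angle_mul hf a)
  · rw [Angle_apply, Finset.sum_congr rfl fun a _ => h a, Angle_const]

theorem angle [Fintype K8] {B : Type} [AddCommGroup B] [Module K8 B] [Fintype B]
    {x : K8 → UH H} {y z : B → UH H} (hx : ∀ a b, x (a + b) = x a * x b)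
    (hy : ∀ a b, y (a + b) = y a * y b) (hz : ∀ a b, z (a + b) = z a * z b)
    (hzx : ∀ a b, Commute (z b) (x a)) (hzy : ∀ a b, Commute (z b) (y a))
    (hxy : ∀ a b, x a * y b = z (a • b) * (y b * x a)) (ξ : H) :
    -(3 / 8 * (‖ξ - avg x ξ‖ ^ 2 + ‖ξ - avg y ξ‖ ^ 2)) ≤
      2 * (⟪ξ - avg x ξ, ξ - avg y ξ⟫_ℂ).re := by
  have hP := avg_isProj hx
  have hQ := avg_isProj hy
  have hp := avg_isProj hz
  have h1 : ∀ η, avg z (avg x η) = avg x (avg z η) := fun η =>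
    Angle_swap fun b a => by rw [← mul_smul, (hzx a b).eq, mul_smul]
  have h2 : ∀ η, avg z (avg y η) = avg y (avg z η) := fun η =>
    Angle_swap fun b a => by rw [← mul_smul, (hzy a b).eq, mul_smul]
  have h3 : 0 ≤ (⟪avg z ξ - avg x (avg z ξ), avg z ξ - avg y (avg z ξ)⟫_ℂ).re := by
    refine Angle_c hP hQ (Angle_swap fun a b => ?_)
    rw [← mul_smul, hxy, ((hzy b _).mul_right (hzx a _)).eq, mul_smul, hp.mem ξ, mul_smul]
  have h4 : ∀ η, (∀ b, y b • η = η) → avg z η = 0 → ‖avg x η‖ ^ 2 = ‖η‖ ^ 2 / 8 := by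
    intro η h5 h6
    have h7 : ∀ a, a ≠ 0 → ⟪η, x a • η⟫_ℂ = 0 := by
      intro a ha
      have h8 : ∀ c, ⟪η, z c • x a • η⟫_ℂ = ⟪η, x a • η⟫_ℂ := by
        intro c
        conv_rhs => rw [← congrArg (x a • ·) (h5 (a⁻¹ • c))]
        rw [← mul_smul (x a), hxy, smul_inv_smul₀ ha, ← mul_assoc, (hzy _ c).eq, mul_smul, mul_smul,
          uinner_fix (h5 _)]
      have h9 : ⟪η, avg z (x a • η)⟫_ℂ = ⟪η, x a • η⟫_ℂ := by
        rw [Angle_apply, inner_smul_right, inner_sum, Finset.sum_congr rfl fun c _ => h8 c,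
          ← smul_eq_mul, Angle_const]
      rw [← h9, ← hp.symm, h6, inner_zero_left]
    have h8 : Fintype.card K8 = 8 := by
      rw [← Nat.card_eq_fintype_card, GaloisField.card 2 3 (by norm_num)]
      norm_num
    rw [← Angle_re hP, Angle_apply, inner_smul_right, inner_sum,
      Finset.sum_eq_single 0 (fun a _ ha => h7 a ha) (by simp), Angle_zero hx, one_smul, h8,
      inner_self_eq_norm_sq_to_K]
    simp [← Complex.ofReal_pow]
    ring
  have h5 := Angle_k hP hQ (h4 (avg y (ξ - avg z ξ)) (hQ.mem _)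
    (by rw [h2, map_sub, hp.idem, sub_self, map_zero]))
  have h6 : ∀ T : H →L[ℂ] H, (∀ η, avg z (T η) = T (avg z η)) →
      avg z (ξ - T ξ) = avg z ξ - T (avg z ξ) ∧
        ξ - T ξ - avg z (ξ - T ξ) = ξ - avg z ξ - T (ξ - avg z ξ) := fun T hT => by
    rw [map_sub, map_sub, hT]
    exact ⟨rfl, by abel⟩
  have h7 := hp.norm_sq (ξ - avg x ξ)
  have h8 := hp.norm_sq (ξ - avg y ξ)
  rw [(h6 _ h1).2] at h7
  rw [(h6 _ h2).2] at h8
  rw [Angle_split hp, (h6 _ h1).2, (h6 _ h2).2, (h6 _ h1).1, (h6 _ h2).1, Complex.add_re]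
  nlinarith [sq_nonneg ‖avg z (ξ - avg x ξ)‖, sq_nonneg ‖avg z (ξ - avg y ξ)‖]

/-- Commuting families give a nonnegative inner product. -/
theorem angle_comm {A B : Type} [AddCommGroup A] [Fintype A] [AddCommGroup B] [Fintype B]
    {x : A → UH H} {y : B → UH H} (hx : ∀ a b, x (a + b) = x a * x b)
    (hy : ∀ a b, y (a + b) = y a * y b) (hxy : ∀ a b, Commute (x a) (y b)) (ξ : H) :
    0 ≤ (⟪ξ - avg x ξ, ξ - avg y ξ⟫_ℂ).re := by
  exact Angle_c (avg_isProj hx) (avg_isProj hy)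
    (Angle_swap fun a b => by rw [← mul_smul, (hxy a b).eq, mul_smul])

end Pool.Agent.Work.MP_3b70de_al.E
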