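import Pool.Agent.Work.MP_3b70de_al.E.GDefs

/-! The eleven words of the Gram inequality and the certificates for their inner products. -/

namespace Pool.Agent.Work.MP_3b70de_al.E

open Gate

def gw : Fin 11 → List Gate :=
  ![[], [H 0 1], [Z 1, H 0 1], [H 0 2], [Z 2, H 0 2], [H 0 3], [Z 3, H 0 3],
    [H 0 1, H 2 3, H 0 2], [Z 1, Z 2, H 0 1, H 2 3, H 0 2], [Z 1, Z 3, H 0 1, H 2 3, H 0 2],
    [Z 2, Z 3, H 0 1, H 2 3, H 0 2]]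

/-- The base words with values `1, t, t ^ 2` (kinds `1, 2, 3`). -/
def gb : Fin 4 → List Gate := ![[], [], [H 0 1], [H 0 1, H 0 2]]

/-- Kind and two stabiliser words `k, k'`. With `w = (gw i)⁻¹ (gw j)`: kind `0` means
`Z 0 w = w k`, the other kinds mean `w = k (gb kind) k'`. -/
def cert : Fin 11 → Fin 11 → Fin 4 × List Gate × List Gate := ![
  ![(1, [], []), (2, [], []), (2, [Z 1], []), (2, [H 2 1, H 1 2], [H 1 2, H 2 1]), (2, [H 1 2, H 2 1], [Z 1, H 2 1, H 1 2]), (2, [H 3 1, H 1 3], [H 1 3, H 3 1]), (2, [H 1 3, H 3 1], [Z 1, H 3 1, H 1 3]), (3, [H 2 3], []), (3, [Z 1, H 3 2], [Z 3]), (3, [Z 1, Z 3, H 2 3], []), (3, [Z 3, H 3 2], [Z 3])],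
  ![(2, [], []), (1, [], []), (0, [Z 1], []), (3, [], []), (3, [Z 2], []), (3, [H 3 2, H 2 3], [H 2 3, H 3 2]), (3, [H 2 3, H 3 2], [Z 2, H 3 2, H 2 3]), (2, [H 2 1, H 1 2, H 1 3], [H 1 2, H 2 1]), (0, [Z 1], []), (0, [Z 1], []), (2, [H 2 3, H 1 2, H 2 1], [Z 1, Z 3, H 2 1, H 1 2])],
  ![(2, [], [Z 1]), (0, [Z 1], []), (1, [], []), (3, [], [Z 1]), (3, [Z 2], [Z 1]), (3, [H 3 2, H 2 3], [Z 1, H 2 3, H 3 2]), (3, [H 2 3, H 3 2], [Z 1, Z 2, H 3 2, H 2 3]), (0, [Z 1], []), (2, [H 1 2, H 2 1, H 1 3], [Z 1, H 2 1, H 1 2]), (2, [H 3 2, H 1 2, H 2 1], [Z 1, H 2 1, H 1 2]), (0, [Z 1], [])],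
  ![(2, [H 2 1, H 1 2], [H 1 2, H 2 1]), (3, [H 1 3, H 2 3], [H 1 3, H 2 3]), (3, [H 2 1, H 1 2], [Z 1, H 2 1, H 1 2]), (1, [], []), (0, [Z 2], []), (3, [H 3 1, H 2 3], [Z 2, Z 3, H 1 3, H 1 2]), (3, [Z 3, H 3 1, H 2 3], [Z 2, Z 3, H 1 3, H 1 2]), (2, [H 1 3], [H 2 3, H 1 3]), (0, [Z 1, H 1 3, H 2 3, H 1 2, H 2 1], []), (2, [Z 3, H 3 1], [Z 3, H 2 3, H 1 3]), (0, [Z 1, H 1 3, H 2 3, H 1 2, H 2 1], [])],
  ![(2, [H 2 1, H 1 2], [Z 1, H 1 2, H 2 1]), (3, [H 1 3, H 2 3], [Z 1, H 3 1, H 3 2]), (3, [H 2 1, H 1 2], [H 2 1, H 1 2]), (0, [Z 2], []), (1, [], []), (3, [H 3 1, H 2 3], [Z 2, H 3 1, H 2 1]), (3, [Z 3, H 3 1, H 2 3], [Z 2, H 3 1, H 2 1]), (0, [Z 1, H 1 3, H 2 3, H 1 2, H 2 1], []), (2, [H 3 1], [Z 3, H 2 3, H 1 3]), (0, [Z 1, H 1 3, H 2 3, H 1 2, H 2 1], []), (2, [Z 3, H 1 3], [H 2 3, H 1 3])],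
  ![(2, [H 3 1, H 1 3], [H 1 3, H 3 1]), (3, [H 1 2, H 2 3], [Z 1, Z 3, H 3 1, H 2 3]), (3, [H 2 1, H 3 2], [Z 1, H 3 1, H 2 3]), (3, [H 3 1, H 1 3], [H 1 3, H 3 1]), (3, [Z 2, H 3 1, H 1 3], [H 1 3, H 3 1]), (1, [], []), (0, [Z 3], []), (2, [H 1 2], [Z 1, Z 2, H 3 2, H 3 1]), (2, [Z 2, H 2 1], [Z 1, H 3 2, H 3 1]), (0, [Z 1, H 1 3, H 3 2, H 2 3, H 3 1], []), (0, [Z 1, H 1 3, H 3 2, H 2 3, H 3 1], [])],
  ![(2, [H 3 1, H 1 3], [Z 1, H 1 3, H 3 1]), (3, [H 1 2, H 2 3], [Z 1, Z 2, Z 3, H 3 1, H 3 2]), (3, [H 2 1, H 3 2], [Z 1, Z 2, H 3 1, H 3 2]), (3, [H 3 1, H 1 3], [Z 1, H 1 3, H 3 1]), (3, [Z 2, H 3 1, H 1 3], [Z 1, H 1 3, H 3 1]), (0, [Z 3], []), (1, [], []), (0, [Z 1, H 1 3, H 3 2, H 2 3, H 3 1], []), (0, [Z 1, H 1 3, H 3 2, H 2 3, H 3 1], []), (2, [H 2 1], [Z 1, H 3 2, H 3 1]), (2, [Z 2, H 1 2], [Z 1, Z 2, H 3 2, H 3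 1])],
  ![(3, [H 1 3, H 2 3], [H 1 3]), (2, [H 2 1, H 1 2], [H 1 2, H 2 1, H 2 3]), (0, [Z 1, H 2 3, H 1 2, H 2 1, H 2 3], []), (2, [H 1 3], [H 2 3, H 1 3]), (0, [Z 1, H 1 3, H 3 2, H 2 3, H 3 1], []), (2, [Z 3, H 1 3], [Z 3, H 2 3, H 1 2]), (0, [Z 1, H 1 2, H 2 3, H 3 2, H 2 1], []), (1, [], []), (0, [Z 1, H 3 1, H 1 3], []), (0, [Z 1, H 1 3, H 3 1], []), (0, [Z 2], [])],
  ![(3, [H 1 3, H 2 3], [Z 2, Z 3, H 3 1]), (0, [Z 1, H 2 3, H 3 1, H 1 3, H 2 3], []), (2, [H 2 1, H 1 2], [Z 2, H 1 3, H 2 1, H 1 2]), (0, [Z 1, H 3 1, H 1 2, H 2 3, H 3 2], []), (2, [H 1 3], [Z 2, H 3 2, H 3 1]), (2, [Z 3, H 1 3], [Z 1, H 3 2, H 1 2]), (0, [Z 1, H 1 2, H 3 1, H 3 2, H 2 3], []), (0, [Z 1, H 3 1, H 1 3], []), (1, [], []), (0, [Z 2], []), (0, [Z 1, H 1 3, H 3 1], [])],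
  ![(3, [H 1 3, H 2 3], [Z 1, Z 3, H 1 3]), (0, [Z 1, H 2 1, H 1 2, H 3 1, H 3 2], []), (2, [H 2 1, H 1 2], [Z 1, H 1 2, H 2 1, H 3 2]), (2, [H 1 3], [Z 1, Z 2, H 3 2, H 1 3]), (0, [Z 1, H 1 3, H 2 1, H 2 3, H 3 2], []), (0, [Z 1, H 2 1, H 1 3, H 3 2, H 2 3], []), (2, [Z 3, H 1 3], [H 3 2, H 2 1]), (0, [Z 1, H 1 3, H 3 1], []), (0, [Z 2], []), (1, [], []), (0, [Z 1, H 3 1, H 1 3], [])],
  ![(3, [H 1 3, H 2 3], [Z 1, Z 2, H 3 1]), (2, [H 2 1, H 1 2], [Z 1, Z 2, H 3 1, H 2 1, H 1 2]), (0, [Z 1, H 2 1, H 1 2, H 1 3, H 2 3], []), (0, [Z 1, H 1 3, H 2 3, H 1 2, H 2 1], []), (2, [H 1 3], [Z 1, H 2 3, H 3 1]), (0, [Z 1, H 1 2, H 3 2, H 1 3, H 3 1], []), (2, [Z 3, H 1 3], [Z 1, Z 3, H 2 3, H 2 1]), (0, [Z 2], []), (0, [Z 1, H 1 3, H 3 1], []), (0, [Z 1, H 3 1, H 1 3], []), (1, [], [])]]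

/-- The word that has to be trivial. -/
def certWord (i j : Fin 11) : List Gate :=
  if (cert i j).1 = 0 then
    Z 0 :: ((gw i).reverse ++ gw j) ++ (cert i j).2.1.reverse ++ ((gw i).reverse ++ gw j).reverse
  else ((gw i).reverse ++ gw j).reverse ++ (cert i j).2.1 ++ gb (cert i j).1 ++ (cert i j).2.2

/-! A strict evaluator for the test `chk`. -/

noncomputable def cfN (n : ℕ) (f : ℕ → Bool) : Bool := Nat.rec (f 0) (fun k _ => f k.succ) n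

noncomputable def cfI (x : ℤ) (f : ℤ → Bool) : Bool :=
  Int.rec (fun n => cfN n fun m => f (.ofNat m)) (fun n => cfN n fun m => f (.negSucc m)) x

noncomputable def cfZ (x : ℤ√2) (f : ℤ√2 → Bool) : Bool := cfI x.re fun a => cfI x.im fun b => f ⟨a, b⟩

theorem cfZ_eq (x : ℤ√2) (f : ℤ√2 → Bool) : cfZ x f = f x := by
  have h1 : ∀ n f, cfN n f = f n := fun n f => by cases n <;> rfl
  have h2 : ∀ x f, cfI x f = f x := fun x f => by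
    cases x
    exacts [h1 _ fun m => f (.ofNat m), h1 _ fun m => f (.negSucc m)]
  rw [cfZ, h2, h2]

noncomputable def cfS (x : ℤ√2) : ℤ√2 := ⟨Int.add x.im x.im, x.re⟩

theorem cfS_eq (x : ℤ√2) : cfS x = Zsqrtd.sqrtd * x := by
  ext <;> simp [cfS, two_mul]

noncomputable def cfA : Gate → (ℕ → ℤ√2) → ℕ → ℤ√2
  | Z a, v => fun i => bif Nat.beq i a.1 then -cfS (v i) else cfS (v i)
  | H a b, v => fun i => bif Nat.beq a.1 b.1 then cfS (v i) else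
      bif Nat.beq i a.1 then v a.1 + v b.1 else bif Nat.beq i b.1 then v a.1 - v b.1 else cfS (v i)

noncomputable def cfV (a0 a1 a2 a3 a4 a5 : ℤ√2) (i : ℕ) : ℤ√2 :=
  Nat.rec a0 (fun i _ => Nat.rec a1 (fun i _ => Nat.rec a2 (fun i _ => Nat.rec a3
    (fun i _ => Nat.rec a4 (fun _ _ => a5) i) i) i) i) i

noncomputable def cfR (k : (ℕ → ℤ√2) → ℤ√2 → Bool) (w : List Gate) : (ℕ → ℤ√2) → ℤ√2 → Bool :=
  List.rec k (fun g _ ih v s => cfZ (cfA g v 0) fun a0 => cfZ (cfA g v 1) fun a1 =>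
    cfZ (cfA g v 2) fun a2 => cfZ (cfA g v 3) fun a3 => cfZ (cfA g v 4) fun a4 =>
    cfZ (cfA g v 5) fun a5 => cfZ (cfS s) fun s' => ih (cfV a0 a1 a2 a3 a4 a5) s') w

noncomputable def cfC (w : List Gate) : Bool :=
  [0, 1, 2, 3, 4, 5].all fun j => cfR (fun u s => [0, 1, 2, 3, 4, 5].all fun i =>
    decide (u i = bif Nat.beq i j then s else 0)) w.reverse
      (fun k => bif Nat.beq k j then 1 else 0) 1

theorem cfA_eq (g : Gate) {v : ℕ → ℤ√2} {V : Fin 6 → ℤ√2} (h : ∀ i : Fin 6, v i.1 = V i)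
    (i : Fin 6) : cfA g v i.1 = g.act V i := by
  cases g <;> simp only [cfA, Gate.act, cfS_eq, h, Fin.ext_iff, Bool.cond_eq_ite, Nat.beq_eq]

theorem cfR_spec (k : (ℕ → ℤ√2) → ℤ√2 → Bool) (w : List Gate) : ∀ (v : ℕ → ℤ√2)
    (V : Fin 6 → ℤ√2) (s : ℤ√2), (∀ i : Fin 6, v i.1 = V i) → cfR k w v s = true →
      ∃ u, (∀ i : Fin 6, u i.1 = w.foldl (fun v g => g.act v) V i) ∧
        k u (Zsqrtd.sqrtd ^ w.length * s) = true := by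
  induction w with
  | nil => exact fun v V s h hk => ⟨v, h, by rwa [List.length_nil, pow_zero, one_mul]⟩
  | cons g w ih =>
    intro v V s h hk
    have e : cfR k (g :: w) v s = cfR k w (cfV (cfA g v 0) (cfA g v 1) (cfA g v 2) (cfA g v 3)
        (cfA g v 4) (cfA g v 5)) (cfS s) := by
      simp only [cfR, cfZ_eq]
    obtain ⟨u, h1, h2⟩ := ih _ (g.act V) _
      (fun i => (by fin_cases i <;> rfl : _ = cfA g v i.1).trans (cfA_eq g h i)) (e ▸ hk)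
    exact ⟨u, h1, by rwa [List.length_cons, pow_succ, mul_assoc, ← cfS_eq]⟩

theorem cfC_sound {w : List Gate} (h : cfC w = true) : chk w = true := by
  have m : ∀ i : Fin 6, i.1 ∈ [0, 1, 2, 3, 4, 5] := by decide
  refine decide_eq_true fun j i => ?_
  obtain ⟨u, h1, h2⟩ := cfR_spec _ _ _ (fun k => if k = j then 1 else 0) _
    (fun k => by simp only [Fin.ext_iff, Bool.cond_eq_ite, Nat.beq_eq])
    (List.all_eq_true.1 h _ (m j))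
  have h3 := of_decide_eq_true (List.all_eq_true.1 h2 _ (m i))
  rw [h1, List.foldl_reverse, List.length_reverse, mul_one] at h3
  simpa only [Fin.ext_iff, Bool.cond_eq_ite, Nat.beq_eq] using h3

theorem cert_chk : ∀ i j, chk (certWord i j) = true ∧ (certWord i j).length ≤ 64 := by
  have h : ∀ i j, cfC (certWord i j) = true ∧ (certWord i j).length ≤ 64 := by decide +kernel
  exact fun i j => ⟨cfC_sound (h i j).1, (h i j).2⟩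

theorem cert_stab : ∀ i j, (∀ o ∈ (cert i j).2.1, 0 ∉ o.supp) ∧ ∀ o ∈ (cert i j).2.2, 0 ∉ o.supp := by
  decide +kernel

theorem cert_kind : (fun i j => (cert i j).1) =
    ![![1, 2, 2, 2, 2, 2, 2, 3, 3, 3, 3], ![2, 1, 0, 3, 3, 3, 3, 2, 0, 0, 2],
      ![2, 0, 1, 3, 3, 3, 3, 0, 2, 2, 0], ![2, 3, 3, 1, 0, 3, 3, 2, 0, 2, 0],
      ![2, 3, 3, 0, 1, 3, 3, 0, 2, 0, 2], ![2, 3, 3, 3, 3, 1, 0, 2, 2, 0, 0],
      ![2, 3, 3, 3, 3, 0, 1, 0, 0, 2, 2], ![3, 2, 0, 2, 0, 2, 0, 1, 0, 0, 0],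
      ![3, 0, 2, 0, 2, 2, 0, 0, 1, 0, 0], ![3, 0, 2, 2, 0, 0, 2, 0, 0, 1, 0],
      ![3, 2, 0, 0, 2, 0, 2, 0, 0, 0, 1]] := by
  decide +kernel

end Pool.Agent.Work.MP_3b70de_al.E
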