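import Pool.Agent.Work.MP_3b70de_al.E.GDefs

/-! Soundness of the test `chk`, and the basic facts on the matrices of gates.

Plan. `ρ : ℤ√2 →+* ℂ = Zsqrtd.lift ⟨√2, _⟩`; `ρ ∘ (o.act v) = √2 • (o.mat *ᵥ (ρ ∘ v))`; by induction
`ρ ∘ (w.foldr act v) = √2 ^ w.length • ((w.map mat).prod *ᵥ (ρ ∘ v))`; compare columns. -/

namespace Pool.Agent.Work.MP_3b70de_al.E

open Gate

theorem kap_sq : kap * kap = 1 / 2 := by
  rw [kap, ← mul_inv, Real.mul_self_sqrt (by norm_num), one_div]

theorem sqrt_mul_kap : √2 * kap = 1 := by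
  exact mul_inv_cancel₀ (Real.sqrt_pos.2 two_pos).ne'

/-- The embedding of `ℤ[√2]`. -/
noncomputable def Chk_rho : ℤ√2 →+* ℂ :=
  Zsqrtd.lift ⟨((√2 : ℝ) : ℂ), by
    rw [← Complex.ofReal_mul, Real.mul_self_sqrt (by norm_num)]; norm_num⟩

theorem Chk_rho_sqrtd : Chk_rho Zsqrtd.sqrtd = ((√2 : ℝ) : ℂ) := by
  simp [Chk_rho]

theorem Chk_act (o : Gate) (v : Fin 6 → ℤ√2) (i : Fin 6) :
    Chk_rho (o.act v i) = ((√2 : ℝ) : ℂ) * o.mat.mulVec (fun k => Chk_rho (v k)) i := by
  have hk : ((√2 : ℝ) : ℂ) * kap = 1 := by exact_mod_cast sqrt_mul_kap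
  rw [Gate.mat, Matrix.add_mulVec, Matrix.one_mulVec, Pi.add_apply]
  cases o with
  | Z a =>
    simp only [Gate.act, Gate.dl, Matrix.single_mulVec, Function.update_apply, Pi.zero_apply]
    split_ifs with h
    · rw [map_neg, map_mul, Chk_rho_sqrtd, h]; ring
    · rw [map_mul, Chk_rho_sqrtd, add_zero]
  | H a b =>
    simp only [Gate.act, Gate.dl]
    by_cases hab : a = b
    · rw [if_pos hab, if_pos hab, Matrix.zero_mulVec, Pi.zero_apply, add_zero, map_mul,
        Chk_rho_sqrtd]
    rw [if_neg hab, if_neg hab]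
    simp only [Matrix.add_mulVec, Pi.add_apply, Matrix.single_mulVec, Function.update_apply,
      Pi.zero_apply]
    split_ifs with h1 h2 h3
    · exact absurd (h1.symm.trans h2) hab
    · rw [map_add, h1]
      linear_combination (-Chk_rho (v a) - Chk_rho (v b)) * hk
    · rw [map_sub, h3]
      linear_combination (Chk_rho (v b) - Chk_rho (v a)) * hk
    · rw [map_mul, Chk_rho_sqrtd]; ring

theorem Chk_fold (w : List Gate) (v : Fin 6 → ℤ√2) (i : Fin 6) :
    Chk_rho (w.foldr Gate.act v i) =
      ((√2 : ℝ) : ℂ) ^ w.length * (w.map Gate.mat).prod.mulVec (fun k => Chk_rho (v k)) i := by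
  induction w generalizing i with
  | nil => simp
  | cons o w ih =>
    have h : (fun k => Chk_rho (w.foldr Gate.act v k)) = ((√2 : ℝ) : ℂ) ^ w.length •
        (w.map Gate.mat).prod.mulVec (fun k => Chk_rho (v k)) := funext ih
    rw [List.foldr_cons, Chk_act, h, Matrix.mulVec_smul, Matrix.mulVec_mulVec, List.map_cons,
      List.prod_cons, List.length_cons, Pi.smul_apply, smul_eq_mul]
    ring

theorem chk_sound {w : List Gate} (h : chk w = true) : Triv w := by
  have h1 := of_decide_eq_true h
  have h0 : ((√2 : ℝ) : ℂ) ^ w.length ≠ 0 :=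
    pow_ne_zero _ (Complex.ofReal_ne_zero.2 (Real.sqrt_pos.2 two_pos).ne')
  ext i j
  have h2 := Chk_fold w (fun k => if k = j then 1 else 0) i
  have h3 : (fun k : Fin 6 => Chk_rho (if k = j then 1 else 0)) = Pi.single j 1 := by
    funext k
    rw [Pi.single_apply]
    split_ifs <;> simp
  rw [h1, h3, Matrix.mulVec_single_one] at h2
  refine mul_left_cancel₀ h0 (h2.symm.trans ?_)
  rw [Matrix.one_apply]
  split_ifs
  · rw [map_pow, Chk_rho_sqrtd, mul_one]
  · rw [map_zero, mul_zero]

theorem Gate.mat_mul_self (o : Gate) : o.mat * o.mat = 1 := by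
  have h : ∀ o : Gate, chk [o, o] = true := by decide +kernel
  simpa [Triv] using chk_sound (h o)

theorem Gate.dl_star (o : Gate) : star o.dl = o.dl := by
  ext i j
  rw [Matrix.star_apply]
  cases o with
  | Z a => simp [Gate.dl, Matrix.single_apply, and_comm, apply_ite]
  | H a b =>
    simp only [Gate.dl]
    split_ifs
    · simp
    · simp only [Matrix.add_apply, Matrix.single_apply, star_add, apply_ite star, star_zero,
        star_sub, star_neg, star_one, Complex.star_def, Complex.conj_ofReal,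
        and_comm (a := _ = j)]
      ring

theorem Gate.dl_supp (o : Gate) {a b : Fin 6} (h : a ∉ o.supp ∨ b ∉ o.supp) : o.dl a b = 0 := by
  cases o with
  | Z c =>
    simp only [Gate.supp, Finset.mem_singleton] at h
    refine Matrix.single_apply_of_ne _ _ _ _ _ fun e => ?_
    rcases h with h | h
    exacts [h e.1.symm, h e.2.symm]
  | H c d =>
    simp only [Gate.supp, Finset.mem_insert, Finset.mem_singleton, not_or] at h
    simp only [Gate.dl]
    split_ifs
    · rfl
    · rcases h with ⟨h1, h2⟩ | ⟨h1, h2⟩ <;>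
        simp [Ne.symm h1, Ne.symm h2]

theorem Gate.dl_relab (o : Gate) (σ : Equiv.Perm (Fin 6)) :
    (o.relab σ).dl = o.dl.submatrix σ.symm σ.symm := by
  ext i j
  cases o with
  | Z a => simp [Gate.relab, Gate.dl, Matrix.single_apply, Equiv.eq_symm_apply]
  | H a b =>
    simp only [Gate.relab, Gate.dl, σ.injective.eq_iff]
    split_ifs
    · rfl
    · simp [Matrix.single_apply, Equiv.eq_symm_apply]

theorem Gate.dl_mul_of_disjoint {o o' : Gate} (h : Disjoint o.supp o'.supp) : o.dl * o'.dl = 0 := by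
  ext i j
  rw [Matrix.mul_apply]
  refine Finset.sum_eq_zero fun k _ => ?_
  by_cases hk : k ∈ o.supp
  · rw [o'.dl_supp (Or.inl (Finset.disjoint_left.1 h hk)), mul_zero]
  · rw [o.dl_supp (Or.inr hk), zero_mul]

variable {P ι G : Type} [Group G] {orth : P → P → Prop} {ctx : ι → List P} {g : Gen P → G}

theorem GRel.frc (h : GRel orth ctx g) {p q : Option P} (hpq : orthO orth p q)
    (w : List (Gate × Fin 4)) (hw : chkF w = true) :
    ev (fun e => g (gg e.1 (frame p q e.2))) w = 1 := by
  simp only [chkF, Bool.and_eq_true, decide_eq_true_eq] at hw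
  refine h.fr p q hpq w hw.1.1.1 fun a => ?_
  fin_cases a
  exacts [chk_sound hw.1.1.2, chk_sound hw.1.2, chk_sound hw.2]

/-- Relations between the uncontrolled gates. -/
theorem GRel.totc (h : GRel orth ctx g) (w : List Gate) (hw : chk w = true)
    (hl : w.length ≤ 64) : ev (fun o => g (gg o tot)) w = 1 := by
  have := h.fr none none trivial (w.map fun o => (o, 3)) (by simpa using hl) fun a => by
    have : atom (w.map fun o => (o, (3 : Fin 4))) a = w := by
      simp [atom, List.filter_map, Function.comp_def]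
    rw [this]
    exact chk_sound hw
  rwa [ev_map] at this

end Pool.Agent.Work.MP_3b70de_al.E
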