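import Pool.Agent.Work.MP_3b70de_al.E.LcsC

/-! Two linear systems side by side, with commuting variables. -/

namespace Pool.Agent.Work.MP_3b70de_al.E

variable {m n m0 n0 : ℕ}

def ci1 (n0 : ℕ) (i : Fin n) : Fin (n + n0 + n * n0) := Fin.castAdd _ (Fin.castAdd _ i)
def ci2 (n : ℕ) (j : Fin n0) : Fin (n + n0 + n * n0) := Fin.castAdd _ (Fin.natAdd _ j)
def ci3 (k : Fin (n * n0)) : Fin (n + n0 + n * n0) := Fin.natAdd _ k

def cM (M : Matrix (Fin m) (Fin n) (ZMod 2)) (M0 : Matrix (Fin m0) (Fin n0) (ZMod 2)) :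
    Matrix (Fin (m + m0 + n * n0)) (Fin (n + n0 + n * n0)) (ZMod 2) :=
  Fin.append (Fin.append (fun k => Fin.append (Fin.append (M k) 0) 0)
    (fun k => Fin.append (Fin.append 0 (M0 k)) 0))
    fun k c => if c ∈ [ci1 n0 (finProdFinEquiv.symm k).1, ci2 n (finProdFinEquiv.symm k).2, ci3 k]
      then 1 else 0

def cb (n n0 : ℕ) (b : Fin m → ZMod 2) (b0 : Fin m0 → ZMod 2) : Fin (m + m0 + n * n0) → ZMod 2 :=
  Fin.append (Fin.append b b0) 0

theorem ci_ne (i : Fin n) (j : Fin n0) (k : Fin (n * n0)) :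
    ci1 n0 i ≠ ci2 n j ∧ ci1 n0 i ≠ ci3 k ∧ ci2 n j ≠ ci3 k := by
  have := i.2
  have := j.2
  refine ⟨fun h => ?_, fun h => ?_, fun h => ?_⟩ <;>
  · have := congrArg Fin.val h
    simp [ci1, ci2, ci3] at this
    omega

theorem ci_cases {P : Fin (n + n0 + n * n0) → Prop} (h1 : ∀ i, P (ci1 n0 i))
    (h2 : ∀ j, P (ci2 n j)) (h3 : ∀ k, P (ci3 k)) (c : Fin (n + n0 + n * n0)) : P c :=
  Fin.addCases (fun c => Fin.addCases h1 h2 c) h3 c

theorem add3_cases {a b c : ℕ} {P : Fin (a + b + c) → Prop}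
    (h1 : ∀ i, P (Fin.castAdd _ (Fin.castAdd _ i))) (h2 : ∀ j, P (Fin.castAdd _ (Fin.natAdd _ j)))
    (h3 : ∀ k, P (Fin.natAdd _ k)) (x : Fin (a + b + c)) : P x :=
  Fin.addCases (fun c => Fin.addCases h1 h2 c) h3 x

variable {B : Type} [Ring B]

theorem prod_row (z : Fin (n + n0 + n * n0) → B) (r1 : Fin n → ZMod 2) (r2 : Fin n0 → ZMod 2) :
    (List.ofFn fun c => z c ^ (Fin.append (Fin.append r1 r2) 0 c).val).prod =
      (List.ofFn fun i => z (ci1 n0 i) ^ (r1 i).val).prod *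
        (List.ofFn fun j => z (ci2 n j) ^ (r2 j).val).prod := by
  rw [List.ofFn_add, List.ofFn_add, List.prod_append, List.prod_append]
  change (List.ofFn fun i => z (ci1 n0 i) ^ (Fin.append (Fin.append r1 r2) 0 (ci1 n0 i)).val).prod *
    (List.ofFn fun j => z (ci2 n j) ^ (Fin.append (Fin.append r1 r2) 0 (ci2 n j)).val).prod *
    (List.ofFn fun k => z (ci3 k) ^ (Fin.append (Fin.append r1 r2) 0 (ci3 k)).val).prod = _
  simp [ci1, ci2, ci3]

variable [StarRing B] {M : Matrix (Fin m) (Fin n) (ZMod 2)} {M0 : Matrix (Fin m0) (Fin n0) (ZMod 2)}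
  {b : Fin m → ZMod 2} {b0 : Fin m0 → ZMod 2}

theorem comm_of_three {a b c : B} (ha : star a = a) (hb : star b = b) (hc : star c = c)
    (hcc : c * c = 1) (h : a * b * c = 1) : a * b = b * a := by
  have h1 : a * b = c := by rw [← mul_one (a * b), ← hcc, ← mul_assoc, h, one_mul]
  rw [h1, ← hc, ← h1, star_mul, ha, hb]

theorem combine_of {z : Fin (n + n0 + n * n0) → B} (hz : IsSol (cM M M0) (cb n n0 b b0) z) :
    IsSol M b (fun i => z (ci1 n0 i)) ∧ IsSol M0 b0 (fun j => z (ci2 n j)) ∧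
      ∀ i j, Commute (z (ci1 n0 i)) (z (ci2 n j)) := by
  obtain ⟨h1, h2, h3, h4⟩ := hz
  refine ⟨⟨fun i => h1 _, fun i => h2 _, fun k i j hi hj => ?_, fun k => ?_⟩,
    ⟨fun i => h1 _, fun i => h2 _, fun k i j hi hj => ?_, fun k => ?_⟩, fun i j => ?_⟩
  · exact h3 (Fin.castAdd _ (Fin.castAdd _ k)) _ _ (by simpa [cM, ci1] using hi)
      (by simpa [cM, ci1] using hj)
  · have := h4 (Fin.castAdd _ (Fin.castAdd _ k))
    simp only [cM, cb, Fin.append_left, prod_row] at this
    simpa using this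
  · exact h3 (Fin.castAdd _ (Fin.natAdd _ k)) _ _ (by simpa [cM, ci2] using hi)
      (by simpa [cM, ci2] using hj)
  · have := h4 (Fin.castAdd _ (Fin.natAdd _ k))
    simp only [cM, cb, Fin.append_left, Fin.append_right, prod_row] at this
    simpa using this
  · exact h3 (Fin.natAdd _ (finProdFinEquiv (i, j))) _ _
      (by simp only [cM, Fin.append_right, Equiv.symm_apply_apply]; simp)
      (by simp only [cM, Fin.append_right, Equiv.symm_apply_apply]; simp)

theorem combine_to {x : Fin n → B} {y : Fin n0 → B} (hx : IsSol M b x) (hy : IsSol M0 b0 y)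
    (hc : ∀ i j, Commute (x i) (y j)) :
    ∃ z, IsSol (cM M M0) (cb n n0 b b0) z ∧ (∀ i, z (ci1 n0 i) = x i) ∧ ∀ j, z (ci2 n j) = y j := by
  let z : Fin (n + n0 + n * n0) → B := Fin.append (Fin.append x y) fun k =>
    x (finProdFinEquiv.symm k).1 * y (finProdFinEquiv.symm k).2
  have z1 : ∀ i, z (ci1 n0 i) = x i := fun i => by simp [z, ci1]
  have z2 : ∀ j, z (ci2 n j) = y j := fun j => by simp [z, ci2]
  have z3 : ∀ k, z (ci3 k) = x (finProdFinEquiv.symm k).1 * y (finProdFinEquiv.symm k).2 :=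
    fun k => by simp only [z, ci3, Fin.append_right]
  have c13 : ∀ k, Commute (z (ci1 n0 (finProdFinEquiv.symm k).1)) (z (ci3 k)) := fun k => by
    rw [z1, z3]; exact (Commute.refl _).mul_right (hc _ _)
  have c23 : ∀ k, Commute (z (ci2 n (finProdFinEquiv.symm k).2)) (z (ci3 k)) := fun k => by
    rw [z2, z3]; exact (hc _ _).symm.mul_right (Commute.refl _)
  have c12 : ∀ i j, Commute (z (ci1 n0 i)) (z (ci2 n j)) := fun i j => by rw [z1, z2]; exact hc i j
  have hsq : ∀ i j, x i * y j * (x i * y j) = 1 := fun i j => by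
    rw [mul_assoc, ← mul_assoc (y j), ← (hc i j).eq, mul_assoc, hy.2.1, mul_one, hx.2.1]
  refine ⟨z, ⟨ci_cases (fun i => ?_) (fun j => ?_) fun k => ?_,
    ci_cases (fun i => ?_) (fun j => ?_) fun k => ?_, ?_, ?_⟩, z1, z2⟩
  · rw [z1, hx.1]
  · rw [z2, hy.1]
  · rw [z3, star_mul, hx.1, hy.1, (hc _ _).eq]
  · rw [z1, hx.2.1]
  · rw [z2, hy.2.1]
  · rw [z3, hsq]
  · refine add3_cases (fun k => ?_) (fun k => ?_) fun k => ?_
    · refine ci_cases (fun i => ci_cases (fun j hi hj => ?_) (fun j _ hj => ?_) fun j _ hj => ?_)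
        (fun i j hi => ?_) fun i j hi => ?_
      · rw [z1, z1]
        exact hx.2.2.1 k i j (by simpa [cM, ci1] using hi) (by simpa [cM, ci1] using hj)
      · simp [cM, ci2] at hj
      · simp [cM, ci3] at hj
      · simp [cM, ci2] at hi
      · simp [cM, ci3] at hi
    · refine ci_cases (fun i j hi => ?_)
        (fun i => ci_cases (fun j _ hj => ?_) (fun j hi hj => ?_) fun j _ hj => ?_) fun i j hi => ?_
      · simp [cM, ci1] at hi
      · simp [cM, ci1] at hj
      · rw [z2, z2]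
        exact hy.2.2.1 k i j (by simpa [cM, ci2] using hi) (by simpa [cM, ci2] using hj)
      · simp [cM, ci3] at hj
      · simp [cM, ci3] at hi
    · intro i j hi hj
      simp only [cM, Fin.append_right, ite_eq_left_iff, zero_ne_one, imp_false, not_not,
        List.mem_cons, List.not_mem_nil, or_false] at hi hj
      rcases hi with rfl | rfl | rfl <;> rcases hj with rfl | rfl | rfl
      exacts [rfl, c12 _ _, c13 k, (c12 _ _).symm, rfl, c23 k, (c13 k).symm, (c23 k).symm, rfl]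
  · refine add3_cases (fun k => ?_) (fun k => ?_) fun k => ?_
    · simp only [cM, cb, Fin.append_left, prod_row, z1]
      simpa using hx.2.2.2 k
    · simp only [cM, cb, Fin.append_left, Fin.append_right, prod_row, z2]
      simpa using hy.2.2.2 k
    · simp only [cM, cb, Fin.append_right]
      rw [LcsC_prod z (ci_ne _ _ _) (c12 _ _) (c13 k) (c23 k), z1, z2, z3, hsq]
      simp

end Pool.Agent.Work.MP_3b70de_al.E
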