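import Pool.Agent.Work.MP_3b70de_al.E.LcsDefs

/-! Conjugacy relations as linear relations (a gadget of Slofstra).

Plan. `V' = V ⊕ F × Fin 7`, `E' = E ⊕ F × Fin 6`; for `f` with `cj f = (i, j, k)` the triples
`(x i, y1, y2), (x j, y2, y3), (y3, y4, y5), (x i, y5, y6), (x k, y6, y7), (y1, y4, y7)`.
First part: `x i * x j * x i * x k = (y1 y2) (y2 y3) (y5 y6) (y6 y7) = y1 (y3 y5) y7 = y1 y4 y7 = 1`
(`comm_of_tri`). Second part, in `Wr Bool G` with `x v = inl (fun _ => x v)`: `y2 = inr (swap)`,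
`y1 = x i * y2`, `y3 = x j * y2`, `y6 = inl (fun b => if b then 1 else x j * x k)`, `y5 = x i * y6`,
`y7 = x k * y6`, `y4 = y3 * y5`. -/

namespace Pool.Agent.Work.MP_3b70de_al.E

section aux

variable {G : Type} [Group G]

theorem LcsB_eq {a b c : G} (ha : a * a = 1) (hb : b * b = 1) (hc : c * c = 1)
    (h : a * b * c = 1) : a = b * c ∧ b = a * c := by
  have k := (comm_of_tri ha hb hc h).1.eq
  refine ⟨?_, ?_⟩
  · rw [← one_mul (b * c), ← ha, mul_assoc, ← mul_assoc a b, h, mul_one]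
  · rw [← one_mul (a * c), ← hb, mul_assoc, ← mul_assoc b a, ← k, h, mul_one]

/-- The six triples of the gadget. -/
def LcsB_tri {V F : Type} (cj : F → V × V × V) (f : F) :
    Fin 6 → (V ⊕ F × Fin 7) × (V ⊕ F × Fin 7) × (V ⊕ F × Fin 7) :=
  ![(.inl (cj f).1, .inr (f, 0), .inr (f, 1)), (.inl (cj f).2.1, .inr (f, 1), .inr (f, 2)),
    (.inr (f, 2), .inr (f, 3), .inr (f, 4)), (.inl (cj f).1, .inr (f, 4), .inr (f, 5)),
    (.inl (cj f).2.2, .inr (f, 5), .inr (f, 6)), (.inr (f, 0), .inr (f, 3), .inr (f, 6))]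

/-- The values of the seven new variables. -/
def LcsB_y (a b c s t : G) : Fin 7 → G :=
  ![a * s, s, b * s, b * s * (a * t), a * t, t, c * t]

theorem LcsB_sq {a s : G} (ha : a * a = 1) (hs : s * s = 1) (h : Commute a s) :
    a * s * (a * s) = 1 := by
  rw [h.symm.mul_mul_mul_comm, ha, hs, mul_one]

theorem LcsB_sol {a b c s t : G} (ha : a * a = 1) (hb : b * b = 1) (hc : c * c = 1)
    (hs : s * s = 1) (ht : t * t = 1) (h : a * b * a = c) (bc : Commute b c) (as : Commute a s)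
    (bs : Commute b s) (ta : Commute a t) (tb : Commute b t) (tc : Commute c t)
    (st : s * t * (s * t) = b * c) :
    (∀ i, LcsB_y a b c s t i * LcsB_y a b c s t i = 1) ∧ a * (a * s) * s = 1 ∧
      b * s * (b * s) = 1 ∧ b * s * (b * s * (a * t)) * (a * t) = 1 ∧ a * (a * t) * t = 1 ∧
      c * t * (c * t) = 1 ∧ a * s * (b * s * (a * t)) * (c * t) = 1 := by
  have h1 := LcsB_sq ha hs as
  have h2 := LcsB_sq hb hs bs
  have h3 := LcsB_sq ha ht ta
  have h4 := LcsB_sq hc ht tc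
  have h5 : b * s * (a * t) * (b * s * (a * t)) = 1 := by
    rw [as.symm.mul_mul_mul_comm,
      ((bs.symm.mul_left tb.symm).mul_right (as.symm.mul_left ta.symm)).mul_mul_mul_comm, st,
      mul_assoc b a, ← mul_assoc a, h, LcsB_sq hb hc bc]
  refine ⟨fun i => ?_, by rw [← mul_assoc, ha, one_mul, hs], h2,
    by rw [← mul_assoc (b * s), h2, one_mul, h3], by rw [← mul_assoc, ha, one_mul, ht], h4, ?_⟩
  · fin_cases i
    exacts [h1, hs, h2, h5, h3, ht, h4]
  · rw [← mul_assoc (a * s), bs.symm.mul_mul_mul_comm, hs, mul_one, ← mul_assoc (a * b), h, h4]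

/-- The diagonal embedding. -/
def LcsB_d : G →* Wr Bool G :=
  SemidirectProduct.inl.comp (Pi.constMonoidHom Bool G)

/-- The embedding at one coordinate. -/
def LcsB_t (g : G) : Wr Bool G := SemidirectProduct.inl fun b => if b then 1 else g

/-- The swap. -/
def LcsB_s : Wr Bool G := SemidirectProduct.inr (Equiv.swap false true)

theorem LcsB_ss : (LcsB_s : Wr Bool G) * LcsB_s = 1 := by
  rw [LcsB_s, ← map_mul, Equiv.swap_mul_self, map_one]

theorem LcsB_ds (g : G) : Commute (LcsB_d g) LcsB_s := by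
  have h := SemidirectProduct.inl_aut (φ := mulAutArrow) (Equiv.swap false true) fun _ : Bool => g
  rw [map_inv] at h
  exact eq_mul_inv_iff_mul_eq.1 h

theorem LcsB_dt {g u : G} (h : Commute g u) : Commute (LcsB_d g) (LcsB_t u) := by
  refine Commute.map (f := SemidirectProduct.inl) (funext fun b => ?_)
  cases b
  · exact h.eq
  · simp

theorem LcsB_tt {u : G} (h : u * u = 1) : LcsB_t u * LcsB_t u = 1 := by
  rw [LcsB_t, ← map_mul, ← map_one SemidirectProduct.inl]
  exact congrArg _ (funext fun b => by cases b <;> simp [h])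

theorem LcsB_st (u : G) : LcsB_s * LcsB_t u * (LcsB_s * LcsB_t u) = LcsB_d u := by
  have h := SemidirectProduct.inl_aut (φ := mulAutArrow) (Equiv.swap false true)
    fun b : Bool => if b then 1 else u
  rw [Equiv.swap_inv] at h
  rw [← mul_assoc, LcsB_s, LcsB_t, ← h, ← map_mul]
  refine congrArg _ (funext fun b => ?_)
  cases b
  · exact one_mul u
  · exact mul_one u

end aux

theorem lcs_conj {V E F : Type} [Finite V] [Finite E] [Finite F] {tri : E → V × V × V}
    (hne : TriNe tri) (cj : F → V × V × V) :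
    ∃ (V' E' : Type) (_ : Finite V') (_ : Finite E') (tri' : E' → V' × V' × V') (ι : V → V'),
      TriNe tri' ∧
      (∀ (G : Type) [Group G] (y : V' → G), TriSol tri' y →
        TriSol tri (fun v => y (ι v)) ∧ ConjSol cj fun v => y (ι v)) ∧
      ∀ (G : Type) [Group G] (x : V → G), TriSol tri x → ConjSol cj x → ConjNice cj x →
        ∃ y : V' → Wr Bool G, TriSol tri' y ∧
          ∀ v, y (ι v) = SemidirectProduct.inl fun _ => x v := by
  refine ⟨V ⊕ F × Fin 7, E ⊕ F × Fin 6, inferInstance, inferInstance,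
    Sum.elim (fun k => (.inl (tri k).1, .inl (tri k).2.1, .inl (tri k).2.2))
      fun q => LcsB_tri cj q.1 q.2, .inl, ?_, fun G _ y h => ⟨⟨fun v => h.1 _, fun k => h.2 (.inl k)⟩,
      fun f => ?_⟩, fun G _ x h1 h2 h3 => ?_⟩
  · rintro (k | ⟨f, i⟩)
    · simpa using hne k
    · fin_cases i <;> simp [LcsB_tri]
  · have e := fun i => LcsB_eq (h.1 _) (h.1 _) (h.1 _) (h.2 (.inr (f, i)))
    have e0 : y (.inl (cj f).1) = y (.inr (f, 0)) * y (.inr (f, 1)) := (e 0).1
    have e1 : y (.inl (cj f).2.1) = y (.inr (f, 1)) * y (.inr (f, 2)) := (e 1).1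
    have e2 : y (.inr (f, 3)) = y (.inr (f, 2)) * y (.inr (f, 4)) := (e 2).2
    have e3 : y (.inl (cj f).1) = y (.inr (f, 4)) * y (.inr (f, 5)) := (e 3).1
    have e4 : y (.inl (cj f).2.2) = y (.inr (f, 5)) * y (.inr (f, 6)) := (e 4).1
    have e5 : y (.inr (f, 0)) * y (.inr (f, 3)) * y (.inr (f, 6)) = 1 := h.2 (.inr (f, 5))
    have c : ∀ v (z : G), y v * (y v * z) = z := fun v z => by rw [← mul_assoc, h.1, one_mul]
    refine (eq_inv_of_mul_eq_one_left ?_).trans (inv_eq_of_mul_eq_one_right (h.1 _))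
    beta_reduce
    rw [e1, e4]
    nth_rw 2 [e3]
    rw [e0, ← e5, e2]
    simp only [mul_assoc, c]
  · have sq : ∀ v, LcsB_d (x v) * LcsB_d (x v) = 1 := fun v => by rw [← map_mul, h1.1, map_one]
    have key := fun f => LcsB_sol (sq (cj f).1) (sq (cj f).2.1) (sq (cj f).2.2) LcsB_ss
      (LcsB_tt (LcsB_sq (h1.1 _) (h1.1 _) (h3 f))) (by rw [← map_mul, ← map_mul, h2 f])
      ((h3 f).map _) (LcsB_ds _) (LcsB_ds _) (LcsB_dt (by
        have k := h2 f
        change _ * _ = _ * _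
        nth_rw 2 [(h3 f).eq]
        rw [← k]
        simp only [mul_assoc]))
      (LcsB_dt ((Commute.refl _).mul_right (h3 f)))
      (LcsB_dt ((h3 f).symm.mul_right (Commute.refl _))) (by rw [LcsB_st, map_mul])
    refine ⟨Sum.elim (fun v => LcsB_d (x v)) fun q => LcsB_y (LcsB_d (x (cj q.1).1))
      (LcsB_d (x (cj q.1).2.1)) (LcsB_d (x (cj q.1).2.2)) LcsB_s
      (LcsB_t (x (cj q.1).2.1 * x (cj q.1).2.2)) q.2, ⟨?_, ?_⟩, fun v => rfl⟩
    · rintro (v | ⟨f, i⟩)
      exacts [sq v, (key f).1 i]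
    · rintro (k | ⟨f, i⟩)
      · simpa only [map_mul, map_one, Sum.elim_inl] using congrArg LcsB_d (h1.2 k)
      · obtain ⟨-, k0, k1, k2, k3, k4, k5⟩ := key f
        fin_cases i
        exacts [k0, k1, k2, k3, k4, k5]

end Pool.Agent.Work.MP_3b70de_al.E
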