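import Pool.Agent.Work.MP_3b70de_al.E.LcsDefs
import Pool.Agent.Work.MP_3b70de_al.Defs2

/-! Triples as a matrix over `ZMod 2`.

Plan. `e = Finite.equivFin V`, `e' = Finite.equivFin E`, `M k i = 1` if `e.symm i` is one of the
three variables of `tri (e'.symm k)`, else `0`. Lemma: for pairwise commuting `y a, y b, y c` with
`a, b, c` distinct, `(List.ofFn fun i => y i ^ (M k i).val).prod = y a * y b * y c`
(drop the factors `1`: the product is over `(List.finRange n).filter`, a permutation of `[a, b, c]`,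
`List.Perm.prod_eq'`). -/

namespace Pool.Agent.Work.MP_3b70de_al.E

theorem LcsC_filter {α B : Type} [Monoid B] (y : α → B) (p : α → Prop) [DecidablePred p]
    (l : List α) : (l.map fun i => y i ^ (if p i then 1 else 0 : ZMod 2).val).prod =
      ((l.filter p).map y).prod := by
  induction l with
  | nil => rfl
  | cons a l ih =>
    rw [List.map_cons, List.prod_cons, ih]
    by_cases h : p a <;> simp [h, ZMod.val_one]

theorem LcsC_prod {n : ℕ} {B : Type} [Monoid B] (y : Fin n → B) {a b c : Fin n}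
    (h : a ≠ b ∧ a ≠ c ∧ b ≠ c) (hab : Commute (y a) (y b)) (hac : Commute (y a) (y c))
    (hbc : Commute (y b) (y c)) :
    (List.ofFn fun i => y i ^ (if i ∈ [a, b, c] then 1 else 0 : ZMod 2).val).prod =
      y a * y b * y c := by
  have hp : [a, b, c].Perm ((List.finRange n).filter fun i => i ∈ [a, b, c]) :=
    (List.perm_ext_iff_of_nodup (by simp [h]) ((List.nodup_finRange n).filter _)).2 (by simp)
  rw [List.ofFn_eq_map, LcsC_filter, ← (hp.map y).prod_eq' (by simp [*])]
  simp [mul_assoc]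

theorem lcs_matrix {V E : Type} [Finite V] [Finite E] {tri : E → V × V × V} (hne : TriNe tri) :
    ∃ (m n : ℕ) (M : Matrix (Fin m) (Fin n) (ZMod 2)) (e : V ≃ Fin n),
      ∀ (B : Type) [Ring B] [StarRing B],
        (∀ y : Fin n → B, IsSol M 0 y →
          ∃ z : V → unitary B, (∀ v, (z v : B) = y (e v)) ∧ TriSol tri z) ∧
        ∀ z : V → unitary B, TriSol tri z → IsSol M 0 fun i => (z (e.symm i) : B) := by
  obtain ⟨n, ⟨e⟩⟩ := Finite.exists_equiv_fin V
  obtain ⟨m, ⟨e'⟩⟩ := Finite.exists_equiv_fin E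
  have hn : ∀ k, e (tri k).1 ≠ e (tri k).2.1 ∧ e (tri k).1 ≠ e (tri k).2.2 ∧
    e (tri k).2.1 ≠ e (tri k).2.2 := fun k => by simpa using hne k
  refine ⟨m, n, fun k i => if i ∈ [e (tri (e'.symm k)).1, e (tri (e'.symm k)).2.1,
    e (tri (e'.symm k)).2.2] then 1 else 0, e, fun B _ _ => ⟨fun y ⟨h1, h2, h3, h4⟩ => ?_, ?_⟩⟩
  · refine ⟨fun v => ⟨y (e v), by rw [h1, h2], by rw [h1, h2]⟩, fun _ => rfl,
      fun v => Subtype.ext (h2 _), fun k => Subtype.ext ?_⟩
    obtain ⟨k, rfl⟩ := e'.symm.surjective k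
    exact (LcsC_prod y (hn _) (h3 k _ _ (by simp) (by simp)) (h3 k _ _ (by simp) (by simp))
      (h3 k _ _ (by simp) (by simp))).symm.trans ((h4 k).trans (pow_zero _))
  · intro z ⟨h1, h2⟩
    have h3 : ∀ v, (z v : B) * z v = 1 := fun v => congrArg Subtype.val (h1 v)
    have h4 : ∀ {u v}, Commute (z u) (z v) →
      Commute (z (e.symm (e u)) : B) (z (e.symm (e v))) := fun h => by
        simp only [e.symm_apply_apply]
        exact h.map (unitary B).subtype
    refine ⟨fun i => ?_, fun i => h3 _, fun k i j hi hj => ?_, fun k => ?_⟩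
    · exact left_inv_eq_right_inv (z _).2.1 (h3 _)
    all_goals obtain ⟨a, b, c⟩ := comm_of_tri (h1 _) (h1 _) (h1 _) (h2 (e'.symm k))
    · simp only [ite_eq_left_iff, zero_ne_one, imp_false, not_not, List.mem_cons,
        List.not_mem_nil, or_false] at hi hj
      rcases hi with rfl | rfl | rfl <;> rcases hj with rfl | rfl | rfl
      exacts [rfl, h4 a, h4 b, h4 a.symm, rfl, h4 c, h4 b.symm, h4 c.symm, rfl]
    · refine (LcsC_prod _ (hn _) (h4 a) (h4 b) (h4 c)).trans ?_
      simp only [e.symm_apply_apply]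
      exact (congrArg Subtype.val (h2 (e'.symm k))).trans (pow_zero _).symm

end Pool.Agent.Work.MP_3b70de_al.E
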