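import Pool.Agent.Work.MP_3b70de_al.E.LcsA
import Pool.Agent.Work.MP_3b70de_al.E.LcsB
import Pool.Agent.Work.MP_3b70de_al.E.LcsC

/-! A finite presentation by involutions inside a homogeneous linear system, with extension of
representations.

Plan. Compose `lcs_pres`, `lcs_conj`, `lcs_matrix`. For the extension apply `lcs_pres` to
`G = UH H`, `lcs_conj` to `Wr (Fin 3 × ℕ) (UH H)`, and map to `UH (L2 Bool (L2 (Fin 3 × ℕ) H))`:
either use `exists_wrRep` twice (map the solution of the first step by `ρ`, apply `lcs_conj` with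
`G = UH (L2 (Fin 3 × ℕ) H)`, map by `ρ'`); `V` is the composite of two `exists_single`. -/

namespace Pool.Agent.Work.MP_3b70de_al.E

theorem Lcs_single {Ω W : Type} [NormedAddCommGroup W] [InnerProductSpace ℂ W] [CompleteSpace W]
    (ω₀ : Ω) : ∃ (ρ : Wr Ω (UH W) →* UH (L2 Ω W)) (J : W →ₗᵢ[ℂ] L2 Ω W),
      ∀ m : Wr Ω (UH W), m.right = 1 → ∀ ξ, ρ m • J ξ = J (m.left ω₀ • ξ) := by
  obtain ⟨ρ, hρ⟩ := exists_wrRep (Ω := Ω) (W := W)
  obtain ⟨J, h1, h2⟩ := exists_single (W := W) ω₀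
  refine ⟨ρ, J, fun m hm ξ => lp.ext (funext fun ω => ?_)⟩
  rw [hρ, hm, ← Equiv.Perm.inv_def, inv_one, Equiv.Perm.one_apply]
  by_cases h : ω = ω₀
  · rw [h, h1, h1]
  · rw [h2 _ _ h, h2 _ _ h, smul_zero]

theorem lcs {S : Type} [Finite S] {𝓡 : Set (List S)} (h𝓡 : 𝓡.Finite) :
    ∃ (m n : ℕ) (M : Matrix (Fin m) (Fin n) (ZMod 2)) (ι : S → Fin n),
      (∀ (C : Type) [CStarAlgebra C] (y : Fin n → C), IsSol M 0 y →
        ∃ g : S → unitary C, (∀ s, (g s : C) = y (ι s)) ∧ (∀ s, g s * g s = 1) ∧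
          ∀ w ∈ 𝓡, ev g w = 1) ∧
      ∀ (H : Type) [NormedAddCommGroup H] [InnerProductSpace ℂ H] [CompleteSpace H]
        (g : S → UH H), (∀ s, g s * g s = 1) → (∀ w ∈ 𝓡, ev g w = 1) →
        ∃ (K : Type) (_ : NormedAddCommGroup K) (_ : InnerProductSpace ℂ K) (_ : CompleteSpace K)
          (y : Fin n → K →L[ℂ] K) (V : H →ₗᵢ[ℂ] K), IsSol M 0 y ∧
          ∀ s ξ, y (ι s) (V ξ) = V (g s • ξ) := by
  obtain ⟨V, E, F, _, _, _, tri, cj, ι, hne, hA1, hA2⟩ := lcs_pres h𝓡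
  obtain ⟨V', E', _, _, tri', ι', hne', hB1, hB2⟩ := lcs_conj hne cj
  obtain ⟨m, n, M, e, hC⟩ := lcs_matrix hne'
  refine ⟨m, n, M, fun s => e (ι' (ι s)), fun C _ y hy => ?_, fun H _ _ _ g hg hR => ?_⟩
  · obtain ⟨z, hz, hT⟩ := (hC C).1 y hy
    obtain ⟨h1, h2⟩ := hB1 _ z hT
    exact ⟨fun s => z (ι' (ι s)), fun s => hz _, fun s => hT.1 _, hA1 _ _ h1 h2⟩
  · obtain ⟨x, h1, h2, h3, h4⟩ := hA2 _ g hg hR
    obtain ⟨ρ, J, hJ⟩ := Lcs_single (W := H) ((0, 0) : Fin 3 × ℕ)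
    obtain ⟨z, hT, hz⟩ := hB2 _ (fun v => ρ (x v)) (h1.map ρ)
      (fun f => by rw [← map_mul, ← map_mul, h2 f]) fun f => (h3 f).map ρ
    obtain ⟨ρ', J', hJ'⟩ := Lcs_single (W := L2 (Fin 3 × ℕ) H) true
    refine ⟨L2 Bool (L2 (Fin 3 × ℕ) H), inferInstance, inferInstance, inferInstance, _,
      J'.comp J, (hC _).2 _ (hT.map ρ'), fun s ξ => ?_⟩
    rw [e.symm_apply_apply, ← usmul_def, LinearIsometry.coe_comp, Function.comp_apply,
      Function.comp_apply, hz, hJ' _ rfl, SemidirectProduct.left_inl, hJ _ (h4 s).1, (h4 s).2]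

end Pool.Agent.Work.MP_3b70de_al.E
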