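import Pool.Agent.Work.MP_3b70de_al.E.Chk
import Mathlib.LinearAlgebra.Matrix.ConjTranspose

/-! Controlled gates as matrices over a *-algebra.

Plan. `ctl A E * ctl A' E' = ctl (A * A') (E * E')`, `ctl 1 1 = 1`, `ctl` is additive in both
variables. `gm_frame`: with atoms `e 0, e 1, e 2` (orthogonal projections, sum `1`) prove by induction
on `w` that the product is `∑ a, ctl ((atom w a).map mat).prod (e a)`. `gm_ctx`: induction on the
list: the product is `1 + ctl (Z 0).dl (l.map E).sum` because `E p * E q = 0`. -/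

namespace Pool.Agent.Work.MP_3b70de_al.E

open Gate

variable {B : Type} [CStarAlgebra B]

/-- `A ⊗ E`. -/
def ctl (A : Matrix (Fin 6) (Fin 6) ℂ) (E : B) : Matrix (Fin 6) (Fin 6) B := A.map fun z => z • E

/-- The gate `o` controlled by `E`. -/
noncomputable def gm (o : Gate) (E : B) : Matrix (Fin 6) (Fin 6) B := 1 + ctl o.dl E

open Classical in
/-- The projection attached to a controller. -/
noncomputable def ctlE {P : Type} (orth : P → P → Prop) (E : P → B) : Ctl P → B
  | Sum.inl p => p.elim 0 E
  | Sum.inr (p, q) => if orthO orth p q then 1 - p.elim 0 E - q.elim 0 E else 0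

theorem ctl_mul (A A' : Matrix (Fin 6) (Fin 6) ℂ) (E E' : B) :
    ctl A E * ctl A' E' = ctl (A * A') (E * E') := by
  ext i j
  simp only [ctl, Matrix.mul_apply, Matrix.map_apply, Finset.sum_smul, smul_mul_smul_comm]

theorem GateMat_one : ctl (1 : Matrix (Fin 6) (Fin 6) ℂ) (1 : B) = 1 := by
  ext i j
  simp only [ctl, Matrix.map_apply, Matrix.one_apply]
  split_ifs <;> simp

theorem GateMat_add_left (A A' : Matrix (Fin 6) (Fin 6) ℂ) (E : B) :
    ctl (A + A') E = ctl A E + ctl A' E := by
  ext i j
  simp [ctl, add_smul]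

theorem GateMat_add_right (A : Matrix (Fin 6) (Fin 6) ℂ) (E E' : B) :
    ctl A (E + E') = ctl A E + ctl A E' := by
  ext i j
  simp [ctl, smul_add]

theorem GateMat_zero_left (E : B) : ctl (0 : Matrix (Fin 6) (Fin 6) ℂ) E = 0 := by
  ext i j
  simp [ctl]

theorem GateMat_zero_right (A : Matrix (Fin 6) (Fin 6) ℂ) : ctl A (0 : B) = 0 := by
  ext i j
  simp [ctl]

theorem GateMat_pos (o : Gate) (M : Matrix (Fin 6) (Fin 6) ℂ) {F e : B} (h : F * e = e) :
    gm o F * ctl M e = ctl (o.mat * M) e := by
  rw [gm, add_mul, one_mul, ctl_mul, h, Gate.mat, add_mul, one_mul, GateMat_add_left]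

theorem GateMat_neg (o : Gate) (M : Matrix (Fin 6) (Fin 6) ℂ) {F e : B} (h : F * e = 0) :
    gm o F * ctl M e = ctl M e := by
  rw [gm, add_mul, one_mul, ctl_mul, h, GateMat_zero_right, add_zero]

theorem gm_sq (o : Gate) {E : B} (hE : IsStarProjection E) : gm o E * gm o E = 1 := by
  have h1 : o.dl + (o.dl + o.dl * o.dl) = 0 := by
    have := o.mat_mul_self
    rw [Gate.mat, add_mul, one_mul, mul_add, mul_one, add_assoc] at this
    simpa using this
  rw [gm, add_mul, one_mul, mul_add, mul_one, ctl_mul, hE.isIdempotentElem.eq, add_assoc,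
    ← GateMat_add_left, ← GateMat_add_left, h1, GateMat_zero_left, add_zero]

theorem gm_star (o : Gate) {E : B} (hE : IsStarProjection E) : star (gm o E) = gm o E := by
  rw [gm, star_add, star_one]
  congr 1
  ext i j
  have := congrFun (congrFun o.dl_star i) j
  rw [Matrix.star_apply] at this ⊢
  simp only [ctl, Matrix.map_apply, star_smul, this, hE.isSelfAdjoint.star_eq]

theorem gm_dis {o o' : Gate} (h : Disjoint o.supp o'.supp) (E E' : B) :
    Commute (gm o E) (gm o' E') := by
  have h1 : ctl o.dl E * ctl o'.dl E' = 0 := by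
    rw [ctl_mul, Gate.dl_mul_of_disjoint h, GateMat_zero_left]
  have h2 : ctl o'.dl E' * ctl o.dl E = 0 := by
    rw [ctl_mul, Gate.dl_mul_of_disjoint h.symm, GateMat_zero_left]
  have h3 : Commute (ctl o.dl E) (ctl o'.dl E') := h1.trans h2.symm
  exact (Commute.one_left _).add_left ((Commute.one_right _).add_right h3)

variable {P : Type} {orth : P → P → Prop} {E : P → B}

theorem ctlE_tot : ctlE orth E tot = 1 := by
  simp [ctlE, tot, orthO]

theorem GateMat_elim (hE : ∀ p, IsStarProjection (E p)) (p : Option P) :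
    IsStarProjection (p.elim 0 E) := by
  cases p
  · exact IsStarProjection.zero B
  · exact hE _

theorem GateMat_orth (ho : ∀ p q, orth p q → E p * E q = 0) {p q : Option P}
    (h : orthO orth p q) : p.elim 0 E * q.elim 0 E = 0 := by
  cases p
  · simp
  · cases q
    · simp
    · exact ho _ _ h

theorem GateMat_swap {a b : B} (ha : IsStarProjection a) (hb : IsStarProjection b)
    (h : a * b = 0) : b * a = 0 := by
  have := congrArg star h
  rwa [star_mul, star_zero, ha.isSelfAdjoint.star_eq, hb.isSelfAdjoint.star_eq] at this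

theorem ctlE_proj (hE : ∀ p, IsStarProjection (E p)) (ho : ∀ p q, orth p q → E p * E q = 0)
    (c : Ctl P) : IsStarProjection (ctlE orth E c) := by
  rcases c with p | ⟨p, q⟩
  · exact GateMat_elim hE p
  · simp only [ctlE]
    split_ifs with h
    · rw [sub_sub]
      exact ((GateMat_elim hE p).add (GateMat_elim hE q) (GateMat_orth ho h)).one_sub
    · exact IsStarProjection.zero B

theorem gm_frame (hE : ∀ p, IsStarProjection (E p)) (ho : ∀ p q, orth p q → E p * E q = 0)
    {p q : Option P} (hpq : orthO orth p q) (w : List (Gate × Fin 4)) (hw : ∀ a, Triv (atom w a)) :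
    (w.map fun e => gm e.1 (ctlE orth E (frame p q e.2))).prod = 1 := by
  obtain ⟨a, ha⟩ : ∃ a, a = p.elim 0 E := ⟨_, rfl⟩
  obtain ⟨b, hb⟩ : ∃ b, b = q.elim 0 E := ⟨_, rfl⟩
  have pa : IsStarProjection a := ha ▸ GateMat_elim hE p
  have pb : IsStarProjection b := hb ▸ GateMat_elim hE q
  have aa : a * a = a := pa.isIdempotentElem.eq
  have bb : b * b = b := pb.isIdempotentElem.eq
  have ab : a * b = 0 := by rw [ha, hb]; exact GateMat_orth ho hpq
  have ba : b * a = 0 := GateMat_swap pa pb ab
  let e : Fin 3 → B := ![a, b, 1 - a - b]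
  have hf : ∀ k, ctlE orth E (frame p q k) = ![a, b, 1 - a - b, 1] k := by
    intro k
    fin_cases k
    · exact ha.symm
    · exact hb.symm
    · show ctlE orth E (Sum.inr (p, q)) = 1 - a - b
      simp only [ctlE, if_pos hpq, ha, hb]
    · exact ctlE_tot
  have hm : ∀ (k : Fin 4) (c : Fin 3), ctlE orth E (frame p q k) * e c =
      if k = c.castSucc ∨ k = 3 then e c else 0 := by
    intro k c
    rw [hf]
    fin_cases k <;> fin_cases c <;> simp [e, mul_sub, sub_mul, aa, bb, ab, ba]
  have h1 : ∑ c, ctl (1 : Matrix (Fin 6) (Fin 6) ℂ) (e c) = 1 := by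
    have h2 : e 0 + e 1 + e 2 = 1 := by simp [e]
    rw [Fin.sum_univ_three, ← GateMat_add_right, ← GateMat_add_right, h2, GateMat_one]
  have key : ∀ w : List (Gate × Fin 4),
      (w.map fun x => gm x.1 (ctlE orth E (frame p q x.2))).prod =
        ∑ c, ctl ((atom w c).map Gate.mat).prod (e c) := by
    intro w
    induction w with
    | nil => simpa [atom] using h1.symm
    | cons x w ih =>
      rw [List.map_cons, List.prod_cons, ih, Finset.mul_sum]
      refine Finset.sum_congr rfl fun c _ => ?_
      have := hm x.2 c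
      by_cases hc : x.2 = c.castSucc ∨ x.2 = 3
      · rw [if_pos hc] at this
        rw [GateMat_pos _ _ this]
        simp [atom, hc]
      · rw [if_neg hc] at this
        rw [GateMat_neg _ _ this]
        have e1 : atom (x :: w) c = atom w c := by
          unfold atom
          rw [List.filter_cons_of_neg (by simpa using hc)]
        rw [e1]
  rw [key, ← h1]
  refine Finset.sum_congr rfl fun c _ => ?_
  have := hw c
  unfold Triv at this
  rw [this]

theorem gm_ctx (ho : ∀ p q, orth p q → E p * E q = 0) {l : List P} (hl : l.Pairwise orth)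
    (hs : (l.map E).sum = 1) : (l.map fun p => gm (Z 0) (E p)).prod = gm (Z 0) 1 := by
  have key : ∀ l : List P, l.Pairwise orth →
      (l.map fun p => gm (Z 0) (E p)).prod = gm (Z 0) (l.map E).sum := by
    intro l hl
    induction l with
    | nil => simp [gm, GateMat_zero_right]
    | cons p l ih =>
      rw [List.pairwise_cons] at hl
      have h0 : E p * (l.map E).sum = 0 := by
        rw [← List.sum_map_mul_left]
        refine List.sum_eq_zero fun x hx => ?_
        obtain ⟨r, hr, rfl⟩ := List.mem_map.1 hx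
        exact ho _ _ (hl.1 r hr)
      rw [List.map_cons, List.prod_cons, ih hl.2, List.map_cons, List.sum_cons]
      simp only [gm]
      rw [add_mul, one_mul, mul_add, mul_one, ctl_mul, h0, GateMat_zero_right, add_zero,
        GateMat_add_right]
      abel
  rw [key l hl, hs]

end Pool.Agent.Work.MP_3b70de_al.E
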