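import Pool.Agent.Work.MP_3b70de_al.E.StDefs
import Mathlib.Data.Finsupp.Basic
import Mathlib.LinearAlgebra.Finsupp.Defs

/-! A permutation model of the Steinberg relations.

Plan. `V = ℕ →₀ K8`, `R = Module.End K8 V`, `evL : Lt → R`: `lk a ↦ a • 1`,
`ls b ↦ Finsupp.lmapDomain _ _ (fun n => 2 * n + b.toNat)`, `lt b ↦ Finsupp.lcomapDomain` of the same
injective map. `M = Fin 5 → V`; for `i ≠ j` and `r : R` the map `v ↦ v + Pi.single i (r (v j))` is an
involution of `M` (characteristic two; `Function.Involutive.toPerm`), `XM i j r`; it satisfies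
`IsSt`. For `i = j` put `1`. `Ω = ℕ ⊕ M`, `x i j a = Equiv.sumCongr (refl ℕ) (XM i j (evL a))`
(`Equiv.Perm.sumCongrHom`), `site (0, y) = inl y`, `site (i.succ, y) = inr (Pi.single i (single y 1))`
(`Fin.cases`). On basis vectors, for `t s = 1`: `ws i j s t` sends `(j, y)` to `(i, s y)`, `(i, s y)` to
`(j, y)`, fixes `(i, y)` if `t (single y 1) = 0`, and fixes `(k, y)` for `k ∉ {i, j}`. -/

namespace Pool.Agent.Work.MP_3b70de_al.E

open scoped commutatorElement

/-- The module on which the letters act. -/
abbrev StModel_V : Type := ℕ →₀ K8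

/-- The ring of the model. -/
abbrev StModel_R : Type := Module.End K8 StModel_V

theorem StModel_inj (b : Bool) : Function.Injective fun n : ℕ => 2 * n + b.toNat :=
  fun _ _ h => by simpa using h

/-- The value of a letter. -/
noncomputable def StModel_ev : Lt → StModel_R
  | Sum.inl a => a • 1
  | Sum.inr (false, b) => Finsupp.lmapDomain _ _ fun n => 2 * n + b.toNat
  | Sum.inr (true, b) => Finsupp.lcomapDomain (fun n => 2 * n + b.toNat) (StModel_inj b)

theorem StModel_k (a : K8) : StModel_ev (lk a) = a • 1 := rfl

theorem StModel_one : StModel_ev (lk 1) = 1 := one_smul _ _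

theorem StModel_s (b : Bool) (n : ℕ) (c : K8) :
    StModel_ev (ls b) (Finsupp.single n c) = Finsupp.single (2 * n + b.toNat) c :=
  Finsupp.mapDomain_single

theorem StModel_t (a b : Bool) (n : ℕ) (c : K8) :
    StModel_ev (lt a) (Finsupp.single (2 * n + b.toNat) c) =
      if a = b then Finsupp.single n c else 0 := by
  ext m
  change Finsupp.single (2 * n + b.toNat) c (2 * m + a.toNat) = _
  cases a <;> cases b <;> simp [Finsupp.single_apply] <;> omega

theorem StModel_ts (a b : Bool) :
    StModel_ev (lt a) * StModel_ev (ls b) = StModel_ev (lk (if a = b then 1 else 0)) := by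
  refine Finsupp.lhom_ext fun n c => ?_
  rw [Module.End.mul_apply, StModel_s, StModel_t, StModel_k]
  split_ifs <;> simp

theorem StModel_two (u : StModel_V) : u + u = 0 := by
  ext n
  exact K8_add_self _

/-- Elementary transformations. -/
noncomputable def StModel_X (i j : Fin 5) (r : StModel_R) : Equiv.Perm (Fin 5 → StModel_V) :=
  if h : i = j then 1 else
    { toFun := fun v => v + Pi.single i (r (v j))
      invFun := fun v => v - Pi.single i (r (v j))
      left_inv := fun v => by simp [Pi.single_eq_of_ne' h]
      right_inv := fun v => by simp [Pi.single_eq_of_ne' h] }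

theorem StModel_X_apply {i j : Fin 5} (h : i ≠ j) (r : StModel_R) (v : Fin 5 → StModel_V) :
    StModel_X i j r v = v + Pi.single i (r (v j)) := by
  rw [StModel_X, dif_neg h]
  rfl

theorem StModel_X_inv {i j : Fin 5} (h : i ≠ j) (r : StModel_R) (v : Fin 5 → StModel_V) :
    (StModel_X i j r)⁻¹ v = v - Pi.single i (r (v j)) := by
  rw [StModel_X, dif_neg h]
  rfl

theorem StModel_isSt : IsSt StModel_X where
  add i j r s h := by
    ext1 v
    simp only [Equiv.Perm.mul_apply, StModel_X_apply h, Pi.add_apply, Pi.single_eq_of_ne' h,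
      add_zero, LinearMap.add_apply, Pi.single_add]
    abel
  comm i j k l r s h1 h2 h3 h4 := by
    ext1 v
    simp only [Equiv.Perm.mul_apply, StModel_X_apply h1, StModel_X_apply h2, Pi.add_apply,
      Pi.single_eq_of_ne h3, Pi.single_eq_of_ne' h4, add_zero]
    abel
  st i j k r s h1 h2 h3 := by
    ext1 v
    simp only [commutatorElement_def, Equiv.Perm.mul_apply, StModel_X_apply h1, StModel_X_apply h2,
      StModel_X_apply h3, StModel_X_inv h1, StModel_X_inv h2, Pi.add_apply, Pi.sub_apply,
      Pi.single_eq_of_ne' h1, Pi.single_eq_of_ne' h2, Pi.single_eq_of_ne' h3, Pi.single_eq_same,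
      sub_zero, map_sub, Pi.single_sub, Module.End.mul_apply, sub_add_cancel]
    abel

theorem StModel_rel : StRel fun i j a => StModel_X i j (StModel_ev a) where
  sq i j a := by
    by_cases h : i = j
    · simp [StModel_X, h]
    · rw [← StModel_isSt.add i j _ _ h, ← StModel_isSt.zero h]
      congr 1
      exact LinearMap.ext fun u => StModel_two _
  comm i j k l a b := StModel_isSt.comm i j k l _ _
  one_l i j k a h1 h2 h3 := by rw [StModel_isSt.st i j k _ _ h1 h2 h3, StModel_one, one_mul]
  one_r i j k a h1 h2 h3 := by rw [StModel_isSt.st i j k _ _ h1 h2 h3, StModel_one, mul_one]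
  add i j a b h := by rw [← StModel_isSt.add i j _ _ h, StModel_k, StModel_k, StModel_k, add_smul]
  mul i j k a b h1 h2 h3 := by
    rw [StModel_isSt.st i j k _ _ h1 h2 h3, StModel_k, StModel_k, StModel_k, smul_mul_smul_comm,
      mul_one]
  cen i j k a b h1 h2 h3 := by
    rw [StModel_isSt.st i j k _ _ h1 h2 h3, StModel_isSt.st i j k _ _ h1 h2 h3, StModel_k,
      smul_mul_assoc, mul_smul_comm, one_mul, mul_one]
  ts i j k a b h1 h2 h3 := by rw [StModel_isSt.st i j k _ _ h1 h2 h3, StModel_ts]

theorem StModel_fix (i : Fin 5) {j k : Fin 5} (h : k ≠ j) (r : StModel_R) (u : StModel_V) :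
    StModel_X i j r (Pi.single k u) = Pi.single k u := by
  by_cases hij : i = j
  · simp [StModel_X, hij]
  · rw [StModel_X_apply hij, Pi.single_eq_of_ne' h]
    simp

/-- The generators. -/
noncomputable def StModel_x (i j : Fin 5) (a : Lt) : Equiv.Perm (ℕ ⊕ (Fin 5 → StModel_V)) :=
  Equiv.Perm.sumCongrHom _ _ (1, StModel_X i j (StModel_ev a))

theorem StModel_x_inl (i j : Fin 5) (a : Lt) (y : ℕ) :
    StModel_x i j a (Sum.inl y) = Sum.inl y := rfl

theorem StModel_x_inr (i j : Fin 5) (a : Lt) (v : Fin 5 → StModel_V) :
    StModel_x i j a (Sum.inr v) = Sum.inr (StModel_X i j (StModel_ev a) v) := rfl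

theorem StModel_ws_fix {i j k : Fin 5} (h1 : k ≠ i) (h2 : k ≠ j) (a b : Lt) (u : StModel_V) :
    ws StModel_x i j a b (Sum.inr (Pi.single k u)) = Sum.inr (Pi.single k u) := by
  simp only [ws, Equiv.Perm.mul_apply, StModel_x_inr, StModel_fix _ h1, StModel_fix _ h2]

theorem StModel_ws_left {i j : Fin 5} (h : i ≠ j) (a b : Lt) (u : StModel_V) :
    ws StModel_x i j a b (Sum.inr (Pi.single i u)) =
      Sum.inr (Pi.single i (u + StModel_ev a (StModel_ev b u)) + Pi.single j (StModel_ev b u)) := by
  simp only [ws, Equiv.Perm.mul_apply, StModel_x_inr, StModel_fix _ h]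
  simp only [StModel_X_apply h, StModel_X_apply h.symm, Pi.single_eq_same, Pi.add_apply,
    Pi.single_eq_of_ne' h, zero_add, Pi.single_add]
  congr 1
  abel

theorem StModel_ws_left0 {i j : Fin 5} (h : i ≠ j) (a b : Lt) {u : StModel_V}
    (hu : StModel_ev b u = 0) :
    ws StModel_x i j a b (Sum.inr (Pi.single i u)) = Sum.inr (Pi.single i u) := by
  rw [StModel_ws_left h, hu]
  simp

theorem StModel_ws_left1 {i j : Fin 5} (h : i ≠ j) (a b : Lt) {u w : StModel_V}
    (hu : StModel_ev b u = w) (hw : StModel_ev a w = u) :
    ws StModel_x i j a b (Sum.inr (Pi.single i u)) = Sum.inr (Pi.single j w) := by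
  rw [StModel_ws_left h, hu, hw, StModel_two]
  simp

theorem StModel_ws_right {i j : Fin 5} (h : i ≠ j) (u : StModel_V) :
    ws StModel_x i j (lk 1) (lk 1) (Sum.inr (Pi.single j u)) = Sum.inr (Pi.single i u) := by
  have h1 : StModel_X j i 1 (StModel_X i j 1 (Pi.single j u)) = Pi.single i u := by
    simp only [StModel_X_apply h, StModel_X_apply h.symm, Pi.single_eq_same, Pi.add_apply,
      Pi.single_eq_of_ne h, zero_add, Module.End.one_apply]
    rw [add_right_comm, ← Pi.single_add, StModel_two]
    simp
  simp only [ws, Equiv.Perm.mul_apply, StModel_x_inr, StModel_one, h1, StModel_fix _ h]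

/-- The sites. -/
noncomputable def StModel_site (p : Fin 6 × ℕ) : ℕ ⊕ (Fin 5 → StModel_V) :=
  Fin.cases (motive := fun _ => ℕ ⊕ (Fin 5 → StModel_V)) (Sum.inl p.2)
    (fun i => Sum.inr (Pi.single i (Finsupp.single p.2 1))) p.1

theorem StModel_site_zero (y : ℕ) : StModel_site (0, y) = Sum.inl y := rfl

theorem StModel_site_succ (i : Fin 5) (y : ℕ) :
    StModel_site (i.succ, y) = Sum.inr (Pi.single i (Finsupp.single y 1)) := rfl

theorem StModel_site_inj : Function.Injective StModel_site := by
  rintro ⟨b, y⟩ ⟨b', y'⟩ h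
  induction b using Fin.cases with
  | zero =>
    induction b' using Fin.cases with
    | zero => rw [show y = y' from Sum.inl_injective h]
    | succ i' => simp [StModel_site_zero, StModel_site_succ] at h
  | succ i =>
    induction b' using Fin.cases with
    | zero => simp [StModel_site_zero, StModel_site_succ] at h
    | succ i' =>
      rw [StModel_site_succ, StModel_site_succ] at h
      have h1 := congrFun (Sum.inr_injective h) i
      rw [Pi.single_eq_same] at h1
      by_cases hi : i = i'
      · subst hi
        rw [Pi.single_eq_same] at h1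
        rw [Finsupp.single_left_injective one_ne_zero h1]
      · rw [Pi.single_eq_of_ne hi] at h1
        exact absurd (Finsupp.single_eq_zero.1 h1) one_ne_zero

theorem st_model : ∃ (Ω : Type) (x : Fin 5 → Fin 5 → Lt → Equiv.Perm Ω) (site : Fin 6 × ℕ ↪ Ω),
    StRel x ∧ (∀ i j a b y, b ≠ j.succ → x i j a (site (b, y)) = site (b, y)) ∧
    (∀ i j b y, i ≠ j →
      ws x i j (lk 1) (lk 1) (site (b, y)) = site (Equiv.swap i.succ j.succ b, y)) ∧
    ∀ y, dd x (site (1, 2 * y)) = site (1, y) ∧ dd x (site (1, 2 * y + 1)) = site (3, y) ∧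
      dd x (site (2, 2 * y)) = site (2, y) ∧ dd x (site (2, 2 * y + 1)) = site (4, y) := by
  refine ⟨_, StModel_x, ⟨StModel_site, StModel_site_inj⟩,
    StModel_rel.map ((Equiv.Perm.sumCongrHom _ _).comp (MonoidHom.inr _ _)), ?_, ?_, ?_⟩
  · intro i j a b y hb
    change StModel_x i j a (StModel_site (b, y)) = StModel_site (b, y)
    induction b using Fin.cases with
    | zero => rfl
    | succ k =>
      rw [StModel_site_succ, StModel_x_inr, StModel_fix _ fun h => hb (by rw [h])]
  · intro i j b y h
    change ws StModel_x i j (lk 1) (lk 1) (StModel_site (b, y)) = StModel_site (_, y)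
    induction b using Fin.cases with
    | zero =>
      rw [Equiv.swap_apply_of_ne_of_ne (Fin.succ_ne_zero _).symm (Fin.succ_ne_zero _).symm]
      rfl
    | succ k =>
      rw [(Fin.succ_injective _).swap_apply, StModel_site_succ, StModel_site_succ]
      by_cases hi : k = i
      · subst hi
        rw [Equiv.swap_apply_left]
        exact StModel_ws_left1 h _ _ (by rw [StModel_one]; rfl) (by rw [StModel_one]; rfl)
      · by_cases hj : k = j
        · subst hj
          rw [Equiv.swap_apply_right]
          exact StModel_ws_right h _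
        · rw [Equiv.swap_apply_of_ne_of_ne hi hj]
          exact StModel_ws_fix hi hj _ _ _
  · intro y
    have s0 := StModel_s false y 1
    have s1 := StModel_s true y 1
    have t00 := StModel_t false false y 1
    have t11 := StModel_t true true y 1
    have t10 := StModel_t true false y 1
    simp only [Bool.toNat_false, Bool.toNat_true, add_zero, if_true, Bool.true_eq_false,
      if_false] at s0 s1 t00 t11 t10
    change dd StModel_x (StModel_site ((0 : Fin 5).succ, _)) = StModel_site ((0 : Fin 5).succ, _) ∧
      dd StModel_x (StModel_site ((0 : Fin 5).succ, _)) = StModel_site ((2 : Fin 5).succ, _) ∧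
      dd StModel_x (StModel_site ((1 : Fin 5).succ, _)) = StModel_site ((1 : Fin 5).succ, _) ∧
      dd StModel_x (StModel_site ((1 : Fin 5).succ, _)) = StModel_site ((3 : Fin 5).succ, _)
    simp only [StModel_site_succ, dd, Equiv.Perm.mul_apply]
    refine ⟨?_, ?_, ?_, ?_⟩
    · rw [StModel_ws_fix (by decide) (by decide), StModel_ws_fix (by decide) (by decide),
        StModel_ws_fix (by decide) (by decide), StModel_ws_left0 (by decide) _ _ t10,
        StModel_ws_left1 (by decide) _ _ t00 s0, StModel_ws_right (by decide)]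
    · rw [StModel_ws_fix (by decide) (by decide), StModel_ws_fix (by decide) (by decide),
        StModel_ws_fix (by decide) (by decide), StModel_ws_left1 (by decide) _ _ t11 s1,
        StModel_ws_fix (by decide) (by decide), StModel_ws_fix (by decide) (by decide)]
    · rw [StModel_ws_left0 (by decide) _ _ t10, StModel_ws_left1 (by decide) _ _ t00 s0,
        StModel_ws_right (by decide), StModel_ws_fix (by decide) (by decide),
        StModel_ws_fix (by decide) (by decide), StModel_ws_fix (by decide) (by decide)]
    · rw [StModel_ws_left1 (by decide) _ _ t11 s1, StModel_ws_fix (by decide) (by decide),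
        StModel_ws_fix (by decide) (by decide), StModel_ws_fix (by decide) (by decide),
        StModel_ws_fix (by decide) (by decide), StModel_ws_fix (by decide) (by decide)]

end Pool.Agent.Work.MP_3b70de_al.E
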