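import Pool.Agent.Work.MP_3b70de_al.E.Theta
import Pool.Agent.Work.MP_3b70de_al.E.StModel
import Pool.Agent.Work.MP_3b70de_al.E.GateMat

/-! The model on `ℓ²(Ω; W)`.

Plan. `Ω, x, site` from `st_model`, `U` from `exists_permRep`, `Θ` from `exists_theta`, `J` from
`exists_single (site (0, 0))`. `Θ1 M = 1 + Θ (M - 1)` is a monoid homomorphism commuting with `star`;
`γ o c : UH K` is `Θ1 (gm o (ctlE orth E c)) = 1 + Θ (ctl o.dl _)` (`gm_sq`, `gm_star`).
`g = Sum.elim (fun s => U (x s.1 s.2.1 s.2.2)) (fun s => γ s.1 s.2)`. Fields of `GRel`: `st` is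
`StRel.map`; `fr`, `dis`, `ctx` are images under `Θ1` of `gm_frame`, `gm_dis`, `gm_ctx` (`ctlE_tot`);
`cst` is `IsTheta.fix` with `Gate.dl_supp`; `rel` is `IsTheta.relab` with `Gate.dl_relab`; `dblZ`,
`dblH` are `IsTheta.dbl` with `Gate.dl_relab` and `Gate.dl_mul_of_disjoint`. The statements on
`J w` are checked pointwise. -/

namespace Pool.Agent.Work.MP_3b70de_al.E

open Gate

section Aux

variable {Ω W : Type} [NormedAddCommGroup W] [InnerProductSpace ℂ W] [CompleteSpace W]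

/-- The unital version of `Θ`. -/
noncomputable def Model_th1
    (Θ : Matrix (Fin 6) (Fin 6) (W →L[ℂ] W) →⋆ₙₐ[ℂ] (L2 Ω W →L[ℂ] L2 Ω W)) :
    Matrix (Fin 6) (Fin 6) (W →L[ℂ] W) →* (L2 Ω W →L[ℂ] L2 Ω W) where
  toFun M := 1 + Θ (M - 1)
  map_one' := by rw [sub_self, map_zero, add_zero]
  map_mul' M N := by
    have e : M * N - 1 = (M - 1) + (N - 1) + (M - 1) * (N - 1) := by noncomm_ring
    rw [e, map_add, map_add, map_mul]
    noncomm_ring

variable {site : Fin 6 × ℕ ↪ Ω}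
  {Θ : Matrix (Fin 6) (Fin 6) (W →L[ℂ] W) →⋆ₙₐ[ℂ] (L2 Ω W →L[ℂ] L2 Ω W)}

theorem Model_th1_gm (o : Gate) (e : W →L[ℂ] W) : Model_th1 Θ (gm o e) = 1 + Θ (ctl o.dl e) := by
  change 1 + Θ (gm o e - 1) = _
  rw [gm, add_sub_cancel_left]

theorem Model_th1_star (M : Matrix (Fin 6) (Fin 6) (W →L[ℂ] W)) :
    star (Model_th1 Θ M) = Model_th1 Θ (star M) := by
  change star (1 + Θ (M - 1)) = 1 + Θ (star M - 1)
  rw [star_add, star_one, ← map_star, star_sub, star_one]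

theorem Model_ev {S : Type} (φ : S → Matrix (Fin 6) (Fin 6) (W →L[ℂ] W)) (g : S → UH (L2 Ω W))
    (h : ∀ s, (g s : L2 Ω W →L[ℂ] L2 Ω W) = Model_th1 Θ (φ s)) (w : List S) :
    ((ev g w : UH (L2 Ω W)) : L2 Ω W →L[ℂ] L2 Ω W) = Model_th1 Θ (w.map φ).prod := by
  induction w with
  | nil => simp
  | cons a w ih => rw [ev_cons, List.map_cons, List.prod_cons, map_mul, ← ih, ← h]; rfl

theorem Model_single (hΘ : IsTheta site Θ) {J : W →ₗᵢ[ℂ] L2 Ω W} (h0 : ∀ w, J w (site (0, 0)) = w)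
    (h1 : ∀ w ω, ω ≠ site (0, 0) → J w ω = 0) {A : Matrix (Fin 6) (Fin 6) (W →L[ℂ] W)}
    (hA : ∀ a, a ≠ 0 → A a 0 = 0) (w : W) : Θ A (J w) = J (A 0 0 w) := by
  refine lp.ext (funext fun ω => ?_)
  by_cases hω : ∃ z, site z = ω
  · obtain ⟨⟨a, y⟩, rfl⟩ := hω
    rw [hΘ.1, Finset.sum_eq_single 0]
    · by_cases hy : y = 0
      · subst hy
        by_cases ha : a = 0
        · subst ha
          rw [h0, h0]
        · rw [hA a ha, h1 _ (site (a, 0)) (by simp [ha])]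
          rfl
      · rw [h1 _ _ (by simp [hy]), h1 _ _ (by simp [hy]), map_zero]
    · intro b _ hb
      rw [h1 _ _ (by simp [hb]), map_zero]
    · simp
  · rw [hΘ.2 _ _ _ fun z e => hω ⟨z, e⟩, h1 _ _ fun e => hω ⟨_, e.symm⟩]

theorem Model_ctl_add (A A' : Matrix (Fin 6) (Fin 6) ℂ) (e : W →L[ℂ] W) :
    ctl (A + A') e = ctl A e + ctl A' e := by
  ext a b : 2
  simp [ctl, add_smul]

theorem Model_ctl_zero (e : W →L[ℂ] W) : ctl 0 e = 0 := by
  ext a b : 2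
  simp [ctl]

theorem Model_dbl (hΘ : IsTheta site Θ) {T : L2 Ω W →L[ℂ] L2 Ω W} {σ : Equiv.Perm Ω}
    (hT : ∀ ψ ω, T ψ ω = ψ (σ.symm ω))
    (hσ : ∀ y, σ (site (1, 2 * y)) = site (1, y) ∧ σ (site (1, 2 * y + 1)) = site (3, y) ∧
      σ (site (2, 2 * y)) = site (2, y) ∧ σ (site (2, 2 * y + 1)) = site (4, y))
    {o o' : Gate} (ho : o.supp ⊆ {1, 2}) (hd : Disjoint o.supp o'.supp)
    (hr : o.relab (Equiv.swap 1 3 * Equiv.swap 2 4) = o') (e : W →L[ℂ] W) :
    T * (1 + Θ (ctl o.dl e)) = (1 + Θ (ctl o.dl e)) * (1 + Θ (ctl o'.dl e)) * T := by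
  have e1 : ⇑(Equiv.symm (Equiv.swap (1 : Fin 6) 3 * Equiv.swap 2 4 : Equiv.Perm (Fin 6))) =
      ![0, 3, 4, 1, 2, 5] := by decide
  have e2 : ctl o'.dl e = (ctl o.dl e).submatrix ![0, 3, 4, 1, 2, 5] ![0, 3, 4, 1, 2, 5] := by
    rw [← hr, Gate.dl_relab, e1]
    rfl
  have e3 : Θ (ctl o.dl e) * Θ (ctl o'.dl e) = 0 := by
    rw [← map_mul, ctl_mul, Gate.dl_mul_of_disjoint hd, Model_ctl_zero, map_zero]
  have e4 := hΘ.dbl (A := ctl o.dl e) hT (fun a b hab => by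
    have : o.dl a b = 0 := o.dl_supp (hab.imp (fun h h' => h (ho h')) fun h h' => h (ho h'))
    simp [ctl, this]) hσ
  rw [← e2] at e4
  rw [mul_add, e4, add_mul 1, mul_add (Θ _), e3]
  noncomm_ring

theorem Model_col (a : Fin 6) : ((H 0 1).dl + ((Z 1).dl + (H 0 1).dl + (Z 1).dl * (H 0 1).dl)) a 0 =
    if a = 0 then ((√2 : ℝ) : ℂ) - 2 else 0 := by
  have h : ((√2 : ℝ) : ℂ) = 2 * (kap : ℂ) := by
    have h1 : √2 = 2 * kap := by
      linear_combination (-2 * √2) * kap_sq + (2 * kap) * sqrt_mul_kap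
    rw [h1]
    push_cast
    rfl
  rw [h]
  fin_cases a <;> simp [Gate.dl, Matrix.mul_apply, Matrix.single_apply] <;> ring

end Aux

theorem model {P ι W : Type} [NormedAddCommGroup W] [InnerProductSpace ℂ W] [CompleteSpace W]
    {orth : P → P → Prop} {ctx : ι → List P} (hctx : ∀ k, (ctx k).Pairwise orth)
    {E : P → W →L[ℂ] W} (hE : ∀ p, IsStarProjection (E p)) (ho : ∀ p q, orth p q → E p * E q = 0)
    (hs : ∀ k, ((ctx k).map E).sum = 1) :
    ∃ (K : Type) (_ : NormedAddCommGroup K) (_ : InnerProductSpace ℂ K) (_ : CompleteSpace K)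
      (g : Gen P → UH K) (J : W →ₗᵢ[ℂ] K), GRel orth ctx g ∧ ∀ w, F2 g (J w) ∧
        ∀ p, g (gg (Z 0) (cp (some p))) • J w = J (w - (2 : ℂ) • E p w) := by
  obtain ⟨Ω, x, site, hx, hx1, hx2, hx3⟩ := st_model
  obtain ⟨U, hU⟩ := exists_permRep (Ω := Ω) (W := W)
  obtain ⟨Θ, hΘ⟩ := exists_theta (W := W) site
  obtain ⟨J, hJ0, hJ1⟩ := exists_single (W := W) (site (0, 0))
  have hp := ctlE_proj hE ho
  have hsq : ∀ o c, Model_th1 Θ (gm o (ctlE orth E c)) * Model_th1 Θ (gm o (ctlE orth E c)) = 1 :=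
    fun o c => by rw [← map_mul, gm_sq o (hp c), map_one]
  obtain ⟨g, hg, hxs⟩ : ∃ g : Gen P → UH (L2 Ω W),
      (∀ o c, (g (gg o c) : L2 Ω W →L[ℂ] L2 Ω W) = Model_th1 Θ (gm o (ctlE orth E c))) ∧
        xs g = fun i j a => U (x i j a) :=
    ⟨Sum.elim (fun s => U (x s.1 s.2.1 s.2.2)) fun s =>
      ⟨Model_th1 Θ (gm s.1 (ctlE orth E s.2)), by
        constructor <;> rw [Model_th1_star, gm_star _ (hp _), hsq]⟩, fun _ _ => rfl, rfl⟩
  have hg' : ∀ o c, (g (gg o c) : L2 Ω W →L[ℂ] L2 Ω W) = 1 + Θ (ctl o.dl (ctlE orth E c)) :=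
    fun o c => by rw [hg, Model_th1_gm]
  have hws : ∀ i j a b, ws (xs g) i j a b = U (ws x i j a b) := fun i j a b => by
    simp [hxs, ws]
  have hdd : dd (xs g) = U (dd x) := by simp only [dd, hws, map_mul]
  have hz : ∀ c w, g (gg (Z 0) c) • J w = J (w - (2 : ℂ) • ctlE orth E c w) := by
    intro c w
    rw [usmul_def, hg', add_apply, one_apply_eq_self,
      Model_single hΘ hJ0 hJ1 (fun a ha => by simp [ctl, Gate.dl, ha.symm]), ← map_add]
    simp [ctl, Gate.dl, sub_eq_add_neg]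
  refine ⟨L2 Ω W, inferInstance, inferInstance, inferInstance, g, J,
    ⟨?_, hxs ▸ hx.map U, ?_, ?_, ?_, ?_, ?_, ?_, ?_, ?_⟩, fun w => ⟨⟨⟨?_, ?_, ?_⟩, ?_⟩, fun p => hz _ w⟩⟩
  · rintro (⟨i, j, a⟩ | ⟨o, c⟩)
    · change xs g i j a * xs g i j a = 1
      rw [hxs, ← map_mul, hx.sq, map_one]
    · refine Subtype.ext ?_
      change (g (gg o c) : L2 Ω W →L[ℂ] L2 Ω W) * (g (gg o c) : L2 Ω W →L[ℂ] L2 Ω W) = 1
      rw [hg, hsq]
  · intro p q hpq w _ hw
    refine Subtype.ext ?_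
    rw [Model_ev (Θ := Θ) (fun e : Gate × Fin 4 => gm e.1 (ctlE orth E (frame p q e.2))) _
      (fun e => hg _ _), gm_frame hE ho hpq w hw, map_one]
    rfl
  · intro a c
    refine Subtype.ext ?_
    rw [hg']
    simp [Gate.dl, Model_ctl_zero]
  · intro o o' c c' hd
    refine Subtype.ext ?_
    rw [Submonoid.coe_mul, Submonoid.coe_mul, hg, hg]
    exact ((gm_dis hd _ _).map (Model_th1 Θ)).eq
  · intro o c i j a _ _ hj
    refine Subtype.ext ?_
    have e := hΘ.fix (A := ctl o.dl (ctlE orth E c)) (hU (x i j a)) o.supp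
      (fun a b hab => by simp [ctl, o.dl_supp hab])
      (fun b hb y => hx1 i j a b y fun e => hj (e ▸ hb))
    rw [hxs, Submonoid.coe_mul, Submonoid.coe_mul, hg', add_mul, mul_add, e, one_mul, mul_one]
  · intro i j o c hij
    refine Subtype.ext ?_
    have e := hΘ.relab (A := ctl o.dl (ctlE orth E c)) (hU (ws x i j (lk 1) (lk 1)))
      (Equiv.swap i.succ j.succ) fun b y => hx2 i j b y hij
    rw [hws, Submonoid.coe_mul, Submonoid.coe_mul, hg', hg', add_mul, mul_add, e, one_mul, mul_one,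
      Gate.dl_relab]
    rfl
  · intro c
    refine Subtype.ext ?_
    rw [hdd, Submonoid.coe_mul, Submonoid.coe_mul, Submonoid.coe_mul, hg', hg']
    exact Model_dbl hΘ (hU _) hx3 (by decide) (by decide) (by decide) _
  · intro c
    refine Subtype.ext ?_
    rw [hdd, Submonoid.coe_mul, Submonoid.coe_mul, Submonoid.coe_mul, hg', hg']
    exact Model_dbl hΘ (hU _) hx3 (by decide) (by decide) (by decide) _
  · intro k
    refine Subtype.ext ?_
    rw [Model_ev (Θ := Θ) (fun p => gm (Z 0) (E p)) _ (fun p => hg (Z 0) (cp (some p))),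
      gm_ctx ho (hctx k) (hs k), hg, ctlE_tot]
  · intro i j a _
    have e : x i j a (site (0, 0)) = site (0, 0) := hx1 i j a 0 0 (Fin.succ_ne_zero j).symm
    refine lp.ext (funext fun ω => ?_)
    rw [hxs, hU]
    by_cases hω : ω = site (0, 0)
    · rw [hω, (Equiv.symm_apply_eq _).2 e.symm]
    · rw [hJ1 w ω hω, hJ1]
      intro h
      exact hω (by rw [(Equiv.symm_apply_eq _).1 h, e])
  · intro o c h0
    rw [usmul_def, hg', add_apply, one_apply_eq_self,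
      Model_single hΘ hJ0 hJ1 (fun a _ => by simp [ctl, o.dl_supp (Or.inr h0)])]
    simp [ctl, o.dl_supp (Or.inr h0)]
  · rw [hz, ctlE_tot, ← map_neg]
    congr 1
    rw [one_apply_eq_self, two_smul]
    abel
  · have e : (g (gg (H 0 1) tot) : L2 Ω W →L[ℂ] L2 Ω W) +
        (g (gg (Z 1) tot) : L2 Ω W →L[ℂ] L2 Ω W) * (g (gg (H 0 1) tot) : L2 Ω W →L[ℂ] L2 Ω W) =
        1 + 1 + Θ (ctl ((H 0 1).dl + ((Z 1).dl + (H 0 1).dl + (Z 1).dl * (H 0 1).dl)) 1) := by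
      rw [hg', hg', ctlE_tot, Model_ctl_add, Model_ctl_add, Model_ctl_add, map_add, map_add,
        map_add, ← mul_one (1 : W →L[ℂ] W), ← ctl_mul, map_mul, mul_one]
      noncomm_ring
    have e' := congrArg (fun T : L2 Ω W →L[ℂ] L2 Ω W => T (J w)) e
    simp only [add_apply, mul_apply_eq_comp,
      one_apply_eq_self] at e'
    rw [usmul_def, usmul_def, e', Model_single hΘ hJ0 hJ1 fun a ha => by
      rw [ctl, Matrix.map_apply, Model_col, if_neg ha, zero_smul]]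
    rw [ctl, Matrix.map_apply, Model_col, if_pos rfl, smul_apply,
      one_apply_eq_self, map_smul, sub_smul, two_smul]
    abel

end Pool.Agent.Work.MP_3b70de_al.E
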