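import Pool.Agent.Work.MP_3b70de_al.E.GDefs
import Mathlib.Data.Set.Finite.List

/-! The relations `GRel` are finitely many words.

Plan. Let `Rel : List (Gen P) → List (Gen P) → Prop` be an inductive predicate with one constructor
for each relation scheme of `StRel` and `GRel` (write a commutator of involutions `⁅a, b⁆` as the
word `[a, b, a, b]`), with `u.length + v.length ≤ L = 200 + ∑ k, (ctx k).length`; put
`𝓡 = {u ++ v.reverse | Rel u v} ⊆ {w | w.length ≤ L}` (`List.finite_length_le`); for involutions
`ev g (u ++ v.reverse) = 1 ↔ ev g u = ev g v` (`ev_reverse`). -/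

namespace Pool.Agent.Work.MP_3b70de_al.E

open scoped commutatorElement

section
variable {P G : Type} [Group G]

theorem RelFin_cm {S : Type} {g : S → G} (h : ∀ s, g s * g s = 1) (a b : S) :
    ev g [a, b, a, b] = ⁅g a, g b⁆ := by
  simp [commutatorElement_def, inv_eq_of_mul_eq_one_right (h _), mul_assoc]

theorem RelFin_two {S : Type} (g : S → G) (a b : S) : ev g [a, b] = g a * g b := by simp

theorem RelFin_one {S : Type} (g : S → G) (a : S) : ev g [a] = g a := by simp

/-- The word of `ws`. -/
def RelFin_ws (i j : Fin 5) (a b : Lt) : List (Gen P) := [gx i j a, gx j i b, gx i j a]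

theorem RelFin_ev_ws (g : Gen P → G) (i j : Fin 5) (a b : Lt) :
    ev g (RelFin_ws i j a b) = ws (xs g) i j a b := by simp [RelFin_ws, ws, xs, mul_assoc]

/-- The word of `dd`. -/
noncomputable def RelFin_dd : List (Gen P) :=
  RelFin_ws 0 4 (lk 1) (lk 1) ++ RelFin_ws 0 4 (ls false) (lt false) ++
    RelFin_ws 0 2 (ls true) (lt true) ++ (RelFin_ws 1 4 (lk 1) (lk 1) ++
      RelFin_ws 1 4 (ls false) (lt false) ++ RelFin_ws 1 3 (ls true) (lt true))

theorem RelFin_ev_dd (g : Gen P → G) : ev g RelFin_dd = dd (xs g) := by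
  simp only [RelFin_dd, ev_append, RelFin_ev_ws, dd]

theorem RelFin_len_dd : (RelFin_dd (P := P)).length = 18 := rfl

end

theorem grel_fin {P ι : Type} [Finite P] [Finite ι] (orth : P → P → Prop) (ctx : ι → List P) :
    ∃ 𝓡 : Set (List (Gen P)), 𝓡.Finite ∧ ∀ (G : Type) [Group G] (g : Gen P → G),
      (∀ s, g s * g s = 1) → (GRel orth ctx g ↔ ∀ w ∈ 𝓡, ev g w = 1) := by
  obtain ⟨L, hL⟩ := (Set.finite_range fun k => (ctx k).length).bddAbove
  refine ⟨{w | w.length ≤ 64 + L ∧ ∀ (G : Type) [Group G] (g : Gen P → G),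
    GRel orth ctx g → ev g w = 1}, (List.finite_length_le _ (64 + L)).subset fun w hw => hw.1,
    fun G _ g hg => ⟨fun h w hw => hw.2 G g h, fun h => ?_⟩⟩
  have key : ∀ u v : List (Gen P), u.length + v.length ≤ 64 + L →
      (∀ (G : Type) [Group G] (g : Gen P → G), GRel orth ctx g → ev g u = ev g v) →
      ev g u = ev g v := fun u v hl huv => by
    have h1 := h (u ++ v.reverse) ⟨by simpa using hl, fun G _ g hR => by
      rw [ev_append, ev_reverse hR.sq, huv G g hR, mul_inv_cancel]⟩
    rwa [ev_append, ev_reverse hg, mul_inv_eq_one] at h1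
  have k22 : ∀ a b c d : Gen P, (∀ (G : Type) [Group G] (g : Gen P → G), GRel orth ctx g →
      g a * g b = g c * g d) → g a * g b = g c * g d := fun a b c d H => by
    simpa only [RelFin_two] using key [a, b] [c, d] (by simp only [List.length]; omega)
      fun G _ g hR => by simpa only [RelFin_two] using H G g hR
  have k41 : ∀ a b c : Gen P, (∀ (G : Type) [Group G] (g : Gen P → G), GRel orth ctx g →
      ⁅g a, g b⁆ = g c) → ⁅g a, g b⁆ = g c := fun a b c H => by
    simpa only [RelFin_cm hg, RelFin_one] using key [a, b, a, b] [c]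
      (by simp only [List.length]; omega)
      fun G _ g hR => by simpa only [RelFin_cm hR.sq, RelFin_one] using H G g hR
  refine ⟨hg, ⟨fun i j a => hg _, fun i j k l a b h1 h2 h3 h4 => ?_, fun i j k a h1 h2 h3 => ?_,
    fun i j k a h1 h2 h3 => ?_, fun i j a b h1 => ?_, fun i j k a b h1 h2 h3 => ?_,
    fun i j k a b h1 h2 h3 => ?_, fun i j k a b h1 h2 h3 => ?_⟩, fun p q hpq w hw ht => ?_,
    fun a c => ?_, fun o o' c c' hd => ?_, fun o c i j a h1 h2 h3 => ?_, fun i j o c h1 => ?_,
    fun c => ?_, fun c => ?_, fun k => ?_⟩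
  · exact k22 _ _ _ _ fun G _ g hR => hR.st.comm i j k l a b h1 h2 h3 h4
  · exact k41 _ _ _ fun G _ g hR => hR.st.one_l i j k a h1 h2 h3
  · exact k41 _ _ _ fun G _ g hR => hR.st.one_r i j k a h1 h2 h3
  · simpa only [RelFin_one, RelFin_two, xs] using key [gx i j (lk (a + b))]
      [gx i j (lk a), gx i j (lk b)] (by simp only [List.length]; omega)
      fun G _ g hR => by simpa only [RelFin_one, RelFin_two, xs] using hR.st.add i j a b h1
  · exact k41 _ _ _ fun G _ g hR => hR.st.mul i j k a b h1 h2 h3
  · simpa only [RelFin_cm hg, xs] using key [gx i j (lk a), gx j k b, gx i j (lk a), gx j k b]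
      [gx i j b, gx j k (lk a), gx i j b, gx j k (lk a)] (by simp only [List.length]; omega)
      fun G _ g hR => by simpa only [RelFin_cm hR.sq, xs] using hR.st.cen i j k a b h1 h2 h3
  · exact k41 _ _ _ fun G _ g hR => hR.st.ts i j k a b h1 h2 h3
  · simpa only [ev_map, ev_nil] using key (w.map fun e => gg e.1 (frame p q e.2)) []
      (by simp only [List.length_map, List.length_nil]; omega)
      fun G _ g hR => by simpa only [ev_map, ev_nil] using hR.fr p q hpq w hw ht
  · simpa only [RelFin_one, ev_nil] using key [gg (Gate.H a a) c] []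
      (by simp only [List.length]; omega)
      fun G _ g hR => by simpa only [RelFin_one, ev_nil] using hR.triv a c
  · exact k22 _ _ _ _ fun G _ g hR => hR.dis o o' c c' hd
  · exact k22 _ _ _ _ fun G _ g hR => hR.cst o c i j a h1 h2 h3
  · have h2 := key
      (RelFin_ws i j (lk 1) (lk 1) ++ [gg o c])
      ([gg (o.relab (Equiv.swap i.succ j.succ)) c] ++ RelFin_ws i j (lk 1) (lk 1))
      (by simp only [RelFin_ws, List.length_append, List.length]; omega)
      fun G _ g hR => by simpa only [ev_append, RelFin_one, RelFin_ev_ws] using hR.rel i j o c h1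
    simpa only [ev_append, RelFin_one, RelFin_ev_ws] using h2
  · have h2 := key
      (RelFin_dd ++ [gg (Gate.Z 1) c]) ([gg (Gate.Z 1) c, gg (Gate.Z 3) c] ++ RelFin_dd)
      (by simp only [RelFin_len_dd, List.length_append, List.length]; omega) fun G _ g hR => by
        simpa only [ev_append, RelFin_one, RelFin_two, RelFin_ev_dd] using hR.dblZ c
    simpa only [ev_append, RelFin_one, RelFin_two, RelFin_ev_dd] using h2
  · have h2 := key
      (RelFin_dd ++ [gg (Gate.H 1 2) c]) ([gg (Gate.H 1 2) c, gg (Gate.H 3 4) c] ++ RelFin_dd)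
      (by simp only [RelFin_len_dd, List.length_append, List.length]; omega) fun G _ g hR => by
        simpa only [ev_append, RelFin_one, RelFin_two, RelFin_ev_dd] using hR.dblH c
    simpa only [ev_append, RelFin_one, RelFin_two, RelFin_ev_dd] using h2
  · have h1 : (ctx k).length ≤ L := hL ⟨k, rfl⟩
    simpa only [ev_map, RelFin_one] using key ((ctx k).map fun p => gg (Gate.Z 0) (cp (some p)))
      [gg (Gate.Z 0) tot] (by simp only [List.length_map, List.length]; omega)
      fun G _ g hR => by simpa only [ev_map, RelFin_one] using hR.ctx k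

end Pool.Agent.Work.MP_3b70de_al.E
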