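import Pool.Agent.Work.MP_3b70de_al.E.CoreC
import Pool.Agent.Work.MP_3b70de_al.E.RelFin
import Pool.Agent.Work.MP_3b70de_al.E.Model
import Pool.Agent.Work.MP_3b70de_al.E.Lcs

/-! The main construction.

Plan. `𝓡` from `grel_fin`, `M, ι` from `lcs`. In `C`: `g` with `GRel`, `q, Pp` from `coreC`. For
`W, E`: `K0, g0, J0` from `model`, `K1, y, V1` from `lcs`, `K, π, V` from the hypothesis on `C`;
`J = V ∘ V1 ∘ J0` and `umap π (g s) • V (V1 ξ) = V (V1 (g0 s • ξ))`, so `F2` is transported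
(`F2_map`). -/

namespace Pool.Agent.Work.MP_3b70de_al.E

theorem F2_map {P K K' : Type} [NormedAddCommGroup K] [InnerProductSpace ℂ K] [CompleteSpace K]
    [NormedAddCommGroup K'] [InnerProductSpace ℂ K'] [CompleteSpace K'] {g : Gen P → UH K}
    {g' : Gen P → UH K'} (V : K →ₗᵢ[ℂ] K') (hV : ∀ s ξ, g' s • V ξ = V (g s • ξ)) {ξ : K}
    (h : F2 g ξ) : F2 g' (V ξ) := by
  obtain ⟨⟨h0, h1, h2⟩, h3⟩ := h
  refine ⟨⟨fun i j a hij => ?_, fun o c ho => ?_, ?_⟩, ?_⟩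
  · have := h0 i j a hij
    unfold xs at this ⊢
    rw [hV, this]
  · rw [hV, h1 o c ho]
  · rw [hV, h2, map_neg]
  · rw [hV, hV, ← map_add, h3, map_smul]

/-- Every solution on a Hilbert space dilates to a representation of `C`. -/
def Dilates {m n : ℕ} (M : Matrix (Fin m) (Fin n) (ZMod 2)) {C : Type} [CStarAlgebra C]
    (x : Fin n → C) : Prop :=
  ∀ (H : Type) [NormedAddCommGroup H] [InnerProductSpace ℂ H] [CompleteSpace H]
    (y : Fin n → H →L[ℂ] H), IsSol M 0 y →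
    ∃ (K : Type) (_ : NormedAddCommGroup K) (_ : InnerProductSpace ℂ K) (_ : CompleteSpace K)
      (π : C →⋆ₐ[ℂ] (K →L[ℂ] K)) (V : H →ₗᵢ[ℂ] K), ∀ i ξ, π (x i) (V ξ) = V (y i ξ)

theorem core {P ι : Type} [Finite P] [Finite ι] (orth : P → P → Prop) (ctx : ι → List P)
    (hctx : ∀ k, (ctx k).Pairwise orth) :
    ∃ (m n : ℕ) (M : Matrix (Fin m) (Fin n) (ZMod 2)),
      ∀ (C : Type) [CStarAlgebra C] (x : Fin n → C), IsSol M 0 x → Dilates M x →
        ∃ (q : C) (Pp : P → C), IsStarProjection q ∧ (∀ p, IsStarProjection (Pp p)) ∧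
          (∀ p, q * Pp p = Pp p) ∧ (∀ p p', orth p p' → Pp p * Pp p' = 0) ∧
          (∀ k, ((ctx k).map Pp).sum = q) ∧
          (∀ c : C, (∀ i, Commute c (x i)) → Commute c q ∧ ∀ p, Commute c (Pp p)) ∧
          ∀ (W : Type) [NormedAddCommGroup W] [InnerProductSpace ℂ W] [CompleteSpace W]
            (E : P → W →L[ℂ] W), (∀ p, IsStarProjection (E p)) →
            (∀ p p', orth p p' → E p * E p' = 0) → (∀ k, ((ctx k).map E).sum = 1) →
            ∃ (K : Type) (_ : NormedAddCommGroup K) (_ : InnerProductSpace ℂ K)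
              (_ : CompleteSpace K) (π : C →⋆ₐ[ℂ] (K →L[ℂ] K)) (J : W →ₗᵢ[ℂ] K),
              (∀ w, π q (J w) = J w) ∧ ∀ p w, π (Pp p) (J w) = J (E p w) := by
  obtain ⟨𝓡, hfin, h𝓡⟩ := grel_fin orth ctx
  obtain ⟨m, n, M, ι', h1, h2⟩ := lcs hfin
  refine ⟨m, n, M, fun C _ x hx hd => ?_⟩
  obtain ⟨g, hgx, hsq, hw⟩ := h1 C x hx
  have hg : GRel orth ctx g := (h𝓡 _ g hsq).2 hw
  obtain ⟨q, Pp, a1, a2, a3, a4, a5, a6, a7⟩ := coreC hg hctx
  refine ⟨q, Pp, a1, a2, a3, a4, a5, fun c hc => a7 c fun s => by rw [hgx]; exact hc _,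
    fun W _ _ _ E hE ho hs => ?_⟩
  obtain ⟨K0, _, _, _, g0, J0, hg0, hJ0⟩ := model hctx hE ho hs
  obtain ⟨K1, _, _, _, y, V1, hy, hV1⟩ := h2 K0 g0 hg0.sq ((h𝓡 _ g0 hg0.sq).1 hg0)
  obtain ⟨K, _, _, _, π, V, hV⟩ := hd K1 y hy
  have hint : ∀ s ξ, umap π (g s) • (V.comp V1) ξ = (V.comp V1) (g0 s • ξ) := by
    intro s ξ
    rw [umap_smul, hgx]
    simp only [LinearIsometry.coe_comp, Function.comp_apply]
    rw [hV, hV1]
  refine ⟨K, inferInstance, inferInstance, inferInstance, π, (V.comp V1).comp J0, fun w => ?_,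
    fun p w => ?_⟩
  · exact (a6 K π _ (F2_map (V.comp V1) hint (hJ0 w).1)).1
  · have := (a6 K π _ (F2_map (V.comp V1) hint (hJ0 w).1)).2 p
    rw [hint, (hJ0 w).2 p, ← map_sub, ← map_sub, sub_sub_cancel, ← map_smul, ← map_smul, smul_smul]
      at this
    norm_num at this
    simpa using this

end Pool.Agent.Work.MP_3b70de_al.E
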