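import Pool.Agent.Work.MP_3b70de_al.E.Stage2

/-! The controlled signs act on `F2`, and two orthogonal controllers are never both odd.

All group relations come from `hg.frc hpq w (by decide +kernel)` (labels `0, 1, 2` for the
controllers `cp p, cp q, inr (p, q)`, label `3` for `tot`; `frame p q 0 = cp p` etc. hold by `rfl`;
for a single `p` use the frame `p none`).
`F2_zeta`: `z = g (gg (Z 0) (cp p))` preserves `F0` (`F0_zeta`), commutes with the stabiliser gates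
(`hg.dis`) and with `ζ`; `z h = y h y z` with `y = g (gg (Z 1) (cp p))`, `y` commutes with
`Z1 = g (gg (Z 1) tot)` and `z`; so `√2 z ξ = z (1 + Z1) h ξ = y (1 + Z1) h z ξ`; apply `y`.
`F2_odd`: `h = h0 h1 h2` (labels `0, 1, 2`), `⟪ξ, h ξ + Z1 h ξ⟫ = √2 ‖ξ‖²` gives
`⟪ξ, h ξ⟫ = kap ‖ξ‖²`. With `y0, y1` the gates `Z 1` of labels `0, 1`, `a = h0 ξ`, `b = h1 h2 ξ`,
`u = a + y0 a`, `u' = b + y1 b`: `y0` fixes `b` and `u'`, `y1` fixes `a` and `u`, so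
`⟪u, u'⟫ = 4 ⟪a, b⟫ = 4 kap ‖ξ‖²`. `‖u‖² = 2 ‖ξ‖²` since `⟪a, y0 a⟫ = ⟪ξ, τ ξ⟫ = 0` for
`τ = h0 y0 h0` (`z0 τ = τ y0`); the same for `u'` (`h2` commutes with the gates of label `1`). So
`4 kap ‖ξ‖² ≤ 2 ‖ξ‖²`, and `kap > 1/2`. -/

namespace Pool.Agent.Work.MP_3b70de_al.E

open scoped InnerProductSpace
open Gate

theorem Odd_eq {P ι G : Type} [Group G] {orth : P → P → Prop} {ctx : ι → List P}
    {g : Gen P → G} (hg : GRel orth ctx g) {p q : Option P} (hpq : orthO orth p q)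
    (u v : List (Gate × Fin 4)) (h : chkF (u ++ v.reverse) = true) :
    ev (fun e => g (gg e.1 (frame p q e.2))) u = ev (fun e => g (gg e.1 (frame p q e.2))) v := by
  have := hg.frc hpq _ h
  rwa [ev_append, ev_reverse fun _ => hg.sq _, mul_inv_eq_one] at this

theorem zeta_comm {P ι G : Type} [Group G] {orth : P → P → Prop} {ctx : ι → List P}
    {g : Gen P → G} (hg : GRel orth ctx g) {p q : Option P} (hpq : orthO orth p q) :
    Commute (g (gg (Z 0) (cp p))) (g (gg (Z 0) (cp q))) := by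
  have := Odd_eq hg hpq [(Z 0, 0), (Z 0, 1)] [(Z 0, 1), (Z 0, 0)] (by decide +kernel)
  simp only [ev_cons, ev_nil, mul_one] at this
  exact this

variable {P ι K : Type} [NormedAddCommGroup K] [InnerProductSpace ℂ K] [CompleteSpace K]
  {orth : P → P → Prop} {ctx : ι → List P} {g : Gen P → UH K}

theorem Odd_act (hg : GRel orth ctx g) {p q : Option P} (hpq : orthO orth p q)
    (u v : List (Gate × Fin 4)) (h : chkF (u ++ v.reverse) = true) (ξ : K) :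
    u.foldr (fun e η => g (gg e.1 (frame p q e.2)) • η) ξ =
      v.foldr (fun e η => g (gg e.1 (frame p q e.2)) • η) ξ := by
  have key : ∀ w : List (Gate × Fin 4), w.foldr (fun e η => g (gg e.1 (frame p q e.2)) • η) ξ =
      ev (fun e => g (gg e.1 (frame p q e.2))) w • ξ := fun w => by
    induction w with
    | nil => exact (one_smul _ _).symm
    | cons e w ih => rw [List.foldr_cons, ih, ev_cons, mul_smul]
  rw [key, key, Odd_eq hg hpq u v h]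

theorem Odd_zero {w z : UH K} {ξ η t : K} (hz : z * z = 1) (h1 : z • ξ = -ξ) (h2 : η = w • t)
    (h3 : z • t = t) : ⟪w • ξ, η⟫_ℂ = 0 := by
  have h4 := uinner_invol hz ξ t
  rw [h1, h3, inner_neg_left] at h4
  rw [h2, uinner]
  linear_combination (-1 / 2 : ℂ) * h4

theorem Odd_norm {w y : UH K} {ξ : K} (h : ⟪w • ξ, y • w • ξ⟫_ℂ = 0) :
    ‖w • ξ + y • w • ξ‖ ^ 2 = 2 * ‖ξ‖ ^ 2 := by
  rw [norm_add_sq (𝕜 := ℂ), h, unorm y, unorm, map_zero]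
  ring

theorem Odd_main {w w' y y' : UH K} {ξ : K} (hy : y * y = 1) (hc : Commute y y')
    (k : ⟪w • ξ, y • w • ξ⟫_ℂ = 0) (k' : ⟪w' • ξ, y' • w' • ξ⟫_ℂ = 0)
    (h1 : y' • w • ξ = w • ξ) (h2 : y • w' • ξ = w' • ξ)
    (h3 : 2 * ⟪w • ξ, w' • ξ⟫_ℂ = ((√2 : ℝ) : ℂ) * ⟪ξ, ξ⟫_ℂ) : ξ = 0 := by
  have n1 := Odd_norm k
  have n2 := Odd_norm k'
  have h4 : y • (w' • ξ + y' • w' • ξ) = w' • ξ + y' • w' • ξ := by
    rw [smul_add, ← mul_smul y y', hc.eq, mul_smul, h2]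
  have h5 : ⟪w • ξ + y • w • ξ, w' • ξ + y' • w' • ξ⟫_ℂ = ((2 * √2 * ‖ξ‖ ^ 2 : ℝ) : ℂ) := by
    rw [inner_add_left, uinner_invol hy, h4, inner_add_right, uinner_fix h1]
    have e : ⟪ξ, ξ⟫_ℂ = ((‖ξ‖ : ℝ) : ℂ) ^ 2 := inner_self_eq_norm_sq_to_K ξ
    push_cast
    linear_combination 2 * h3 + 2 * ((√2 : ℝ) : ℂ) * e
  have h6 := norm_inner_le_norm (𝕜 := ℂ) (w • ξ + y • w • ξ) (w' • ξ + y' • w' • ξ)
  rw [h5, Complex.norm_real, Real.norm_of_nonneg (by positivity)] at h6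
  have h7 : 1 < √2 := Real.one_lt_sqrt_two
  have h8 : ‖ξ‖ ^ 2 ≤ 0 := by
    nlinarith [sq_nonneg (‖w • ξ + y • w • ξ‖ - ‖w' • ξ + y' • w' • ξ‖), sq_nonneg ‖ξ‖]
  exact norm_eq_zero.1 (pow_eq_zero_iff two_ne_zero |>.1 (le_antisymm h8 (sq_nonneg _)))

theorem F2_zeta (hg : GRel orth ctx g) (p : Option P) {ξ : K} (h : F2 g ξ) :
    F2 g (g (gg (Z 0) (cp p)) • ξ) := by
  have hp : orthO orth p none := by cases p <;> trivial
  obtain ⟨⟨h1, h2, h3⟩, h4⟩ := h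
  have e1 : g (gg (Z 0) tot) • g (gg (Z 0) (cp p)) • ξ =
      g (gg (Z 0) (cp p)) • g (gg (Z 0) tot) • ξ :=
    Odd_act hg hp [(Z 0, 3), (Z 0, 0)] [(Z 0, 0), (Z 0, 3)] (by decide +kernel) ξ
  have e2 : g (gg (H 0 1) tot) • g (gg (Z 0) (cp p)) • ξ = g (gg (Z 1) (cp p)) •
      g (gg (Z 0) (cp p)) • g (gg (H 0 1) tot) • g (gg (Z 1) (cp p)) • ξ :=
    Odd_act hg hp [(H 0 1, 3), (Z 0, 0)] [(Z 1, 0), (Z 0, 0), (H 0 1, 3), (Z 1, 0)]
      (by decide +kernel) ξ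
  have e3 : g (gg (Z 1) tot) • g (gg (H 0 1) tot) • g (gg (Z 0) (cp p)) • ξ =
      g (gg (Z 1) (cp p)) • g (gg (Z 0) (cp p)) • g (gg (Z 1) tot) • g (gg (H 0 1) tot) •
        g (gg (Z 1) (cp p)) • ξ :=
    Odd_act hg hp [(Z 1, 3), (H 0 1, 3), (Z 0, 0)]
      [(Z 1, 0), (Z 0, 0), (Z 1, 3), (H 0 1, 3), (Z 1, 0)] (by decide +kernel) ξ
  have h5 : ∀ o c, 0 ∉ Gate.supp o →
      g (gg o c) • g (gg (Z 0) (cp p)) • ξ = g (gg (Z 0) (cp p)) • ξ := fun o c ho => by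
    rw [← mul_smul, (hg.dis o (Z 0) c (cp p) (Finset.disjoint_singleton_right.2 ho)).eq, mul_smul,
      h2 o c ho]
  refine ⟨⟨F0_zeta hg _ h1, h5, by rw [e1, h3, smul_neg]⟩, ?_⟩
  rw [e3, e2, h2 (Z 1) _ (by decide), ← smul_add, ← smul_add, h4, usmul_smul, usmul_smul,
    h5 (Z 1) _ (by decide)]

theorem F2_odd (hg : GRel orth ctx g) {p q : Option P} (hpq : orthO orth p q) {ξ : K} (h : F2 g ξ)
    (hp : g (gg (Z 0) (cp p)) • ξ = -ξ) (hq : g (gg (Z 0) (cp q)) • ξ = -ξ) : ξ = 0 := by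
  obtain ⟨⟨-, h2, -⟩, h4⟩ := h
  have y : ∀ c, g (gg (Z 1) c) • ξ = ξ := fun c => h2 (Z 1) c (by decide)
  have k0 : ⟪g (gg (H 0 1) (cp p)) • ξ, g (gg (Z 1) (cp p)) • g (gg (H 0 1) (cp p)) • ξ⟫_ℂ = 0 :=
    Odd_zero (t := g (gg (H 0 1) (cp p)) • g (gg (Z 1) (cp p)) • g (gg (H 0 1) (cp p)) • ξ)
      (hg.sq _) hp (usmul_invol (hg.sq _) _).symm (by
        conv_rhs => rw [← y (cp p)]
        exact Odd_act hg hpq [(Z 0, 0), (H 0 1, 0), (Z 1, 0), (H 0 1, 0)]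
          [(H 0 1, 0), (Z 1, 0), (H 0 1, 0), (Z 1, 0)] (by decide +kernel) ξ)
  have k1 : ⟪(g (gg (H 0 1) (cp q)) * g (gg (H 0 1) (Sum.inr (p, q)))) • ξ, g (gg (Z 1) (cp q)) •
      (g (gg (H 0 1) (cp q)) * g (gg (H 0 1) (Sum.inr (p, q)))) • ξ⟫_ℂ = 0 :=
    Odd_zero (t := g (gg (H 0 1) (cp q)) • g (gg (Z 1) (cp q)) • g (gg (H 0 1) (cp q)) • ξ)
      (hg.sq _) hq (by
        rw [mul_smul, mul_smul]
        exact Odd_act hg hpq [(Z 1, 1), (H 0 1, 1), (H 0 1, 2)]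
          [(H 0 1, 1), (H 0 1, 2), (H 0 1, 1), (Z 1, 1), (H 0 1, 1)] (by decide +kernel) ξ) (by
        conv_rhs => rw [← y (cp q)]
        exact Odd_act hg hpq [(Z 0, 1), (H 0 1, 1), (Z 1, 1), (H 0 1, 1)]
          [(H 0 1, 1), (Z 1, 1), (H 0 1, 1), (Z 1, 1)] (by decide +kernel) ξ)
  have hc : Commute (g (gg (Z 1) (cp p))) (g (gg (Z 1) (cp q))) := by
    have := Odd_eq hg hpq [(Z 1, 0), (Z 1, 1)] [(Z 1, 1), (Z 1, 0)] (by decide +kernel)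
    simp only [ev_cons, ev_nil, mul_one] at this
    exact this
  refine Odd_main (hg.sq _) hc k0 k1 ?_ ?_ ?_
  · conv_rhs => rw [← y (cp q)]
    exact Odd_act hg hpq [(Z 1, 1), (H 0 1, 0)] [(H 0 1, 0), (Z 1, 1)] (by decide +kernel) ξ
  · conv_rhs => rw [← y (cp p)]
    rw [mul_smul, mul_smul]
    exact Odd_act hg hpq [(Z 1, 0), (H 0 1, 1), (H 0 1, 2)] [(H 0 1, 1), (H 0 1, 2), (Z 1, 0)]
      (by decide +kernel) ξ
  · have e : g (gg (H 0 1) (cp p)) • g (gg (H 0 1) (cp q)) • g (gg (H 0 1) (Sum.inr (p, q))) • ξ =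
        g (gg (H 0 1) tot) • ξ :=
      Odd_act hg hpq [(H 0 1, 0), (H 0 1, 1), (H 0 1, 2)] [(H 0 1, 3)] (by decide +kernel) ξ
    have h5 := congrArg (fun η => ⟪ξ, η⟫_ℂ) h4
    simp only [inner_add_right, uinner_fix (y tot), inner_smul_right] at h5
    rw [uinner_invol (hg.sq _), mul_smul, e, two_mul, h5]

end Pool.Agent.Work.MP_3b70de_al.E
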