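import Pool.Agent.Work.MP_3b70de_al.E.ExQ
import Pool.Agent.Work.MP_3b70de_al.E.Odd

/-! The projections `q` and `Pp p` in the C*-algebra.

Plan. `q` from `exists_q`, `z p = g (gg (Z 0) (cp (some p)))`, `Pp p = (1/2) • (q - z p * q)`.
By `eq_of_reps`: `z p * q = q * z p` (`IsProj.comm_invol`, `F2_zeta`), `ζ * q = -q`. For `orth p p'`
the vector `η = π (Pp p * Pp p') ξ` has `π q η = η`, `z p η = -η`, `z p' η = -η` (`zeta_comm`), so
`η = 0` (`F2_odd`). For a pairwise orthogonal list `l`, by induction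
`ev z l * q = q - 2 • (l.map Pp).sum` (`z p * q = q - 2 • Pp p`); `hg.ctx`.
Last part: if `c` commutes with all `g s`, then `π c` preserves `F2`, so `q * c * q = c * q`; the
same for `star c` (`star_of_sq`); take stars. -/

namespace Pool.Agent.Work.MP_3b70de_al.E

open Gate

theorem CoreC_F2 {P K : Type} [NormedAddCommGroup K] [InnerProductSpace ℂ K] [CompleteSpace K]
    {g : Gen P → UH K} {T : K →L[ℂ] K} (hT : ∀ s ξ, g s • T ξ = T (g s • ξ)) {ξ : K}
    (h : F2 g ξ) : F2 g (T ξ) := by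
  refine ⟨⟨fun i j a hij => ?_, fun o c ho => ?_, ?_⟩, ?_⟩
  · exact (hT _ _).trans (congrArg T (h.1.1 i j a hij))
  · rw [hT, h.1.2.1 o c ho]
  · rw [hT, h.1.2.2, map_neg]
  · rw [hT, hT, ← map_add, h.2, map_smul]

theorem CoreC_proj {C : Type} [CStarAlgebra C] {q z : C} (hq : IsStarProjection q)
    (hz : z * z = 1) (hs : star z = z) (hc : q * z = z * q) :
    IsStarProjection ((1 / 2 : ℂ) • (q - z * q)) ∧
      q * ((1 / 2 : ℂ) • (q - z * q)) = (1 / 2 : ℂ) • (q - z * q) ∧
      z * ((1 / 2 : ℂ) • (q - z * q)) = -((1 / 2 : ℂ) • (q - z * q)) := by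
  have h1 : q * q = q := hq.isIdempotentElem.eq
  have h2 : q * ((1 / 2 : ℂ) • (q - z * q)) = (1 / 2 : ℂ) • (q - z * q) := by
    rw [mul_smul_comm, mul_sub, ← mul_assoc, hc, mul_assoc, h1]
  have h3 : z * ((1 / 2 : ℂ) • (q - z * q)) = -((1 / 2 : ℂ) • (q - z * q)) := by
    rw [mul_smul_comm, mul_sub, ← mul_assoc, hz, one_mul, ← smul_neg, neg_sub]
  refine ⟨⟨?_, ?_⟩, h2, h3⟩
  · rw [IsIdempotentElem, smul_mul_assoc, sub_mul, mul_assoc, h2, h3]
    module
  · rw [IsSelfAdjoint, star_smul, star_sub, star_mul, hs, hq.isSelfAdjoint.star_eq, hc]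
    simp

theorem coreC {P ι C : Type} [Finite P] [CStarAlgebra C] {orth : P → P → Prop}
    {ctx : ι → List P} {g : Gen P → unitary C} (hg : GRel orth ctx g)
    (hctx : ∀ k, (ctx k).Pairwise orth) :
    ∃ (q : C) (Pp : P → C), IsStarProjection q ∧ (∀ p, IsStarProjection (Pp p)) ∧
      (∀ p, q * Pp p = Pp p) ∧ (∀ p p', orth p p' → Pp p * Pp p' = 0) ∧
      (∀ k, ((ctx k).map Pp).sum = q) ∧
      (∀ (H : Type) [NormedAddCommGroup H] [InnerProductSpace ℂ H] [CompleteSpace H]
        (π : C →⋆ₐ[ℂ] (H →L[ℂ] H)) (ξ : H), F2 (fun s => umap π (g s)) ξ →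
          π q ξ = ξ ∧ ∀ p, π (Pp p) ξ =
            (1 / 2 : ℂ) • (ξ - umap π (g (gg (Z 0) (cp (some p)))) • ξ)) ∧
      ∀ c : C, (∀ s, Commute c (g s)) → Commute c q ∧ ∀ p, Commute c (Pp p) := by
    obtain ⟨q, hq, hπ⟩ := exists_q hg
    have h1 : q * q = q := hq.isIdempotentElem.eq
    have hsq : ∀ s, (g s : C) * g s = 1 := fun s => congrArg Subtype.val (hg.sq s)
    obtain ⟨z, hz⟩ : ∃ z : P → C, ∀ p, (g (gg (Z 0) (cp (some p))) : C) = z p := ⟨_, fun _ => rfl⟩
    have hc : ∀ p, q * z p = z p * q := fun p => eq_of_reps fun H _ _ _ π ξ => by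
      rw [map_mul, map_mul, ← hz]
      exact (hπ H π).comm_invol ((hg.map (umap π)).sq _)
        (fun _ h => F2_zeta (hg.map (umap π)) (some p) h) ξ
    have hζ : (g (gg (Z 0) tot) : C) * q = -q := eq_of_reps fun H _ _ _ π ξ => by
      rw [map_mul, map_neg]
      exact ((hπ H π).mem ξ).1.2.2
    have hP := fun p => CoreC_proj hq (hz p ▸ hsq _) (hz p ▸ star_of_sq (hg.sq _)) (hc p)
    obtain ⟨Pp, hPp⟩ : ∃ Pp : P → C, ∀ p, (1 / 2 : ℂ) • (q - z p * q) = Pp p := ⟨_, fun _ => rfl⟩
    simp only [hPp] at hP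
    have hcm : ∀ c p, Commute c q → Commute c (z p) → Commute c (Pp p) := fun c p h h' =>
      hPp p ▸ (h.sub_right (h'.mul_right h)).smul_right _
    have hzq : ∀ p, z p * q = q - (2 : ℂ) • Pp p := fun p => by
      rw [← hPp]
      module
    have ho : ∀ p p', orth p p' → Pp p * Pp p' = 0 := fun p p' h => by
      have h2 : Commute (z p') (z p) :=
        hz p ▸ hz p' ▸ (zeta_comm hg (p := some p) (q := some p') h).symm.map (unitary C).subtype
      have h3 : q * (Pp p * Pp p') = Pp p * Pp p' := by rw [← mul_assoc, (hP p).2.1]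
      have h4 : z p * (Pp p * Pp p') = -(Pp p * Pp p') := by rw [← mul_assoc, (hP p).2.2, neg_mul]
      have h5 : z p' * (Pp p * Pp p') = -(Pp p * Pp p') := by
        rw [← mul_assoc, (hcm _ p (hc p').symm h2).eq, mul_assoc, (hP p').2.2, mul_neg]
      generalize Pp p * Pp p' = y at *
      refine eq_zero_of_reps fun H _ _ _ π ξ => F2_odd (hg.map (umap π)) (p := some p)
        (q := some p') h (((hπ H π).2 _).1 ?_) ?_ ?_
      · rw [← mul_apply_eq_comp, ← map_mul, h3]
      · rw [umap_smul, hz, ← mul_apply_eq_comp, ← map_mul, h4, map_neg]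
        rfl
      · rw [umap_smul, hz, ← mul_apply_eq_comp, ← map_mul, h5, map_neg]
        rfl
    have hl : ∀ (a : P) (l : List P), (∀ p ∈ l, orth a p) →
        z a * (l.map Pp).sum = (l.map Pp).sum := fun a l h => by
      rw [← List.sum_map_mul_left]
      refine congrArg _ (List.map_congr_left fun p hp => ?_)
      conv_lhs => rw [← (hP p).2.1, ← mul_assoc, hzq, sub_mul, smul_mul_assoc, ho a p (h p hp),
        smul_zero, sub_zero, (hP p).2.1]
    have he : ∀ l : List P, l.Pairwise orth →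
        (ev (fun p => g (gg (Z 0) (cp (some p)))) l : unitary C) * q =
          q - (2 : ℂ) • (l.map Pp).sum := fun l h => by
      induction l with
      | nil => simp
      | cons a l ih =>
        rw [List.pairwise_cons] at h
        rw [ev_cons, Submonoid.coe_mul, mul_assoc, ih h.2, hz, mul_sub, mul_smul_comm, hl a l h.1,
          hzq, List.map_cons, List.sum_cons, smul_add, sub_sub]
    have hcq : ∀ c : C, (∀ s, Commute c (g s)) → q * (c * q) = c * q := fun c h =>
      eq_of_reps fun H _ _ _ π ξ => by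
        rw [map_mul π q, map_mul π c]
        refine (hπ H π).fix (CoreC_F2 (T := π c) (fun s η => ?_) ((hπ H π).mem ξ))
        rw [umap_smul, umap_smul, ← mul_apply_eq_comp, ← map_mul, ← (h s).eq, map_mul]
        rfl
    refine ⟨q, Pp, hq, fun p => (hP p).1, fun p => (hP p).2.1, ho, fun k => ?_,
      fun H _ _ _ π ξ h => ⟨(hπ H π).fix h, fun p => ?_⟩, fun c h => ?_⟩
    · have h2 := he _ (hctx k)
      rw [hg.ctx, hζ] at h2
      linear_combination (norm := module) (1 / 2 : ℂ) • h2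
    · rw [← hPp, map_smul, map_sub, map_mul, umap_smul, hz, smul_apply,
        sub_apply, mul_apply_eq_comp, (hπ H π).fix h]
    · have h2 := congrArg star (hcq (star c) fun s => star_of_sq (hg.sq s) ▸ (h s).star_star)
      rw [star_mul, star_mul, star_star, hq.isSelfAdjoint.star_eq, mul_assoc, hcq c h] at h2
      exact ⟨h2, fun p => hcm c p h2 (hz p ▸ h _)⟩

end Pool.Agent.Work.MP_3b70de_al.E
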