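import Pool.Agent.Work.MP_3b70de_al.E.GN
import Pool.Agent.Work.MP_3b70de_al.Defs3
import Mathlib.Combinatorics.SimpleGraph.Maps

/-! Maps out of the isomorphism game algebra.

Plan. `corner_lift`: the corner `{x : C // q * x = x ∧ x * q = x}` (a structure or type synonym) is a
unital C*-algebra with unit `q` (closed non-unital star subalgebra; `Ring`, `NormedRing`,
`Algebra.ofModule`, `NormedAlgebra`, `CompleteSpace`, `CStarRing`); apply the universal property and
compose with the inclusion. `isoAlg_ind`: the closed subalgebra is a C*-algebra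
(`StarSubalgebra.cstarAlgebra`), the universal property gives `A → S`, and by uniqueness the
composite with the inclusion is the identity. `inj_of_reps`: if `φ a = 0`, for a representation `ρ`
of `A` take `K, π, J`; `{a | ∀ w, π (φ a) (J w) = J (ρ a w) ∧ π (φ (star a)) (J w) = J (ρ (star a) w)}`
is a closed star subalgebra (`φ` is continuous: `NonUnitalStarAlgHom.norm_apply_le`) containing the
generators; so `J (ρ a w) = 0`; `eq_zero_of_reps`. `iso_of_char`: `c g h ∈ {0, 1}`, exactly one `1` in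
each row and column. -/

namespace Pool.Agent.Work.MP_3b70de_al.E

variable {V W : Type} [Fintype V] [Fintype W] {G : SimpleGraph V} {H : SimpleGraph W}
  {A : Type} [CStarAlgebra A] {p : V → W → A} {C : Type} [CStarAlgebra C]

/-- A non-unital C*-algebra with a unit element is a unital C*-algebra. -/
@[reducible] noncomputable def Corner_alg (B : Type) [i : NonUnitalCStarAlgebra B] (e : B)
    (h1 : ∀ x, e * x = x) (h2 : ∀ x, x * e = x) : CStarAlgebra B :=
  letI r : Ring B := { i.toNonUnitalRing with one := e, one_mul := h1, mul_one := h2 }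
  letI n : NormedRing B := { r, i.toNonUnitalNormedRing with }
  letI a : Algebra ℂ B := Algebra.ofModule smul_mul_assoc mul_smul_comm
  { n, a, i with norm_smul_le := norm_smul_le }

/-- The corner as a non-unital star subalgebra. -/
def Corner_sub {q : C} (hq : IsStarProjection q) : NonUnitalStarSubalgebra ℂ C where
  carrier := {x | q * x = x ∧ x * q = x}
  add_mem' ha hb := ⟨by rw [mul_add, ha.1, hb.1], by rw [add_mul, ha.2, hb.2]⟩
  zero_mem' := ⟨mul_zero _, zero_mul _⟩
  mul_mem' ha hb := ⟨by rw [← mul_assoc, ha.1], by rw [mul_assoc, hb.2]⟩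
  smul_mem' c x h := ⟨by rw [mul_smul_comm, h.1], by rw [smul_mul_assoc, h.2]⟩
  star_mem' {x} h := ⟨by rw [← hq.isSelfAdjoint.star_eq, ← star_mul, h.2],
    by rw [← hq.isSelfAdjoint.star_eq, ← star_mul, h.1]⟩

theorem Corner_closed {q : C} (hq : IsStarProjection q) : IsClosed (Corner_sub hq : Set C) :=
  (isClosed_eq (continuous_const.mul continuous_id) continuous_id).inter
    (isClosed_eq (continuous_id.mul continuous_const) continuous_id)

theorem Corner_cont {F : Type} [FunLike F A C] [NonUnitalAlgHomClass F ℂ A C] [StarHomClass F A C]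
    (φ : F) : Continuous φ :=
  AddMonoidHomClass.continuous_of_bound φ 1 fun x => by
    rw [one_mul]; exact NonUnitalStarAlgHom.norm_apply_le φ x

theorem corner_lift (hA : IsIsoAlg G H p) {q : C} (hq : IsStarProjection q) {P : V → W → C}
    (h1 : ∀ g h, IsStarProjection (P g h)) (h2 : ∀ g h, q * P g h = P g h)
    (h3 : ∀ g, ∑ h, P g h = q) (h4 : ∀ h, ∑ g, P g h = q)
    (h5 : ∀ g g' h h', ¬ ((g = g' ↔ h = h') ∧ (G.Adj g g' ↔ H.Adj h h')) → P g h * P g' h' = 0) :
    ∃ φ : A →⋆ₙₐ[ℂ] C, φ 1 = q ∧ ∀ g h, φ (p g h) = P g h := by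
  have := Corner_closed hq
  have hm : ∀ g h, P g h ∈ Corner_sub hq := fun g h => ⟨h2 g h, by
    rw [← (h1 g h).isSelfAdjoint.star_eq, ← hq.isSelfAdjoint.star_eq, ← star_mul, h2 g h]⟩
  let e : Corner_sub hq := ⟨q, hq.isIdempotentElem.eq, hq.isIdempotentElem.eq⟩
  let ι : Corner_sub hq →⋆ₙₐ[ℂ] C := NonUnitalStarSubalgebraClass.subtype (Corner_sub hq)
  let : CStarAlgebra (Corner_sub hq) := Corner_alg (Corner_sub hq) e
    (fun x => Subtype.ext x.2.1) (fun x => Subtype.ext x.2.2)
  obtain ⟨ψ, hψ, -⟩ := hA.2 (Corner_sub hq) (fun g h => ⟨P g h, hm g h⟩)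
    ⟨fun g h => Subtype.ext (h1 g h).isIdempotentElem.eq,
      fun g h => Subtype.ext (h1 g h).isSelfAdjoint.star_eq,
      fun g => Subtype.ext ((map_sum ι _ _).trans (h3 g)),
      fun h => Subtype.ext ((map_sum ι _ _).trans (h4 h)),
      fun g g' h h' hn => Subtype.ext (h5 g g' h h' hn)⟩
  exact ⟨ι.comp (ψ : A →⋆ₙₐ[ℂ] Corner_sub hq), congrArg ι (map_one ψ),
    fun g h => congrArg ι (hψ g h)⟩

theorem isoAlg_ind (hA : IsIsoAlg G H p) (S : StarSubalgebra ℂ A) (hS : IsClosed (S : Set A))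
    (hp : ∀ g h, p g h ∈ S) (a : A) : a ∈ S := by
  obtain ⟨a1, a2, a3, a4, a5⟩ := hA.1
  obtain ⟨ψ, hψ, -⟩ := hA.2 S (fun g h => ⟨p g h, hp g h⟩)
    ⟨fun g h => Subtype.ext (a1 g h), fun g h => Subtype.ext (a2 g h),
      fun g => Subtype.ext ((map_sum S.subtype _ _).trans (a3 g)),
      fun h => Subtype.ext ((map_sum S.subtype _ _).trans (a4 h)),
      fun g g' h h' hn => Subtype.ext (a5 g g' h h' hn)⟩
  have e : S.subtype.comp ψ = StarAlgHom.id ℂ A :=
    (hA.2 A p hA.1).unique (fun g h => congrArg S.subtype (hψ g h)) fun _ _ => rfl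
  have e' : (ψ a : A) = a := DFunLike.congr_fun e a
  exact e' ▸ (ψ a).2

theorem inj_of_reps (hA : IsIsoAlg G H p) (φ : A →⋆ₙₐ[ℂ] C)
    (h : ∀ (L : Type) [NormedAddCommGroup L] [InnerProductSpace ℂ L] [CompleteSpace L]
      (ρ : A →⋆ₐ[ℂ] (L →L[ℂ] L)),
      ∃ (K : Type) (_ : NormedAddCommGroup K) (_ : InnerProductSpace ℂ K) (_ : CompleteSpace K)
        (π : C →⋆ₐ[ℂ] (K →L[ℂ] K)) (J : L →ₗᵢ[ℂ] K), (∀ w, π (φ 1) (J w) = J w) ∧
        ∀ g h w, π (φ (p g h)) (J w) = J (ρ (p g h) w)) : Function.Injective φ := by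
  rw [injective_iff_map_eq_zero]
  intro a ha
  refine eq_zero_of_reps fun L _ _ _ ρ ξ => ?_
  obtain ⟨K, _, _, _, π, J, h1, h2⟩ := h L ρ
  let T : Subalgebra ℂ A :=
    { carrier := {a | ∀ w, π (φ a) (J w) = J (ρ a w)}
      mul_mem' := fun {a b} ha hb w => by
        rw [map_mul, map_mul, map_mul, mul_apply_eq_comp, mul_apply_eq_comp, hb, ha]
      add_mem' := fun {a b} ha hb w => by
        rw [map_add, map_add, map_add, add_apply, add_apply, hb, ha, map_add]
      algebraMap_mem' := fun c w => by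
        rw [Algebra.algebraMap_eq_smul_one, map_smul, map_smul, map_smul, map_one ρ, smul_apply,
          smul_apply, h1, map_smul, one_apply_eq_self] }
  have hT : IsClosed (T : Set A) := by
    have e : (T : Set A) = ⋂ w, {a | π (φ a) (J w) = J (ρ a w)} := by
      ext a
      rw [Set.mem_iInter]
      rfl
    rw [e]
    exact isClosed_iInter fun w => isClosed_eq
      (((Corner_cont π).comp (Corner_cont φ)).clm_apply continuous_const)
      (J.continuous.comp ((Corner_cont ρ).clm_apply continuous_const))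
  let S : StarSubalgebra ℂ A :=
    { toSubalgebra := T ⊓ star T
      star_mem' := fun {x} hx => ⟨hx.2, (Subalgebra.star_mem_star_iff T x).2 hx.1⟩ }
  have hS : IsClosed (S : Set A) := hT.inter (hT.preimage continuous_star)
  have h3 := (isoAlg_ind hA S hS (fun g h => ⟨h2 g h, by
    change star (p g h) ∈ T
    rw [hA.1.2.1]
    exact h2 g h⟩) a).1 ξ
  rw [ha, map_zero, zero_apply] at h3
  exact J.injective (h3.symm.trans (map_zero J).symm)

theorem iso_of_char {c : V → W → ℂ} (hc : IsoRel G H c) : Nonempty (G ≃g H) := by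
  classical
  obtain ⟨a1, -, a3, a4, a5⟩ := hc
  have h1 : ∀ g, ∃ h, c g h ≠ 0 := fun g => by
    obtain ⟨h, -, e⟩ := Finset.exists_ne_zero_of_sum_ne_zero ((a3 g).trans_ne one_ne_zero)
    exact ⟨h, e⟩
  have h2 : ∀ h, ∃ g, c g h ≠ 0 := fun h => by
    obtain ⟨g, -, e⟩ := Finset.exists_ne_zero_of_sum_ne_zero ((a4 h).trans_ne one_ne_zero)
    exact ⟨g, e⟩
  have h3 : ∀ {g g' h h'}, c g h ≠ 0 → c g' h' ≠ 0 →
      (g = g' ↔ h = h') ∧ (G.Adj g g' ↔ H.Adj h h') := fun e e' =>
    by_contra fun hn => mul_ne_zero e e' (a5 _ _ _ _ hn)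
  choose f hf using h1
  choose f' hf' using h2
  exact ⟨⟨⟨f, f', fun g => (h3 (hf' (f g)) (hf g)).1.2 rfl,
    fun h => (h3 (hf (f' h)) (hf' h)).1.1 rfl⟩, (h3 (hf _) (hf _)).2.symm⟩⟩

theorem char_of_iso (e : G ≃g H) : ∃ c : V → W → ℂ, IsoRel G H c := by
  classical
  refine ⟨fun g h => if e g = h then 1 else 0, fun g h => ?_, fun g h => ?_, fun g => ?_,
    fun h => ?_, fun g g' h h' hn => ?_⟩
  · dsimp only
    split_ifs <;> simp
  · dsimp only
    split_ifs <;> simp
  · simp
  · have : ∀ g, e g = h ↔ g = e.symm h := fun g => e.toEquiv.eq_symm_apply.symm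
    simp [this]
  · dsimp only
    split_ifs with e1 e2
    · subst e1 e2
      exact (hn ⟨e.injective.eq_iff.symm, e.map_adj_iff.symm⟩).elim
    · simp
    · simp
    · simp

end Pool.Agent.Work.MP_3b70de_al.E
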