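import Pool.Agent.Work.MP_3b70de_al.E.Cert
import Pool.Agent.Work.MP_3b70de_al.E.Chk

/-! The Gram inequality.

Plan. `γ o = g (gg o tot)`, `φ w = ⟪ξ, ev γ w • ξ⟫`. A word of gates with `0 ∉ supp` fixes `ξ`.
`⟪ev γ (gw i) • ξ, ev γ (gw j) • ξ⟫ = φ ((gw i).reverse ++ gw j)` (`ev_reverse`, `uinner_inv`). By
`hg.totc (certWord i j)` (`cert_chk`): kind `0` gives `ζ w = w k`, so
`φ w = ⟪ξ, w k ξ⟫ = ⟪ξ, ζ w ξ⟫ = ⟪ζ ξ, w ξ⟫ = -φ w`; the other kinds give `w = k b k'`, so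
`φ w = φ b` (`uinner_fix`). Hence for real `c : Fin 11 → ℝ`,
`0 ≤ ‖∑ c i • ev γ (gw i) • ξ‖² = ‖ξ‖² * ∑ i j, c i * c j * ![0, 1, t, t ^ 2] (cert i j).1`
(`cert_kind`, `Fin.sum_univ_succ`). With `c = (kap, -1/2, -1/2, 0, ...)`: `1 - 2 kap t ≥ 0`, so
`t ≤ kap`. With `c = (1, six times -√2/3, four times 1/2)`: `10/3 - 8 √2 t + (28/3) t² ≥ 0`, whose
roots are `kap = √2/2` and `5 √2 / 14 = kap - √2/7 ≤ kap - 1/5`.
`F2_iff`: `u = h ξ + Z1 h ξ` has `‖u‖² = 2 ‖ξ‖²` (entry `(1, 2)` of the table is `0`) and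
`⟪ξ, u⟫ = 2 ⟪ξ, h ξ⟫`; expand `‖u - √2 ξ‖²`. -/

namespace Pool.Agent.Work.MP_3b70de_al.E

open scoped InnerProductSpace
open Gate

variable {P ι K : Type} [NormedAddCommGroup K] [InnerProductSpace ℂ K] [CompleteSpace K]
  {orth : P → P → Prop} {ctx : ι → List P} {g : Gen P → UH K}

theorem Gram_fix {ξ : K} (h : F1 g ξ) : ∀ w : List Gate, (∀ o ∈ w, 0 ∉ o.supp) →
    ev (fun o => g (gg o tot)) w • ξ = ξ
  | [], _ => one_smul _ _
  | o :: w, hw => by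
    rw [ev_cons, mul_smul, Gram_fix h w fun o ho => hw o (List.mem_cons_of_mem _ ho),
      h.2.1 o _ (hw o List.mem_cons_self)]

theorem Gram_ent (hg : GRel orth ctx g) {ξ : K} (h : F1 g ξ) (i j : Fin 11) :
    ⟪ev (fun o => g (gg o tot)) (gw i) • ξ, ev (fun o => g (gg o tot)) (gw j) • ξ⟫_ℂ =
      ![0, ⟪ξ, ξ⟫_ℂ, ⟪ξ, g (gg (H 0 1) tot) • ξ⟫_ℂ,
        ⟪ξ, g (gg (H 0 1) tot) • g (gg (H 0 2) tot) • ξ⟫_ℂ] (cert i j).1 := by
  have e := hg.totc _ (cert_chk i j).1 (cert_chk i j).2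
  have k1 := Gram_fix h _ (cert_stab i j).1
  have k2 := Gram_fix h _ (cert_stab i j).2
  have r := ev_reverse (g := fun o => g (gg o tot)) fun o => hg.sq _
  rw [uinner_inv, ← mul_smul, ← r, ← ev_append]
  unfold certWord at e
  generalize (gw i).reverse ++ gw j = w at e ⊢
  generalize cert i j = c at e k1 k2 ⊢
  obtain ⟨k, u, v⟩ := c
  dsimp only at e k1 k2 ⊢
  split_ifs at e with h0
  · subst h0
    rw [ev_append, ev_append, ev_cons, r, r, mul_inv_eq_one, mul_inv_eq_iff_eq_mul] at e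
    have e1 := congrArg (fun U : UH K => ⟪ξ, U • ξ⟫_ℂ) e
    simp only [mul_smul, k1] at e1
    rw [← uinner_invol (hg.sq _), h.2.2, inner_neg_left] at e1
    change _ = 0
    linear_combination (-1 / 2 : ℂ) * e1
  · rw [ev_append, ev_append, ev_append, r, mul_assoc, mul_assoc, inv_mul_eq_one] at e
    rw [e, mul_smul, mul_smul, k2, uinner_fix k1]
    fin_cases k
    · exact absurd rfl h0
    all_goals simp [gb, mul_smul]

theorem gram (hg : GRel orth ctx g) {ξ : K} (h : F1 g ξ) (h0 : ξ ≠ 0) {t : ℝ}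
    (h1 : ⟪ξ, g (gg (H 0 1) tot) • ξ⟫_ℂ = (t : ℂ) * ⟪ξ, ξ⟫_ℂ)
    (h2 : ⟪ξ, g (gg (H 0 1) tot) • g (gg (H 0 2) tot) • ξ⟫_ℂ = (t : ℂ) ^ 2 * ⟪ξ, ξ⟫_ℂ) :
    t = kap ∨ t ≤ kap - 1 / 5 := by
  have key : ∀ c : Fin 11 → ℝ, 0 ≤ ∑ j, ∑ i, c i * c j * ![0, 1, t, t ^ 2] (cert i j).1 := by
    intro c
    have e : ⟪∑ i, (c i : ℂ) • ev (fun o => g (gg o tot)) (gw i) • ξ,
        ∑ j, (c j : ℂ) • ev (fun o => g (gg o tot)) (gw j) • ξ⟫_ℂ =
        ((∑ j, ∑ i, c i * c j * ![0, 1, t, t ^ 2] (cert i j).1) * ‖ξ‖ ^ 2 : ℝ) := by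
      simp only [inner_sum, sum_inner, inner_smul_left, inner_smul_right, Gram_ent hg h, h1, h2,
        Complex.conj_ofReal]
      rw [inner_self_eq_norm_sq_to_K]
      push_cast
      simp only [Finset.sum_mul, Finset.mul_sum]
      refine Finset.sum_congr rfl fun j _ => Finset.sum_congr rfl fun i _ => ?_
      generalize (cert i j).1 = k
      fin_cases k <;> simp <;> ring
    rw [inner_self_eq_norm_sq_to_K] at e
    have e' : (‖∑ i, (c i : ℂ) • ev (fun o => g (gg o tot)) (gw i) • ξ‖ ^ 2 : ℝ) =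
        (∑ j, ∑ i, c i * c j * ![0, 1, t, t ^ 2] (cert i j).1) * ‖ξ‖ ^ 2 :=
      Complex.ofReal_injective (by rw [← e]; simp)
    exact nonneg_of_mul_nonneg_left (e' ▸ sq_nonneg _) (by positivity)
  have ck : ∀ i j, (cert i j).1 = _ := fun i j => congrFun (congrFun cert_kind i) j
  have a := key ![kap, -1 / 2, -1 / 2, 0, 0, 0, 0, 0, 0, 0, 0]
  have b := key ![1, -(2 * kap / 3), -(2 * kap / 3), -(2 * kap / 3), -(2 * kap / 3), -(2 * kap / 3),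
    -(2 * kap / 3), 1 / 2, 1 / 2, 1 / 2, 1 / 2]
  simp only [ck, Fin.sum_univ_succ, Fin.sum_univ_zero, Matrix.cons_val_zero, Matrix.cons_val_succ,
    Matrix.cons_val] at a b
  have k := kap_sq
  have k0 : 0 < kap := by unfold kap; positivity
  have a1 : 0 ≤ 1 - 2 * kap * t := by linarith only [a, k]
  have b' : 0 ≤ (kap - t) * (5 / 7 * kap - t) := by
    linarith only [b, k, congrArg (· * t ^ 2) k]
  clear * - k k0 a1 b'
  have k1 : 7 / 10 ≤ kap := by nlinarith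
  have a' : t ≤ kap := by linarith only [mul_nonneg k0.le a1, congrArg (· * t) k]
  rcases a'.eq_or_lt with e | e
  · exact .inl e
  · exact .inr (by linarith only [nonneg_of_mul_nonneg_right b' (sub_pos.2 e), k1])

theorem F2_iff (hg : GRel orth ctx g) {ξ : K} (h : F1 g ξ) :
    F2 g ξ ↔ ⟪ξ, g (gg (H 0 1) tot) • ξ⟫_ℂ = (kap : ℂ) * ⟪ξ, ξ⟫_ℂ := by
  have ck : ∀ i j, (cert i j).1 = _ := fun i j => congrFun (congrFun cert_kind i) j
  have e1 := Gram_ent hg h 1 2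
  have e2 := Gram_ent hg h 2 1
  simp only [ck, gw, Matrix.cons_val, ev_cons, ev_nil, mul_one, mul_smul] at e1 e2
  have z := h.2.1 (Z 1) tot (by decide)
  have s : ((√2 : ℝ) : ℂ) * kap = 1 := by exact_mod_cast sqrt_mul_kap
  have s2 : ((√2 : ℝ) : ℂ) * (√2 : ℝ) = 2 := by exact_mod_cast Real.mul_self_sqrt zero_le_two
  have u := uinner_fix z (g (gg (H 0 1) tot) • ξ)
  refine ⟨fun h2 => ?_, fun h2 => ⟨h, ?_⟩⟩
  · have := congrArg (fun v => ⟪ξ, v⟫_ℂ) h2.2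
    simp only [inner_add_right, inner_smul_right, u] at this
    linear_combination this / 2 - ⟪ξ, ξ⟫_ℂ * (√2 : ℝ) / 2 * s + ⟪ξ, ξ⟫_ℂ * kap / 2 * s2
  · have v : ⟪g (gg (H 0 1) tot) • ξ, ξ⟫_ℂ = kap * ⟪ξ, ξ⟫_ℂ := by rw [uinner_invol (hg.sq _), h2]
    have w : ⟪g (gg (Z 1) tot) • g (gg (H 0 1) tot) • ξ, ξ⟫_ℂ = kap * ⟪ξ, ξ⟫_ℂ := by
      rw [uinner_invol (hg.sq _), z, v]
    rw [← sub_eq_zero, ← inner_self_eq_zero (𝕜 := ℂ)]
    simp only [inner_sub_left, inner_sub_right, inner_add_left, inner_add_right, inner_smul_left,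
      inner_smul_right, Complex.conj_ofReal, e1, e2, u, h2, v, w, uinner]
    linear_combination -4 * ⟪ξ, ξ⟫_ℂ * s + ⟪ξ, ξ⟫_ℂ * s2

end Pool.Agent.Work.MP_3b70de_al.E
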