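import Pool.Agent.Work.MP_3b70de_al.E.Stage2

/-! The compression of the Hadamard gate preserves `F1`.

Notation `h = g (gg (H 0 1) tot)`, `ζ = g (gg (Z 0) tot)`, `η = Q (h • ξ)`.
`q0h_mem`: for `α ∈ F0` and `s' = g (gg (sg' b) c)`: `⟪α, s' η⟫ = ⟪s' α, Q (h ξ)⟫ = ⟪s' α, h ξ⟫`
(conjugate of `star_gate` with `o = H 0 1`) `= ⟪α, h s' ξ⟫ = ⟪α, h ξ⟫ = ⟪α, η⟫`, so `Q (s' η) = η`
(`IsProj.eq_of_inner`), `s' η = η` (`IsProj.fix_of`), `sg_of_sg'`. Parity: `ζ η = Q (ζ h ξ)`,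
`ζ h = Z1 h Z1 ζ` (`hg.totc`), so `ζ η = -Q (Z1 h ξ)`; the vector `η' = ζ η + η` is in `F0` and fixed
by `Z1`, and `⟪η', ζ η⟫ = -⟪η', Z1 h ξ⟫ = -⟪η', h ξ⟫ = -⟪η', η⟫`, so `⟪η', η'⟫ = 0`. `F1_of_std`.
`phi2`: `ws 1 2` (`hg.rel 1 2`) commutes with `h` and turns `H 0 2` into `H 0 3`; `star_gate` with
`H 0 1`, `H 0 3`; `Q (H 0 3 • ξ) = Q (h • ξ)` by `hg.rel 0 2` and `IsProj.absorb`. -/

namespace Pool.Agent.Work.MP_3b70de_al.E

open scoped InnerProductSpace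
open Gate

variable {P ι K : Type} [NormedAddCommGroup K] [InnerProductSpace ℂ K] [CompleteSpace K]
  {orth : P → P → Prop} {ctx : ι → List P} {g : Gen P → UH K} {Q : K →L[ℂ] K}

theorem Stage3_sg (hg : GRel orth ctx g) (hQ : IsProj Q (F0 (xs g))) {ξ : K} (h : F1 g ξ)
    (b : Bool) (c : Ctl P) :
    g (gg (sg b) c) • Q (g (gg (H 0 1) tot) • ξ) = Q (g (gg (H 0 1) tot) • ξ) := by
  refine sg_of_sg' hg b c (hQ.mem _) (hQ.fix_of (hQ.eq_of_inner (hQ.mem _) fun α hα => ?_))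
  have h0 : (0 : Fin 6) ∉ (sg' b).supp := by cases b <;> decide
  have hsub : (sg' b).supp ⊆ {0, 3, 4} := by cases b <;> decide
  have hd : Disjoint (sg' b).supp (H 0 1).supp := by cases b <;> decide
  have hst := star_gate hg hQ (o := H 0 1) (o' := sg' b) tot c (by decide) hsub h.1 hα
  have hc := (hg.dis _ _ c tot hd).eq
  rw [← uinner_invol (hg.sq _), ← hQ.symm, ← inner_conj_symm, ← hst, inner_conj_symm,
    uinner_invol (hg.sq _), ← mul_smul, hc, mul_smul, h.2.1 _ c h0, hQ.inner_mem hα]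

theorem Stage3_zh (hg : GRel orth ctx g) :
    g (gg (Z 0) tot) * g (gg (H 0 1) tot) * g (gg (Z 0) tot) =
      g (gg (Z 1) tot) * g (gg (H 0 1) tot) * g (gg (Z 1) tot) := by
  have h1 := hg.totc [Z 0, H 0 1, Z 0, Z 1, H 0 1, Z 1] (by decide) (by decide)
  simp only [ev_cons, ev_nil, mul_one] at h1
  have h2 : g (gg (Z 1) tot) * g (gg (H 0 1) tot) * g (gg (Z 1) tot) *
      (g (gg (Z 1) tot) * g (gg (H 0 1) tot) * g (gg (Z 1) tot)) = 1 := by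
    have e1 := hg.sq (gg (Z 1) tot)
    have e2 := hg.sq (gg (H 0 1) tot)
    calc _ = g (gg (Z 1) tot) * (g (gg (H 0 1) tot) * (g (gg (Z 1) tot) * g (gg (Z 1) tot)) *
          g (gg (H 0 1) tot)) * g (gg (Z 1) tot) := by simp only [mul_assoc]
      _ = 1 := by rw [e1, mul_one, e2, mul_one, e1]
  refine mul_right_cancel (b := g (gg (Z 1) tot) * g (gg (H 0 1) tot) * g (gg (Z 1) tot)) ?_
  rw [h2, ← h1]
  simp only [mul_assoc]

theorem q0h_mem (hg : GRel orth ctx g) (hQ : IsProj Q (F0 (xs g))) {ξ : K} (h : F1 g ξ) :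
    F1 g (Q (g (gg (H 0 1) tot) • ξ)) := by
  refine F1_of_std hg (hQ.mem _) (Stage3_sg hg hQ h) ?_
  have hz1 : g (gg (Z 1) tot) • ξ = ξ := h.2.1 _ _ (by decide)
  have hA : g (gg (Z 1) tot) • Q (g (gg (H 0 1) tot) • ξ) = Q (g (gg (H 0 1) tot) • ξ) :=
    Stage3_sg hg hQ h false tot
  have hzh : g (gg (Z 0) tot) • g (gg (H 0 1) tot) • ξ =
      -(g (gg (Z 1) tot) • g (gg (H 0 1) tot) • ξ) := by
    have e := congrArg (fun u : UH K => u • ξ) (Stage3_zh hg)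
    simp only [mul_smul] at e
    rw [h.2.2, hz1, smul_neg, smul_neg] at e
    rw [← e, neg_neg]
  have hQz : g (gg (Z 0) tot) • Q (g (gg (H 0 1) tot) • ξ) =
      -Q (g (gg (Z 1) tot) • g (gg (H 0 1) tot) • ξ) := by
    rw [← hQ.comm_invol (hg.sq _) (fun _ hx => F0_zeta hg tot hx), hzh, map_neg]
  set η := Q (g (gg (H 0 1) tot) • ξ) with hη
  have hηm : F0 (xs g) η := hQ.mem _
  have hm : F0 (xs g) (g (gg (Z 0) tot) • η + η) := fun i j a hij => by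
    rw [smul_add, F0_zeta hg tot hηm i j a hij, hηm i j a hij]
  have hfix : g (gg (Z 1) tot) • (g (gg (Z 0) tot) • η + η) = g (gg (Z 0) tot) • η + η := by
    rw [smul_add, ← mul_smul, (hg.dis (Z 1) (Z 0) tot tot (by decide)).eq, mul_smul, hA]
  have key : ∀ y, F0 (xs g) y → g (gg (Z 1) tot) • y = y →
      ⟪y, g (gg (Z 0) tot) • η⟫_ℂ = -⟪y, η⟫_ℂ := fun y hy hf => by
    have e0 : ⟪y, η⟫_ℂ = ⟪y, g (gg (H 0 1) tot) • ξ⟫_ℂ := hQ.inner_mem hy _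
    rw [e0, hQz, inner_neg_right, hQ.inner_mem hy, uinner_fix hf]
  have h0 : ⟪g (gg (Z 0) tot) • η + η, g (gg (Z 0) tot) • η + η⟫_ℂ = 0 := by
    rw [inner_add_right, key _ hm hfix, neg_add_cancel]
  exact eq_neg_of_add_eq_zero_left (inner_self_eq_zero.1 h0)

theorem phi2 (hg : GRel orth ctx g) (hQ : IsProj Q (F0 (xs g))) {ξ : K} (h : F0 (xs g) ξ) :
    ⟪ξ, g (gg (H 0 1) tot) • g (gg (H 0 2) tot) • ξ⟫_ℂ =
      ⟪Q (g (gg (H 0 1) tot) • ξ), Q (g (gg (H 0 1) tot) • ξ)⟫_ℂ := by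
  have r1 := hg.rel 1 2 (H 0 1) tot (by decide)
  have r2 := hg.rel 1 2 (H 0 2) tot (by decide)
  have r3 := hg.rel 0 2 (H 0 1) tot (by decide)
  have q1 : (H 0 1).relab (Equiv.swap (1 : Fin 5).succ (2 : Fin 5).succ) = H 0 1 := by decide
  have q2 : (H 0 2).relab (Equiv.swap (1 : Fin 5).succ (2 : Fin 5).succ) = H 0 3 := by decide
  have q3 : (H 0 1).relab (Equiv.swap (0 : Fin 5).succ (2 : Fin 5).succ) = H 0 3 := by decide
  rw [q1] at r1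
  rw [q2] at r2
  rw [q3] at r3
  have w1 : ws (xs g) 1 2 (lk 1) (lk 1) • ξ = ξ := h.ws (by decide) _ _
  have w2 : ws (xs g) 0 2 (lk 1) (lk 1) • ξ = ξ := h.ws (by decide) _ _
  have e1 : ws (xs g) 1 2 (lk 1) (lk 1) • g (gg (H 0 1) tot) • g (gg (H 0 2) tot) • ξ =
      g (gg (H 0 1) tot) • g (gg (H 0 3) tot) • ξ := by
    rw [← mul_smul, r1, mul_smul, ← mul_smul (ws _ _ _ _ _), r2, mul_smul, w1]
  have e2 : Q (g (gg (H 0 3) tot) • ξ) = Q (g (gg (H 0 1) tot) • ξ) := by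
    rw [← hQ.absorb (u := ws (xs g) 0 2 (lk 1) (lk 1)) (fun _ hx => hx.ws (by decide) _ _)
      (g (gg (H 0 1) tot) • ξ), ← mul_smul, r3, mul_smul, w2]
  rw [← uinner_fix w1, e1, ← uinner_invol (hg.sq _),
    star_gate hg hQ tot tot (by decide) (by decide) h h, e2, hQ.inner_self]

end Pool.Agent.Work.MP_3b70de_al.E
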