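import Pool.Agent.Work.MP_3b70de_al.E.ExS
import Pool.Agent.Work.MP_3b70de_al.E.Stage3
import Pool.Agent.Work.MP_3b70de_al.E.Gram

/-! The projection onto `F2` lies in the C*-algebra.

Plan. `S` from `exists_S`, `h = g (gg (H 0 1) tot)`, `D = (1 - S) + (kap • S - S * h * S)`,
`exists_proj` with `c = 1/5`. In a representation let `D ξ = t ξ`, `ξ ≠ 0`. Apply `1 - S`:
`(1 - S) ξ = t (1 - S) ξ`; so `t = 1` or `S ξ = ξ`. In the second case `S (h ξ) = (kap - t) ξ`. Let `Q`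
be the projection onto `F0` (`exists_isProj` for the set of the `xs _ i j a`, `i ≠ j`, or `π` of
`exists_Q0`); `Q (h ξ) ∈ F1` (`q0h_mem`), so `Q (h ξ) = S (Q (h ξ)) = S (h ξ)` (`IsProj.of_le`);
`phi2` and `gram` with `kap - t`. Kernel: `D ξ = 0` gives `S ξ = ξ`, `S (h ξ) = kap ξ`, so `F2` by
`F2_iff`; conversely on `F2`, `√2 ξ = S (h ξ + Z1 h ξ) = 2 S (h ξ)` (`IsProj.absorb`). -/

namespace Pool.Agent.Work.MP_3b70de_al.E

section

open scoped InnerProductSpace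
open Gate

variable {P ι K : Type} [NormedAddCommGroup K] [InnerProductSpace ℂ K] [CompleteSpace K]
  {orth : P → P → Prop} {ctx : ι → List P} {g : Gen P → UH K} {S : K →L[ℂ] K}

theorem ExQ_split {F : K → Prop} (hS : IsProj S F) (u : UH K) (k : ℂ) {ξ : K} {t : ℂ}
    (ht : (ξ - S ξ) + (k • S ξ - S (u • S ξ)) = t • ξ) (h1 : t ≠ 1) :
    S ξ = ξ ∧ S (u • ξ) = (k - t) • ξ := by
  have h2 := congrArg S ht
  simp only [map_add, map_sub, map_smul, hS.idem, sub_self, zero_add] at h2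
  rw [h2] at ht
  have h3 : (1 - t) • (ξ - S ξ) = 0 := by
    rw [sub_smul, one_smul, smul_sub, ← ht]
    abel
  have h4 : S ξ = ξ :=
    (sub_eq_zero.1 ((smul_eq_zero.1 h3).resolve_left (sub_ne_zero.2 h1.symm))).symm
  refine ⟨h4, ?_⟩
  rw [h4] at h2
  rw [sub_smul, ← h2]
  abel

theorem ExQ_eig (hg : GRel orth ctx g) (hS : IsProj S (F1 g)) {ξ : K} (hξ : ξ ≠ 0) {t : ℝ}
    (ht : (ξ - S ξ) + (((kap : ℝ) : ℂ) • S ξ - S (g (gg (H 0 1) tot) • S ξ)) = (t : ℂ) • ξ) :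
    t = 0 ∨ 1 / 5 ≤ |t| := by
  by_cases h1 : t = 1
  · right
    rw [h1]
    norm_num
  obtain ⟨h2, h3⟩ := ExQ_split hS _ _ ht (by exact_mod_cast h1)
  have hF : F1 g ξ := (hS.2 ξ).1 h2
  obtain ⟨Q, hQ'⟩ := exists_isProj (H := K) {u | ∃ i j a, i ≠ j ∧ u = xs g i j a}
  have hQ : IsProj Q (F0 (xs g)) := ⟨hQ'.1, fun η => (hQ'.2 η).trans
    ⟨fun h i j a hij => h _ ⟨i, j, a, hij, rfl⟩, fun h u ⟨i, j, a, hij, hu⟩ => hu ▸ h i j a hij⟩⟩
  have h4 : Q (g (gg (H 0 1) tot) • ξ) = ((kap - t : ℝ) : ℂ) • ξ := by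
    rw [← hS.fix (q0h_mem hg hQ hF), hS.of_le hQ (fun _ h => h.1), h3, Complex.ofReal_sub]
  have h5 := gram hg hF hξ (t := kap - t)
    (by rw [← hS.inner_mem hF, h3, inner_smul_right, Complex.ofReal_sub])
    (by rw [phi2 hg hQ hF.1, h4, inner_smul_left, inner_smul_right, Complex.conj_ofReal]; ring)
  rcases h5 with h5 | h5
  · left; linarith
  · right
    exact le_trans (by linarith) (le_abs_self t)

theorem ExQ_ker (hg : GRel orth ctx g) (hS : IsProj S (F1 g)) (ξ : K) :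
    (ξ - S ξ) + (((kap : ℝ) : ℂ) • S ξ - S (g (gg (H 0 1) tot) • S ξ)) = 0 ↔ F2 g ξ := by
  constructor
  · intro ht
    obtain ⟨h2, h3⟩ := ExQ_split (t := 0) hS _ _ (by rw [ht, zero_smul]) zero_ne_one
    have hF : F1 g ξ := (hS.2 ξ).1 h2
    rw [F2_iff hg hF, ← hS.inner_mem hF, h3, inner_smul_right, sub_zero]
  · rintro ⟨hF, h2⟩
    have h3 := congrArg S h2
    rw [map_add, hS.absorb (u := g (gg (Z 1) tot))
      (fun η hη => hη.2.1 (Z 1) tot (by simp [Gate.supp])),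
      S.map_smul ((√2 : ℝ) : ℂ) ξ, hS.fix hF] at h3
    have h4 : ((√2 : ℝ) : ℂ) = 2 * ((kap : ℝ) : ℂ) := by
      have h5 : (√2 : ℝ) = 2 * kap := by
        have h6 : (√2 : ℝ) ≠ 0 := by positivity
        unfold kap
        field_simp
        exact Real.sq_sqrt (by norm_num)
      rw [h5]
      push_cast
      rfl
    rw [h4, mul_smul, ← two_smul ℂ] at h3
    have h7 : S (g (gg (H 0 1) tot) • ξ) = ((kap : ℝ) : ℂ) • ξ :=
      smul_right_injective K (two_ne_zero (α := ℂ)) h3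
    rw [hS.fix hF, sub_self, zero_add, h7, sub_self]

end

theorem exists_q {P ι C : Type} [Finite P] [CStarAlgebra C] {orth : P → P → Prop}
    {ctx : ι → List P} {g : Gen P → unitary C} (hg : GRel orth ctx g) :
    ∃ q : C, IsStarProjection q ∧
      ∀ (H : Type) [NormedAddCommGroup H] [InnerProductSpace ℂ H] [CompleteSpace H]
        (π : C →⋆ₐ[ℂ] (H →L[ℂ] H)), IsProj (π q) (F2 fun s => umap π (g s)) := by
  obtain ⟨S, hS, hSp⟩ := exists_S hg
  let h : C := g (gg (Gate.H 0 1) tot)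
  have hh : star h = h := star_of_sq (hg.sq _)
  have hS' : star S = S := hS.isSelfAdjoint
  have hD : IsSelfAdjoint ((1 - S) + (((kap : ℝ) : ℂ) • S - S * h * S)) := by
    unfold IsSelfAdjoint
    simp only [star_add, star_sub, star_one, star_smul, star_mul, hS', hh, mul_assoc,
      Complex.star_def, Complex.conj_ofReal]
  have hπ : ∀ (H : Type) [NormedAddCommGroup H] [InnerProductSpace ℂ H] [CompleteSpace H]
      (π : C →⋆ₐ[ℂ] (H →L[ℂ] H)) (ξ : H), π ((1 - S) + (((kap : ℝ) : ℂ) • S - S * h * S)) ξ =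
        (ξ - π S ξ) + (((kap : ℝ) : ℂ) • π S ξ -
          π S (umap π (g (gg (Gate.H 0 1) tot)) • π S ξ)) := by
    intro H _ _ _ π ξ
    simp only [map_add, map_sub, map_one, map_smul, map_mul, umap_smul]
    rfl
  obtain ⟨e, he, hep⟩ := exists_proj hD (c := 1 / 5) (by norm_num) (fun H _ _ _ π ξ t hξ ht => by
    rw [hπ] at ht
    exact ExQ_eig (hg.map (umap π)) (hSp H π) hξ ht)
  refine ⟨e, he, fun H _ _ _ π => ⟨(hep H π).1, fun ξ => ?_⟩⟩
  rw [(hep H π).2 ξ]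
  beta_reduce
  rw [hπ]
  exact ExQ_ker (hg.map (umap π)) (hSp H π) ξ

end Pool.Agent.Work.MP_3b70de_al.E
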