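import Pool.Agent.Work.MP_3b70de_al.E.StDefs

/-! Generation of Steinberg subgroups, and the sequences `s_n`, `t_n`.

Plan. `gen_off`: apply `hl.gen` to `P r = ∀ i j, i ≠ j → i ∉ I → j ∉ I → X i j r ∈ Φ`; for a
product use a middle index `m ∉ I ∪ {i, j}` (at most four of five indices are excluded) and `hX.st`.
`gen_cyc`: first `X i j 1 ∈ Φ` for all `i ≠ j` (commutators along the cycle `0 1 2 3 4 0`,
`1 = ℓ (lk 1)`), then `X i j (ℓ a) ∈ Φ` for all `i ≠ j` (move `X 4 0 (ℓ a)` by commutators with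
`X _ _ 1`), then `gen_off` with `I = ∅`. `gen_star`: `X i i' r = ⁅X i k r, X k i' 1⁆` etc.
`lv_seq`: `σ n = s1 ^ n * s0`, `τ n = t0 * t1 ^ n`. -/

namespace Pool.Agent.Work.MP_3b70de_al.E

variable {G R : Type} [Group G] [Ring R] {ℓ : Lt → R} {X : Fin 5 → Fin 5 → R → G}

theorem StGen_st (hX : IsSt X) (Φ : Subgroup G) {i j k : Fin 5} {r s : R} (hij : i ≠ j)
    (hjk : j ≠ k) (hik : i ≠ k) (h1 : X i j r ∈ Φ) (h2 : X j k s ∈ Φ) : X i k (r * s) ∈ Φ := by
  rw [← hX.st i j k r s hij hjk hik, commutatorElement_def]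
  exact Φ.mul_mem (Φ.mul_mem (Φ.mul_mem h1 h2) (Φ.inv_mem h1)) (Φ.inv_mem h2)

theorem StGen_mid (I : Finset (Fin 5)) (hI : I.card ≤ 2) (i j : Fin 5) :
    ∃ m, m ∉ I ∧ m ≠ i ∧ m ≠ j := by
  have h : (insert i (insert j I)).card < (Finset.univ : Finset (Fin 5)).card := by
    have h1 := Finset.card_insert_le i (insert j I)
    have h2 := Finset.card_insert_le j I
    simp only [Finset.card_univ, Fintype.card_fin]
    omega
  obtain ⟨m, -, hm⟩ := Finset.exists_mem_notMem_of_card_lt_card h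
  simp only [Finset.mem_insert, not_or] at hm
  exact ⟨m, hm.2.2, hm.1, hm.2.1⟩

theorem gen_off (hl : IsLv ℓ) (hX : IsSt X) (Φ : Subgroup G) (I : Finset (Fin 5)) (hI : I.card ≤ 2)
    (h : ∀ i j a, i ≠ j → i ∉ I → j ∉ I → X i j (ℓ a) ∈ Φ) :
    ∀ i j r, i ≠ j → i ∉ I → j ∉ I → X i j r ∈ Φ := by
  have key : ∀ r, ∀ i j, i ≠ j → i ∉ I → j ∉ I → X i j r ∈ Φ := by
    refine hl.gen (fun r => ∀ i j, i ≠ j → i ∉ I → j ∉ I → X i j r ∈ Φ)
      (fun a i j => h i j a) ?_ ?_
    · intro r s hr hs i j hij hi hj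
      rw [hX.add i j r s hij]
      exact Φ.mul_mem (hr i j hij hi hj) (hs i j hij hi hj)
    · intro r s hr hs i j hij hi hj
      obtain ⟨m, hm, hmi, hmj⟩ := StGen_mid I hI i j
      exact StGen_st hX Φ hmi.symm hmj hij (hr i m hmi.symm hi hm) (hs m j hmj hm hj)
  exact fun i j r => key r i j

theorem gen_cyc (hl : IsLv ℓ) (hX : IsSt X) (Φ : Subgroup G)
    (h1 : ∀ i : Fin 4, X i.castSucc i.succ 1 ∈ Φ) (h2 : ∀ a, X 4 0 (ℓ a) ∈ Φ) :
    ∀ i j r, i ≠ j → X i j r ∈ Φ := by
  have c : ∀ {i j k : Fin 5}, i ≠ j → j ≠ k → i ≠ k → X i j 1 ∈ Φ → X j k 1 ∈ Φ → X i k 1 ∈ Φ := by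
    intro i j k hij hjk hik a b
    simpa using StGen_st hX Φ hij hjk hik a b
  have e01 : X 0 1 1 ∈ Φ := h1 0
  have e12 : X 1 2 1 ∈ Φ := h1 1
  have e23 : X 2 3 1 ∈ Φ := h1 2
  have e34 : X 3 4 1 ∈ Φ := h1 3
  have e40 : X 4 0 1 ∈ Φ := hl.one ▸ h2 (lk 1)
  have e02 := c (by decide) (by decide) (by decide) e01 e12
  have e13 := c (by decide) (by decide) (by decide) e12 e23
  have e24 := c (by decide) (by decide) (by decide) e23 e34
  have e30 := c (by decide) (by decide) (by decide) e34 e40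
  have e41 := c (by decide) (by decide) (by decide) e40 e01
  have e03 := c (by decide) (by decide) (by decide) e02 e23
  have e14 := c (by decide) (by decide) (by decide) e13 e34
  have e20 := c (by decide) (by decide) (by decide) e24 e40
  have e31 := c (by decide) (by decide) (by decide) e30 e01
  have e42 := c (by decide) (by decide) (by decide) e41 e12
  have e04 := c (by decide) (by decide) (by decide) e03 e34
  have e10 := c (by decide) (by decide) (by decide) e14 e40
  have e21 := c (by decide) (by decide) (by decide) e20 e01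
  have e32 := c (by decide) (by decide) (by decide) e31 e12
  have e43 := c (by decide) (by decide) (by decide) e42 e23
  have one : ∀ i j : Fin 5, i ≠ j → X i j 1 ∈ Φ := by
    intro i j hij
    fin_cases i <;> fin_cases j <;> first | exact absurd rfl hij | assumption
  have left : ∀ {i j k : Fin 5} {r : R}, i ≠ j → j ≠ k → i ≠ k → X j k r ∈ Φ → X i k r ∈ Φ := by
    intro i j k r hij hjk hik a
    simpa using StGen_st hX Φ hij hjk hik (one i j hij) a
  have right : ∀ {i j k : Fin 5} {r : R}, i ≠ j → j ≠ k → i ≠ k → X i j r ∈ Φ → X i k r ∈ Φ := by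
    intro i j k r hij hjk hik a
    simpa using StGen_st hX Φ hij hjk hik a (one j k hjk)
  have col0 : ∀ a (i : Fin 5), i ≠ 0 → X i 0 (ℓ a) ∈ Φ := by
    intro a i hi
    by_cases h4 : i = 4
    · exact h4 ▸ h2 a
    · exact left h4 (by decide) hi (h2 a)
  have offz : ∀ a (i j : Fin 5), i ≠ j → i ≠ 0 → X i j (ℓ a) ∈ Φ := by
    intro a i j hij hi
    by_cases hj : j = 0
    · exact hj ▸ col0 a i hi
    · exact right hi (Ne.symm hj) hij (col0 a i hi)
  have all : ∀ (i j : Fin 5) a, i ≠ j → X i j (ℓ a) ∈ Φ := by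
    intro i j a hij
    by_cases hi : i = 0
    · obtain ⟨m, -, hmi, hmj⟩ := StGen_mid ∅ (by simp) i j
      exact left hmi.symm hmj hij (offz a m j hmj (hi ▸ hmi))
    · exact offz a i j hij hi
  intro i j r hij
  exact gen_off hl hX Φ ∅ (by simp) (fun i j a hij _ _ => all i j a hij) i j r hij (by simp)
    (by simp)

theorem gen_star (hX : IsSt X) (Φ : Subgroup G) (k : Fin 5)
    (h1 : ∀ i r, i ≠ k → X i k r ∈ Φ) (h2 : ∀ i r, i ≠ k → X k i r ∈ Φ) :
    ∀ i j r, i ≠ j → X i j r ∈ Φ := by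
  intro i j r hij
  by_cases hi : i = k
  · subst hi
    exact h2 j r hij.symm
  by_cases hj : j = k
  · subst hj
    exact h1 i r hij
  simpa using StGen_st hX Φ hi (Ne.symm hj) hij (h1 i r hi) (h2 j 1 hj)

theorem lv_seq (hl : IsLv ℓ) :
    ∃ σ τ : ℕ → R, ∀ n m, τ n * σ m = if n = m then 1 else 0 := by
  have h11 : ℓ (lt true) * ℓ (ls true) = 1 := by simpa using hl.ts true true
  have h00 : ℓ (lt false) * ℓ (ls false) = 1 := by simpa using hl.ts false false
  have h10 : ℓ (lt true) * ℓ (ls false) = 0 := by simpa using hl.ts true false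
  have h01 : ℓ (lt false) * ℓ (ls true) = 0 := by simpa using hl.ts false true
  refine ⟨fun n => ℓ (ls true) ^ n * ℓ (ls false), fun n => ℓ (lt false) * ℓ (lt true) ^ n, ?_⟩
  intro n
  induction n with
  | zero =>
    intro m
    cases m with
    | zero => simpa using h00
    | succ m =>
      simp only [pow_zero, mul_one, pow_succ']
      rw [← mul_assoc, ← mul_assoc, h01]
      simp
  | succ n ih =>
    intro m
    cases m with
    | zero =>
      simp only [pow_zero, one_mul, pow_succ]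
      rw [mul_assoc, mul_assoc, h10]
      simp
    | succ m =>
      have := ih m
      simp only [Nat.add_right_cancel_iff]
      rw [← this, pow_succ, pow_succ']
      simp only [mul_assoc]
      rw [← mul_assoc (ℓ (lt true)) (ℓ (ls true)), h11, one_mul]

end Pool.Agent.Work.MP_3b70de_al.E
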