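import Pool.Agent.Work.MP_3b70de_al.E.StWord
import Mathlib.RingTheory.FreeRing
import Mathlib.RingTheory.TwoSidedIdeal.Operations
import Mathlib.RingTheory.Ideal.Quotient.Defs
import Mathlib.GroupTheory.Subgroup.Centralizer
import Mathlib.Tactic.Group

/-! From the finite presentation to a Steinberg system over a ring.

Plan. Take `Y` from `st_word (lk 1) x`. For `i ≠ j` the elements `Y i j u` commute with each other,
so `FreeAbelianGroup.lift` (into `Additive` of the commutative subgroup they generate) gives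
`X0 i j : FreeRing Lt → G` with `X0 (r + s) = X0 r * X0 s`, `X0 (of u) = Y u`
(`FreeRing Lt = FreeAbelianGroup (FreeMonoid Lt)`); `X0 (-r) = (X0 r)⁻¹`. Commutation and
`⁅X0 i j r, X0 j k s⁆ = X0 i k (r * s)` extend additively in each variable since `X0 i k _` commutes
with `X0 i j _` and `X0 j k _`. `N = {r | ∀ i ≠ j, X0 i j r = 1}` is a two-sided ideal
(`X0 i k (r * s) = ⁅X0 i j r, X0 j k s⁆`). `R` is the quotient ring, `ℓ a` the class of the letter,
`X i j` is induced by `X0 i j` (for `i = j` put anything). Each relation of `IsLv` holds because the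
difference is in `N` (use a middle index and `hx.add`, `hx.mul`, `hx.cen`, `hx.ts`;
`x i j (lk 0) = 1` by `hx.add`). Generation: `1 = ℓ (lk 1)`, `0 = ℓ (lk 0)`, `-r = r`. -/

namespace Pool.Agent.Work.MP_3b70de_al.E

open scoped commutatorElement IsMulCommutative

theorem StRing_lift {G A : Type} [Group G] (y : A → G) (hs : ∀ a, y a * y a = 1)
    (hc : ∀ a b, Commute (y a) (y b)) :
    ∃ X : FreeAbelianGroup A → G, (∀ a, X (.of a) = y a) ∧ (∀ r s, X (r + s) = X r * X s) ∧
      X 0 = 1 ∧ ∀ r, X (-r) = X r := by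
  have : IsMulCommutative (Subgroup.closure (Set.range y)) :=
    Subgroup.isMulCommutative_closure (by rintro _ ⟨a, rfl⟩ _ ⟨b, rfl⟩; exact hc a b)
  let f : FreeAbelianGroup A →+ Additive (Subgroup.closure (Set.range y)) :=
    FreeAbelianGroup.lift fun a => Additive.ofMul ⟨y a, Subgroup.subset_closure ⟨a, rfl⟩⟩
  have hf : ∀ r, f (-r) = f r := by
    intro r
    induction r using FreeAbelianGroup.induction_on with
    | zero => rw [neg_zero]
    | of a =>
      rw [map_neg, FreeAbelianGroup.lift_apply_of]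
      exact neg_eq_of_add_eq_zero_right (congrArg Additive.ofMul (Subtype.ext (hs a)))
    | neg a h => rw [neg_neg, h]
    | add r s h h' => rw [neg_add, map_add, map_add, h, h']
  exact ⟨fun r => (f r).toMul, fun a => by simp [f], fun r s => by simp, by simp,
    fun r => by simp only [hf]⟩

theorem StRing_free {G A : Type} [Group G] (Y : Fin 5 → Fin 5 → List A → G)
    (y2 : ∀ i j u, i ≠ j → Y i j u * Y i j u = 1)
    (y3 : ∀ i j k l u v, i ≠ j → k ≠ l → j ≠ k → i ≠ l → Commute (Y i j u) (Y k l v))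
    (y4 : ∀ i j k u v, i ≠ j → j ≠ k → i ≠ k → ⁅Y i j u, Y j k v⁆ = Y i k (u ++ v)) :
    ∃ X : Fin 5 → Fin 5 → FreeRing A → G, IsSt X ∧
      (∀ i j (u : List A), i ≠ j → X i j (FreeAbelianGroup.of (FreeMonoid.ofList u)) = Y i j u) ∧
      ∀ i j r, i ≠ j → X i j (-r) = X i j r := by
  have : ∀ i j, ∃ X : FreeAbelianGroup (FreeMonoid A) → G, i ≠ j →
      (∀ a, X (.of a) = Y i j a.toList) ∧ (∀ r s, X (r + s) = X r * X s) ∧
      X 0 = 1 ∧ ∀ r, X (-r) = X r := fun i j => by
    by_cases e : i = j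
    · exact ⟨fun _ => 1, fun h => (h e).elim⟩
    · obtain ⟨X, h⟩ := StRing_lift (fun a : FreeMonoid A => Y i j a.toList)
        (fun a => y2 i j _ e) fun a b => y3 i j i j _ _ e e (Ne.symm e) e
      exact ⟨X, fun _ => h⟩
  choose X hX using this
  have hc : ∀ i j k l r s, i ≠ j → k ≠ l → j ≠ k → i ≠ l → Commute (X i j r) (X k l s) := by
    intro i j k l r s e1 e2 e3 e4
    obtain ⟨a1, a2, a3, a4⟩ := hX i j e1
    obtain ⟨b1, b2, b3, b4⟩ := hX k l e2
    induction r using FreeAbelianGroup.induction_on with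
    | zero => rw [a3]; exact Commute.one_left _
    | neg a h => rwa [a4]
    | add r r' h h' => rw [a2]; exact h.mul_left h'
    | of a =>
      induction s using FreeAbelianGroup.induction_on with
      | zero => rw [b3]; exact Commute.one_right _
      | neg b h => rwa [b4]
      | add s s' h h' => rw [b2]; exact h.mul_right h'
      | of b => rw [a1, b1]; exact y3 i j k l _ _ e1 e2 e3 e4
  refine ⟨X, ⟨fun i j r s e => (hX i j e).2.1 r s, hc, ?_⟩, fun i j u e => (hX i j e).1 _,
    fun i j r e => (hX i j e).2.2.2 r⟩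
  have key : ∀ i j k (r s : FreeAbelianGroup (FreeMonoid A)), i ≠ j → j ≠ k → i ≠ k →
      ⁅X i j r, X j k s⁆ = X i k (r * s) := by
    intro i j k r s e1 e2 e3
    obtain ⟨a1, a2, a3, a4⟩ := hX i j e1
    obtain ⟨b1, b2, b3, b4⟩ := hX j k e2
    obtain ⟨c1, c2, c3, c4⟩ := hX i k e3
    induction r using FreeAbelianGroup.induction_on with
    | zero => rw [a3, zero_mul, c3, commutatorElement_one_left]
    | neg a h => rw [a4, neg_mul, c4, h]
    | add r r' h h' =>
      have h3 := (hc i j i k r (r' * s) e1 e3 e1.symm e3).eq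
      rw [a2, add_mul, add_comm, c2, ← h]
      calc ⁅X i j r * X i j r', X j k s⁆
          = X i j r * ⁅X i j r', X j k s⁆ * (X i j r)⁻¹ * ⁅X i j r, X j k s⁆ := by
            simp only [commutatorElement_def]; group
        _ = _ := by rw [h', h3, mul_inv_cancel_right]
    | of a =>
      induction s using FreeAbelianGroup.induction_on with
      | zero => rw [b3, mul_zero, c3, commutatorElement_one_right]
      | neg b h => rw [b4, mul_neg, c4, h]
      | add s s' h h' =>
        have h3 := (hc j k i k s (.of a * s') e2 e3 e3.symm e2).eq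
        rw [b2, mul_add, c2, ← h]
        calc ⁅X i j (.of a), X j k s * X j k s'⁆
            = ⁅X i j (.of a), X j k s⁆ * (X j k s * ⁅X i j (.of a), X j k s'⁆ * (X j k s)⁻¹) := by
              simp only [commutatorElement_def]; group
          _ = _ := by rw [h', h3, mul_inv_cancel_right]
      | of b => rw [FreeAbelianGroup.of_mul_of, a1, b1, c1, y4 i j k _ _ e1 e2 e3]; rfl
  exact key

theorem st_exists {G : Type} [Group G] {x : Fin 5 → Fin 5 → Lt → G} (hx : StRel x) :
    ∃ (R : Type) (_ : Ring R) (ℓ : Lt → R) (X : Fin 5 → Fin 5 → R → G),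
      IsLv ℓ ∧ IsSt X ∧ ∀ i j a, i ≠ j → X i j (ℓ a) = x i j a := by
  obtain ⟨Y, y0, y1, y2, y3, y4⟩ := st_word (lk 1) x hx.sq hx.comm hx.one_l hx.one_r
  obtain ⟨X, hX, hY, hn⟩ := StRing_free Y y2 y3 y4
  have hmid : ∀ i k : Fin 5, ∃ j, i ≠ j ∧ j ≠ k := by decide
  let c : RingCon (FreeRing Lt) :=
    { r := fun r s => ∀ i j, i ≠ j → X i j r = X i j s
      iseqv := ⟨fun _ _ _ _ => rfl, fun h i j e => (h i j e).symm,
        fun h h' i j e => (h i j e).trans (h' i j e)⟩
      mul' := fun h h' i k e => by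
        obtain ⟨j, a, b⟩ := hmid i k
        rw [← hX.st i j k _ _ a b e, ← hX.st i j k _ _ a b e, h i j a, h' j k b]
      add' := fun h h' i j e => by rw [hX.add i j _ _ e, hX.add i j _ _ e, h i j e, h' i j e] }
  have hc : ∀ r s : FreeRing Lt, (∀ i j, i ≠ j → X i j r = X i j s) →
      (r : c.Quotient) = (s : c.Quotient) := fun r s h => c.eq.2 h
  have hs : ∀ q : c.Quotient, ∃ r : FreeRing Lt, q = r := fun q =>
    Quot.inductionOn q fun r => ⟨r, rfl⟩
  choose out hout using hs
  have ho : ∀ i j (r : FreeRing Lt), i ≠ j → X i j (out r) = X i j r := fun i j r e =>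
    (c.eq.1 (hout r) i j e).symm
  have h1 : ∀ i j, i ≠ j → X i j 1 = x i j (lk 1) := fun i j e => (hY i j [] e).trans (y0 i j)
  have hl : ∀ i j a, i ≠ j → X i j (FreeRing.of a) = x i j a := fun i j a e =>
    (hY i j [a] e).trans (y1 i j a)
  have h2 : ∀ i j k a b, i ≠ j → j ≠ k → i ≠ k →
      X i k (FreeRing.of a * FreeRing.of b) = ⁅x i j a, x j k b⁆ := fun i j k a b e1 e2 e3 => by
    rw [← hX.st i j k _ _ e1 e2 e3, hl i j a e1, hl j k b e2]
  have k1 : ((FreeRing.of (lk 1) : FreeRing Lt) : c.Quotient) = 1 :=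
    hc _ 1 fun i j e => (hl i j _ e).trans (h1 i j e).symm
  have k2 : ∀ a b, ((FreeRing.of (lk (a + b)) : FreeRing Lt) : c.Quotient) =
      (FreeRing.of (lk a) : FreeRing Lt) + (FreeRing.of (lk b) : FreeRing Lt) := fun a b =>
    hc _ (_ + _) fun i j e => by
      rw [hX.add i j _ _ e, hl i j _ e, hl i j _ e, hl i j _ e, hx.add i j a b e]
  have k0 : ((FreeRing.of (lk 0) : FreeRing Lt) : c.Quotient) = 0 := by
    have := k2 0 0
    rw [add_zero] at this
    exact left_eq_add.1 this
  refine ⟨c.Quotient, inferInstance, fun a => (FreeRing.of a : FreeRing Lt),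
    fun i j q => X i j (out q), ⟨k1, k2, fun a b => ?_, fun a b => ?_, fun a b => ?_, ?_⟩,
    ⟨fun i j r s e => ?_, fun i j k l r s => hX.comm i j k l _ _, fun i j k r s e1 e2 e3 => ?_⟩,
    fun i j a e => (ho i j _ e).trans (hl i j a e)⟩
  · refine hc _ (_ * _) fun i k e => ?_
    obtain ⟨j, e1, e2⟩ := hmid i k
    rw [h2 i j k _ _ e1 e2 e, hl i k _ e, hx.mul i j k a b e1 e2 e]
  · refine hc (_ * _) (_ * _) fun i k e => ?_
    obtain ⟨j, e1, e2⟩ := hmid i k
    rw [h2 i j k _ _ e1 e2 e, h2 i j k _ _ e1 e2 e, hx.cen i j k a b e1 e2 e]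
  · have : ((FreeRing.of (lt a) : FreeRing Lt) : c.Quotient) * (FreeRing.of (ls b) : FreeRing Lt) =
        (FreeRing.of (lk (if a = b then 1 else 0)) : FreeRing Lt) := by
      refine hc (_ * _) _ fun i k e => ?_
      obtain ⟨j, e1, e2⟩ := hmid i k
      rw [h2 i j k _ _ e1 e2 e, hl i k _ e, hx.ts i j k a b e1 e2 e]
    rw [this]
    split_ifs
    · exact k1
    · exact k0
  · intro P p1 p2 p3 q
    rw [hout q]
    induction out q using FreeRing.induction_on with
    | hn1 =>
      rw [hc (-1) (FreeRing.of (lk 1)) fun i j e => by rw [hn i j _ e, h1 i j e, hl i j _ e]]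
      exact p1 _
    | hb b => exact p1 b
    | ha r s a b => exact p2 _ _ a b
    | hm r s a b => exact p3 _ _ a b
  · rw [← hX.add i j _ _ e, ← ho i j (out r + out s) e, RingCon.coe_add, ← hout, ← hout]
  · rw [hX.st i j k _ _ e1 e2 e3, ← ho i k (out r * out s) e3, RingCon.coe_mul, ← hout, ← hout]

end Pool.Agent.Work.MP_3b70de_al.E
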