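import Pool.Agent.Work.MP_3b70de_al.E.Gap
import Pool.Agent.Work.MP_3b70de_al.E.Angle
import Pool.Agent.Work.MP_3b70de_al.E.StRing
import Pool.Agent.Work.MP_3b70de_al.E.StGen

/-! The Kazhdan projection of the Steinberg group.

Plan. `st_exists hx` gives `R, ℓ, X` in `unitary C`; `Fintype.ofFinite K8`. Let
`β (b : Fin 5 → K8) = ∑ i, ℓ (lk (b i)) * γ i` with `γ = ![1, s0, s1, t0, t1]`; `β` is additive,
`ℓ (lk a) * β b = β (a • b) = β b * ℓ (lk a)`. Projections `P i = avg fun a => X i (i+1) (ℓ (lk a))`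
(`i = 0..3`), `P 4 = avg fun b => X 4 0 (β b)`; `D = ∑ (1 - P i)`; `exists_proj` with `c = 1/4`.
In a representation use `hX.map (umap π)`, `map_avg`. With `d i = ξ - P i ξ`:
`t ‖ξ‖² = ∑ ‖d i‖²` and `t² ‖ξ‖² = ‖∑ d i‖² ≥ (1 - 2 * 3/8) ∑ ‖d i‖²` by `angle` for the five
adjacent pairs (`x a * y b = z (a • b) * (y b * x a)` from `hX.st`, all elements are involutions,
`IsSt.sq`; for the pair `(4, 0)` take `x = X 0 1`, `y = X 4 0`, `z = X 4 1`) and `angle_comm` for the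
five others (`five_gap`). The kernel: `sum_proj_zero`, `avg_isProj`, `gen_cyc` for
`MulAction.stabilizer _ ξ` (each letter is some `β b`), and conversely `gen_off` with `I = ∅`. -/

namespace Pool.Agent.Work.MP_3b70de_al.E

open scoped InnerProductSpace

theorem five_gap {H : Type} [NormedAddCommGroup H] [InnerProductSpace ℂ H] (d : Fin 5 → H)
    (h1 : ∀ i : Fin 5, -(3 / 8 * (‖d i‖ ^ 2 + ‖d (i + 1)‖ ^ 2)) ≤ 2 * (⟪d i, d (i + 1)⟫_ℂ).re)
    (h2 : ∀ i : Fin 5, 0 ≤ (⟪d i, d (i + 2)⟫_ℂ).re) :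
    1 / 4 * ∑ i, ‖d i‖ ^ 2 ≤ ‖∑ i, d i‖ ^ 2 := by
  have e1 : ∀ v : H, ‖v‖ ^ 2 = (⟪v, v⟫_ℂ).re := fun v => (inner_self_eq_norm_sq (𝕜 := ℂ) v).symm
  have e2 : ∀ v w : H, (⟪v, w⟫_ℂ).re = (⟪w, v⟫_ℂ).re := fun v w => inner_re_symm (𝕜 := ℂ) v w
  have a0 : _ ≤ 2 * (⟪d 0, d 1⟫_ℂ).re := h1 0
  have a1 : _ ≤ 2 * (⟪d 1, d 2⟫_ℂ).re := h1 1
  have a2 : _ ≤ 2 * (⟪d 2, d 3⟫_ℂ).re := h1 2
  have a3 : _ ≤ 2 * (⟪d 3, d 4⟫_ℂ).re := h1 3
  have a4 : _ ≤ 2 * (⟪d 4, d 0⟫_ℂ).re := h1 4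
  have b0 : _ ≤ (⟪d 0, d 2⟫_ℂ).re := h2 0
  have b1 : _ ≤ (⟪d 1, d 3⟫_ℂ).re := h2 1
  have b2 : _ ≤ (⟪d 2, d 4⟫_ℂ).re := h2 2
  have b3 : _ ≤ (⟪d 3, d 0⟫_ℂ).re := h2 3
  have b4 : _ ≤ (⟪d 4, d 1⟫_ℂ).re := h2 4
  rw [show (0 : Fin 5) + 1 = 1 from rfl] at a0
  rw [show (1 : Fin 5) + 1 = 2 from rfl] at a1
  rw [show (2 : Fin 5) + 1 = 3 from rfl] at a2
  rw [show (3 : Fin 5) + 1 = 4 from rfl] at a3
  rw [show (4 : Fin 5) + 1 = 0 from rfl] at a4
  simp only [e1, Fin.sum_univ_five, inner_add_left, inner_add_right, Complex.add_re] at *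
  linarith [e2 (d 0) (d 1), e2 (d 0) (d 2), e2 (d 0) (d 3), e2 (d 0) (d 4), e2 (d 1) (d 2),
    e2 (d 1) (d 3), e2 (d 1) (d 4), e2 (d 2) (d 3), e2 (d 2) (d 4), e2 (d 3) (d 4)]

section Ring

variable {R : Type} [Ring R] {ℓ : Lt → R}

/-- The span of the five letters `1, s0, s1, t0, t1`. -/
noncomputable def PropT_b (ℓ : Lt → R) (b : Option (Bool × Bool) → K8) : R :=
  ∑ j, ℓ (lk (b j)) * ℓ (j.elim (lk 1) Sum.inr)

theorem PropT_b_add (hl : IsLv ℓ) (a b : Option (Bool × Bool) → K8) :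
    PropT_b ℓ (a + b) = PropT_b ℓ a + PropT_b ℓ b := by
  simp only [PropT_b, Pi.add_apply, hl.add, add_mul, Finset.sum_add_distrib]

theorem PropT_b_left (hl : IsLv ℓ) (a : K8) (b : Option (Bool × Bool) → K8) :
    ℓ (lk a) * PropT_b ℓ b = PropT_b ℓ (a • b) := by
  simp only [PropT_b, Pi.smul_apply, smul_eq_mul, hl.mul, Finset.mul_sum, mul_assoc]

theorem PropT_b_right (hl : IsLv ℓ) (a : K8) (b : Option (Bool × Bool) → K8) :
    PropT_b ℓ b * ℓ (lk a) = PropT_b ℓ (a • b) := by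
  rw [← PropT_b_left hl, PropT_b, Finset.mul_sum, Finset.sum_mul]
  refine Finset.sum_congr rfl fun j _ => ?_
  rw [mul_assoc, ← hl.cen, ← mul_assoc, ← hl.cen, mul_assoc]

theorem PropT_b_single (hl : IsLv ℓ) (j : Option (Bool × Bool)) (a : K8) :
    PropT_b ℓ (Pi.single j a) = ℓ (lk a) * ℓ (j.elim (lk 1) Sum.inr) := by
  rw [PropT_b, Finset.sum_eq_single j (fun k _ hk => by
    rw [Pi.single_eq_of_ne hk, hl.zero, zero_mul]) (by simp), Pi.single_eq_same]

theorem PropT_b_letter (hl : IsLv ℓ) (a : Lt) : ∃ b, PropT_b ℓ b = ℓ a := by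
  rcases a with a | p
  · exact ⟨Pi.single none a, by rw [PropT_b_single hl, Option.elim_none, hl.one, mul_one]; rfl⟩
  · exact ⟨Pi.single (some p) 1, by rw [PropT_b_single hl, Option.elim_some, hl.one, one_mul]⟩

variable [Fintype K8]

/-- The five projections. -/
noncomputable def PropT_P {C : Type} [CStarAlgebra C] (ℓ : Lt → R)
    (X : Fin 5 → Fin 5 → R → unitary C) : Fin 5 → C :=
  ![avg fun a => X 0 1 (ℓ (lk a)), avg fun a => X 1 2 (ℓ (lk a)), avg fun a => X 2 3 (ℓ (lk a)),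
    avg fun a => X 3 4 (ℓ (lk a)), avg fun b => X 4 0 (PropT_b ℓ b)]

theorem PropT_map {C D : Type} [CStarAlgebra C] [CStarAlgebra D] (π : C →⋆ₐ[ℂ] D)
    (X : Fin 5 → Fin 5 → R → unitary C) (i : Fin 5) :
    π (PropT_P ℓ X i) = PropT_P ℓ (fun i j r => umap π (X i j r)) i := by
  fin_cases i <;> exact map_avg π _

omit [Fintype K8] in
theorem PropT_addk {G : Type} [Group G] {X : Fin 5 → Fin 5 → R → G} (hl : IsLv ℓ) (hX : IsSt X)
    {i j : Fin 5} (h : i ≠ j) (a b : K8) :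
    X i j (ℓ (lk (a + b))) = X i j (ℓ (lk a)) * X i j (ℓ (lk b)) := by rw [hl.add, hX.add _ _ _ _ h]

omit [Fintype K8] in
theorem PropT_addb {G : Type} [Group G] {X : Fin 5 → Fin 5 → R → G} (hl : IsLv ℓ) (hX : IsSt X)
    {i j : Fin 5} (h : i ≠ j) (a b : Option (Bool × Bool) → K8) :
    X i j (PropT_b ℓ (a + b)) = X i j (PropT_b ℓ a) * X i j (PropT_b ℓ b) := by
  rw [PropT_b_add hl, hX.add _ _ _ _ h]

theorem PropT_proj {C : Type} [CStarAlgebra C] {X : Fin 5 → Fin 5 → R → unitary C} (hl : IsLv ℓ)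
    (hX : IsSt X) (i : Fin 5) : IsStarProjection (PropT_P ℓ X i) := by
  fin_cases i
  · exact avg_isStarProjection (PropT_addk hl hX (by decide))
  · exact avg_isStarProjection (PropT_addk hl hX (by decide))
  · exact avg_isStarProjection (PropT_addk hl hX (by decide))
  · exact avg_isStarProjection (PropT_addk hl hX (by decide))
  · exact avg_isStarProjection (PropT_addb hl hX (by decide))

variable {H : Type} [NormedAddCommGroup H] [InnerProductSpace ℂ H] [CompleteSpace H]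
  {X : Fin 5 → Fin 5 → R → UH H}

theorem PropT_adj (hl : IsLv ℓ) (hX : IsSt X) {B : Type} [AddCommGroup B] [Module K8 B] [Fintype B]
    {β : B → R} (h1 : ∀ a b, β (a + b) = β a + β b) (h2 : ∀ a b, ℓ (lk a) * β b = β (a • b))
    {i j k : Fin 5} (hij : i ≠ j) (hjk : j ≠ k) (hik : i ≠ k) (ξ : H) :
    -(3 / 8 * (‖ξ - avg (fun a => X i j (ℓ (lk a))) ξ‖ ^ 2 +
        ‖ξ - avg (fun b => X j k (β b)) ξ‖ ^ 2)) ≤
      2 * (⟪ξ - avg (fun a => X i j (ℓ (lk a))) ξ, ξ - avg (fun b => X j k (β b)) ξ⟫_ℂ).re :=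
  angle (z := fun b => X i k (β b)) (PropT_addk hl hX hij)
    (fun a b => by rw [h1, hX.add _ _ _ _ hjk]) (fun a b => by rw [h1, hX.add _ _ _ _ hik])
    (fun _ _ => hX.comm _ _ _ _ _ _ hik hij hik.symm hij)
    (fun _ _ => hX.comm _ _ _ _ _ _ hik hjk hjk.symm hik)
    (fun a b => by rw [← h2, ← hX.st _ _ _ _ _ hij hjk hik, commutatorElement_def]; group) ξ

theorem PropT_gap (hl : IsLv ℓ) (hX : IsSt X) (ξ : H) :
    1 / 4 * ∑ i, ‖ξ - PropT_P ℓ X i ξ‖ ^ 2 ≤ ‖∑ i, (ξ - PropT_P ℓ X i ξ)‖ ^ 2 := by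
  have hk : ∀ a b : K8, ℓ (lk a) * ℓ (lk b) = ℓ (lk (a • b)) := fun a b => (hl.mul a b).symm
  refine five_gap _ (fun i => ?_) fun i => ?_
  · fin_cases i
    · exact PropT_adj hl hX hl.add hk (i := 0) (j := 1) (k := 2) (by decide) (by decide)
        (by decide) ξ
    · exact PropT_adj hl hX hl.add hk (i := 1) (j := 2) (k := 3) (by decide) (by decide)
        (by decide) ξ
    · exact PropT_adj hl hX hl.add hk (i := 2) (j := 3) (k := 4) (by decide) (by decide)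
        (by decide) ξ
    · exact PropT_adj hl hX (PropT_b_add hl) (PropT_b_left hl) (i := 3) (j := 4) (k := 0)
        (by decide) (by decide) (by decide) ξ
    · have := angle (x := fun a => X 0 1 (ℓ (lk a))) (y := fun b => X 4 0 (PropT_b ℓ b))
        (z := fun b => X 4 1 (PropT_b ℓ b)) (PropT_addk hl hX (by decide))
        (PropT_addb hl hX (by decide)) (PropT_addb hl hX (by decide))
        (fun _ _ => hX.comm _ _ _ _ _ _ (by decide) (by decide) (by decide) (by decide))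
        (fun _ _ => hX.comm _ _ _ _ _ _ (by decide) (by decide) (by decide) (by decide))
        (fun a b => by
          rw [← inv_eq_of_mul_eq_one_right (hX.sq hl (i := 4) (j := 1) (by decide) _),
            ← PropT_b_right hl, ← hX.st 4 0 1 _ _ (by decide) (by decide) (by decide),
            commutatorElement_def]
          group) ξ
      rw [add_comm, show ∀ v w : H, (⟪v, w⟫_ℂ).re = (⟪w, v⟫_ℂ).re from
        fun v w => inner_re_symm (𝕜 := ℂ) v w] at this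
      exact this
  · fin_cases i
    · exact angle_comm (PropT_addk hl hX (i := 0) (j := 1) (by decide))
        (PropT_addk hl hX (i := 2) (j := 3) (by decide))
        (fun _ _ => hX.comm _ _ _ _ _ _ (by decide) (by decide) (by decide) (by decide)) ξ
    · exact angle_comm (PropT_addk hl hX (i := 1) (j := 2) (by decide))
        (PropT_addk hl hX (i := 3) (j := 4) (by decide))
        (fun _ _ => hX.comm _ _ _ _ _ _ (by decide) (by decide) (by decide) (by decide)) ξ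
    · exact angle_comm (PropT_addk hl hX (i := 2) (j := 3) (by decide))
        (PropT_addb hl hX (i := 4) (j := 0) (by decide))
        (fun _ _ => hX.comm _ _ _ _ _ _ (by decide) (by decide) (by decide) (by decide)) ξ
    · exact angle_comm (PropT_addk hl hX (i := 3) (j := 4) (by decide))
        (PropT_addk hl hX (i := 0) (j := 1) (by decide))
        (fun _ _ => hX.comm _ _ _ _ _ _ (by decide) (by decide) (by decide) (by decide)) ξ
    · exact angle_comm (PropT_addb hl hX (i := 4) (j := 0) (by decide))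
        (PropT_addk hl hX (i := 1) (j := 2) (by decide))
        (fun _ _ => hX.comm _ _ _ _ _ _ (by decide) (by decide) (by decide) (by decide)) ξ

theorem PropT_eigen (hl : IsLv ℓ) (hX : IsSt X) {ξ : H} (hξ : ξ ≠ 0) {t : ℝ}
    (h : ∑ i, (ξ - PropT_P ℓ X i ξ) = (t : ℂ) • ξ) : t = 0 ∨ 1 / 4 ≤ |t| := by
  have h1 := PropT_gap hl hX ξ
  have e1 : ∀ v : H, ‖v‖ ^ 2 = (⟪v, v⟫_ℂ).re := fun v => (inner_self_eq_norm_sq (𝕜 := ℂ) v).symm
  have h2 : ∑ i, ‖ξ - PropT_P ℓ X i ξ‖ ^ 2 = t * ‖ξ‖ ^ 2 := by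
    have h3 := congrArg (fun v => (⟪ξ, v⟫_ℂ).re) h
    simp only [inner_sum, Complex.re_sum, inner_smul_right, Complex.re_ofReal_mul, ← e1] at h3
    rw [← h3]
    refine Finset.sum_congr rfl fun i _ => ?_
    have h4 : IsProj (1 - PropT_P ℓ X i) fun v => (1 - PropT_P ℓ X i) v = v :=
      ⟨(PropT_proj hl hX i).one_sub, fun _ => Iff.rfl⟩
    rw [e1]
    exact congrArg Complex.re (h4.inner_self ξ).symm
  rw [h, h2, norm_smul, Complex.norm_real, Real.norm_eq_abs, mul_pow, ← mul_assoc] at h1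
  have h5 := le_of_mul_le_mul_right h1 (pow_pos (norm_pos_iff.2 hξ) 2)
  have h6 : 0 ≤ t := by
    have h7 : 0 ≤ t * ‖ξ‖ ^ 2 := h2 ▸ Finset.sum_nonneg fun _ _ => sq_nonneg _
    exact nonneg_of_mul_nonneg_left h7 (pow_pos (norm_pos_iff.2 hξ) 2)
  rw [abs_of_nonneg h6] at h5 ⊢
  rcases h6.eq_or_lt with h8 | h8
  · exact Or.inl h8.symm
  · exact Or.inr (by nlinarith)

theorem PropT_ker (hl : IsLv ℓ) (hX : IsSt X) (ξ : H) :
    ∑ i, (ξ - PropT_P ℓ X i ξ) = 0 ↔ ∀ i j a, i ≠ j → X i j (ℓ a) • ξ = ξ := by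
  have p0 := (avg_isProj (f := fun a => X 0 1 (ℓ (lk a))) (PropT_addk hl hX (by decide))).2 ξ
  have p1 := (avg_isProj (f := fun a => X 1 2 (ℓ (lk a))) (PropT_addk hl hX (by decide))).2 ξ
  have p2 := (avg_isProj (f := fun a => X 2 3 (ℓ (lk a))) (PropT_addk hl hX (by decide))).2 ξ
  have p3 := (avg_isProj (f := fun a => X 3 4 (ℓ (lk a))) (PropT_addk hl hX (by decide))).2 ξ
  have p4 := (avg_isProj (f := fun b => X 4 0 (PropT_b ℓ b)) (PropT_addb hl hX (by decide))).2 ξ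
  constructor
  · intro h i j a hij
    have h1 : ∀ i, PropT_P ℓ X i ξ = ξ := fun i => (sub_eq_zero.1 (sum_proj_zero
      (E := fun i => 1 - PropT_P ℓ X i) (fun i => (PropT_proj hl hX i).one_sub) h i)).symm
    refine gen_cyc hl hX (MulAction.stabilizer _ ξ) (fun k => ?_) (fun c => ?_) i j _ hij
    · rw [← hl.one]
      fin_cases k
      · exact p0.1 (h1 0) 1
      · exact p1.1 (h1 1) 1
      · exact p2.1 (h1 2) 1
      · exact p3.1 (h1 3) 1
    · obtain ⟨b, hb⟩ := PropT_b_letter hl c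
      rw [← hb]
      exact p4.1 (h1 4) b
  · intro h
    have h1 := gen_off hl hX (MulAction.stabilizer _ ξ) ∅ (by simp) fun i j a hij _ _ => h i j a hij
    have h2 : ∀ i j r, i ≠ j → X i j r • ξ = ξ := fun i j r hij =>
      h1 i j r hij (by simp) (by simp)
    refine Finset.sum_eq_zero fun i _ => sub_eq_zero.2 (Eq.symm ?_)
    fin_cases i
    · exact p0.2 fun _ => h2 _ _ _ (by decide)
    · exact p1.2 fun _ => h2 _ _ _ (by decide)
    · exact p2.2 fun _ => h2 _ _ _ (by decide)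
    · exact p3.2 fun _ => h2 _ _ _ (by decide)
    · exact p4.2 fun _ => h2 _ _ _ (by decide)

end Ring

theorem exists_Q0 {C : Type} [CStarAlgebra C] {x : Fin 5 → Fin 5 → Lt → unitary C} (hx : StRel x) :
    ∃ Q : C, IsStarProjection Q ∧
      ∀ (H : Type) [NormedAddCommGroup H] [InnerProductSpace ℂ H] [CompleteSpace H]
        (π : C →⋆ₐ[ℂ] (H →L[ℂ] H)), IsProj (π Q) (F0 fun i j a => umap π (x i j a)) := by
  obtain ⟨R, _, ℓ, X, hl, hX, hXx⟩ := st_exists hx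
  let _ : Fintype K8 := Fintype.ofFinite K8
  have hD : ∀ (H : Type) [NormedAddCommGroup H] [InnerProductSpace ℂ H] [CompleteSpace H]
      (π : C →⋆ₐ[ℂ] (H →L[ℂ] H)) (ξ : H), π (∑ i, (1 - PropT_P ℓ X i)) ξ =
        ∑ i, (ξ - PropT_P ℓ (fun i j r => umap π (X i j r)) i ξ) := by
    intro H _ _ _ π ξ
    simp only [map_sum, map_sub, map_one, PropT_map, sum_apply, sub_apply, one_apply_eq_self]
  obtain ⟨Q, hQ, h⟩ := exists_proj (D := ∑ i, (1 - PropT_P ℓ X i)) (c := 1 / 4)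
    (isSelfAdjoint_sum _ fun i _ => (PropT_proj hl hX i).one_sub.isSelfAdjoint) (by norm_num)
    fun H _ _ _ π ξ t hξ ht => PropT_eigen hl (hX.map (umap π)) hξ ((hD H π ξ).symm.trans ht)
  refine ⟨Q, hQ, fun H _ _ _ π => ⟨(h H π).1, fun ξ => ((h H π).2 ξ).trans ?_⟩⟩
  beta_reduce
  rw [hD, PropT_ker hl (hX.map (umap π))]
  exact forall_congr' fun i => forall_congr' fun j => forall_congr' fun a =>
    forall_congr' fun hij => by rw [hXx i j a hij]

end Pool.Agent.Work.MP_3b70de_al.E
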