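import Pool.Agent.Work.MP_3b70de_al.E.Stage2
import Pool.Agent.Work.MP_3b70de_al.E.PropT

/-! The projection onto `F1` lies in the C*-algebra.

Plan. `Q` from `exists_Q0 hg.st`. The family `e none = 1 - Q`,
`e (some none) = (1/2) • (Q + ζ * Q)` with `ζ = g (gg (Z 0) tot)`,
`e (some (some (b, c))) = Q - Q * s * Q` with `s = g (gg (sg b) c)`. In `C`, by `eq_of_reps`:
`ζ * Q = Q * ζ` (`IsProj.comm_invol`, `F0_zeta`), `B * B = B` and `B * B' = B' * B` for
`B = Q * s * Q` (`B_idem`, `B_comm` applied to `π Q ξ`), `ζ` commutes with `s` (`hg.dis`). So the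
`e k` are commuting projections (`star_of_sq`); `exists_inf` (`Fintype.ofFinite`). Finally
`(∀ k, π (e k) ξ = 0) ↔ F1`: use `IsProj.fix_of` and `F1_of_std`. In a representation the relations
are `hg.map (umap π)`; `xs (fun s => umap π (g s))` is definitionally
`fun i j a => umap π (xs g i j a)`. -/

namespace Pool.Agent.Work.MP_3b70de_al.E

open Gate

/-- The family of commuting projections. -/
noncomputable def ExS_e {C κ : Type} [CStarAlgebra C] (Q ζ : C) (B : κ → C) :
    Option (Option κ) → C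
  | none => 1 - Q
  | some none => (1 / 2 : ℂ) • (Q + ζ * Q)
  | some (some k) => Q - B k

theorem ExS_comm {C κ : Type} [CStarAlgebra C] {Q ζ : C} {B : κ → C} {x : C} (h1 : Commute Q x)
    (h2 : Commute ζ x) (h3 : ∀ k, Commute (B k) x) :
    ∀ k, Commute (ExS_e Q ζ B k) x
  | none => (Commute.one_left x).sub_left h1
  | some none => (h1.add_left (h2.mul_left h1)).smul_left _
  | some (some k) => h1.sub_left (h3 k)

theorem ExS_proj {C κ : Type} [CStarAlgebra C] {Q ζ : C} {B : κ → C} (hQ : IsStarProjection Q)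
    (h1 : star ζ = ζ) (h2 : ζ * ζ = 1) (h3 : ζ * Q = Q * ζ) (h4 : ∀ k, IsStarProjection (B k))
    (h5 : ∀ k, B k * Q = B k) : ∀ k, IsStarProjection (ExS_e Q ζ B k)
  | none => hQ.one_sub
  | some none => by
    have hq : Q * Q = Q := hQ.isIdempotentElem.eq
    refine ⟨?_, ?_⟩
    · change ((1 / 2 : ℂ) • (Q + ζ * Q)) * ((1 / 2 : ℂ) • (Q + ζ * Q)) = (1 / 2 : ℂ) • (Q + ζ * Q)
      have e1 : Q * (ζ * Q) = ζ * Q := by rw [← mul_assoc, ← h3, mul_assoc, hq]
      have e2 : (Q + ζ * Q) * (Q + ζ * Q) = (2 : ℂ) • (Q + ζ * Q) := by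
        rw [add_mul, mul_add, mul_add, hq, e1, mul_assoc, hq, mul_assoc, e1, ← mul_assoc, h2,
          one_mul, two_smul, add_comm (ζ * Q) Q]
      rw [smul_mul_smul_comm, e2, smul_smul]
      norm_num
    · change star ((1 / 2 : ℂ) • (Q + ζ * Q)) = (1 / 2 : ℂ) • (Q + ζ * Q)
      rw [star_smul, star_add, star_mul, h1, hQ.isSelfAdjoint.star_eq, ← h3]
      simp
  | some (some k) => (h4 k).sub_of_mul_eq_left hQ (h5 k)

theorem exists_S {P ι C : Type} [Finite P] [CStarAlgebra C] {orth : P → P → Prop}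
    {ctx : ι → List P} {g : Gen P → unitary C} (hg : GRel orth ctx g) :
    ∃ S : C, IsStarProjection S ∧
      ∀ (H : Type) [NormedAddCommGroup H] [InnerProductSpace ℂ H] [CompleteSpace H]
        (π : C →⋆ₐ[ℂ] (H →L[ℂ] H)), IsProj (π S) (F1 fun s => umap π (g s)) := by
  obtain ⟨Q, hQ, hQ'⟩ := exists_Q0 hg.st
  have hq : Q * Q = Q := hQ.isIdempotentElem.eq
  let ζ : C := g (gg (Z 0) tot)
  let B : Bool × Ctl P → C := fun k => Q * g (gg (sg k.1) k.2) * Q
  have hζ : ζ * Q = Q * ζ := eq_of_reps fun H _ _ _ π ξ => by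
    rw [map_mul, map_mul]
    exact ((hQ' H π).comm_invol ((hg.map (umap π)).sq (gg (Z 0) tot))
      (fun η hη => F0_zeta (hg.map (umap π)) tot hη) ξ).symm
  have hBQ : ∀ k, B k * Q = B k := fun k => by simp only [B, mul_assoc, hq]
  have hQB : ∀ k, Q * B k = B k := fun k => by simp only [B, ← mul_assoc, hq]
  have hB : ∀ k, IsStarProjection (B k) := fun k => by
    refine ⟨eq_of_reps fun H _ _ _ π ξ => ?_, ?_⟩
    · have := B_idem (hg.map (umap π)) (hQ' H π) k.1 k.2 ((hQ' H π).mem ξ)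
      simp only [B, map_mul, mul_apply_eq_comp, (hQ' H π).idem]
      exact this
    · change star (Q * g (gg (sg k.1) k.2) * Q) = Q * g (gg (sg k.1) k.2) * Q
      rw [star_mul, star_mul, hQ.isSelfAdjoint.star_eq, star_of_sq (hg.sq _), mul_assoc]
  have hBB : ∀ k l, Commute (B k) (B l) := fun k l => eq_of_reps fun H _ _ _ π ξ => by
    have := B_comm (hg.map (umap π)) (hQ' H π) k.1 l.1 k.2 l.2 ((hQ' H π).mem ξ)
    simp only [B, map_mul, mul_apply_eq_comp, (hQ' H π).idem]
    exact this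
  have hsup : ∀ b, 0 ∉ (sg b).supp := fun b => by cases b <;> decide
  have hζB : ∀ k, Commute ζ (B k) := fun k => by
    have h1 : Commute ζ (g (gg (sg k.1) k.2) : C) := congrArg Subtype.val
      (hg.dis (Z 0) (sg k.1) tot k.2 (Finset.disjoint_singleton_left.2 (hsup _))).eq
    exact (Commute.mul_right hζ h1).mul_right hζ
  have hQB' : ∀ k, Commute Q (B k) := fun k => (hQB k).trans (hBQ k).symm
  have := Fintype.ofFinite (Option (Option (Bool × Ctl P)))
  obtain ⟨S, hS, hS'⟩ := exists_inf (e := ExS_e Q ζ B)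
    (ExS_proj hQ (star_of_sq (hg.sq _)) (congrArg Subtype.val (hg.sq _)) hζ hB hBQ)
    fun k l => ExS_comm (ExS_comm (Commute.refl Q) hζ (fun j => (hQB' j).symm) l).symm
      (ExS_comm (Commute.symm hζ) (Commute.refl ζ) (fun j => (hζB j).symm) l).symm
      (fun i => (ExS_comm (hQB' i) (hζB i) (fun j => hBB j i) l).symm) k
  refine ⟨S, hS, fun H _ _ _ π => ⟨(hS' H π).1, fun ξ => ((hS' H π).2 ξ).trans ?_⟩⟩
  have e0 : π (ExS_e Q ζ B none) ξ = ξ - π Q ξ := by simp [ExS_e]
  have e1 : π (ExS_e Q ζ B (some none)) ξ =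
      (1 / 2 : ℂ) • (π Q ξ + umap π (g (gg (Z 0) tot)) • π Q ξ) := by
    simp only [ExS_e, map_smul, map_add, map_mul]
    rfl
  have e2 : ∀ k, π (ExS_e Q ζ B (some (some k))) ξ =
      π Q ξ - π Q (umap π (g (gg (sg k.1) k.2)) • π Q ξ) := fun k => by
    simp only [ExS_e, B, map_sub, map_mul]
    rfl
  constructor
  · intro h
    have h0 : π Q ξ = ξ := (sub_eq_zero.1 (e0.symm.trans (h none))).symm
    refine F1_of_std (hg.map (umap π)) (((hQ' H π).2 ξ).1 h0) (fun b c => ?_) ?_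
    · have h2 := (e2 (b, c)).symm.trans (h _)
      rw [h0] at h2
      exact (hQ' H π).fix_of (sub_eq_zero.1 h2).symm
    · have h2 := e1.symm.trans (h _)
      rw [h0, smul_eq_zero, or_iff_right (by norm_num)] at h2
      exact eq_neg_of_add_eq_zero_right h2
  · rintro ⟨h1, h2, h3⟩
    have h0 : π Q ξ = ξ := (hQ' H π).fix h1
    rintro (_ | _ | k)
    · rw [e0, h0, sub_self]
    · rw [e1, h0, h3, add_neg_cancel, smul_zero]
    · rw [e2, h0, h2 _ _ (hsup _), h0, sub_self]

end Pool.Agent.Work.MP_3b70de_al.E
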