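import Pool.Agent.Work.MP_3b70de_al.E.Core
import Pool.Agent.Work.MP_3b70de_al.E.Corner

/-! The embedding theorem for isomorphism game algebras. -/

namespace Pool.Agent.Work.MP_3b70de_al.E

variable {V W : Type} [Fintype V] [Fintype W]

/-- The construction applied to the projections `p g h`. -/
theorem core_iso (G : SimpleGraph V) (H : SimpleGraph W) :
    ∃ (m n : ℕ) (M : Matrix (Fin m) (Fin n) (ZMod 2)),
      ∀ (C : Type) [CStarAlgebra C] (x : Fin n → C), IsSol M 0 x → Dilates M x →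
        ∃ (q : C) (P : V → W → C), IsStarProjection q ∧ (∀ g h, IsStarProjection (P g h)) ∧
          (∀ g h, q * P g h = P g h) ∧ (∀ g, ∑ h, P g h = q) ∧ (∀ h, ∑ g, P g h = q) ∧
          (∀ g g' h h', ¬ ((g = g' ↔ h = h') ∧ (G.Adj g g' ↔ H.Adj h h')) →
            P g h * P g' h' = 0) ∧
          (∀ c : C, (∀ i, Commute c (x i)) → Commute c q ∧ ∀ g h, Commute c (P g h)) ∧
          ∀ (L : Type) [NormedAddCommGroup L] [InnerProductSpace ℂ L] [CompleteSpace L]
            (E : V → W → L →L[ℂ] L), IsoRel G H E →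
            ∃ (K : Type) (_ : NormedAddCommGroup K) (_ : InnerProductSpace ℂ K)
              (_ : CompleteSpace K) (π : C →⋆ₐ[ℂ] (K →L[ℂ] K)) (J : L →ₗᵢ[ℂ] K),
              (∀ w, π q (J w) = J w) ∧ ∀ g h w, π (P g h) (J w) = J (E g h w) := by
  classical
  let orth : V × W → V × W → Prop := fun a b =>
    ¬ ((a.1 = b.1 ↔ a.2 = b.2) ∧ (G.Adj a.1 b.1 ↔ H.Adj a.2 b.2))
  let ctx : V ⊕ W → List (V × W) := Sum.elim
    (fun g => (Finset.univ : Finset W).toList.map fun h => (g, h))
    (fun h => (Finset.univ : Finset V).toList.map fun g => (g, h))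
  have hctx : ∀ k, (ctx k).Pairwise orth := by
    rintro (g | h)
    · refine List.pairwise_map.2 ((Finset.nodup_toList _).imp fun hne => ?_)
      simp [orth, hne]
    · refine List.pairwise_map.2 ((Finset.nodup_toList _).imp fun hne => ?_)
      simp [orth, hne]
  have hsum : ∀ {B : Type} [AddCommMonoid B] (f : V × W → B),
      (∀ g, ((ctx (Sum.inl g)).map f).sum = ∑ h, f (g, h)) ∧
        ∀ h, ((ctx (Sum.inr h)).map f).sum = ∑ g, f (g, h) := by
    intro B _ f
    constructor
    · intro g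
      simp only [ctx, Sum.elim_inl, List.map_map]
      exact Finset.sum_map_toList _ _
    · intro h
      simp only [ctx, Sum.elim_inr, List.map_map]
      exact Finset.sum_map_toList _ _
  obtain ⟨m, n, M, hM⟩ := core orth ctx hctx
  refine ⟨m, n, M, fun C _ x hx hd => ?_⟩
  obtain ⟨q, P, a1, a2, a3, a4, a5, a6, a7⟩ := hM C x hx hd
  refine ⟨q, fun g h => P (g, h), a1, fun g h => a2 _, fun g h => a3 _,
    fun g => by rw [← (hsum P).1, a5], fun h => by rw [← (hsum P).2, a5],
    fun g g' h h' hh => a4 (g, h) (g', h') hh,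
    fun c hc => ⟨(a6 c hc).1, fun g h => (a6 c hc).2 _⟩, fun L _ _ _ E hE => ?_⟩
  obtain ⟨K, _, _, _, π, J, b1, b2⟩ := a7 L (fun a => E a.1 a.2)
    (fun a => ⟨hE.1 _ _, hE.2.1 _ _⟩) (fun a b hab => hE.2.2.2.2 _ _ _ _ hab) (by
      rintro (g | h)
      · rw [(hsum _).1]; exact hE.2.2.1 g
      · rw [(hsum _).2]; exact hE.2.2.2.1 h)
  exact ⟨K, inferInstance, inferInstance, inferInstance, π, J, b1, fun g h => b2 (g, h)⟩

theorem isoRel_map {G : SimpleGraph V} {H : SimpleGraph W} {A B : Type} [CStarAlgebra A]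
    [CStarAlgebra B] {p : V → W → A} (hp : IsoRel G H p) (ρ : A →⋆ₐ[ℂ] B) :
    IsoRel G H fun g h => ρ (p g h) :=
  ⟨fun g h => by rw [← map_mul, hp.1], fun g h => by rw [← map_star, hp.2.1],
    fun g => by rw [← map_sum, hp.2.2.1, map_one], fun h => by rw [← map_sum, hp.2.2.2.1, map_one],
    fun g g' h h' hh => by rw [← map_mul, hp.2.2.2.2 g g' h h' hh, map_zero]⟩

/-- Filling the complement of the corner with a commuting family gives the unital relations. -/
theorem isoRel_fill {G : SimpleGraph V} {H : SimpleGraph W} {C : Type} [CStarAlgebra C] {q : C}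
    {P R : V → W → C} (hq : IsStarProjection q) (h1 : ∀ g h, IsStarProjection (P g h))
    (h2 : ∀ g h, q * P g h = P g h) (h3 : ∀ g, ∑ h, P g h = q) (h4 : ∀ h, ∑ g, P g h = q)
    (h5 : ∀ g g' h h', ¬ ((g = g' ↔ h = h') ∧ (G.Adj g g' ↔ H.Adj h h')) → P g h * P g' h' = 0)
    (hR : IsoRel G H R) (hc : ∀ g h, Commute (R g h) q) :
    IsoRel G H fun g h => P g h + (1 - q) * R g h := by
  have h2' : ∀ g h, P g h * q = P g h := fun g h => by
    have := congrArg star (h2 g h)
    rwa [star_mul, hq.isSelfAdjoint.star_eq, (h1 g h).isSelfAdjoint.star_eq] at this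
  have hc' : ∀ g h, R g h * (1 - q) = (1 - q) * R g h := fun g h =>
    ((Commute.one_right _).sub_right (hc g h)).eq
  have hm : ∀ g h g' h', (P g h + (1 - q) * R g h) * (P g' h' + (1 - q) * R g' h') =
      P g h * P g' h' + (1 - q) * (R g h * R g' h') := by
    intro g h g' h'
    have e1 : P g h * ((1 - q) * R g' h') = 0 := by
      rw [← mul_assoc, mul_sub, mul_one, h2', sub_self, zero_mul]
    have e2 : (1 - q) * R g h * P g' h' = 0 := by
      rw [← hc', mul_assoc, sub_mul, one_mul, h2, sub_self, mul_zero]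
    have e3 : (1 - q) * R g h * ((1 - q) * R g' h') = (1 - q) * (R g h * R g' h') := by
      rw [mul_assoc, ← mul_assoc (R g h), hc', ← mul_assoc, ← mul_assoc,
        hq.one_sub.isIdempotentElem.eq, mul_assoc]
    rw [add_mul, mul_add, mul_add, e1, e2, e3, add_zero, zero_add]
  refine ⟨fun g h => ?_, fun g h => ?_, fun g => ?_, fun h => ?_, fun g g' h h' hh => ?_⟩
  · rw [hm, hR.1, (h1 g h).isIdempotentElem.eq]
  · rw [star_add, star_mul, (h1 g h).isSelfAdjoint.star_eq, hq.one_sub.isSelfAdjoint.star_eq,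
      hR.2.1, hc']
  · rw [Finset.sum_add_distrib, ← Finset.mul_sum, h3, hR.2.2.1, mul_one, add_sub_cancel]
  · rw [Finset.sum_add_distrib, ← Finset.mul_sum, h4, hR.2.2.2.1, mul_one, add_sub_cancel]
  · rw [hm, h5 _ _ _ _ hh, hR.2.2.2.2 _ _ _ _ hh, mul_zero, add_zero]

/-- Non-unital embedding, and unital embedding when a family commuting with `x` is available. -/
theorem embed (G : SimpleGraph V) (H : SimpleGraph W) :
    ∃ (m n : ℕ) (M : Matrix (Fin m) (Fin n) (ZMod 2)),
      ∀ (A : Type) [CStarAlgebra A] (p : V → W → A), IsIsoAlg G H p →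
      ∀ (C : Type) [CStarAlgebra C] (x : Fin n → C), IsSol M 0 x → Dilates M x →
        (∃ φ : A →⋆ₙₐ[ℂ] C, Function.Injective φ) ∧
        ∀ R : V → W → C, IsoRel G H R → (∀ g h i, Commute (R g h) (x i)) →
          ∃ φ : A →⋆ₐ[ℂ] C, Function.Injective φ := by
  obtain ⟨m, n, M, hM⟩ := core_iso G H
  refine ⟨m, n, M, fun A _ p hA C _ x hx hd => ?_⟩
  obtain ⟨q, P, a1, a2, a3, a4, a5, a6, a7, a8⟩ := hM C x hx hd
  constructor
  · obtain ⟨φ, h1, h2⟩ := corner_lift hA a1 a2 a3 a4 a5 a6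
    refine ⟨φ, inj_of_reps hA φ fun L _ _ _ ρ => ?_⟩
    obtain ⟨K, _, _, _, π, J, b1, b2⟩ := a8 L _ (isoRel_map hA.1 ρ)
    exact ⟨K, inferInstance, inferInstance, inferInstance, π, J, by rwa [h1],
      fun g h w => by rw [h2, b2]⟩
  · intro R hR hc
    have hq : ∀ g h, Commute (R g h) q := fun g h => (a7 _ (hc g h)).1
    obtain ⟨φ, hφ, -⟩ := hA.2 C _ (isoRel_fill a1 a2 a3 a4 a5 a6 hR hq)
    refine ⟨φ, inj_of_reps hA (φ : A →⋆ₙₐ[ℂ] C) fun L _ _ _ ρ => ?_⟩
    obtain ⟨K, _, _, _, π, J, b1, b2⟩ := a8 L _ (isoRel_map hA.1 ρ)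
    refine ⟨K, inferInstance, inferInstance, inferInstance, π, J, fun w => ?_, fun g h w => ?_⟩
    · change π (φ 1) (J w) = J w
      rw [map_one, map_one, one_apply_eq_self]
    · change π (φ (p g h)) (J w) = _
      rw [hφ, ← ((Commute.one_right _).sub_right (hq g h)).eq, map_add, map_mul, map_sub, map_one]
      simp [b1, b2]

section group
variable {m n : ℕ} {M : Matrix (Fin m) (Fin n) (ZMod 2)} {b : Fin m → ZMod 2}

theorem sol_rel (r : FreeGroup (Option (Fin n))) (hr : r ∈ solRels M b) :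
    PresentedGroup.mk (solRels M b) r = 1 :=
  PresentedGroup.one_of_mem hr

/-- For `b = 0` the generators of the solution group solve the system. -/
theorem isSol_group {C : Type} [CStarAlgebra C] (u : SolGroup M 0 →* unitary C) :
    IsSol M 0 fun i => (u (PresentedGroup.of (some i)) : C) := by
  have hsq : ∀ s, u (PresentedGroup.of s) * u (PresentedGroup.of s) = 1 := fun s => by
    have := congrArg u (sol_rel (M := M) (b := 0) _ (Or.inl ⟨s, rfl⟩))
    rwa [map_mul, map_mul, map_one] at this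
  refine ⟨fun i => star_of_sq (hsq _), fun i => congrArg Subtype.val (hsq _),
    fun k i j hi hj => ?_, fun k => ?_⟩
  · have := congrArg u (sol_rel (M := M) (b := 0) _ (Or.inr (Or.inr (Or.inl ⟨k, i, j, hi, hj, rfl⟩))))
    rw [map_mul, map_inv, map_mul, map_inv, map_one, mul_inv_eq_one, map_mul, map_mul, map_mul,
      map_mul] at this
    exact congrArg Subtype.val this
  · have := congrArg (fun γ => (u γ : C))
      (sol_rel (M := M) (b := 0) _ (Or.inr (Or.inr (Or.inr ⟨k, rfl⟩))))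
    simp only [Pi.zero_apply, ZMod.val_zero, pow_zero, inv_one, mul_one, map_list_prod, map_one,
      List.map_ofFn, SubmonoidClass.coe_list_prod, OneMemClass.coe_one] at this ⊢
    simpa [Function.comp_def, PresentedGroup.of] using this

/-- A solution of `M x = 0` is a representation of the solution group with `J = 1`. -/
theorem exists_rep_of_sol {B : Type} [CStarAlgebra B] {y : Fin n → B} (hy : IsSol M 0 y) :
    ∃ v : SolGroup M 0 →* unitary B, ∀ i, (v (PresentedGroup.of (some i)) : B) = y i := by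
  let f : Option (Fin n) → unitary B := fun s => s.elim 1 fun i =>
    ⟨y i, by rw [Unitary.mem_iff, hy.1, hy.2.1]; exact ⟨rfl, rfl⟩⟩
  have hf : ∀ r ∈ solRels M 0, FreeGroup.lift f r = 1 := by
    rintro r (⟨s, rfl⟩ | ⟨i, rfl⟩ | ⟨k, i, j, hi, hj, rfl⟩ | ⟨k, rfl⟩)
    · cases s with
      | none => simp [f]
      | some i => rw [map_mul, FreeGroup.lift_apply_of]; exact Subtype.ext (hy.2.1 i)
    · simp [f]
    · simp only [map_mul, map_inv, FreeGroup.lift_apply_of, mul_inv_eq_one]
      exact Subtype.ext (hy.2.2.1 k i j hi hj)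
    · have := hy.2.2.2 k
      refine Subtype.ext ?_
      simp only [Pi.zero_apply, ZMod.val_zero, pow_zero, inv_one, mul_one, map_list_prod,
        List.map_ofFn, SubmonoidClass.coe_list_prod, OneMemClass.coe_one] at this ⊢
      simpa [Function.comp_def, f] using this
  exact ⟨PresentedGroup.toGroup hf, fun i => by rw [PresentedGroup.toGroup.of]; rfl⟩

theorem dilates_group {C : Type} [CStarAlgebra C] {u : SolGroup M 0 →* unitary C}
    (hu : IsFullGroupAlg u) : Dilates M fun i => (u (PresentedGroup.of (some i)) : C) := by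
  intro L _ _ _ y hy
  obtain ⟨v, hv⟩ := exists_rep_of_sol hy
  obtain ⟨π, hπ, -⟩ := hu _ v
  exact ⟨L, inferInstance, inferInstance, inferInstance, π, LinearIsometry.id,
    fun i ξ => by rw [hπ, hv]; rfl⟩

theorem dilates_sol {C : Type} [CStarAlgebra C] {x : Fin n → C} (hx : IsSolAlg M 0 x) :
    Dilates M x := by
  intro L _ _ _ y hy
  obtain ⟨π, hπ, -⟩ := hx.2 _ y hy
  exact ⟨L, inferInstance, inferInstance, inferInstance, π, LinearIsometry.id,
    fun i ξ => by rw [hπ]; rfl⟩

end group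

theorem embed_group (G : SimpleGraph V) (H : SimpleGraph W) :
    ∃ (m n : ℕ) (M : Matrix (Fin m) (Fin n) (ZMod 2)),
      ∀ (A : Type) [CStarAlgebra A] (p : V → W → A), IsIsoAlg G H p →
      ∀ (C : Type) [CStarAlgebra C] (u : SolGroup M 0 →* unitary C), IsFullGroupAlg u →
        (∃ φ : A →⋆ₙₐ[ℂ] C, Function.Injective φ) ∧
        (Nonempty (G ≃g H) → ∃ φ : A →⋆ₐ[ℂ] C, Function.Injective φ) := by
  obtain ⟨m, n, M, hM⟩ := embed G H
  refine ⟨m, n, M, fun A _ p hA C _ u hu => ?_⟩
  obtain ⟨h1, h2⟩ := hM A p hA C _ (isSol_group u) (dilates_group hu)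
  refine ⟨h1, fun ⟨e⟩ => ?_⟩
  obtain ⟨c, hc⟩ := char_of_iso e
  exact h2 _ (isoRel_map hc (StarAlgHom.ofId ℂ C)) fun g h i => Algebra.commutes _ _

theorem iso_of_hom {G : SimpleGraph V} {H : SimpleGraph W} {A : Type} [CStarAlgebra A]
    {p : V → W → A} (hp : IsoRel G H p) {Γ : Type} [Group Γ] {C : Type} [CStarAlgebra C]
    {u : Γ →* unitary C} (hu : IsFullGroupAlg u) (φ : A →⋆ₐ[ℂ] C) : Nonempty (G ≃g H) := by
  obtain ⟨ε, -, -⟩ := hu ℂ 1
  exact iso_of_char (isoRel_map hp (ε.comp φ))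

end Pool.Agent.Work.MP_3b70de_al.E
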