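import Mathlib.Analysis.CStarAlgebra.ContinuousLinearMap
import Mathlib.Analysis.InnerProductSpace.Adjoint
import Mathlib.Analysis.InnerProductSpace.Projection.Basic
import Mathlib.Algebra.Star.StarProjection

/-! Unitaries of a Hilbert space acting on vectors; projections described by their fixed vectors. -/

namespace Pool.Agent.Work.MP_3b70de_al.E

open scoped InnerProductSpace

/-- The unitary group of `H`; it acts on vectors by `•`. -/
abbrev UH (H : Type) [NormedAddCommGroup H] [InnerProductSpace ℂ H] [CompleteSpace H] : Type :=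
  unitary (H →L[ℂ] H)

/-- A unital *-homomorphism on unitary groups. -/
def umap {C D : Type} [CStarAlgebra C] [CStarAlgebra D] (π : C →⋆ₐ[ℂ] D) :
    unitary C →* unitary D where
  toFun u := ⟨π u, by
    constructor
    · rw [← map_star, ← map_mul, u.2.1, map_one]
    · rw [← map_star, ← map_mul, u.2.2, map_one]⟩
  map_one' := Subtype.ext (map_one π)
  map_mul' a b := Subtype.ext (map_mul π _ _)

@[simp] theorem coe_umap {C D : Type} [CStarAlgebra C] [CStarAlgebra D] (π : C →⋆ₐ[ℂ] D)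
    (u : unitary C) : (umap π u : D) = π u := rfl

/-- A unitary involution is self-adjoint. -/
theorem star_of_sq {C : Type} [Monoid C] [StarMul C] {u : unitary C} (h : u * u = 1) :
    star (u : C) = u := by
  have h1 : (u : C) * u = 1 := congrArg Subtype.val h
  calc star (u : C) = star (u : C) * (u * u) := by rw [h1, mul_one]
    _ = u := by rw [← mul_assoc, u.2.1, one_mul]

variable {H : Type} [NormedAddCommGroup H] [InnerProductSpace ℂ H] [CompleteSpace H]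

theorem usmul_def (u : UH H) (ξ : H) : u • ξ = (u : H →L[ℂ] H) ξ := rfl

theorem umap_smul {C : Type} [CStarAlgebra C] (π : C →⋆ₐ[ℂ] (H →L[ℂ] H)) (u : unitary C) (ξ : H) :
    umap π u • ξ = π u ξ := rfl

theorem usmul_smul (u : UH H) (c : ℂ) (ξ : H) : u • (c • ξ) = c • (u • ξ) :=
  (u : H →L[ℂ] H).map_smul c ξ

theorem uinner (u : UH H) (a b : H) : ⟪u • a, u • b⟫_ℂ = ⟪a, b⟫_ℂ :=
  ContinuousLinearMap.inner_map_map_of_mem_unitary u.2 a b

theorem unorm (u : UH H) (a : H) : ‖u • a‖ = ‖a‖ :=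
  ContinuousLinearMap.norm_map_of_mem_unitary u.2 a

theorem uinner_inv (u : UH H) (a b : H) : ⟪u • a, b⟫_ℂ = ⟪a, u⁻¹ • b⟫_ℂ := by
  rw [← uinner u a (u⁻¹ • b), smul_inv_smul]

theorem uinner_invol {u : UH H} (h : u * u = 1) (a b : H) : ⟪u • a, b⟫_ℂ = ⟪a, u • b⟫_ℂ := by
  rw [uinner_inv, inv_eq_of_mul_eq_one_right h]

theorem usmul_invol {u : UH H} (h : u * u = 1) (a : H) : u • u • a = a := by
  rw [← mul_smul, h, one_smul]

/-- If `k` fixes `a` then `k` can be dropped on the right of `a`. -/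
theorem uinner_fix {k : UH H} {a : H} (h : k • a = a) (b : H) : ⟪a, k • b⟫_ℂ = ⟪a, b⟫_ℂ := by
  conv_lhs => rw [← h]
  exact uinner k a b

/-- `Q` is the orthogonal projection onto the vectors satisfying `F`. -/
def IsProj (Q : H →L[ℂ] H) (F : H → Prop) : Prop := IsStarProjection Q ∧ ∀ ξ, Q ξ = ξ ↔ F ξ

namespace IsProj

variable {Q : H →L[ℂ] H} {F : H → Prop}

theorem idem (h : IsProj Q F) (ξ : H) : Q (Q ξ) = Q ξ :=
  congrArg (fun T : H →L[ℂ] H => T ξ) h.1.isIdempotentElem.eq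

theorem mem (h : IsProj Q F) (ξ : H) : F (Q ξ) := (h.2 _).1 (h.idem ξ)

theorem fix (h : IsProj Q F) {ξ : H} (hξ : F ξ) : Q ξ = ξ := (h.2 _).2 hξ

theorem symm (h : IsProj Q F) (a b : H) : ⟪Q a, b⟫_ℂ = ⟪a, Q b⟫_ℂ :=
  h.1.isSelfAdjoint.isSymmetric a b

theorem inner_mem (h : IsProj Q F) {a : H} (ha : F a) (b : H) : ⟪a, Q b⟫_ℂ = ⟪a, b⟫_ℂ := by
  rw [← h.symm, h.fix ha]

theorem inner_self (h : IsProj Q F) (a : H) : ⟪a, Q a⟫_ℂ = ⟪Q a, Q a⟫_ℂ :=
  by rw [h.symm, h.idem]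

/-- Two vectors with the same inner products against `F` have the same projection. -/
theorem ext (h : IsProj Q F) {a b : H} (hab : ∀ c, F c → ⟪c, a⟫_ℂ = ⟪c, b⟫_ℂ) : Q a = Q b := by
  refine ext_inner_left ℂ fun c => ?_
  rw [← h.symm, ← h.symm, hab _ (h.mem c)]

theorem eq_of_inner (h : IsProj Q F) {a b : H} (hb : F b)
    (hab : ∀ c, F c → ⟪c, a⟫_ℂ = ⟪c, b⟫_ℂ) : Q a = b := by rw [h.ext hab, h.fix hb]

theorem norm_sq (h : IsProj Q F) (a : H) : ‖a‖ ^ 2 = ‖Q a‖ ^ 2 + ‖a - Q a‖ ^ 2 := by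
  have h0 : ⟪Q a, a - Q a⟫_ℂ = 0 := by rw [h.symm, map_sub, h.idem, sub_self, inner_zero_right]
  have := norm_add_sq_eq_norm_sq_add_norm_sq_of_inner_eq_zero (𝕜 := ℂ) _ _ h0
  rw [add_sub_cancel] at this
  nlinarith

theorem norm_le (h : IsProj Q F) (a : H) : ‖Q a‖ ≤ ‖a‖ := by
  have := h.norm_sq a
  exact (pow_le_pow_iff_left₀ (norm_nonneg _) (norm_nonneg _) two_ne_zero).1
    (by nlinarith [sq_nonneg ‖a - Q a‖])

/-- A vector whose projection is not shorter lies in the range. -/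
theorem of_norm (h : IsProj Q F) {a : H} (ha : ‖a‖ ≤ ‖Q a‖) : Q a = a := by
  have h1 := h.norm_sq a
  have h2 : ‖a‖ ^ 2 ≤ ‖Q a‖ ^ 2 := pow_le_pow_left₀ (norm_nonneg _) ha 2
  have h3 : ‖a - Q a‖ ^ 2 = 0 := le_antisymm (by linarith) (sq_nonneg _)
  exact (sub_eq_zero.1 (norm_eq_zero.1 (pow_eq_zero_iff two_ne_zero |>.1 h3))).symm

/-- If `Q (u ξ) = ξ` for a unitary `u` then `u ξ = ξ`. -/
theorem fix_of (h : IsProj Q F) {u : UH H} {ξ : H} (hu : Q (u • ξ) = ξ) : u • ξ = ξ := by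
  rw [← h.of_norm (a := u • ξ) (by rw [hu, unorm]), hu]

/-- A unitary which, with its inverse, preserves `F` commutes with the projection. -/
theorem comm (h : IsProj Q F) {u : UH H} (h1 : ∀ ξ, F ξ → F (u • ξ)) (h2 : ∀ ξ, F ξ → F (u⁻¹ • ξ))
    (ξ : H) : Q (u • ξ) = u • Q ξ := by
  refine h.eq_of_inner (h1 _ (h.mem ξ)) fun c hc => ?_
  rw [← uinner u⁻¹, inv_smul_smul, ← uinner u⁻¹ c, inv_smul_smul, h.inner_mem (h2 c hc)]

theorem comm_invol (h : IsProj Q F) {u : UH H} (hu : u * u = 1) (h1 : ∀ ξ, F ξ → F (u • ξ))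
    (ξ : H) : Q (u • ξ) = u • Q ξ :=
  h.comm h1 (by rwa [inv_eq_of_mul_eq_one_right hu]) ξ

/-- A unitary fixing `F` pointwise is absorbed by the projection. -/
theorem absorb (h : IsProj Q F) {u : UH H} (hu : ∀ ξ, F ξ → u • ξ = ξ) (ξ : H) :
    Q (u • ξ) = Q ξ := h.ext fun c hc => uinner_fix (hu c hc) ξ

theorem of_le (h : IsProj Q F) {Q' : H →L[ℂ] H} {F' : H → Prop} (h' : IsProj Q' F')
    (hle : ∀ ξ, F ξ → F' ξ) (ξ : H) : Q (Q' ξ) = Q ξ :=
  h.ext fun c hc => h'.inner_mem (hle c hc) ξ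

end IsProj

/-- The projection onto the common fixed vectors of a set of unitaries. -/
theorem exists_isProj (S : Set (UH H)) : ∃ Q : H →L[ℂ] H, IsProj Q fun ξ => ∀ u ∈ S, u • ξ = ξ := by
  let K : Submodule ℂ H := ⨅ u ∈ S, ((u : H →L[ℂ] H) - 1).ker
  have hm : ∀ ξ, ξ ∈ K ↔ ∀ u ∈ S, u • ξ = ξ := by
    intro ξ
    simp [K, Submodule.mem_iInf, sub_eq_zero, usmul_def]
  have hc : IsClosed (K : Set H) := by
    have : (K : Set H) = ⋂ u ∈ S, {ξ | (u : H →L[ℂ] H) ξ = ξ} := by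
      ext ξ; simp [hm, usmul_def]
    rw [this]
    exact isClosed_biInter fun u _ => isClosed_eq (u : H →L[ℂ] H).continuous continuous_id
  have : CompleteSpace K := hc.completeSpace_coe
  exact ⟨K.starProjection, isStarProjection_starProjection, fun ξ => by
    rw [Submodule.starProjection_eq_self_iff, hm]⟩

end Pool.Agent.Work.MP_3b70de_al.E
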