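import Pool.Agent.Work.MP_3b70de_al.E.StDefs
import Pool.Agent.Work.MP_3b70de_al.E.Hil
import Mathlib.NumberTheory.Zsqrtd.Basic
import Mathlib.Data.Matrix.Basis
import Mathlib.Tactic.DeriveFintype

/-! Gates, controllers, the generators and relations of the group, and the subspaces `F1`, `F2`. -/

namespace Pool.Agent.Work.MP_3b70de_al.E

/-- `Z a`: sign at the coordinate `a`; `H a b`: Hadamard block on the coordinates `a, b`. -/
inductive Gate
  | Z (a : Fin 6)
  | H (a b : Fin 6)
  deriving DecidableEq, Fintype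

open Gate

def Gate.supp : Gate → Finset (Fin 6)
  | Z a => {a}
  | H a b => {a, b}

def Gate.relab (σ : Equiv.Perm (Fin 6)) : Gate → Gate
  | Z a => Z (σ a)
  | H a b => H (σ a) (σ b)

/-- `1 / √2`. -/
noncomputable def kap : ℝ := (√2)⁻¹

/-- The matrix of a gate minus the identity. -/
noncomputable def Gate.dl : Gate → Matrix (Fin 6) (Fin 6) ℂ
  | Z a => Matrix.single a a (-2)
  | H a b => if a = b then 0 else
      Matrix.single a a ((kap : ℂ) - 1) + Matrix.single a b (kap : ℂ) + Matrix.single b a (kap : ℂ) +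
        Matrix.single b b (-(kap : ℂ) - 1)

noncomputable def Gate.mat (o : Gate) : Matrix (Fin 6) (Fin 6) ℂ := 1 + o.dl

/-- The word is trivial as a product of matrices. -/
def Triv (w : List Gate) : Prop := (w.map Gate.mat).prod = 1

/-- `√2` times the action of a gate, over `ℤ[√2]`. -/
def Gate.act : Gate → (Fin 6 → ℤ√2) → Fin 6 → ℤ√2
  | Z a, v => fun i => if i = a then -(Zsqrtd.sqrtd * v i) else Zsqrtd.sqrtd * v i
  | H a b, v => fun i => if a = b then Zsqrtd.sqrtd * v i else
      if i = a then v a + v b else if i = b then v a - v b else Zsqrtd.sqrtd * v i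

/-- A computable test for `Triv`. -/
def chk (w : List Gate) : Bool :=
  decide (∀ j i : Fin 6, w.foldr Gate.act (fun k => if k = j then 1 else 0) i =
    if i = j then Zsqrtd.sqrtd ^ w.length else 0)

/-- Controllers: `inl p` stands for `E_p` (`E_none = 0`), `inr (p, q)` for `1 - E_p - E_q`. -/
abbrev Ctl (P : Type) : Type := Option P ⊕ Option P × Option P

/-- The generators of the group. -/
abbrev Gen (P : Type) : Type := (Fin 5 × Fin 5 × Lt) ⊕ Gate × Ctl P

variable {P : Type}

def gx (i j : Fin 5) (a : Lt) : Gen P := Sum.inl (i, j, a)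
def gg (o : Gate) (c : Ctl P) : Gen P := Sum.inr (o, c)
def tot : Ctl P := Sum.inr (none, none)
def cp (p : Option P) : Ctl P := Sum.inl p

def orthO (orth : P → P → Prop) : Option P → Option P → Prop
  | some p, some q => orth p q
  | _, _ => True

def frame (p q : Option P) : Fin 4 → Ctl P := ![cp p, cp q, Sum.inr (p, q), tot]

/-- The gates of a labelled word that act on the atom `a`. -/
def atom (w : List (Gate × Fin 4)) (a : Fin 3) : List Gate :=
  (w.filter fun e => e.2 = a.castSucc ∨ e.2 = 3).map Prod.fst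

/-- A computable test for the hypotheses of `GRel.fr`. -/
def chkF (w : List (Gate × Fin 4)) : Bool :=
  decide (w.length ≤ 64) && chk (atom w 0) && chk (atom w 1) && chk (atom w 2)

variable {G : Type} [Group G]

/-- The Steinberg generators inside a family indexed by `Gen P`. -/
def xs (g : Gen P → G) (i j : Fin 5) (a : Lt) : G := g (gx i j a)

/-- The defining relations. -/
structure GRel {ι : Type} (orth : P → P → Prop) (ctx : ι → List P) (g : Gen P → G) : Prop where
  sq : ∀ s, g s * g s = 1
  st : StRel (xs g)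
  fr : ∀ p q, orthO orth p q → ∀ w : List (Gate × Fin 4), w.length ≤ 64 →
    (∀ a, Triv (atom w a)) → ev (fun e => g (gg e.1 (frame p q e.2))) w = 1
  triv : ∀ a c, g (gg (H a a) c) = 1
  dis : ∀ o o' c c', Disjoint o.supp o'.supp → Commute (g (gg o c)) (g (gg o' c'))
  cst : ∀ o c i j a, i ≠ j → i.succ ∉ o.supp → j.succ ∉ o.supp → Commute (g (gg o c)) (xs g i j a)
  rel : ∀ i j o c, i ≠ j → ws (xs g) i j (lk 1) (lk 1) * g (gg o c) =
    g (gg (o.relab (Equiv.swap i.succ j.succ)) c) * ws (xs g) i j (lk 1) (lk 1)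
  dblZ : ∀ c, dd (xs g) * g (gg (Z 1) c) = g (gg (Z 1) c) * g (gg (Z 3) c) * dd (xs g)
  dblH : ∀ c, dd (xs g) * g (gg (H 1 2) c) = g (gg (H 1 2) c) * g (gg (H 3 4) c) * dd (xs g)
  ctx : ∀ k, ev (fun p => g (gg (Z 0) (cp (some p)))) (ctx k) = g (gg (Z 0) tot)

theorem map_ws {G' : Type} [Group G'] (f : G →* G') (g : Gen P → G) (i j : Fin 5) (a b : Lt) :
    f (ws (xs g) i j a b) = ws (xs fun s => f (g s)) i j a b := by simp [ws, xs]

theorem map_dd {G' : Type} [Group G'] (f : G →* G') (g : Gen P → G) :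
    f (dd (xs g)) = dd (xs fun s => f (g s)) := by simp only [dd, map_mul, map_ws]

theorem GRel.map {ι : Type} {orth : P → P → Prop} {ctx : ι → List P} {g : Gen P → G}
    (h : GRel orth ctx g) {G' : Type} [Group G'] (f : G →* G') :
    GRel orth ctx fun s => f (g s) where
  sq s := by rw [← map_mul, h.sq, map_one]
  st := h.st.map f
  fr p q hpq w hw ht := by rw [← map_ev f, h.fr p q hpq w hw ht, map_one]
  triv a c := by rw [h.triv, map_one]
  dis o o' c c' hd := (h.dis o o' c c' hd).map f
  cst o c i j a h1 h2 h3 := (h.cst o c i j a h1 h2 h3).map f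
  rel i j o c hij := by rw [← map_ws, ← map_mul, h.rel i j o c hij, map_mul]
  dblZ c := by rw [← map_dd, ← map_mul, h.dblZ c, map_mul, map_mul]
  dblH c := by rw [← map_dd, ← map_mul, h.dblH c, map_mul, map_mul]
  ctx k := by rw [← map_ev f, h.ctx k]

variable {K : Type} [NormedAddCommGroup K] [InnerProductSpace ℂ K] [CompleteSpace K]

/-- Odd vectors fixed by the Steinberg group and by all gates that do not touch the index `0`. -/
def F1 (g : Gen P → UH K) (ξ : K) : Prop :=
  F0 (xs g) ξ ∧ (∀ o c, 0 ∉ Gate.supp o → g (gg o c) • ξ = ξ) ∧ g (gg (Z 0) tot) • ξ = -ξ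

/-- The vectors of `F1` on which the Hadamard gate has the extreme matrix coefficient. -/
def F2 (g : Gen P → UH K) (ξ : K) : Prop :=
  F1 g ξ ∧ g (gg (H 0 1) tot) • ξ + g (gg (Z 1) tot) • g (gg (H 0 1) tot) • ξ = ((√2 : ℝ) : ℂ) • ξ

/-- The two standard gates not touching the index `0`. -/
def sg : Bool → Gate
  | false => Z 1
  | true => H 1 2

end Pool.Agent.Work.MP_3b70de_al.E
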