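import Pool.Agent.Work.MP_3b70de_al.E.Hil
import Mathlib.Analysis.CStarAlgebra.GelfandNaimarkSegal
import Mathlib.Analysis.CStarAlgebra.ContinuousFunctionalCalculus.Order
import Mathlib.Analysis.Convex.Cone.Extension
import Mathlib.LinearAlgebra.Complex.Module

/-! Enough representations: every spectral value of a self-adjoint element is an eigenvalue in some
representation.

Plan. Use `letI := CStarAlgebra.spectralOrder C`, `haveI := CStarAlgebra.spectralOrderedRing C`.
`b = (a - t)^2` is positive and `0` is in its spectrum (not a unit; `C` is nontrivial since the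
spectrum is nonempty). In the real vector space `selfAdjoint C` take the pointed cone
`s = {x | ∃ c : ℝ, 0 ≤ x + c • b}` and `f = LinearPMap.mkSpanSingleton 1 1 _` (`α • 1 ↦ α`). If
`0 ≤ α • 1 + c • b` then `0 ≤ α` (otherwise `c • b = (α + c b) + (-α)` is strictly positive, so a
unit, so `b` is a unit); `‖y‖ • 1 + y ≥ 0`. `riesz_extension` gives `g` with `g 1 = 1`, `g ≥ 0` on
positive elements, `g b = 0` (both `b` and `-b` are in `s`). Put `φ x = g (ℜ x) + I * g (ℑ x)`
(`realPart`, `imaginaryPart`), a positive complex linear map `C →ₚ[ℂ] ℂ`. Take `φ.gnsStarAlgHom`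
and `ξ` the class of `1`: `‖ξ‖² = φ 1 = 1`, `‖π (a - t) ξ‖² = φ b = 0`.
`eq_zero_of_reps`: apply the first theorem to `star x * x` and a point `t` of its spectrum: `t = 0`,
so the spectral radius (norm) of `star x * x` is `0`
(`CStarAlgebra.norm_mem_spectrum_of_nonneg` or `IsSelfAdjoint.spectralRadius_eq_nnnorm`). -/

namespace Pool.Agent.Work.MP_3b70de_al.E

variable {C : Type} [CStarAlgebra C]

open scoped ComplexOrder in
theorem GN_state [PartialOrder C] [StarOrderedRing C] {b : C} (hb : IsSelfAdjoint b)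
    (hu : ¬ IsUnit b) : ∃ φ : C →ₚ[ℂ] ℂ, φ 1 = 1 ∧ φ b = 0 := by
  have h10 : (1 : C) ≠ 0 := fun h => hu (by
    have := subsingleton_of_zero_eq_one h.symm
    exact isUnit_of_subsingleton b)
  let s : PointedCone ℝ C := PointedCone.ofConeComb {x | ∃ c : ℝ, 0 ≤ x + star x + c • b}
    ⟨0, 0, by simp⟩ (by
      rintro x ⟨c, hc⟩ y ⟨d, hd⟩ p hp q hq
      refine ⟨p * c + q * d, ?_⟩
      have h1 := add_nonneg (smul_nonneg hp hc) (smul_nonneg hq hd)
      convert h1 using 1
      simp only [star_add, star_smul, star_trivial, smul_add, add_smul, mul_smul]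
      abel)
  have hs : ∀ x, x ∈ s ↔ ∃ c : ℝ, 0 ≤ x + star x + c • b := fun x => Iff.rfl
  obtain ⟨g, hg1, hg⟩ := riesz_extension s (LinearPMap.mkSpanSingleton (1 : C) (1 : ℝ) h10)
    (by
      rintro ⟨x, hx⟩ hxs
      obtain ⟨α, rfl⟩ := Submodule.mem_span_singleton.1 hx
      rw [LinearPMap.mkSpanSingleton'_apply]
      obtain ⟨c, hc⟩ := (hs _).1 hxs
      simp only [RingHom.id_apply, smul_eq_mul, mul_one]
      by_contra hα
      have h1 : (-(2 * α)) • (1 : C) ≤ c • b := by
        rw [← sub_nonneg]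
        convert hc using 1
        simp only [star_smul, star_trivial, star_one, neg_smul, two_mul, add_smul]
        abel
      have h2 : IsStrictlyPositive ((-(2 * α)) • (1 : C)) :=
        IsStrictlyPositive.smul (by linarith) isStrictlyPositive_one
      have h3 := CStarAlgebra.isUnit_of_le _ h1 h2
      rw [Algebra.smul_def] at h3
      exact hu (((Algebra.commute_algebraMap_left c b).isUnit_mul_iff.1 h3).2))
    (fun y => by
      refine ⟨⟨(‖y + star y‖ / 2) • (1 : C), Submodule.mem_span_singleton.2 ⟨_, rfl⟩⟩,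
        (hs _).2 ⟨0, ?_⟩⟩
      have h1 := (IsSelfAdjoint.add_star_self y).neg_algebraMap_norm_le_self
      rw [← sub_nonneg, Algebra.algebraMap_eq_smul_one] at h1
      convert h1 using 1
      simp only [star_add, star_smul, star_trivial, star_one, zero_smul]
      module)
  have hz : ∀ x : C, (∃ c : ℝ, x + star x + c • b = 0) → g x = 0 := by
    rintro x ⟨c, hc⟩
    have h1 := hg x ((hs _).2 ⟨c, hc.ge⟩)
    have h2 := hg (-x) ((hs _).2 ⟨-c, le_of_eq (by
      rw [← neg_zero, ← hc, star_neg, neg_smul]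
      abel)⟩)
    rw [map_neg] at h2
    linarith
  have hI : ∀ x : C, IsSelfAdjoint x → g (Complex.I • x) = 0 := fun x hx =>
    hz _ ⟨0, by simp [star_smul, hx.star_eq]⟩
  let ψ : C →ₗ[ℂ] ℂ :=
    { toFun := fun x => g x - Complex.I * g (Complex.I • x)
      map_add' := fun x y => by
        simp only [smul_add, map_add, Complex.ofReal_add]
        ring
      map_smul' := fun c x => by
        have h1 : c • x = c.re • x + c.im • (Complex.I • x) := by
          conv_lhs => rw [← Complex.re_add_im c]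
          rw [add_smul, mul_smul, Complex.coe_smul, Complex.coe_smul]
        have h2 : Complex.I • c • x = c.re • (Complex.I • x) - c.im • x := by
          rw [h1, smul_add, smul_comm Complex.I c.re, smul_comm Complex.I c.im, smul_smul Complex.I,
            Complex.I_mul_I, neg_one_smul, smul_neg, sub_eq_add_neg]
        rw [h2, h1]
        simp only [map_add, map_sub, map_smul, smul_eq_mul, RingHom.id_apply]
        conv_rhs => rw [← Complex.re_add_im c]
        push_cast
        linear_combination (c.im : ℂ) * (g (Complex.I • x) : ℂ) * Complex.I_mul_I }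
  have hψ : ∀ x, IsSelfAdjoint x → ψ x = g x := fun x hx => by
    change (g x : ℂ) - Complex.I * g (Complex.I • x) = g x
    rw [hI x hx]
    simp
  refine ⟨PositiveLinearMap.mk₀ ψ fun x hx => ?_, ?_, ?_⟩
  · rw [hψ x hx.isSelfAdjoint, Complex.zero_le_real]
    refine hg x ((hs _).2 ⟨0, ?_⟩)
    rw [hx.isSelfAdjoint.star_eq, zero_smul, add_zero]
    exact add_nonneg hx hx
  · change ψ 1 = 1
    have h1 : g 1 = 1 := (hg1 ⟨1, Submodule.mem_span_singleton_self _⟩).trans
      (LinearPMap.mkSpanSingleton'_apply_self _ _ _ _)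
    rw [hψ 1 (IsSelfAdjoint.one C), h1, Complex.ofReal_one]
  · change ψ b = 0
    rw [hψ b hb, hz b ⟨-2, by rw [hb.star_eq]; module⟩, Complex.ofReal_zero]

theorem gn_eigen {a : C} (ha : IsSelfAdjoint a) {t : ℝ} (ht : t ∈ spectrum ℝ a) :
    ∃ (H : Type) (_ : NormedAddCommGroup H) (_ : InnerProductSpace ℂ H) (_ : CompleteSpace H)
      (π : C →⋆ₐ[ℂ] (H →L[ℂ] H)) (ξ : H), ξ ≠ 0 ∧ π a ξ = (t : ℂ) • ξ := by
  let := CStarAlgebra.spectralOrder C
  have := CStarAlgebra.spectralOrderedRing C
  have hd : IsSelfAdjoint (algebraMap ℝ C t - a) :=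
    (IsSelfAdjoint.algebraMap C (IsSelfAdjoint.all t)).sub ha
  obtain ⟨φ, h1, h2⟩ := GN_state (b := star (algebraMap ℝ C t - a) * (algebraMap ℝ C t - a))
    (IsSelfAdjoint.star_mul_self _) fun h => by
      rw [hd.star_eq] at h
      exact spectrum.mem_iff.1 ht ((Commute.refl _).isUnit_mul_iff.1 h).1
  have hn : ∀ x : C, ((‖((φ.toPreGNS x : φ.PreGNS) : φ.GNS)‖ : ℝ) : ℂ) ^ 2 = φ (star x * x) :=
    fun x => by
      rw [UniformSpace.Completion.norm_coe]
      exact φ.preGNS_norm_sq _
  refine ⟨φ.GNS, inferInstance, inferInstance, inferInstance, φ.gnsStarAlgHom,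
    ((φ.toPreGNS 1 : φ.PreGNS) : φ.GNS), fun h => ?_, ?_⟩
  · have h3 := hn 1
    rw [h, star_one, mul_one, h1] at h3
    simp at h3
  · have h3 := hn (algebraMap ℝ C t - a)
    rw [h2] at h3
    have h4 : ((φ.toPreGNS (algebraMap ℝ C t - a) : φ.PreGNS) : φ.GNS) = 0 :=
      norm_eq_zero.1 (Complex.ofReal_eq_zero.1 (pow_eq_zero_iff two_ne_zero |>.1 h3))
    have h5 : φ.gnsStarAlgHom (algebraMap ℝ C t - a) ((φ.toPreGNS 1 : φ.PreGNS) : φ.GNS) = 0 := by
      rw [← h4]
      refine (φ.gnsNonUnitalStarAlgHom_apply_coe (a := algebraMap ℝ C t - a)).trans ?_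
      congr 1
      exact congrArg φ.toPreGNS (mul_one _)
    rw [map_sub, sub_apply, sub_eq_zero, Algebra.algebraMap_eq_smul_one,
      ← Complex.coe_smul, map_smul, map_one] at h5
    exact h5.symm

theorem eq_zero_of_reps {x : C}
    (h : ∀ (H : Type) [NormedAddCommGroup H] [InnerProductSpace ℂ H] [CompleteSpace H]
      (π : C →⋆ₐ[ℂ] (H →L[ℂ] H)) (ξ : H), π x ξ = 0) : x = 0 := by
  let := CStarAlgebra.spectralOrder C
  have := CStarAlgebra.spectralOrderedRing C
  nontriviality C
  obtain ⟨H, _, _, _, π, ξ, h0, h1⟩ := gn_eigen (IsSelfAdjoint.star_mul_self x)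
    (CStarAlgebra.norm_mem_spectrum_of_nonneg (star_mul_self_nonneg x))
  rw [map_mul, mul_apply_eq_comp, h H π ξ, map_zero] at h1
  have h2 := (smul_eq_zero.1 h1.symm).resolve_right h0
  rw [Complex.ofReal_eq_zero, CStarRing.norm_star_mul_self, mul_self_eq_zero] at h2
  exact norm_eq_zero.1 h2

theorem eq_of_reps {x y : C}
    (h : ∀ (H : Type) [NormedAddCommGroup H] [InnerProductSpace ℂ H] [CompleteSpace H]
      (π : C →⋆ₐ[ℂ] (H →L[ℂ] H)) (ξ : H), π x ξ = π y ξ) : x = y :=
  sub_eq_zero.1 (eq_zero_of_reps fun H _ _ _ π ξ => by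
    rw [map_sub, ContinuousLinearMap.sub_apply, h H π ξ, sub_self])

end Pool.Agent.Work.MP_3b70de_al.E
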