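import Pool.Agent.Work.MP_3b70de_al.E.GN

/-! Spectral projections from a uniform spectral gap.

Plan. `exists_proj`: by `gn_eigen` every `t` in `spectrum ℝ D` is `0` or has `c ≤ |t|`. Put
`f t = max 0 (1 - |t| / c)`, `g t = t / max (t ^ 2) (c ^ 2)` (continuous on `ℝ`), `e = cfc f D`.
On the spectrum `f * f = f`, `t * f t = 0`, `f t + g t * t = 1`; so (`cfc_mul`, `cfc_congr`,
`cfc_id'`) `e * e = e`, `D * e = 0`, `e + cfc g D * D = 1`. Apply `π` and evaluate at `ξ`.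
`sum_proj_eigen`: `t * ‖ξ‖² = re ⟪ξ, ∑ E k ξ⟫ = ∑ ‖E k ξ‖²` and
`t² ‖ξ‖² = ∑ k l, re ⟪E k ξ, E l ξ⟫ ≥ ∑ k, ‖E k ξ‖²` because `⟪E k ξ, E l ξ⟫ = ‖E k (E l ξ)‖² ≥ 0`
for commuting projections. `exists_inf`: `D = ∑ k, e k`. -/

namespace Pool.Agent.Work.MP_3b70de_al.E

open scoped InnerProductSpace

variable {C : Type} [CStarAlgebra C]

theorem exists_proj {D : C} (hD : IsSelfAdjoint D) {c : ℝ} (hc : 0 < c)
    (h : ∀ (H : Type) [NormedAddCommGroup H] [InnerProductSpace ℂ H] [CompleteSpace H]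
      (π : C →⋆ₐ[ℂ] (H →L[ℂ] H)) (ξ : H) (t : ℝ), ξ ≠ 0 → π D ξ = (t : ℂ) • ξ → t = 0 ∨ c ≤ |t|) :
    ∃ e : C, IsStarProjection e ∧
      ∀ (H : Type) [NormedAddCommGroup H] [InnerProductSpace ℂ H] [CompleteSpace H]
        (π : C →⋆ₐ[ℂ] (H →L[ℂ] H)), IsProj (π e) fun ξ => π D ξ = 0 := by
  have hs : ∀ t ∈ spectrum ℝ D, t = 0 ∨ c ≤ |t| := fun t ht => by
    obtain ⟨H, _, _, _, π, ξ, h1, h2⟩ := gn_eigen hD ht
    exact h H π ξ t h1 h2
  let f : ℝ → ℝ := fun t => max 0 (1 - |t| / c)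
  let g : ℝ → ℝ := fun t => t / max (t ^ 2) (c ^ 2)
  have hf : Continuous f := by fun_prop
  have hg : Continuous g := continuous_id.div (by fun_prop) fun t =>
    (lt_max_of_lt_right (pow_pos hc 2)).ne'
  have f0 : f 0 = 1 := by simp [f]
  have f1 : ∀ t, c ≤ |t| → f t = 0 := fun t ht =>
    max_eq_left (sub_nonpos.2 ((one_le_div hc).2 ht))
  have g1 : ∀ t, c ≤ |t| → g t * t = 1 := fun t ht => by
    have h1 : c ^ 2 ≤ t ^ 2 := (pow_le_pow_left₀ hc.le ht 2).trans_eq (sq_abs t)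
    simp only [g]
    rw [max_eq_left h1, div_mul_eq_mul_div, ← sq, div_self ((pow_pos hc 2).trans_le h1).ne']
  clear_value f g
  clear h
  have e1 : cfc f D * cfc f D = cfc f D := by
    rw [← cfc_mul f f D hf.continuousOn hf.continuousOn]
    exact cfc_congr fun t ht => (hs t ht).elim (fun e => by simp [e, f0]) fun e => by simp [f1 t e]
  have e2 : D * cfc f D = 0 := by
    nth_rw 1 [← cfc_id' ℝ D hD]
    rw [← cfc_mul _ f D (continuousOn_id' _) hf.continuousOn, ← cfc_const_zero ℝ D]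
    exact cfc_congr fun t ht => (hs t ht).elim (fun e => by simp [e]) fun e => by simp [f1 t e]
  have e3 : cfc f D + cfc g D * D = 1 := by
    nth_rw 3 [← cfc_id' ℝ D hD]
    rw [← cfc_mul g _ D hg.continuousOn (continuousOn_id' _),
      ← cfc_add D f (fun x => g x * x) hf.continuousOn (hg.mul continuous_id').continuousOn,
      ← cfc_const_one ℝ D hD]
    exact cfc_congr fun t ht => (hs t ht).elim (fun e => by simp [e, f0])
      fun e => by simp [f1 t e, g1 t e]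
  have he : IsStarProjection (cfc f D) := ⟨e1, cfc_predicate f D⟩
  refine ⟨_, he, fun H _ _ _ π => ⟨he.map π, fun ξ => ⟨fun h1 => ?_, fun h1 => ?_⟩⟩⟩
  · have := congrArg (fun x => π x ξ) e2
    simpa [h1] using this
  · have := congrArg (fun x => π x ξ) e3
    simpa [h1] using this

section
variable {H : Type} [NormedAddCommGroup H] [InnerProductSpace ℂ H] [CompleteSpace H]
  {ι : Type} [Fintype ι]

theorem Gap_re {P : H →L[ℂ] H} (hP : IsStarProjection P) (ξ : H) :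
    RCLike.re ⟪ξ, P ξ⟫_ℂ = ‖P ξ‖ ^ 2 := by
  rw [IsProj.inner_self (F := fun ξ => P ξ = ξ) ⟨hP, fun _ => Iff.rfl⟩, inner_self_eq_norm_sq]

theorem Gap_sum {E : ι → H →L[ℂ] H} (hE : ∀ k, IsStarProjection (E k)) (ξ : H) :
    RCLike.re ⟪ξ, ∑ k, E k ξ⟫_ℂ = ∑ k, ‖E k ξ‖ ^ 2 := by
  rw [inner_sum, map_sum]
  exact Finset.sum_congr rfl fun k _ => Gap_re (hE k) ξ

theorem sum_proj_zero {E : ι → H →L[ℂ] H} (hE : ∀ k, IsStarProjection (E k)) {ξ : H}
    (h : ∑ k, E k ξ = 0) (k : ι) : E k ξ = 0 := by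
  have h1 := Gap_sum hE ξ
  rw [h, inner_zero_right, map_zero, eq_comm,
    Finset.sum_eq_zero_iff_of_nonneg fun _ _ => sq_nonneg _] at h1
  exact norm_eq_zero.1 (pow_eq_zero_iff two_ne_zero |>.1 (h1 k (Finset.mem_univ k)))

theorem sum_proj_eigen {E : ι → H →L[ℂ] H} (hE : ∀ k, IsStarProjection (E k))
    (hc : ∀ k l, Commute (E k) (E l)) {ξ : H} (hξ : ξ ≠ 0) {t : ℝ}
    (h : ∑ k, E k ξ = (t : ℂ) • ξ) : t = 0 ∨ 1 ≤ |t| := by
  have h0 : 0 < ‖ξ‖ ^ 2 := pow_pos (norm_pos_iff.2 hξ) 2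
  have h1 := Gap_sum hE ξ
  have h2 : ∑ k, ‖E k ξ‖ ^ 2 ≤ RCLike.re ⟪∑ k, E k ξ, ∑ k, E k ξ⟫_ℂ := by
    rw [sum_inner, map_sum]
    refine Finset.sum_le_sum fun k _ => ?_
    rw [inner_sum, map_sum, ← inner_self_eq_norm_sq (𝕜 := ℂ)]
    refine Finset.single_le_sum (f := fun l => RCLike.re ⟪E k ξ, E l ξ⟫_ℂ) (fun l _ => ?_)
      (Finset.mem_univ k)
    rw [show ⟪E k ξ, E l ξ⟫_ℂ = ⟪ξ, (E k * E l) ξ⟫_ℂ from (hE k).isSelfAdjoint.isSymmetric ξ _,
      Gap_re ((hE k).mul (hE l) (hc k l))]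
    exact sq_nonneg _
  have h3 : 0 ≤ ∑ k, ‖E k ξ‖ ^ 2 := Finset.sum_nonneg fun _ _ => sq_nonneg _
  rw [h, inner_self_eq_norm_sq, norm_smul, mul_pow, Complex.norm_real, Real.norm_eq_abs,
    sq_abs] at h2
  rw [h, inner_smul_right, RCLike.re_to_complex, Complex.re_ofReal_mul, ← RCLike.re_to_complex,
    inner_self_eq_norm_sq] at h1
  rw [← h1] at h2 h3
  have h4 := le_of_mul_le_mul_right h2 h0
  have h5 := nonneg_of_mul_nonneg_left h3 h0
  refine h5.eq_or_lt.imp Eq.symm fun h6 => ?_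
  rw [abs_of_pos h6]
  nlinarith

end

theorem exists_inf {ι : Type} [Fintype ι] {e : ι → C} (he : ∀ k, IsStarProjection (e k))
    (hc : ∀ k l, Commute (e k) (e l)) :
    ∃ S : C, IsStarProjection S ∧
      ∀ (H : Type) [NormedAddCommGroup H] [InnerProductSpace ℂ H] [CompleteSpace H]
        (π : C →⋆ₐ[ℂ] (H →L[ℂ] H)), IsProj (π S) fun ξ => ∀ k, π (e k) ξ = 0 := by
  obtain ⟨S, h1, h2⟩ := exists_proj (D := ∑ k, e k) (c := 1)
    (isSelfAdjoint_sum _ fun k _ => (he k).isSelfAdjoint) one_pos fun H _ _ _ π ξ t h3 h4 =>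
      sum_proj_eigen (fun k => (he k).map π) (fun k l => (hc k l).map π) h3 (by simpa using h4)
  refine ⟨S, h1, fun H _ _ _ π => ⟨h1.map π, fun ξ => ((h2 H π).2 ξ).trans ⟨fun h3 => ?_,
    fun h3 => by simp [h3]⟩⟩⟩
  exact sum_proj_zero (fun k => (he k).map π) (by simpa using h3)

end Pool.Agent.Work.MP_3b70de_al.E
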