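import Pool.Agent.Work.MP_3b70de_al.E.LcsDefs
import Mathlib.Data.Set.Finite.List

/-! A finite presentation by involutions as a system of linear and conjugacy relations.

Plan. Variables: three copies `a s, b s, c s` (`s : S`), `m s t`, swaps `X e` (`e : Fin 3`), and
`Y e w i` for `w ∈ 𝓡`, `i : Fin (w.length + 1)`; `yv e w i = if i = 0 ∨ i = w.length then X e else
Y e w i`. Triples `(b s, c t, m s t)`. Conjugacy relations `(X 0, a s, b s)`, `(X 1, a s, c s)`,
`(X 2, a s, m s s)`, `(a w[i], yv e w i, yv e w (i + 1))`; `ι = a`.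
First part: `yv e w i = u⁻¹ * X e * u` with `u = ev a (w.take i)`, so `u = ev a w` commutes with `X e`;
conjugating letter by letter, `ev a w = ev b w = ev c w = ev (fun s => b s * c s) w = ev b w * ev c w`
(`b s` and `c t` commute, `comm_of_tri`), so `ev a w = 1`.
Second part, in `Wr (Fin 3 × ℕ) G`: `a s = inl (fun n => if n.1 = 0 then g s else 1)`, `b, c` with
`1, 2`; `m s t = b s * c t`; `X 0 = inr` of the swap of the blocks `0, 1`, `X 1` of the blocks `0, 2`,
`X 2` of the involution `(0, 2 y) ↔ (1, y)`, `(0, 2 y + 1) ↔ (2, y)`; `Y e w i = u⁻¹ * X e * u`. Since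
`X e * a t * X e` commutes with every `a s`, the product of two consecutive `Y` is
`(X e * (u a u⁻¹) * X e) * a`, up to conjugation a product of two commuting involutions, so they
commute. -/

namespace Pool.Agent.Work.MP_3b70de_al.E

section aux

variable {S G : Type} [Group G]

theorem LcsA_conj {x : G} (hx : x * x = 1) {a b : S → G} (h : ∀ s, x * a s * x = b s)
    {w : List S} (hw : x = ev a w * x * (ev a w)⁻¹) : ev b w = ev a w := by
  have h1 : ∀ u : List S, ev b u = x * ev a u * x := fun u => by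
    induction u with
    | nil => simp [hx]
    | cons s u ih =>
      rw [ev_cons, ev_cons, ih, ← h]
      simp only [mul_assoc]
      rw [← mul_assoc x x, hx, one_mul]
  rw [h1, eq_mul_inv_iff_mul_eq.1 hw, mul_assoc, hx, mul_one]

theorem LcsA_ev_mul {b c : S → G} (h : ∀ s t, Commute (b s) (c t)) (w : List S) :
    ev (fun s => b s * c s) w = ev b w * ev c w := by
  induction w with
  | nil => simp
  | cons s w ih =>
    have : Commute (ev b w) (c s) := Commute.list_prod_left _ _ fun x hx => by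
      obtain ⟨t, -, rfl⟩ := List.mem_map.1 hx
      exact h t s
    rw [ev_cons, ev_cons, ev_cons, ih, mul_assoc, mul_assoc, ← mul_assoc (c s), ← this.eq,
      mul_assoc]

theorem LcsA_nice {x a u : G} (ha : a * a = 1)
    (h : Commute (u⁻¹ * a * u) (x * (u⁻¹ * a * u) * x)) :
    Commute (u * x * u⁻¹) (a * u * x * (a * u)⁻¹) := by
  have h1 := congrArg (fun z => u * z * u⁻¹) h.eq
  rw [mul_inv_rev, inv_eq_of_mul_eq_one_right ha]
  simp only [mul_assoc, mul_inv_cancel_left, mul_inv_cancel, mul_one] at h1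
  simp only [Commute, SemiconjBy, mul_assoc]
  exact h1.symm

/-- The variables. -/
abbrev LcsA_V (S : Type) (N : ℕ) : Type :=
  (Fin 3 × S) ⊕ (S × S) ⊕ Fin 3 ⊕ (Fin 3 × {u : List S // u.length ≤ N})

/-- The index set of the conjugacy relations. -/
abbrev LcsA_F (𝓡 : Set (List S)) (N : ℕ) : Type :=
  (Fin 3 × S) ⊕ Fin 3 ⊕ (Fin 3 × 𝓡) ⊕ (Fin 3 × S × {u : List S // u.length < N})

/-- The conjugates of the first copy. -/
def LcsA_tg (N : ℕ) (e : Fin 3) (s : S) : LcsA_V S N :=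
  ![.inl (1, s), .inl (2, s), .inr (.inl (s, s))] e

/-- The conjugacy relations. -/
def LcsA_cj {𝓡 : Set (List S)} {N : ℕ} (h : ∀ w : 𝓡, w.1.length ≤ N) :
    LcsA_F 𝓡 N → LcsA_V S N × LcsA_V S N × LcsA_V S N
  | .inl (e, s) => (.inr (.inr (.inl e)), .inl (0, s), LcsA_tg N e s)
  | .inr (.inl e) => (.inr (.inr (.inl e)), .inr (.inr (.inl e)),
      .inr (.inr (.inr (e, ⟨[], Nat.zero_le N⟩))))
  | .inr (.inr (.inl (e, w))) => (.inr (.inr (.inl e)), .inr (.inr (.inl e)),
      .inr (.inr (.inr (e, ⟨w.1, h w⟩))))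
  | .inr (.inr (.inr (e, s, u))) => (.inl (0, s), .inr (.inr (.inr (e, ⟨u.1, u.2.le⟩))),
      .inr (.inr (.inr (e, ⟨s :: u.1, u.2⟩))))

/-- The diagonal embedding on a set of coordinates. -/
def LcsA_blk (p : Fin 3 × ℕ → Prop) [DecidablePred p] : G →* Wr (Fin 3 × ℕ) G :=
  SemidirectProduct.inl.comp
    { toFun := fun x n => if p n then x else 1
      map_one' := funext fun n => by simp
      map_mul' := fun x y => funext fun n => by by_cases h : p n <;> simp [h] }

/-- The diagonal embedding on a block. -/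
abbrev LcsA_b (j : Fin 3) : G →* Wr (Fin 3 × ℕ) G := LcsA_blk fun n => n.1 = j

theorem LcsA_comm {p q : Fin 3 × ℕ → Prop} [DecidablePred p] [DecidablePred q]
    (h : ∀ n, p n → q n → False) (x y : G) : Commute (LcsA_blk p x) (LcsA_blk q y) := by
  refine Commute.map (f := SemidirectProduct.inl) (funext fun n => ?_)
  have := h n
  by_cases h1 : p n <;> by_cases h2 : q n <;> simp_all

/-- The three involutions. -/
def LcsA_f (e : Fin 3) (n : Fin 3 × ℕ) : Fin 3 × ℕ :=
  ![(![1, 0, 2] n.1, n.2), (![2, 1, 0] n.1, n.2),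
    ![(if n.2 % 2 = 0 then 1 else 2, n.2 / 2), (0, 2 * n.2), (0, 2 * n.2 + 1)] n.1] e

theorem LcsA_inv (e : Fin 3) : Function.Involutive (LcsA_f e) := by
  rintro ⟨j, y⟩
  fin_cases e <;> fin_cases j <;> try rfl
  · by_cases h : y % 2 = 0 <;> simp [LcsA_f, h] <;> omega
  · simp [LcsA_f]
  · simp [LcsA_f]
    omega

/-- The swaps. -/
def LcsA_X (e : Fin 3) : Wr (Fin 3 × ℕ) G := SemidirectProduct.inr (LcsA_inv e).toPerm

theorem LcsA_perm_sq (e : Fin 3) : (LcsA_inv e).toPerm * (LcsA_inv e).toPerm = 1 :=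
  Equiv.ext fun n => LcsA_inv e n

theorem LcsA_X_sq (e : Fin 3) : (LcsA_X e : Wr (Fin 3 × ℕ) G) * LcsA_X e = 1 := by
  rw [LcsA_X, ← map_mul, LcsA_perm_sq, map_one]

theorem LcsA_X_b (e : Fin 3) (x : G) :
    LcsA_X e * LcsA_b 0 x * LcsA_X e = LcsA_blk (fun n => (LcsA_f e n).1 = 0) x := by
  have h := SemidirectProduct.inl_aut (φ := mulAutArrow) (LcsA_inv e).toPerm
    fun n : Fin 3 × ℕ => if n.1 = 0 then x else 1
  rw [inv_eq_of_mul_eq_one_right (LcsA_perm_sq e)] at h
  exact h.symm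

theorem LcsA_X_comm (e : Fin 3) (x y : G) :
    Commute (LcsA_b 0 x) (LcsA_X e * LcsA_b 0 y * LcsA_X e) := by
  rw [LcsA_X_b]
  refine LcsA_comm ?_ x y
  rintro ⟨j, n⟩ (rfl : j = 0)
  fin_cases e
  · simp [LcsA_f]
  · simp [LcsA_f]
  · by_cases h : n % 2 = 0 <;> simp [LcsA_f, h]

/-- The solution in the wreath product. -/
def LcsA_y (N : ℕ) (g : S → G) : LcsA_V S N → Wr (Fin 3 × ℕ) G
  | .inl (j, s) => LcsA_b j (g s)
  | .inr (.inl (s, t)) => LcsA_b 1 (g s) * LcsA_b 2 (g t)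
  | .inr (.inr (.inl e)) => LcsA_X e
  | .inr (.inr (.inr (e, u))) => LcsA_b 0 (ev g u.1) * LcsA_X e * (LcsA_b 0 (ev g u.1))⁻¹

theorem LcsA_X_tg (N : ℕ) (g : S → G) (e : Fin 3) (s : S) :
    LcsA_X e * LcsA_y N g (.inl (0, s)) * LcsA_X e = LcsA_y N g (LcsA_tg N e s) := by
  refine (LcsA_X_b e _).trans ?_
  fin_cases e
  · refine congrArg SemidirectProduct.inl (funext ?_)
    rintro ⟨j, n⟩
    fin_cases j <;> simp [LcsA_f]
  · refine congrArg SemidirectProduct.inl (funext ?_)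
    rintro ⟨j, n⟩
    fin_cases j <;> simp [LcsA_f]
  · refine (congrArg SemidirectProduct.inl (funext ?_)).trans (map_mul _ _ _)
    rintro ⟨j, n⟩
    by_cases h : n % 2 = 0 <;> fin_cases j <;> simp [LcsA_f, h]

end aux

theorem lcs_pres {S : Type} [Finite S] {𝓡 : Set (List S)} (h𝓡 : 𝓡.Finite) :
    ∃ (V E F : Type) (_ : Finite V) (_ : Finite E) (_ : Finite F) (tri : E → V × V × V)
      (cj : F → V × V × V) (ι : S → V), TriNe tri ∧
      (∀ (G : Type) [Group G] (y : V → G), TriSol tri y → ConjSol cj y →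
        ∀ w ∈ 𝓡, ev (fun s => y (ι s)) w = 1) ∧
      ∀ (G : Type) [Group G] (g : S → G), (∀ s, g s * g s = 1) → (∀ w ∈ 𝓡, ev g w = 1) →
        ∃ y : V → Wr (Fin 3 × ℕ) G, TriSol tri y ∧ ConjSol cj y ∧ ConjNice cj y ∧
          ∀ s, (y (ι s)).right = 1 ∧ (y (ι s)).left (0, 0) = g s := by
  obtain ⟨N, hN⟩ := (h𝓡.image List.length).bddAbove
  have hN' : ∀ w : 𝓡, w.1.length ≤ N := fun w => hN ⟨w.1, w.2, rfl⟩
  have f1 : Finite 𝓡 := h𝓡.to_subtype
  have f2 : Finite {u : List S // u.length ≤ N} := (List.finite_length_le S N).to_subtype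
  have f3 : Finite {u : List S // u.length < N} := (List.finite_length_lt S N).to_subtype
  refine ⟨LcsA_V S N, S × S, LcsA_F 𝓡 N, inferInstance, inferInstance, inferInstance,
    fun k => (.inl (1, k.1), .inl (2, k.2), .inr (.inl k)), LcsA_cj hN', fun s => .inl (0, s),
    fun k => ⟨by simp, by simp, by simp⟩, fun G _ y h1 h2 w hw => ?_, fun G _ g h1 h2 => ?_⟩
  · have k1 : ∀ (e : Fin 3) (u : List S) (hu : u.length ≤ N), y (.inr (.inr (.inr (e, ⟨u, hu⟩)))) =
        ev (fun s => y (.inl (0, s))) u * y (.inr (.inr (.inl e))) *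
          (ev (fun s => y (.inl (0, s))) u)⁻¹ := by
      intro e u
      induction u with
      | nil =>
        intro hu
        have := h2 (.inr (.inl e))
        simp only [LcsA_cj, h1.1, one_mul] at this
        simp [← this]
      | cons s u ih =>
        intro hu
        have := h2 (.inr (.inr (.inr (e, s, ⟨u, hu⟩))))
        simp only [LcsA_cj] at this
        rw [← this, ih, ev_cons, mul_inv_rev, inv_eq_of_mul_eq_one_right (h1.1 (.inl (0, s)))]
        simp only [mul_assoc]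
    have k2 : ∀ e : Fin 3, ev (fun s => y (LcsA_tg N e s)) w = ev (fun s => y (.inl (0, s))) w := by
      intro e
      have h3 := h2 (.inr (.inr (.inl (e, ⟨w, hw⟩))))
      simp only [LcsA_cj, h1.1, one_mul, k1] at h3
      refine LcsA_conj (h1.1 _) (fun s => h2 (.inl (e, s))) h3
    have k3 : ∀ s t, y (.inr (.inl (s, t))) = y (.inl (1, s)) * y (.inl (2, t)) := fun s t => by
      rw [eq_inv_of_mul_eq_one_left (h1.2 (s, t)), inv_eq_of_mul_eq_one_right (h1.1 _)]
    have k4 := LcsA_ev_mul (b := fun s => y (.inl (1, s))) (c := fun s => y (.inl (2, s)))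
      (fun s t => (comm_of_tri (h1.1 _) (h1.1 _) (h1.1 _) (h1.2 (s, t))).1) w
    have k5 : ev (fun s => y (.inl (1, s))) w = _ := k2 0
    have k6 : ev (fun s => y (.inl (2, s))) w = _ := k2 1
    have k7 : ev (fun s => y (.inr (.inl (s, s)))) w = _ := k2 2
    simp only [k3] at k7
    rw [k5, k6, k7] at k4
    exact left_eq_mul.1 k4
  · have sq : ∀ j s, LcsA_b j (g s) * LcsA_b j (g s) = 1 := fun j s => by
      rw [← map_mul, h1, map_one]
    have cm : ∀ {i j : Fin 3}, i ≠ j → ∀ x x' : G, Commute (LcsA_b i x) (LcsA_b j x') :=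
      fun h x x' => LcsA_comm (fun n k k' => h (k.symm.trans k')) x x'
    have sm : ∀ s t, LcsA_b 1 (g s) * LcsA_b 2 (g t) * (LcsA_b 1 (g s) * LcsA_b 2 (g t)) = 1 :=
      fun s t => by
        rw [(cm (by decide) _ _).mul_mul_mul_comm _ _ |>.trans rfl, sq, sq, mul_one]
    refine ⟨LcsA_y N g, ⟨?_, fun k => sm k.1 k.2⟩, ?_, ?_, fun s => ⟨rfl, rfl⟩⟩
    · rintro (⟨j, s⟩ | ⟨s, t⟩ | e | ⟨e, u⟩)
      · exact sq j s
      · exact sm s t
      · exact LcsA_X_sq e
      · simp only [LcsA_y, conj_mul, LcsA_X_sq, mul_one, mul_inv_cancel]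
    · rintro (⟨e, s⟩ | e | ⟨e, w⟩ | ⟨e, s, u⟩)
      · exact LcsA_X_tg N g e s
      · simp [LcsA_cj, LcsA_y, LcsA_X_sq]
      · simp [LcsA_cj, LcsA_y, LcsA_X_sq, h2 w.1 w.2]
      · simp only [LcsA_cj, LcsA_y, ev_cons, map_mul, mul_inv_rev,
          inv_eq_of_mul_eq_one_right (sq 0 s), mul_assoc]
    · rintro (⟨e, s⟩ | e | ⟨e, w⟩ | ⟨e, s, u⟩)
      · have := LcsA_X_tg N g e s
        simp only [LcsA_cj]
        rw [← this]
        exact LcsA_X_comm e _ _
      · simp [LcsA_cj, LcsA_y]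
      · simp [LcsA_cj, LcsA_y, h2 w.1 w.2]
      · simp only [LcsA_cj, LcsA_y, ev_cons, map_mul]
        refine LcsA_nice (sq 0 s) ?_
        rw [← map_inv, ← map_mul, ← map_mul]
        exact LcsA_X_comm e _ _

end Pool.Agent.Work.MP_3b70de_al.E
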