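import Pool.Agent.Work.MP_3b70de_al.E.LpOp
import Pool.Agent.Work.MP_3b70de_al.E.StDefs

/-! Systems of three-variable linear relations and of conjugacy relations between involutions. -/

namespace Pool.Agent.Work.MP_3b70de_al.E

variable {V E F G : Type} [Group G]

/-- The three variables of each equation are different. -/
def TriNe (tri : E → V × V × V) : Prop :=
  ∀ k, (tri k).1 ≠ (tri k).2.1 ∧ (tri k).1 ≠ (tri k).2.2 ∧ (tri k).2.1 ≠ (tri k).2.2

/-- Involutions whose products along the triples are trivial (they then commute). -/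
def TriSol (tri : E → V × V × V) (y : V → G) : Prop :=
  (∀ v, y v * y v = 1) ∧ ∀ k, y (tri k).1 * y (tri k).2.1 * y (tri k).2.2 = 1

/-- The conjugacy relations `x_i x_j x_i = x_k`. -/
def ConjSol (cj : F → V × V × V) (y : V → G) : Prop :=
  ∀ f, y (cj f).1 * y (cj f).2.1 * y (cj f).1 = y (cj f).2.2

/-- In each conjugacy relation `x_j` and `x_k` commute. -/
def ConjNice (cj : F → V × V × V) (y : V → G) : Prop :=
  ∀ f, Commute (y (cj f).2.1) (y (cj f).2.2)

theorem TriSol.map {G' : Type} [Group G'] {tri : E → V × V × V} {y : V → G} (h : TriSol tri y)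
    (f : G →* G') : TriSol tri fun v => f (y v) :=
  ⟨fun v => by rw [← map_mul, h.1, map_one], fun k => by rw [← map_mul, ← map_mul, h.2, map_one]⟩

theorem comm_of_tri {a b c : G} (ha : a * a = 1) (hb : b * b = 1) (hc : c * c = 1)
    (h : a * b * c = 1) : Commute a b ∧ Commute a c ∧ Commute b c := by
  have e : ∀ {a b c : G}, a * a = 1 → b * b = 1 → c * c = 1 → a * b * c = 1 → Commute a b := by
    intro a b c ha hb hc h
    have h1 : a * b = c := by rw [eq_inv_of_mul_eq_one_left h, inv_eq_of_mul_eq_one_right hc]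
    have h2 : (a * b)⁻¹ = a * b := by rw [h1, inv_eq_of_mul_eq_one_right hc]
    rw [mul_inv_rev, inv_eq_of_mul_eq_one_right ha, inv_eq_of_mul_eq_one_right hb] at h2
    exact h2.symm
  have h' : b * c * a = 1 := by
    rw [← mul_eq_one_comm, ← mul_assoc]; exact h
  have h'' : c * a * b = 1 := by
    rw [← mul_eq_one_comm, ← mul_assoc]; exact h'
  exact ⟨e ha hb hc h, (e hc ha hb h'').symm, e hb hc ha h'⟩

end Pool.Agent.Work.MP_3b70de_al.E
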