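import Pool.Agent.Work.MP_3b70de_al.E.Hil
import Mathlib.Analysis.InnerProductSpace.l2Space
import Mathlib.GroupTheory.SemidirectProduct
import Mathlib.Algebra.Group.Action.End

/-! Weighted permutation operators on `ℓ²(Ω; W)`.

Plan. `exists_lpOp`: `ω ↦ f ω (ψ (σ.symm ω))` is in `ℓ²` by comparison with
`c ‖ψ (σ.symm ω)‖` (`memℓp_gen`, `Equiv.summable_iff`); `LinearMap.mkContinuous` with `lp.norm_le_of_tsum_le`
or `lp.norm_rpow_eq_tsum`. `lpOp_star`: `ContinuousLinearMap.eq_adjoint_iff`, `lp.inner_eq_tsum`,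
`Equiv.tsum_eq`. The two representations: choose the operators, prove the homomorphism property by
`lp.ext`/`funext`, and unitarity from `lpOp_star`. -/

namespace Pool.Agent.Work.MP_3b70de_al.E

open scoped InnerProductSpace

/-- `ℓ²(Ω; W)`. -/
abbrev L2 (Ω W : Type) [NormedAddCommGroup W] : Type := lp (fun _ : Ω => W) 2

/-- The permutational wreath product. -/
abbrev Wr (N G : Type) [Group G] : Type :=
  SemidirectProduct (N → G) (Equiv.Perm N) mulAutArrow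

variable {Ω W : Type} [NormedAddCommGroup W] [InnerProductSpace ℂ W] [CompleteSpace W]

theorem exists_lpOp (f : Ω → W →L[ℂ] W) {c : ℝ} (hf : ∀ ω, ‖f ω‖ ≤ c) (σ : Equiv.Perm Ω) :
    ∃ T : L2 Ω W →L[ℂ] L2 Ω W, ∀ ψ ω, T ψ ω = f ω (ψ (σ.symm ω)) := by
  have h2 : 0 < (2 : ENNReal).toReal := by norm_num
  have hb : ∀ (ψ : L2 Ω W) ω, ‖f ω (ψ (σ.symm ω))‖ ^ (2 : ENNReal).toReal ≤
      |c| ^ (2 : ENNReal).toReal * ‖ψ (σ.symm ω)‖ ^ (2 : ENNReal).toReal := fun ψ ω => by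
    rw [← Real.mul_rpow (abs_nonneg c) (norm_nonneg _)]
    refine Real.rpow_le_rpow (norm_nonneg _) (((f ω).le_opNorm _).trans ?_) h2.le
    exact mul_le_mul_of_nonneg_right ((hf ω).trans (le_abs_self c)) (norm_nonneg _)
  have hs : ∀ ψ : L2 Ω W, HasSum (fun ω => |c| ^ (2 : ENNReal).toReal *
      ‖ψ (σ.symm ω)‖ ^ (2 : ENNReal).toReal)
      (|c| ^ (2 : ENNReal).toReal * ‖ψ‖ ^ (2 : ENNReal).toReal) := fun ψ =>
    ((σ.symm.hasSum_iff (f := fun ω => ‖ψ ω‖ ^ (2 : ENNReal).toReal)).2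
      (lp.hasSum_norm h2 ψ)).mul_left _
  have hsum : ∀ ψ : L2 Ω W, Summable fun ω => ‖f ω (ψ (σ.symm ω))‖ ^ (2 : ENNReal).toReal :=
    fun ψ => Summable.of_nonneg_of_le (fun ω => Real.rpow_nonneg (norm_nonneg _) _) (hb ψ)
      (hs ψ).summable
  let L : L2 Ω W →ₗ[ℂ] L2 Ω W :=
    { toFun := fun ψ => ⟨fun ω => f ω (ψ (σ.symm ω)), memℓp_gen (hsum ψ)⟩
      map_add' := fun a b => lp.ext (funext fun ω => by
        change f ω ((a + b) (σ.symm ω)) = f ω (a (σ.symm ω)) + f ω (b (σ.symm ω))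
        rw [lp.coeFn_add, Pi.add_apply, map_add])
      map_smul' := fun r a => lp.ext (funext fun ω => by
        change f ω ((r • a) (σ.symm ω)) = r • f ω (a (σ.symm ω))
        rw [lp.coeFn_smul, Pi.smul_apply, map_smul]) }
  refine ⟨L.mkContinuous |c| fun ψ => ?_, fun ψ ω => rfl⟩
  refine lp.norm_le_of_tsum_le h2 (mul_nonneg (abs_nonneg c) (norm_nonneg _)) ?_
  rw [Real.mul_rpow (abs_nonneg c) (norm_nonneg _), ← (hs ψ).tsum_eq]
  exact (hsum ψ).tsum_le_tsum (hb ψ) (hs ψ).summable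

theorem lpOp_star {f : Ω → W →L[ℂ] W} {σ : Equiv.Perm Ω} {T T' : L2 Ω W →L[ℂ] L2 Ω W}
    (hT : ∀ ψ ω, T ψ ω = f ω (ψ (σ.symm ω))) (hT' : ∀ ψ ω, T' ψ ω = star (f (σ ω)) (ψ (σ ω))) :
    star T = T' := by
  symm
  rw [ContinuousLinearMap.star_eq_adjoint, ContinuousLinearMap.eq_adjoint_iff]
  intro x y
  rw [lp.inner_eq_tsum, lp.inner_eq_tsum, ← σ.tsum_eq fun ω => ⟪x ω, T y ω⟫_ℂ]
  refine tsum_congr fun ω => ?_
  rw [hT, hT', Equiv.symm_apply_apply, ContinuousLinearMap.star_eq_adjoint,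
    ContinuousLinearMap.adjoint_inner_left]

theorem LpOp_unit (g : Ω → UH W) (σ : Equiv.Perm Ω) : ∃ T : UH (L2 Ω W),
    ∀ (ψ : L2 Ω W) ω, (T • ψ) ω = g ω • ψ (σ.symm ω) := by
  have hn : ∀ u : UH W, ‖(u : W →L[ℂ] W)‖ ≤ 1 := fun u =>
    ContinuousLinearMap.opNorm_le_bound _ zero_le_one fun x => by
      rw [one_mul]; exact (unorm u x).le
  obtain ⟨T, hT⟩ := exists_lpOp (fun ω => (g ω : W →L[ℂ] W)) (fun ω => hn _) σ
  obtain ⟨T', hT'⟩ := exists_lpOp (fun ω => (((g (σ ω))⁻¹ : UH W) : W →L[ℂ] W))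
    (fun ω => hn _) σ.symm
  have hs : star T = T' := lpOp_star hT hT'
  refine ⟨⟨T, ?_, ?_⟩, hT⟩
  · rw [hs]
    refine ContinuousLinearMap.ext fun ψ => lp.ext (funext fun ω => ?_)
    change T' (T ψ) ω = ψ ω
    rw [hT', hT, Equiv.symm_symm, Equiv.symm_apply_apply]
    exact inv_smul_smul (g (σ ω)) (ψ ω)
  · rw [hs]
    refine ContinuousLinearMap.ext fun ψ => lp.ext (funext fun ω => ?_)
    change T (T' ψ) ω = ψ ω
    rw [hT, hT', Equiv.symm_symm, Equiv.apply_symm_apply]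
    exact smul_inv_smul (g ω) (ψ ω)

theorem exists_wrRep : ∃ ρ : Wr Ω (UH W) →* UH (L2 Ω W),
    ∀ m (ψ : L2 Ω W) ω, (ρ m • ψ) ω = m.left ω • ψ (m.right.symm ω) := by
  choose T hT using fun m : Wr Ω (UH W) => LpOp_unit m.left m.right
  refine ⟨MonoidHom.mk' T fun a b => ?_, hT⟩
  refine Subtype.ext (ContinuousLinearMap.ext fun ψ => lp.ext (funext fun ω => ?_))
  change (T (a * b) • ψ) ω = ((T a * T b) • ψ) ω
  rw [mul_smul, hT, hT, hT, ← mul_smul]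
  rfl

theorem exists_permRep : ∃ U : Equiv.Perm Ω →* UH (L2 Ω W),
    ∀ σ (ψ : L2 Ω W) ω, (U σ • ψ) ω = ψ (σ.symm ω) := by
  obtain ⟨ρ, hρ⟩ := exists_wrRep (Ω := Ω) (W := W)
  refine ⟨ρ.comp SemidirectProduct.inr, fun σ ψ ω => ?_⟩
  rw [MonoidHom.comp_apply, hρ, SemidirectProduct.left_inr, SemidirectProduct.right_inr,
    Pi.one_apply, one_smul]

theorem exists_single (ω₀ : Ω) : ∃ J : W →ₗᵢ[ℂ] L2 Ω W,
    (∀ w, J w ω₀ = w) ∧ ∀ w ω, ω ≠ ω₀ → J w ω = 0 := by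
  classical
  refine ⟨⟨(lp.singleContinuousLinearMap ℂ (fun _ : Ω => W) 2 ω₀).toLinearMap, fun w =>
    lp.norm_single (E := fun _ : Ω => W) (by norm_num) ω₀ w⟩, fun w => ?_, fun w ω h => ?_⟩
  · exact lp.single_apply_self (E := fun _ : Ω => W) 2 ω₀ w
  · exact lp.single_apply_ne (E := fun _ : Ω => W) 2 ω₀ w h

end Pool.Agent.Work.MP_3b70de_al.E
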