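import Pool.Agent.Work.MP_3b70de_al.E.Hil

/-! A Mautner type lemma.

Plan. `Q'` the projection onto the vectors fixed by `N` (`exists_isProj`), `η = Q ζ - Q' ζ`; note
`Q' (Q ζ) = Q' ζ` (`IsProj.of_le`). `η` is fixed by `U` and orthogonal to the `N`-fixed vectors.
`η n = g n • η` is fixed by `g n U (g n)⁻¹` and still orthogonal to the `N`-fixed vectors (`g n`
normalises `N`). For `n ≠ m` let `Qn` be the projection onto the vectors fixed by `g n U (g n)⁻¹`;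
it commutes with the elements of `N` (`IsProj.comm`, `N` is commutative), so `Qn (η m)` is fixed by
both conjugates, hence by `N`, and `⟪η n, η m⟫ = ⟪η n, Qn (η m)⟫ = 0`. Also
`⟪η n, ζ⟫ = ⟪η, ζ⟫ = ‖η‖²` and `‖η n‖ = ‖η‖`. So `k ‖η‖² = re ⟪∑ n < k, η n, ζ⟫ ≤ √k ‖η‖ ‖ζ‖` for
all `k` (square it: `k ‖η‖² ≤ ‖ζ‖²` if `η ≠ 0`), so `η = 0`. -/

namespace Pool.Agent.Work.MP_3b70de_al.E

open scoped InnerProductSpace

variable {H : Type} [NormedAddCommGroup H] [InnerProductSpace ℂ H] [CompleteSpace H]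

omit [CompleteSpace H] in
theorem Mautner_bessel (v : ℕ → H) (ζ : H) {c : ℝ} (h1 : ∀ n, ‖v n‖ ^ 2 = c)
    (h2 : ∀ n, ⟪ζ, v n⟫_ℂ = c) (h3 : ∀ n m, n ≠ m → ⟪v n, v m⟫_ℂ = 0) : c = 0 := by
  have key : ∀ k : ℕ, ‖ζ - ∑ n ∈ Finset.range k, v n‖ ^ 2 = ‖ζ‖ ^ 2 - k * c := fun k => by
    induction k with
    | zero => simp
    | succ k ih =>
      rw [Finset.sum_range_succ, ← sub_sub, norm_sub_sq (𝕜 := ℂ), ih, h1, inner_sub_left, h2,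
        sum_inner, Finset.sum_eq_zero fun n hn => h3 n k (Finset.mem_range.1 hn).ne, sub_zero,
        RCLike.re_to_complex, Complex.ofReal_re]
      push_cast
      ring
  refine le_antisymm (not_lt.1 fun hc => ?_) (h1 0 ▸ sq_nonneg _)
  obtain ⟨k, hk⟩ := exists_nat_gt (‖ζ‖ ^ 2 / c)
  rw [div_lt_iff₀ hc] at hk
  linarith [key k, sq_nonneg ‖ζ - ∑ n ∈ Finset.range k, v n‖]

theorem mautner (U N : Subgroup (UH H)) (hUN : U ≤ N) (hc : ∀ a ∈ N, ∀ b ∈ N, Commute a b)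
    (g : ℕ → UH H) (hg : ∀ n, ∀ a ∈ N, g n * a * (g n)⁻¹ ∈ N)
    (hgen : ∀ n m, n ≠ m → ∀ ξ : H, (∀ u ∈ U, (g n * u * (g n)⁻¹) • ξ = ξ) →
      (∀ u ∈ U, (g m * u * (g m)⁻¹) • ξ = ξ) → ∀ a ∈ N, a • ξ = ξ)
    {Q : H →L[ℂ] H} (hQ : IsProj Q fun ξ => ∀ u ∈ U, u • ξ = ξ) {ζ : H} (hζ : ∀ n, g n • ζ = ζ) :
    ∀ a ∈ N, a • Q ζ = Q ζ := by
  obtain ⟨Q', hQ'⟩ := exists_isProj (N : Set (UH H))
  have hle : ∀ ξ : H, (∀ u ∈ (N : Set (UH H)), u • ξ = ξ) → ∀ u ∈ U, u • ξ = ξ :=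
    fun ξ h u hu => h u (hUN hu)
  have h1 : ∀ u ∈ U, u • (Q ζ - Q' ζ) = Q ζ - Q' ζ := fun u hu => by
    rw [smul_sub, hQ.mem ζ u hu, hQ'.mem ζ u (hUN hu)]
  have h2 : ∀ c : H, (∀ a ∈ N, a • c = c) → ⟪c, Q ζ - Q' ζ⟫_ℂ = 0 := fun c hc => by
    rw [inner_sub_right, hQ.inner_mem (hle c hc), hQ'.inner_mem hc, sub_self]
  have h3 : ⟪ζ, Q ζ - Q' ζ⟫_ℂ = (‖Q ζ - Q' ζ‖ ^ 2 : ℝ) := by
    rw [← hQ.fix h1, ← hQ.symm, hQ.fix h1, ← sub_zero ⟪Q ζ, _⟫_ℂ, ← h2 _ (hQ'.mem ζ),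
      ← inner_sub_left, inner_self_eq_norm_sq_to_K, Complex.ofReal_pow]
    rfl
  generalize hη : Q ζ - Q' ζ = η at h1 h2 h3
  have h4 : ∀ n, ∀ c : H, (∀ a ∈ N, a • c = c) → ⟪c, g n • η⟫_ℂ = 0 := fun n c hc => by
    rw [← uinner (g n)⁻¹, inv_smul_smul]
    refine h2 _ fun a ha => ?_
    conv_rhs => rw [← hc _ (hg n a ha), mul_smul, mul_smul, inv_smul_smul]
  have h5 : ∀ n, ∀ u ∈ U, (g n * u * (g n)⁻¹) • g n • η = g n • η := fun n u hu => by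
    rw [mul_smul, inv_smul_smul, mul_smul, h1 u hu]
  have h6 := Mautner_bessel (fun n => g n • η) ζ (c := ‖η‖ ^ 2) (fun n => by rw [unorm])
    (fun n => by rw [uinner_fix (hζ n), h3]) fun n m hnm => by
      obtain ⟨P, hP⟩ := exists_isProj ((fun u => g m * u * (g m)⁻¹) '' (U : Set (UH H)))
      have h7 : ∀ a ∈ N, ∀ ξ : H, (∀ u ∈ (fun u => g m * u * (g m)⁻¹) '' (U : Set (UH H)),
          u • ξ = ξ) → ∀ u ∈ (fun u => g m * u * (g m)⁻¹) '' (U : Set (UH H)),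
          u • a • ξ = a • ξ := fun a ha ξ hξ u hu => by
        obtain ⟨w, hw, e⟩ := id hu
        rw [← mul_smul, (hc u (e ▸ hg m w (hUN hw)) a ha).eq, mul_smul, hξ u hu]
      rw [← hP.fix (ξ := g m • η) (by rintro _ ⟨u, hu, rfl⟩; exact h5 m u hu), ← hP.symm]
      refine h4 m _ (hgen n m hnm _ (fun u hu => ?_) fun u hu => hP.mem _ _ ⟨u, hu, rfl⟩)
      have h8 := hg n u (hUN hu)
      rw [← hP.comm (h7 _ h8) (h7 _ (inv_mem h8)), h5 n u hu]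
  rw [sq_eq_zero_iff, norm_eq_zero, ← hη, sub_eq_zero] at h6
  rw [h6]
  exact hQ'.mem ζ

/-- The second half of the argument: `ζ = Q_L β` with `β` fixed by `U`; if `Q_U ζ` is fixed by `N`
and `L` preserves the `N`-fixed vectors, then `ζ` is fixed by `N`. Plan: `ζ1 = QU ζ = QN ζ`, `QN`
commutes with `L` (`IsProj.comm`), so `ζ1` is `L`-fixed and
`‖ζ‖² = ⟪ζ, β⟫ = ⟪ζ, QU β⟫ = ⟪ζ1, β⟫ = ⟪ζ1, QL β⟫ = ⟪ζ1, ζ⟫ = ‖ζ1‖²`; `IsProj.of_norm`. -/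
theorem mautner_fix (L : Subgroup (UH H)) (U N : Set (UH H)) (hUN : U ⊆ N)
    (hLN : ∀ l ∈ L, ∀ ξ : H, (∀ a ∈ N, a • ξ = ξ) → ∀ a ∈ N, a • l • ξ = l • ξ)
    {QL QU : H →L[ℂ] H} (hL : IsProj QL fun ξ => ∀ l ∈ L, l • ξ = ξ)
    (hU : IsProj QU fun ξ => ∀ u ∈ U, u • ξ = ξ) {β : H} (hβ : ∀ u ∈ U, u • β = β)
    (h : ∀ a ∈ N, a • QU (QL β) = QU (QL β)) : ∀ a ∈ N, a • QL β = QL β := by
  obtain ⟨QN, hN⟩ := exists_isProj N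
  have h1 : QN (QL β) = QU (QL β) := by
    rw [← hN.of_le hU fun ξ hξ u hu => hξ u (hUN hu), hN.fix h]
  have h2 : ∀ l ∈ L, l • QU (QL β) = QU (QL β) := fun l hl => by
    rw [← h1, ← hN.comm (hLN l hl) (hLN _ (inv_mem hl)), hL.mem β l hl]
  have h3 : ⟪QL β, QL β⟫_ℂ = ⟪QU (QL β), QU (QL β)⟫_ℂ := by
    rw [hU.inner_mem (hU.mem _), hL.inner_mem h2, hU.symm, hU.fix hβ, hL.inner_mem (hL.mem β)]
  have h4 : ‖QL β‖ = ‖QU (QL β)‖ := by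
    rw [norm_eq_sqrt_re_inner (𝕜 := ℂ), h3, ← norm_eq_sqrt_re_inner]
  rwa [hU.of_norm h4.le] at h

end Pool.Agent.Work.MP_3b70de_al.E
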