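import Pool.Agent.Work.MP_3b70de_al.E.Hil
import Pool.Agent.Work.MP_3b70de_al.Defs2
import Mathlib.Analysis.InnerProductSpace.TensorProduct
import Mathlib.Analysis.InnerProductSpace.Completion
import Mathlib.Topology.Algebra.LinearMapCompletion

/-! Commuting copies of two unitary groups on the Hilbert tensor product. -/

namespace Pool.Agent.Work.MP_3b70de_al.E

open scoped InnerProductSpace TensorProduct
open UniformSpace

theorem compl_ext {E : Type} [NormedAddCommGroup E] [InnerProductSpace ℂ E]
    {S T : Completion E →L[ℂ] Completion E} (h : ∀ a : E, S a = T a) : S = T := by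
  ext a
  induction a using Completion.induction_on with
  | hp => exact isClosed_eq S.continuous T.continuous
  | ih a => exact h a

theorem exists_complRep (E : Type) [NormedAddCommGroup E] [InnerProductSpace ℂ E] :
    ∃ ρ : (E ≃ₗᵢ[ℂ] E) →* UH (Completion E), ∀ e (a : E), ρ e • (a : Completion E) = e a := by
  let c : (E ≃ₗᵢ[ℂ] E) → Completion E →L[ℂ] Completion E := fun e =>
    (e.toLinearIsometry.toContinuousLinearMap).completion
  have hc : ∀ e (a : E), c e a = e a := fun e a => by simp [c]
  have hm : ∀ e e', c (e * e') = c e * c e' := fun e e' => compl_ext fun a => by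
    rw [mul_apply_eq_comp, hc, hc, hc]; rfl
  have h1 : c 1 = 1 := compl_ext fun a => by rw [hc]; rfl
  have hs : ∀ e, star (c e) = c e⁻¹ := fun e => by
    refine ((ContinuousLinearMap.eq_adjoint_iff _ _).2 fun x y => ?_).symm
    induction x, y using Completion.induction_on₂ with
    | hp => apply isClosed_eq <;> fun_prop
    | ih x y =>
      rw [hc, hc, Completion.inner_coe, Completion.inner_coe, ← e.inner_map_map]
      simp
  exact ⟨{ toFun := fun e => ⟨c e, by
              rw [Unitary.mem_iff, hs, ← hm, ← hm, inv_mul_cancel, mul_inv_cancel, h1]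
              exact ⟨rfl, rfl⟩⟩
           map_one' := Subtype.ext h1
           map_mul' := fun e e' => Subtype.ext (hm e e') }, hc⟩

variable {H H0 : Type} [NormedAddCommGroup H] [InnerProductSpace ℂ H] [CompleteSpace H]
  [NormedAddCommGroup H0] [InnerProductSpace ℂ H0] [CompleteSpace H0]

theorem exists_tensor {η : H0} (hη : ‖η‖ = 1) :
    ∃ (K : Type) (_ : NormedAddCommGroup K) (_ : InnerProductSpace ℂ K) (_ : CompleteSpace K)
      (α : UH H →* UH K) (β : UH H0 →* UH K) (V : H →ₗᵢ[ℂ] K), (∀ u v, Commute (α u) (β v)) ∧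
      β (-1) = -1 ∧ ∀ u ξ, α u • V ξ = V (u • ξ) := by
  obtain ⟨ρ, hρ⟩ := exists_complRep (H ⊗[ℂ] H0)
  let τ : UH H × UH H0 →* (H ⊗[ℂ] H0 ≃ₗᵢ[ℂ] H ⊗[ℂ] H0) :=
    { toFun := fun z => TensorProduct.congrIsometry (Unitary.linearIsometryEquiv z.1)
        (Unitary.linearIsometryEquiv z.2)
      map_one' := by
        rw [Prod.fst_one, Prod.snd_one, map_one, map_one]
        exact TensorProduct.congrIsometry_refl_refl
      map_mul' := fun z z' => by
        refine LinearIsometryEquiv.ext fun x => ?_
        induction x with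
        | zero => simp
        | tmul a b => rfl
        | add a b ha hb => rw [map_add, map_add, ha, hb] }
  have hτ : ∀ u v a b, τ (u, v) (a ⊗ₜ b) = (u • a) ⊗ₜ (v • b) := fun u v a b => rfl
  let V0 : H →ₗᵢ[ℂ] H ⊗[ℂ] H0 :=
    { toLinearMap := (TensorProduct.mk ℂ H H0).flip η
      norm_map' := fun x => by simp [hη] }
  refine ⟨Completion (H ⊗[ℂ] H0), inferInstance, inferInstance, inferInstance,
    (ρ.comp τ).comp (MonoidHom.inl _ _), (ρ.comp τ).comp (MonoidHom.inr _ _),
    Completion.toComplₗᵢ.comp V0, fun u v => ?_, ?_, fun u ξ => ?_⟩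
  · exact (MonoidHom.commute_inl_inr u v).map (ρ.comp τ)
  · refine Subtype.ext (compl_ext fun a => ?_)
    have : τ (1, -1) a = -a := by
      induction a with
      | zero => simp
      | tmul a b =>
        rw [hτ, one_smul, ← TensorProduct.tmul_neg]
        rfl
      | add a b ha hb => rw [map_add, ha, hb, neg_add]
    change ρ (τ (1, -1)) • (a : Completion (H ⊗[ℂ] H0)) = -(a : Completion (H ⊗[ℂ] H0))
    rw [hρ, this, Completion.coe_neg]
  · change ρ (τ (u, 1)) • ((ξ ⊗ₜ η : H ⊗[ℂ] H0) : Completion (H ⊗[ℂ] H0)) =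
      (((u • ξ) ⊗ₜ η : H ⊗[ℂ] H0) : Completion (H ⊗[ℂ] H0))
    rw [hρ, hτ, one_smul]

variable {m n : ℕ} {M : Matrix (Fin m) (Fin n) (ZMod 2)} {b : Fin m → ZMod 2}

/-- The variables of a solution as unitaries. -/
def solU {B : Type} [Ring B] [StarRing B] {y : Fin n → B} (hy : IsSol M b y) (i : Fin n) :
    unitary B := ⟨y i, by rw [Unitary.mem_iff, hy.1, hy.2.1]; exact ⟨rfl, rfl⟩⟩

theorem isSol_hom {B B' : Type} [Ring B] [StarRing B] [Ring B'] [StarRing B'] {y : Fin n → B}
    (hy : IsSol M b y) (α : unitary B →* unitary B') (hα : b = 0 ∨ α (-1) = -1) :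
    IsSol M b fun i => (α (solU hy i) : B') := by
  have hsq : ∀ i, α (solU hy i) * α (solU hy i) = 1 := fun i => by
    rw [← map_mul, show solU hy i * solU hy i = 1 from Subtype.ext (hy.2.1 i), map_one]
  refine ⟨fun i => star_of_sq (hsq i), fun i => congrArg Subtype.val (hsq i),
    fun k i j hi hj => ?_, fun k => ?_⟩
  · have : solU hy i * solU hy j = solU hy j * solU hy i := Subtype.ext (hy.2.2.1 k i j hi hj)
    have := congrArg (fun z => (α z : B')) this
    simpa using this
  · have h1 : (List.ofFn fun i => solU hy i ^ (M k i).val).prod = (-1) ^ (b k).val := by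
      refine Subtype.ext ?_
      have := hy.2.2.2 k
      simpa [SubmonoidClass.coe_list_prod, List.map_ofFn, Function.comp_def, solU, Unitary.coe_neg] using this
    have h2 := congrArg (fun z => (α z : B')) h1
    simp only [map_list_prod, List.map_ofFn, SubmonoidClass.coe_list_prod, map_pow] at h2
    rcases hα with rfl | hα
    · simpa [Function.comp_def] using h2
    · rw [hα] at h2
      simpa [Function.comp_def, Unitary.coe_neg] using h2

end Pool.Agent.Work.MP_3b70de_al.E
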