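import Pool.Agent.Work.MP_3b70de_al.E.Final
import Pool.Agent.Work.MP_3b70de_al.E.Tensor
import Pool.Agent.Work.MP_3b70de_al.E.Combine

/-! Embeddings into the quotients by `J = -1`. -/

namespace Pool.Agent.Work.MP_3b70de_al.E

variable {V W : Type} [Fintype V] [Fintype W]

theorem isSol_map {m n : ℕ} {M : Matrix (Fin m) (Fin n) (ZMod 2)} {b : Fin m → ZMod 2}
    {B B' : Type} [CStarAlgebra B] [CStarAlgebra B'] {y : Fin n → B} (hy : IsSol M b y)
    (π : B →⋆ₐ[ℂ] B') : IsSol M b fun i => π (y i) :=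
  isSol_hom hy (umap π) (Or.inr (Subtype.ext (by simp [Unitary.coe_neg])))

theorem exists_unit_rep (C : Type) [CStarAlgebra C] [Nontrivial C] :
    ∃ (H : Type) (_ : NormedAddCommGroup H) (_ : InnerProductSpace ℂ H) (_ : CompleteSpace H)
      (_ : C →⋆ₐ[ℂ] (H →L[ℂ] H)) (η : H), ‖η‖ = 1 := by
  by_contra hne
  refine one_ne_zero (eq_zero_of_reps (x := (1 : C)) fun H _ _ _ π ξ => ?_)
  rw [map_one, one_apply_eq_self]
  by_contra h0
  exact hne ⟨H, inferInstance, inferInstance, inferInstance, π, ((‖ξ‖⁻¹ : ℝ) : ℂ) • ξ, by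
    rw [norm_smul, Complex.norm_real, norm_inv, norm_norm, inv_mul_cancel₀ (norm_ne_zero_iff.2 h0)]⟩

theorem embed_sol (G : SimpleGraph V) (H : SimpleGraph W) :
    ∃ (m n : ℕ) (M : Matrix (Fin m) (Fin n) (ZMod 2)),
      ∀ (A : Type) [CStarAlgebra A] (p : V → W → A), IsIsoAlg G H p →
      ∀ (C : Type) [CStarAlgebra C] (x : Fin n → C), IsSolAlg M 0 x →
        ∃ φ : A →⋆ₙₐ[ℂ] C, Function.Injective φ := by
  obtain ⟨m, n, M, hM⟩ := embed G H
  exact ⟨m, n, M, fun A _ p hA C _ x hx => (hM A p hA C x hx.1 (dilates_sol hx)).1⟩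

theorem embed_minus {G : SimpleGraph V} {H : SimpleGraph W} {A : Type} [CStarAlgebra A]
    {p : V → W → A} (hA : IsIsoAlg G H p) {m0 n0 : ℕ} {M0 : Matrix (Fin m0) (Fin n0) (ZMod 2)}
    {b0 : Fin m0 → ZMod 2} {C0 : Type} [CStarAlgebra C0] {x0 : Fin n0 → C0}
    (h0 : IsSolAlg M0 b0 x0) [Nontrivial C0] (φ0 : A →⋆ₐ[ℂ] C0) :
    ∃ (m n : ℕ) (M : Matrix (Fin m) (Fin n) (ZMod 2)) (b : Fin m → ZMod 2),
      ∀ (C : Type) [CStarAlgebra C] (x : Fin n → C), IsSolAlg M b x →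
        ∃ φ : A →⋆ₐ[ℂ] C, Function.Injective φ := by
  obtain ⟨m, n, M, hM⟩ := embed G H
  refine ⟨_, _, cM M M0, cb n n0 0 b0, fun C _ z hz => ?_⟩
  obtain ⟨h1, h2, h3⟩ := combine_of hz.1
  obtain ⟨β, hβ, hu⟩ := h0.2 C _ h2
  refine (hM A p hA C _ h1 fun L _ _ _ y hy => ?_).2 _ (isoRel_map hA.1 (β.comp φ0))
    fun g h i => ?_
  · obtain ⟨H0, _, _, _, π0, η, hη⟩ := exists_unit_rep C0
    obtain ⟨K, _, _, _, α, γ, J, c1, c2, c3⟩ := exists_tensor (H := L) hη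
    obtain ⟨z', hz', e1, -⟩ := combine_to (isSol_hom hy α (Or.inl rfl))
      (isSol_hom (isSol_map h0.1 π0) γ (Or.inr c2)) fun i j => (c1 _ _).map (unitary _).subtype
    obtain ⟨π, hπ, -⟩ := hz.2 _ z' hz'
    exact ⟨K, inferInstance, inferInstance, inferInstance, π, J, fun i ξ => by
      rw [hπ, e1]; exact c3 _ ξ⟩
  · let u : unitary C := solU h1 i
    have hs : star (u : C) = u := h1.1 i
    have hq : (u : C) * u = 1 := h1.2.1 i
    have e : ((Unitary.conjStarAlgAut ℂ C u : C →⋆ₐ[ℂ] C).comp β) = β := hu _ fun j => by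
      change (u : C) * β (x0 j) * star (u : C) = _
      rw [hβ, hs, show (u : C) * z (ci2 n j) = z (ci2 n j) * u from (h3 i j).eq, mul_assoc, hq,
        mul_one]
    have e2 : (u : C) * β (φ0 (p g h)) * star (u : C) = β (φ0 (p g h)) :=
      congrArg (fun f : C0 →⋆ₐ[ℂ] C => f (φ0 (p g h))) e
    change β (φ0 (p g h)) * u = u * β (φ0 (p g h))
    conv_lhs => rw [← e2]
    rw [hs, mul_assoc, hq, mul_one]

end Pool.Agent.Work.MP_3b70de_al.E
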