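import Pool.Agent.Work.MP_3b70de_al.E.StDefs

/-! The Steinberg relations for words follow from those for letters (five indices).

Plan. Fix `mid i j` different from `i, j`; `Y i j [] = x i j one`, `Y i j [a] = x i j a`,
`Y i j (a :: b :: w) = ⁅x i (mid i j) a, Y (mid i j) j (b :: w)⁆`.
M(e): `⁅Y i j u, Y j k v⁆ = Y i k (u ++ v)` for `|u| + |v| ≤ e`, all distinct `i j k`;
S(e): `Y i j u` is an involution for `|u| ≤ e`;
C(e): `Commute (Y i j u) (Y k l v)` for `|u|, |v| ≤ e` (`i ≠ j, k ≠ l, j ≠ k, i ≠ l`).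
M(1), S(1) are hypotheses. M(e) gives C(e) by induction on `|u| + |v|`: if `|u| ≥ 2` write
`u = [a] ++ u'`, choose `m ∉ {i, j, k, l}` (five indices), `Y i j u = ⁅Y i m [a], Y m j u'⁆`, both
entries commute with `Y k l v`; the same for `v`.
Group lemma `assoc_lemma`: `p = ⁅a, b⁆`, `q = ⁅b, c⁆`, `a c = c a`, `p q = q p`, `q * q = 1`,
`a * a = 1`, `a p = p a`; then `c p c⁻¹ = ⁅a, c b c⁻¹⁆ = ⁅a, q⁻¹ b⁆ = ⁅a, q⁻¹⁆ q⁻¹ p q`, so
`⁅c, p⁆ = ⁅a, q⁆ =: r`; `a` commutes with `c, p`, hence with `r`, so `r * r = ⁅a * a, q⁆ = 1` and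
`⁅p, c⁆ = r⁻¹ = r`.
Step e to e + 1 (`e ≥ 1`): for distinct `i j k l`, `u, w` nonempty, `|u| + |v| + |w| = e + 1`, take
`a = Y i j u, b = Y j k v, c = Y k l w`: `⁅Y i k (u ++ v), Y k l w⁆ = ⁅Y i j u, Y j l (v ++ w)⁆` and
this element is an involution. With `v = []` the middle index can be changed, with `u = [a]` every
split into two nonempty words is moved to the split of the definition. Empty splits:
`⁅Y i j [], Y j l (v ++ w)⁆` with `v, w` nonempty: `a = Y i j []`, `q = Y j l (v ++ w) = ⁅b, c⁆`,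
`p = Y i k v`; `p` commutes with `q = ⁅Y j m v, Y m l w⁆` (spare `m`). For `⁅Y i k (u ++ v), Y k l []⁆`:
`p = Y i k (u ++ v) = ⁅Y i m u, Y m k v⁆` commutes with `q = Y j l v` and with `a = Y i j u`. -/

namespace Pool.Agent.Work.MP_3b70de_al.E

open scoped commutatorElement

theorem StWord_assoc {G : Type} [Group G] {a b c p q : G} (hp : ⁅a, b⁆ = p) (hq : ⁅b, c⁆ = q)
    (ac : Commute a c) (pq : Commute p q) (qq : q * q = 1) (aa : a * a = 1) (ap : Commute a p) :
    ⁅p, c⁆ = ⁅a, q⁆ ∧ ⁅a, q⁆ * ⁅a, q⁆ = 1 := by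
  have hqi : q⁻¹ = q := inv_eq_of_mul_eq_one_right qq
  have h1 : c * a * c⁻¹ = a := by rw [← ac.eq, mul_inv_cancel_right]
  have h2 : c * p * c⁻¹ = a * q⁻¹ * a⁻¹ * p * q := by
    calc c * p * c⁻¹ = (c * a * c⁻¹) * (c * b * c⁻¹) * (c * a * c⁻¹)⁻¹ * (c * b * c⁻¹)⁻¹ := by
          rw [← hp, commutatorElement_def]; group
      _ = a * q⁻¹ * a⁻¹ * p * q := by
          rw [h1, ← hp, ← hq, commutatorElement_def, commutatorElement_def]; group
  have h3 : ⁅c, p⁆ = ⁅a, q⁆ := by
    rw [commutatorElement_def, commutatorElement_def, h2, mul_assoc _ p q, pq.eq, hqi]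
    group
  have h4 : Commute a ⁅a, q⁆ := by
    rw [← h3, commutatorElement_def]
    exact ((ac.mul_right ap).mul_right ac.inv_right).mul_right ap.inv_right
  have h5 : ⁅a, q⁆ * ⁅a, q⁆ = 1 := by
    calc ⁅a, q⁆ * ⁅a, q⁆ = (a * ⁅a, q⁆ * a⁻¹) * ⁅a, q⁆ := by rw [h4.eq, mul_inv_cancel_right]
      _ = (a * a) * q * (a * a)⁻¹ * q⁻¹ := by simp only [commutatorElement_def]; group
      _ = 1 := by rw [aa]; group
  refine ⟨?_, h5⟩
  rw [← commutatorElement_inv, h3]
  exact inv_eq_of_mul_eq_one_right h5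

theorem StWord_spare (i j k l : Fin 5) : ∃ m, m ≠ i ∧ m ≠ j ∧ m ≠ k ∧ m ≠ l := by
  revert i j k l
  decide

theorem StWord_cc {G : Type} [Group G] {a b c : G} (h1 : Commute a c) (h2 : Commute b c) :
    Commute ⁅a, b⁆ c := by
  rw [commutatorElement_def]
  exact ((h1.mul_left h2).mul_left h1.inv_left).mul_left h2.inv_left

/-- A middle index. -/
noncomputable def StWord_mid (i j : Fin 5) : Fin 5 := (StWord_spare i j i j).choose

theorem StWord_mid_l (i j : Fin 5) : StWord_mid i j ≠ i := (StWord_spare i j i j).choose_spec.1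
theorem StWord_mid_r (i j : Fin 5) : StWord_mid i j ≠ j := (StWord_spare i j i j).choose_spec.2.1

/-- The elements attached to words. -/
noncomputable def StWord_Y {G A : Type} [Group G] (one : A) (x : Fin 5 → Fin 5 → A → G) :
    List A → Fin 5 → Fin 5 → G
  | [], i, j => x i j one
  | [a], i, j => x i j a
  | a :: b :: w, i, j => ⁅x i (StWord_mid i j) a, StWord_Y one x (b :: w) (StWord_mid i j) j⁆

section

variable {G A : Type} [Group G] (Y : List A → Fin 5 → Fin 5 → G)

/-- The multiplication relation up to total length `e`. -/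
def StWord_M (e : ℕ) : Prop := ∀ i j k u v, i ≠ j → j ≠ k → i ≠ k → u.length + v.length ≤ e →
  ⁅Y u i j, Y v j k⁆ = Y (u ++ v) i k

/-- The involution relation up to length `e`. -/
def StWord_S (e : ℕ) : Prop := ∀ i j u, i ≠ j → u.length ≤ e → Y u i j * Y u i j = 1

/-- The commutation relation up to length `e`. -/
def StWord_C (e : ℕ) : Prop := ∀ i j k l u v, i ≠ j → k ≠ l → j ≠ k → i ≠ l → u.length ≤ e →
  v.length ≤ e → Commute (Y u i j) (Y v k l)

variable {Y}

theorem StWord_C_left {e : ℕ} (hM : StWord_M Y e) {k l : Fin 5} {z : G}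
    (h : ∀ i j u, i ≠ j → j ≠ k → i ≠ l → u.length ≤ 1 → Commute (Y u i j) z) (u : List A) :
    ∀ i j, i ≠ j → j ≠ k → i ≠ l → u.length ≤ e → Commute (Y u i j) z := by
  induction u with
  | nil => exact fun i j h1 h2 h3 _ => h i j [] h1 h2 h3 (by simp)
  | cons a u ih =>
    intro i j h1 h2 h3 h4
    obtain ⟨m, m1, m2, m3, m4⟩ := StWord_spare i j k l
    have h5 := hM i m j [a] u m1.symm m2 h1 (by simpa [add_comm] using h4)
    rw [List.singleton_append] at h5
    rw [← h5]
    exact StWord_cc (h i m [a] m1.symm m3 h3 (by simp))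
      (ih m j m2 h2 m4 (by simp at h4; omega))

theorem StWord_C_of {e : ℕ} (hM : StWord_M Y e) (h1 : StWord_C Y 1) : StWord_C Y e := by
  intro i j k l u v a1 a2 a3 a4 a5 a6
  refine StWord_C_left hM (fun i j u b1 b2 b3 b4 => ?_) u i j a1 a3 a4 a5
  exact (StWord_C_left hM (k := i) (l := j) (fun k l v c1 c2 c3 c4 =>
    (h1 i j k l u v b1 c1 c3.symm c2.symm b4 c4).symm) v k l a2 b3.symm b2.symm a6).symm

theorem StWord_star {e : ℕ} (hM : StWord_M Y e) (hS : StWord_S Y e) (hC : StWord_C Y e)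
    {i j k l : Fin 5} (ij : i ≠ j) (ik : i ≠ k) (il : i ≠ l) (jk : j ≠ k) (jl : j ≠ l)
    (kl : k ≠ l) (u v w : List A) (h1 : u.length + v.length ≤ e) (h2 : v.length + w.length ≤ e) :
    ⁅Y (u ++ v) i k, Y w k l⁆ = ⁅Y u i j, Y (v ++ w) j l⁆ ∧
      ⁅Y u i j, Y (v ++ w) j l⁆ * ⁅Y u i j, Y (v ++ w) j l⁆ = 1 :=
  StWord_assoc (hM i j k u v ij jk ik h1) (hM j k l v w jk kl jl h2)
    (hC i j k l u w ij kl jk il (by omega) (by omega))
    (hC i k j l _ _ ik jl jk.symm il (by simpa using h1) (by simpa using h2))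
    (hS j l _ jl (by simpa using h2)) (hS i j u ij (by omega))
    (hC i j i k _ _ ij ik ij.symm ik (by omega) (by simpa using h1))

theorem StWord_step {e : ℕ} (he : 1 ≤ e)
    (hd : ∀ a w i j, w ≠ [] → Y (a :: w) i j =
      ⁅Y [a] i (StWord_mid i j), Y w (StWord_mid i j) j⁆)
    (hM : StWord_M Y e) (hS : StWord_S Y e) (hC : StWord_C Y e) :
    StWord_M Y (e + 1) ∧ StWord_S Y (e + 1) := by
  have hS' : StWord_S Y (e + 1) := by
    intro i l u il hu
    rcases le_or_gt u.length e with h | h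
    · exact hS i l u il h
    obtain _ | ⟨a, w⟩ := u
    · simp at h
    have hw : w ≠ [] := by rintro rfl; simp at h; omega
    obtain ⟨k, k1, k2, k3, -⟩ := StWord_spare i l (StWord_mid i l) i
    rw [hd a w i l hw]
    exact (StWord_star hM hS hC (StWord_mid_l i l).symm k1.symm il k3.symm (StWord_mid_r i l) k2
      [a] [] w (by simpa using he) (by simpa using hu)).2
  have hM' : ∀ i k l u w, i ≠ k → k ≠ l → i ≠ l → u ≠ [] → w ≠ [] →
      u.length + w.length ≤ e + 1 → ⁅Y u i k, Y w k l⁆ = Y (u ++ w) i l := by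
    intro i k l u w ik kl il hu hw h
    obtain _ | ⟨a, v⟩ := u
    · exact (hu rfl).elim
    have hw' := List.length_pos_iff.2 hw
    simp only [List.length_cons] at h
    obtain ⟨j, j1, j2, j3, j4⟩ := StWord_spare i k l (StWord_mid i l)
    have e1 := (StWord_star hM hS hC j1.symm ik il j2 j3 kl [a] v w (by simp; omega)
      (by omega)).1
    have e2 := (StWord_star hM hS hC (StWord_mid_l i l).symm j1.symm il j4.symm
      (StWord_mid_r i l) j3 [a] [] (v ++ w) (by simpa using he) (by simp; omega)).1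
    rw [List.cons_append, hd a (v ++ w) i l (by simp [hw])]
    exact e1.trans e2
  refine ⟨fun i j l u t ij jl il h => ?_, hS'⟩
  rcases le_or_gt (u.length + t.length) e with h' | h'
  · exact hM i j l u t ij jl il h'
  by_cases hu : u = []
  · subst hu
    obtain _ | ⟨a, w⟩ := t
    · simp at h'
    have hw : w ≠ [] := by rintro rfl; simp at h'; omega
    simp only [List.length_nil, List.length_cons, zero_add] at h h'
    obtain ⟨k, k1, k2, k3, -⟩ := StWord_spare i j l i
    obtain ⟨m, m1, m2, m3, m4⟩ := StWord_spare i j k l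
    have hq := hM' j k l [a] w k2.symm k3 jl (by simp) hw (by simp; omega)
    have hq' := hM' j m l [a] w m2.symm m4 jl (by simp) hw (by simp; omega)
    have := (StWord_assoc (hM i j k [] [a] ij k2.symm k1.symm (by simpa using he)) hq
      (hC i j k l [] w ij k3 k2.symm il (by simp) (by omega))
      (by
        rw [← hq']
        exact (StWord_cc
          (hC i k j m _ _ k1.symm m2.symm k2 m1.symm (by simpa using he) (by simpa using he)).symm
          (hC i k m l _ _ k1.symm m4 m3.symm il (by simpa using he) (by omega)).symm).symm)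
      (hS' j l _ jl (by simp; omega)) (hS i j [] ij (by simp))
      (hC i j i k _ _ ij k1.symm ij.symm k1.symm (by simp) (by simpa using he))).1
    rw [List.nil_append, hM' i k l [a] w k1.symm k3 il (by simp) hw (by simp; omega)] at this
    exact this.symm
  by_cases ht : t = []
  · subst ht
    obtain _ | ⟨a, v⟩ := u
    · exact (hu rfl).elim
    have hv : v ≠ [] := by rintro rfl; simp at h'; omega
    simp only [List.length_nil, List.length_cons, add_zero] at h h'
    obtain ⟨k, k1, k2, k3, -⟩ := StWord_spare i j l i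
    obtain ⟨m, m1, m2, m3, m4⟩ := StWord_spare i j k l
    have hp := hM' i k j [a] v k1.symm k2 ij (by simp) hv (by simp; omega)
    have hp' := hM' i m j [a] v m1.symm m2 ij (by simp) hv (by simp; omega)
    have := (StWord_assoc hp (hM k j l v [] k2 jl k3 (by simp; omega))
      (hC i k j l [a] [] k1.symm jl k2 il (by simpa using he) (by simp))
      (by
        rw [← hp']
        exact StWord_cc
          (hC i m k l _ _ m1.symm k3 m3 il (by simpa using he) (by simp; omega))
          (hC m j k l _ _ m2 k3 k2.symm m4 (by omega) (by simp; omega)))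
      (hS k l _ k3 (by simp; omega)) (hS i k [a] k1.symm (by simpa using he))
      (by
        rw [← hp']
        exact (StWord_cc
          (hC i k i m _ _ k1.symm m1.symm k1 m1.symm (by simpa using he) (by simpa using he)).symm
          (hC i k m j _ _ k1.symm m2 m3.symm ij (by simpa using he) (by omega)).symm).symm)).1
    rw [List.append_nil, hM' i k l [a] v k1.symm k3 il (by simp) hv (by simp; omega)] at this
    rw [List.append_nil]
    exact this
  exact hM' i j l u t ij jl il hu ht h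

end

theorem st_word {G A : Type} [Group G] (one : A) (x : Fin 5 → Fin 5 → A → G)
    (sq : ∀ i j a, x i j a * x i j a = 1)
    (comm : ∀ i j k l a b, i ≠ j → k ≠ l → j ≠ k → i ≠ l → Commute (x i j a) (x k l b))
    (one_l : ∀ i j k a, i ≠ j → j ≠ k → i ≠ k → ⁅x i j one, x j k a⁆ = x i k a)
    (one_r : ∀ i j k a, i ≠ j → j ≠ k → i ≠ k → ⁅x i j a, x j k one⁆ = x i k a) :
    ∃ Y : Fin 5 → Fin 5 → List A → G,
      (∀ i j, Y i j [] = x i j one) ∧ (∀ i j a, Y i j [a] = x i j a) ∧
      (∀ i j u, i ≠ j → Y i j u * Y i j u = 1) ∧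
      (∀ i j k l u v, i ≠ j → k ≠ l → j ≠ k → i ≠ l → Commute (Y i j u) (Y k l v)) ∧
      ∀ i j k u v, i ≠ j → j ≠ k → i ≠ k → ⁅Y i j u, Y j k v⁆ = Y i k (u ++ v) := by
  have hd : ∀ a w i j, w ≠ [] → StWord_Y one x (a :: w) i j =
      ⁅StWord_Y one x [a] i (StWord_mid i j), StWord_Y one x w (StWord_mid i j) j⁆ := by
    intro a w i j hw
    obtain _ | ⟨b, w⟩ := w
    · exact (hw rfl).elim
    · rfl
  have h1 : ∀ u : List A, u.length ≤ 1 → ∃ a, ∀ i j, StWord_Y one x u i j = x i j a := by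
    intro u hu
    obtain _ | ⟨a, _ | ⟨b, u⟩⟩ := u
    · exact ⟨one, fun _ _ => rfl⟩
    · exact ⟨a, fun _ _ => rfl⟩
    · simp at hu
  have hC : StWord_C (StWord_Y one x) 1 := fun i j k l u v a1 a2 a3 a4 a5 a6 => by
    obtain ⟨a, ha⟩ := h1 u a5
    obtain ⟨b, hb⟩ := h1 v a6
    rw [ha, hb]
    exact comm i j k l a b a1 a2 a3 a4
  have key : ∀ e, StWord_M (StWord_Y one x) (e + 1) ∧ StWord_S (StWord_Y one x) (e + 1) := by
    intro e
    induction e with
    | zero =>
      refine ⟨fun i j k u v a1 a2 a3 h => ?_, fun i j u _ h => ?_⟩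
      · obtain _ | ⟨a, _ | ⟨b, u⟩⟩ := u
        · obtain _ | ⟨a, _ | ⟨b, v⟩⟩ := v
          · exact one_l i j k one a1 a2 a3
          · exact one_l i j k a a1 a2 a3
          · simp at h
        · obtain _ | ⟨b, v⟩ := v
          · exact one_r i j k a a1 a2 a3
          · simp at h
        · simp at h
          omega
      · obtain ⟨a, ha⟩ := h1 u h
        rw [ha]
        exact sq i j a
    | succ e ih => exact StWord_step (by omega) hd ih.1 ih.2 (StWord_C_of ih.1 hC)
  refine ⟨fun i j u => StWord_Y one x u i j, fun _ _ => rfl, fun _ _ _ => rfl,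
    fun i j u h => (key u.length).2 i j u h (by omega),
    fun i j k l u v a1 a2 a3 a4 => StWord_C_of (key (u.length + v.length)).1 hC i j k l u v
      a1 a2 a3 a4 (by omega) (by omega),
    fun i j k u v a1 a2 a3 => (key (u.length + v.length)).1 i j k u v a1 a2 a3 (by omega)⟩

end Pool.Agent.Work.MP_3b70de_al.E
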