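import Pool.Agent.Work.MP_3b70de_al.E.Star
import Pool.Agent.Work.MP_3b70de_al.E.Chk

/-! The compressions of the stabiliser gates are commuting projections.

Notation: `s = g (gg (sg b) c)`, `s'` the same with `Z 3`, `H 3 4` (`sg' b`). `w' = ws 0 2 * ws 1 3`
(letters `lk 1`) fixes `F0` pointwise (`F0.ws`) and `w' * s = s' * w'` by `hg.rel` twice; so
`Q (s' • ξ) = Q (s • ξ)` for `ξ ∈ F0` (`IsProj.absorb`), and `s • ξ = ξ ↔ s' • ξ = ξ` on `F0`.
`star_gate`: `star_inner` with `I = {0, 1}`, `J = {2, 3}` and `hg.cst`.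
`B_idem`: for `α, ξ ∈ F0`: `⟪α, s ξ⟫ = ⟪α, d s ξ⟫ = ⟪α, s s' d ξ⟫ = ⟪s α, s' ξ⟫ = ⟪s α, Q (s' ξ)⟫`
(`hg.dblZ`, `hg.dblH`, `F0.dd`, `uinner_fix`). `B_comm`: `⟪s α, Q (t ξ)⟫ = ⟪s α, t' ξ⟫ = ⟪t' α, s ξ⟫`
(`hg.dis`) `= ⟪Q (t' α), s ξ⟫` (conjugate `star_gate`) `= ⟪Q (t α), s ξ⟫`.
`F1_of_std`: the set of gates `o` with `g (gg o c) • ξ = ξ` is closed under `relab (swap i.succ j.succ)`
by `hg.rel`; `Z 1` gives all `Z a`, `H 1 2` gives all `H a b` with `a ≠ b` nonzero; `H a a` is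
trivial by `hg.triv`. -/

namespace Pool.Agent.Work.MP_3b70de_al.E

open scoped InnerProductSpace
open Gate

def sg' : Bool → Gate
  | false => Z 3
  | true => H 3 4

variable {P ι K : Type} [NormedAddCommGroup K] [InnerProductSpace ℂ K] [CompleteSpace K]
  {orth : P → P → Prop} {ctx : ι → List P} {g : Gen P → UH K} {Q : K →L[ℂ] K}

theorem Stage2_comm {u v : UH K} (h : Commute u v) (ξ : K) : u • v • ξ = v • u • ξ := by
  rw [← mul_smul, h.eq, mul_smul]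

theorem Stage2_rel (hg : GRel orth ctx g) {i j : Fin 5} (hij : i ≠ j) (o : Gate) (c : Ctl P)
    {ξ : K} (h : F0 (xs g) ξ) : ws (xs g) i j (lk 1) (lk 1) • g (gg o c) • ξ =
      g (gg (o.relab (Equiv.swap i.succ j.succ)) c) • ξ := by
  rw [← mul_smul, hg.rel i j o c hij, mul_smul, h.ws hij]

theorem Stage2_sg' (hg : GRel orth ctx g) (b : Bool) (c : Ctl P) {ξ : K} (h : F0 (xs g) ξ) :
    g (gg (sg' b) c) • ξ =
      ws (xs g) 0 2 (lk 1) (lk 1) • ws (xs g) 1 3 (lk 1) (lk 1) • g (gg (sg b) c) • ξ := by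
  rw [Stage2_rel hg (by decide) _ c h, Stage2_rel hg (by decide) _ c h]
  have e : ∀ b, ((sg b).relab (Equiv.swap (1 : Fin 5).succ (3 : Fin 5).succ)).relab
      (Equiv.swap (0 : Fin 5).succ (2 : Fin 5).succ) = sg' b := by decide
  rw [e]

theorem Stage2_supp (b : Bool) : (sg b).supp ⊆ {0, 1, 2} := by cases b <;> decide

theorem Stage2_supp' (b : Bool) : (sg' b).supp ⊆ {0, 3, 4} := by cases b <;> decide

theorem Stage2_disj (b b' : Bool) : Disjoint (sg b).supp (sg' b').supp := by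
  cases b <;> cases b' <;> decide

theorem Stage2_dbl (hg : GRel orth ctx g) (b : Bool) (c : Ctl P) :
    dd (xs g) * g (gg (sg b) c) = g (gg (sg b) c) * g (gg (sg' b) c) * dd (xs g) := by
  cases b
  exacts [hg.dblZ c, hg.dblH c]

theorem Stage2_swap (hg : GRel orth ctx g) {a a' : Fin 6} (ha : a ≠ 0) (ha' : a' ≠ 0) (o : Gate)
    (c : Ctl P) {ξ : K} (h : F0 (xs g) ξ) (ho : g (gg o c) • ξ = ξ) :
    g (gg (o.relab (Equiv.swap a a')) c) • ξ = ξ := by
  obtain ⟨i, rfl⟩ := Fin.exists_succ_eq.2 ha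
  obtain ⟨j, rfl⟩ := Fin.exists_succ_eq.2 ha'
  by_cases hij : i = j
  · subst hij
    have e : o.relab (Equiv.swap i.succ i.succ) = o := by cases o <;> simp [Gate.relab]
    rw [e, ho]
  · rw [← Stage2_rel hg hij o c h, ho, h.ws hij]

/-- A gate touching only the index `0` preserves `F0`. -/
theorem F0_zeta (hg : GRel orth ctx g) (c : Ctl P) {ξ : K} (h : F0 (xs g) ξ) :
    F0 (xs g) (g (gg (Z 0) c) • ξ) := by
  intro i j a hij
  rw [← Stage2_comm (hg.cst (Z 0) c i j a hij (by simp [Gate.supp]) (by simp [Gate.supp])),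
    h i j a hij]

theorem Q_sg' (hg : GRel orth ctx g) (hQ : IsProj Q (F0 (xs g))) (b : Bool) (c : Ctl P) {ξ : K}
    (h : F0 (xs g) ξ) : Q (g (gg (sg' b) c) • ξ) = Q (g (gg (sg b) c) • ξ) := by
  rw [Stage2_sg' hg b c h, hQ.absorb fun _ h => h.ws (by decide) _ _,
    hQ.absorb fun _ h => h.ws (by decide) _ _]

theorem sg_of_sg' (hg : GRel orth ctx g) (b : Bool) (c : Ctl P) {ξ : K} (h : F0 (xs g) ξ)
    (h' : g (gg (sg' b) c) • ξ = ξ) : g (gg (sg b) c) • ξ = ξ := by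
  rw [Stage2_sg' hg b c h] at h'
  have e : ws (xs g) 0 2 (lk 1) (lk 1) • ws (xs g) 1 3 (lk 1) (lk 1) • ξ = ξ := by
    rw [h.ws (by decide), h.ws (by decide)]
  exact smul_left_cancel _ (smul_left_cancel _ (h'.trans e.symm))

theorem star_gate (hg : GRel orth ctx g) (hQ : IsProj Q (F0 (xs g))) {o o' : Gate} (c c' : Ctl P)
    (ho : o.supp ⊆ {0, 1, 2}) (ho' : o'.supp ⊆ {0, 3, 4}) {α β : K} (hα : F0 (xs g) α)
    (hβ : F0 (xs g) β) :
    ⟪g (gg o c) • α, g (gg o' c') • β⟫_ℂ = ⟪g (gg o c) • α, Q (g (gg o' c') • β)⟫_ℂ := by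
  have e1 : ∀ i : Fin 5, i ∉ ({0, 1} : Finset (Fin 5)) → i.succ ∉ ({0, 1, 2} : Finset (Fin 6)) := by
    decide
  have e2 : ∀ i : Fin 5, i ∉ ({2, 3} : Finset (Fin 5)) → i.succ ∉ ({0, 3, 4} : Finset (Fin 6)) := by
    decide
  refine star_inner hg.st hQ {0, 1} {2, 3} (by decide) (by decide) (by decide) ?_ ?_
  · intro i j a hij hi hj
    rw [← Stage2_comm (hg.cst o c i j a hij (fun h => e1 i hi (ho h)) fun h => e1 j hj (ho h)),
      hα i j a hij]
  · intro i j a hij hi hj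
    rw [← Stage2_comm (hg.cst o' c' i j a hij (fun h => e2 i hi (ho' h)) fun h => e2 j hj (ho' h)),
      hβ i j a hij]

theorem B_idem (hg : GRel orth ctx g) (hQ : IsProj Q (F0 (xs g))) (b : Bool) (c : Ctl P) {ξ : K}
    (h : F0 (xs g) ξ) :
    Q (g (gg (sg b) c) • Q (g (gg (sg b) c) • ξ)) = Q (g (gg (sg b) c) • ξ) := by
  refine hQ.ext fun α hα => ?_
  have e : g (gg (sg b) c) • g (gg (sg' b) c) • ξ = dd (xs g) • g (gg (sg b) c) • ξ := by
    rw [← mul_smul (dd (xs g)), Stage2_dbl hg, mul_smul, mul_smul, h.dd]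
  rw [← uinner_invol (hg.sq _), ← Q_sg' hg hQ b c h,
    ← star_gate hg hQ c c (Stage2_supp b) (Stage2_supp' b) hα h, uinner_invol (hg.sq _), e,
    uinner_fix hα.dd]

theorem B_comm (hg : GRel orth ctx g) (hQ : IsProj Q (F0 (xs g))) (b b' : Bool) (c c' : Ctl P)
    {ξ : K} (h : F0 (xs g) ξ) :
    Q (g (gg (sg b) c) • Q (g (gg (sg b') c') • ξ)) =
      Q (g (gg (sg b') c') • Q (g (gg (sg b) c) • ξ)) := by
  refine hQ.ext fun α hα => ?_
  rw [← uinner_invol (hg.sq _), ← Q_sg' hg hQ b' c' h,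
    ← star_gate hg hQ c c' (Stage2_supp b) (Stage2_supp' b') hα h, uinner_invol (hg.sq _),
    Stage2_comm (hg.dis _ _ c c' (Stage2_disj b b')), ← uinner_invol (hg.sq _),
    ← inner_conj_symm, star_gate hg hQ c c' (Stage2_supp b) (Stage2_supp' b') h hα,
    Q_sg' hg hQ b' c' hα, inner_conj_symm, hQ.symm, uinner_invol (hg.sq _)]

theorem F1_of_std (hg : GRel orth ctx g) {ξ : K} (h : F0 (xs g) ξ)
    (hs : ∀ b c, g (gg (sg b) c) • ξ = ξ) (hz : g (gg (Z 0) tot) • ξ = -ξ) : F1 g ξ := by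
  refine ⟨h, fun o c ho => ?_, hz⟩
  cases o with
  | Z a =>
    have ha : a ≠ 0 := fun e => ho (by simp [Gate.supp, e])
    have := Stage2_swap hg (a := 1) (by decide) ha _ c h (hs false c)
    simpa [sg, Gate.relab] using this
  | H a b =>
    have ha : a ≠ 0 := fun e => ho (by simp [Gate.supp, e])
    have hb : b ≠ 0 := fun e => ho (by simp [Gate.supp, e])
    by_cases hab : a = b
    · rw [hab, hg.triv, one_smul]
    · have e : ∀ a b : Fin 6, a ≠ 0 → b ≠ 0 → a ≠ b → Equiv.swap 1 a b ≠ 0 ∧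
          ((sg true).relab (Equiv.swap 2 (Equiv.swap 1 a b))).relab (Equiv.swap 1 a) = H a b := by
        decide
      obtain ⟨e1, e2⟩ := e a b ha hb hab
      rw [← e2]
      exact Stage2_swap hg (by decide) ha _ c h (Stage2_swap hg (by decide) e1 _ c h (hs true c))

end Pool.Agent.Work.MP_3b70de_al.E
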