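import Pool.Agent.Work.MP_3b70de_al.E.Mautner
import Pool.Agent.Work.MP_3b70de_al.E.StRing
import Pool.Agent.Work.MP_3b70de_al.E.StGen

/-! The multiplicativity property of the Kazhdan projection.

Plan for `star_aux`. `L = Subgroup.closure {X a b r | a ≠ b, a ∉ I, b ∉ I}`, `ζ = QL β`,
`σ, τ` from `lv_seq`. Rows: fix `i ∈ I`; `U` = the subgroup `{X i k r}`, `N = {X i m r | m ∉ I}`.
For `j ∉ I`, `j ≠ k` apply `mautner` with `U`, the subgroup `{X i j r * X i k s}` and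
`g n = X k j (σ n) ∈ L`: `g n * X i k r * (g n)⁻¹ = X i k r * X i j (r * σ n)`; a vector fixed by two
of the conjugates is fixed by `X i j (r * σ n + r * σ m)`, and `r = r' * τ n` gives `X i j r'`.
Then `mautner_fix` (a generator `X a b r` of `L` conjugates `X i m s` to itself if `m ≠ a` and to
`X i a s * X i b (s * r)` if `m = a`; all elements are involutions by `IsSt.sq`; in the closure
induction carry the property for `l` and `l⁻¹`). Columns: `U = {X k i r}`, `N = {X m i r}`,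
`g n = X j k (τ n)`, `g n * X k i r * (g n)⁻¹ = X j i (τ n * r) * X k i r`. Finish with `gen_star`
for `MulAction.stabilizer _ ζ`.
`star_inner`: `st_exists`, `gen_off` (stabilisers of `α`, `β`), a `k` outside `I ∪ J`;
`⟪α, β⟫ = ⟪α, QL β⟫` and `QL β = Q (QL β) = Q β` (`IsProj.of_le`). -/

namespace Pool.Agent.Work.MP_3b70de_al.E

open scoped InnerProductSpace

variable {H : Type} [NormedAddCommGroup H] [InnerProductSpace ℂ H] [CompleteSpace H]

section grp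

variable {G R : Type} [Group G] [Ring R] {X : Fin 5 → Fin 5 → R → G}

theorem Star_sq (hX : IsSt X) (h2 : ∀ r : R, r + r = 0) {i j : Fin 5} (hij : i ≠ j) (r : R) :
    X i j r * X i j r = 1 := by
  rw [← hX.add i j r r hij, h2, hX.zero hij]

theorem Star_op (hX : IsSt X) (h2 : ∀ r : R, r + r = 0) :
    IsSt fun i j (r : Rᵐᵒᵖ) => X j i r.unop where
  add i j r s h := hX.add j i _ _ h.symm
  comm i j k l r s h1 h3 h4 h5 := hX.comm j i l k _ _ h1.symm h3.symm h5 h4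
  st i j k r s h1 h3 h4 := by
    rw [← commutatorElement_inv, hX.st k j i _ _ h3.symm h1.symm h4.symm]
    exact inv_eq_of_mul_eq_one_right (Star_sq hX h2 h4.symm _)

theorem Star_conj (hX : IsSt X) (h2 : ∀ r : R, r + r = 0) {i a b : Fin 5} (h1 : i ≠ a) (h3 : a ≠ b)
    (h4 : i ≠ b) (r s : R) : X a b s * X i a r * (X a b s)⁻¹ = X i a r * X i b (r * s) := by
  rw [← hX.st i a b r s h1 h3 h4, commutatorElement_def, ← mul_assoc, ← mul_assoc, ← mul_assoc,
    Star_sq hX h2 h1, one_mul, inv_eq_of_mul_eq_one_right (Star_sq hX h2 h1 r)]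

theorem Star_sub {A : Type} [AddCommGroup A] (φ : A → G) (h : ∀ a b, φ (a + b) = φ a * φ b) :
    ∃ S : Subgroup G, (∀ u, u ∈ S ↔ ∃ a, φ a = u) ∧ ∀ u ∈ S, ∀ v ∈ S, Commute u v :=
  ⟨(MonoidHom.mk' (fun a : Multiplicative A => φ a.toAdd) h).range, fun _ => Iff.rfl, by
    rintro _ ⟨a, rfl⟩ _ ⟨b, rfl⟩
    exact (Commute.all a b).map _⟩

end grp

theorem Star_row {R : Type} [Ring R] {X : Fin 5 → Fin 5 → R → UH H} (hX : IsSt X)
    (h2 : ∀ r : R, r + r = 0) {σ τ : ℕ → R} (hs : ∀ n m, τ n * σ m = if n = m then 1 else 0)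
    {I : Finset (Fin 5)} {k i : Fin 5} (hk : k ∉ I) (hi : i ∈ I) {β : H}
    (hβ : ∀ r, X i k r • β = β) {QL : H →L[ℂ] H}
    (hL : IsProj QL fun ξ => ∀ a b r, a ≠ b → a ∉ I → b ∉ I → X a b r • ξ = ξ) (r : R) :
    X i k r • QL β = QL β := by
  have ne : ∀ {m}, m ∉ I → i ≠ m := fun hm e => hm (e ▸ hi)
  obtain ⟨U, hU, -⟩ := Star_sub (X i k) fun a b => hX.add i k a b (ne hk)
  obtain ⟨QU, hQ⟩ := exists_isProj (U : Set (UH H))
  have step : ∀ a b s, a ≠ b → a ∉ I → b ∉ I → ∀ η : H, (∀ m ∉ I, ∀ r, X i m r • η = η) →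
      ∀ m ∉ I, ∀ r, X i m r • X a b s • η = X a b s • η := by
    intro a b s hab ha hb η hη m hm r
    rcases eq_or_ne m a with rfl | hma
    · rw [← (MulAction.injective (X m b s)).eq_iff, ← mul_smul, ← mul_smul, ← mul_smul,
        Star_sq hX h2 hab, one_smul]
      have := Star_conj hX h2 (ne hm) hab (ne hb) r s
      rw [inv_eq_of_mul_eq_one_right (Star_sq hX h2 hab s)] at this
      rw [this, mul_smul, hη b hb, hη m hm]
    · rw [← mul_smul, (hX.comm i m a b r s (ne hm) hab hma (ne hb)).eq, mul_smul, hη m hm]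
  refine mautner_fix (Subgroup.closure {u | ∃ a b s, a ≠ b ∧ a ∉ I ∧ b ∉ I ∧ X a b s = u}) U
    {u | ∃ m ∉ I, ∃ r, X i m r = u} (fun u hu => ⟨k, hk, (hU u).1 hu⟩) ?_
    ⟨hL.1, fun ξ => (hL.2 ξ).trans ⟨fun h => ?_, fun h a b s hab ha hb =>
      h _ (Subgroup.subset_closure ⟨a, b, s, hab, ha, hb, rfl⟩)⟩⟩ hQ ?_ ?_ _ ⟨k, hk, r, rfl⟩
  · intro l hl ξ hξ
    suffices h : ∀ m ∉ I, ∀ r, X i m r • l • ξ = l • ξ by
      rintro _ ⟨m, hm, r, rfl⟩
      exact h m hm r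
    induction hl using Subgroup.closure_induction_left with
    | one => exact fun m hm r => by rw [one_smul, hξ _ ⟨m, hm, r, rfl⟩]
    | mul_left x hx y _ ih =>
      obtain ⟨a, b, s, hab, ha, hb, rfl⟩ := hx
      rw [mul_smul]
      exact step a b s hab ha hb _ ih
    | inv_mul_cancel x hx y _ ih =>
      obtain ⟨a, b, s, hab, ha, hb, rfl⟩ := hx
      rw [mul_smul, inv_eq_of_mul_eq_one_right (Star_sq hX h2 hab s)]
      exact step a b s hab ha hb _ ih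
  · refine (Subgroup.closure_le (MulAction.stabilizer _ ξ)).2 ?_
    rintro _ ⟨a, b, s, hab, ha, hb, rfl⟩
    exact h a b s hab ha hb
  · intro u hu
    obtain ⟨s, rfl⟩ := (hU u).1 hu
    exact hβ s
  rintro _ ⟨j, hj, s, rfl⟩
  rcases eq_or_ne k j with rfl | hkj
  · exact hQ.mem _ _ ((hU _).2 ⟨s, rfl⟩)
  obtain ⟨N, hN, hc⟩ := Star_sub (fun p : R × R => X i k p.1 * X i j p.2) fun p q => by
    rw [Prod.fst_add, Prod.snd_add, hX.add i k _ _ (ne hk), hX.add i j _ _ (ne hj),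
      (hX.comm i k i j _ _ (ne hk) (ne hj) (ne hk).symm (ne hj)).mul_mul_mul_comm]
  have cj := Star_conj hX h2 (ne hk) hkj (ne hj)
  refine mautner U N (fun u hu => ?_) hc (fun n => X k j (σ n)) (fun n u hu => ?_)
    (fun n m hnm ξ h3 h4 u hu => ?_) hQ (fun n => hL.mem β k j _ hkj hk hj) _
    ((hN _).2 ⟨(0, s), by rw [hX.zero (ne hk), one_mul]⟩)
  · obtain ⟨t, rfl⟩ := (hU u).1 hu
    exact (hN _).2 ⟨(t, 0), by rw [hX.zero (ne hj), mul_one]⟩
  · obtain ⟨p, rfl⟩ := (hN u).1 hu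
    refine (hN _).2 ⟨(p.1, p.1 * σ n + p.2), ?_⟩
    rw [hX.add i j _ _ (ne hj), ← mul_assoc, ← cj, mul_assoc, mul_assoc _ (X i k p.1 * _),
      mul_assoc, mul_assoc (X i k p.1),
      (hX.comm i j k j p.2 (σ n) (ne hj) hkj hkj.symm (ne hj)).inv_right.eq]
  · obtain ⟨p, rfl⟩ := (hN u).1 hu
    have h5 : ∀ t, X i j t • ξ = ξ := fun t => by
      have a := h3 _ ((hU _).2 ⟨t * τ m, rfl⟩)
      have b := h4 _ ((hU _).2 ⟨t * τ m, rfl⟩)
      rw [cj, mul_assoc t, hs, if_neg hnm.symm, mul_zero, hX.zero (ne hj), mul_one] at a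
      rw [cj, mul_assoc t, hs, if_pos rfl, mul_one, mul_smul] at b
      exact MulAction.injective _ (b.trans a.symm)
    have a := h3 _ ((hU _).2 ⟨p.1, rfl⟩)
    rw [cj, mul_smul, h5] at a
    rw [mul_smul, h5, a]

theorem star_aux {R : Type} [Ring R] {ℓ : Lt → R} {X : Fin 5 → Fin 5 → R → UH H} (hl : IsLv ℓ)
    (hX : IsSt X) (I : Finset (Fin 5)) {k : Fin 5} (hk : k ∉ I) {β : H}
    (hβ : ∀ i ∈ I, ∀ r, X i k r • β = β ∧ X k i r • β = β) {QL : H →L[ℂ] H}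
    (hL : IsProj QL fun ξ => ∀ a b r, a ≠ b → a ∉ I → b ∉ I → X a b r • ξ = ξ) :
    ∀ a b r, a ≠ b → X a b r • QL β = QL β := by
  obtain ⟨σ, τ, hs⟩ := lv_seq hl
  refine gen_star hX (MulAction.stabilizer _ (QL β)) k (fun i r hik => ?_) fun i r hik => ?_
  · by_cases hi : i ∈ I
    · exact Star_row hX hl.add_self hs hk hi (fun r => (hβ i hi r).1) hL r
    · exact hL.mem β i k r hik hi hk
  · by_cases hi : i ∈ I
    · refine Star_row (Star_op hX hl.add_self)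
        (fun r => MulOpposite.unop_injective (hl.add_self r.unop))
        (σ := fun n => .op (τ n)) (τ := fun n => .op (σ n)) (fun n m => ?_) hk hi
        (fun r => (hβ i hi _).2) ⟨hL.1, fun ξ => (hL.2 ξ).trans
          ⟨fun h a b r hab ha hb => h b a _ hab.symm hb ha,
            fun h a b r hab ha hb => h b a (.op r) hab.symm hb ha⟩⟩ (.op r)
      rw [← MulOpposite.op_mul, hs]
      rcases eq_or_ne n m with rfl | h
      · rw [if_pos rfl, if_pos rfl, MulOpposite.op_one]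
      · rw [if_neg h, if_neg h.symm, MulOpposite.op_zero]
    · exact hL.mem β k i r hik.symm hk hi

theorem star_inner {x : Fin 5 → Fin 5 → Lt → UH H} (hx : StRel x) {Q : H →L[ℂ] H}
    (hQ : IsProj Q (F0 x)) (I J : Finset (Fin 5)) (hI : I.card ≤ 2) (hJ : J.card ≤ 2)
    (hIJ : Disjoint I J) {α β : H} (hα : ∀ i j a, i ≠ j → i ∉ I → j ∉ I → x i j a • α = α)
    (hβ : ∀ i j a, i ≠ j → i ∉ J → j ∉ J → x i j a • β = β) :
    ⟪α, β⟫_ℂ = ⟪α, Q β⟫_ℂ := by
  obtain ⟨R, _, ℓ, X, hl, hX, e⟩ := st_exists hx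
  obtain ⟨k, -, hk⟩ := Finset.exists_mem_notMem_of_card_lt_card (s := I ∪ J) (t := Finset.univ)
    (by have := Finset.card_union_le I J; rw [Finset.card_fin]; omega)
  rw [Finset.mem_union, not_or] at hk
  have off : ∀ (K : Finset (Fin 5)) (ξ : H), K.card ≤ 2 →
      (∀ i j a, i ≠ j → i ∉ K → j ∉ K → x i j a • ξ = ξ) →
      ∀ i j r, i ≠ j → i ∉ K → j ∉ K → X i j r • ξ = ξ := fun K ξ hK h =>
    gen_off hl hX (MulAction.stabilizer _ ξ) K hK fun i j a h1 h2 h3 => by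
      rw [e i j a h1]
      exact h i j a h1 h2 h3
  obtain ⟨QL, hL⟩ := exists_isProj {u | ∃ a b r, a ≠ b ∧ a ∉ I ∧ b ∉ I ∧ X a b r = u}
  replace hL : IsProj QL fun ξ => ∀ a b r, a ≠ b → a ∉ I → b ∉ I → X a b r • ξ = ξ :=
    ⟨hL.1, fun ξ => (hL.2 ξ).trans ⟨fun h a b r h1 h2 h3 => h _ ⟨a, b, r, h1, h2, h3, rfl⟩,
      fun h _ ⟨a, b, r, h1, h2, h3, h4⟩ => h4 ▸ h a b r h1 h2 h3⟩⟩
  have h1 := star_aux hl hX I hk.1 (β := β) (fun i hi r =>
    have h2 : i ≠ k := fun h => hk.1 (h ▸ hi)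
    have h3 := Finset.disjoint_left.1 hIJ hi
    ⟨off J β hJ hβ i k r h2 h3 hk.2, off J β hJ hβ k i r h2.symm hk.2 h3⟩) hL
  rw [← hL.inner_mem (off I α hI hα) β,
    ← hQ.of_le hL (fun ξ h => off I ξ hI fun i j a h1 _ _ => h i j a h1) β,
    hQ.fix fun i j a h => e i j a h ▸ h1 i j _ h]

end Pool.Agent.Work.MP_3b70de_al.E
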