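import Pool.Agent.Work.MP_3b70de_al.E.LpOp
import Mathlib.LinearAlgebra.Matrix.ConjTranspose
import Mathlib.GroupTheory.Perm.ViaEmbedding

/-! Six by six matrices of operators acting on the sites of `ℓ²(Ω; W)`.

Plan. For `a b : Fin 6` let `τ a b : Perm Ω` extend `Equiv.prodCongr (swap a b) (refl ℕ)` along
`site` (`Equiv.Perm.viaEmbedding`), and `e a b T` the operator of `exists_lpOp` with
`f ω = if ω ∈ site '' {a} × ℕ then T else 0` and `σ = τ a b`. `Θ A = ∑ a b, e a b (A a b)` has the two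
evaluation formulas, which determine an operator (`IsTheta.ext`); all algebraic identities are
checked pointwise, `star` by `lpOp_star`. The three intertwining lemmas are checked pointwise:
distinguish `ω = site (a, y)` with `a` in the support from the other `ω`. -/

namespace Pool.Agent.Work.MP_3b70de_al.E

variable {Ω W : Type} [NormedAddCommGroup W] [InnerProductSpace ℂ W] [CompleteSpace W]

/-- The evaluation formulas of `Θ`. -/
def IsTheta (site : Fin 6 × ℕ ↪ Ω)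
    (Θ : Matrix (Fin 6) (Fin 6) (W →L[ℂ] W) →⋆ₙₐ[ℂ] (L2 Ω W →L[ℂ] L2 Ω W)) : Prop :=
  (∀ A ψ a y, Θ A ψ (site (a, y)) = ∑ b, A a b (ψ (site (b, y)))) ∧
    ∀ A ψ ω, (∀ z, site z ≠ ω) → Θ A ψ ω = 0

omit [CompleteSpace W] in
theorem Theta_ext (site : Fin 6 × ℕ ↪ Ω) {S S' : L2 Ω W →L[ℂ] L2 Ω W}
    (h1 : ∀ ψ a y, S ψ (site (a, y)) = S' ψ (site (a, y)))
    (h2 : ∀ ψ ω, (∀ z, site z ≠ ω) → S ψ ω = S' ψ ω) : S = S' := by
  refine ContinuousLinearMap.ext fun ψ => lp.ext (funext fun ω => ?_)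
  by_cases h : ∃ z, site z = ω
  · obtain ⟨⟨a, y⟩, rfl⟩ := h
    exact h1 ψ a y
  · exact h2 ψ ω fun z hz => h ⟨z, hz⟩

theorem Theta_e (site : Fin 6 × ℕ ↪ Ω) :
    ∃ e : Fin 6 → Fin 6 → (W →L[ℂ] W) → (L2 Ω W →L[ℂ] L2 Ω W),
      (∀ a b T ψ c y, e a b T ψ (site (c, y)) = if c = a then T (ψ (site (b, y))) else 0) ∧
      (∀ a b T ψ ω, (∀ z, site z ≠ ω) → e a b T ψ ω = 0) ∧
      ∀ a b T, star (e a b T) = e b a (star T) := by
  classical
  let τ : Fin 6 → Fin 6 → Equiv.Perm Ω := fun a b =>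
    Equiv.Perm.viaEmbedding (Equiv.prodCongr (Equiv.swap a b) (Equiv.refl ℕ)) site
  have hτ : ∀ a b c y, τ a b (site (c, y)) = site (Equiv.swap a b c, y) := fun a b c y =>
    Equiv.Perm.viaEmbedding_apply _ _ _
  have hτ' : ∀ a b ω, (∀ z, site z ≠ ω) → τ a b ω = ω := fun a b ω h =>
    Equiv.Perm.viaEmbedding_apply_of_notMem _ _ _ (fun ⟨z, hz⟩ => h z hz)
  let f : Fin 6 → (W →L[ℂ] W) → Ω → W →L[ℂ] W := fun a T ω =>
    if ∃ y, site (a, y) = ω then T else 0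
  have hf : ∀ a T c y, f a T (site (c, y)) = if c = a then T else 0 := by
    intro a T c y
    have : (∃ y', site (a, y') = site (c, y)) ↔ c = a := by
      simp only [EmbeddingLike.apply_eq_iff_eq, Prod.mk.injEq]
      exact ⟨fun ⟨_, h, _⟩ => h.symm, fun h => ⟨y, h.symm, rfl⟩⟩
    simp only [f, this]
  have hf' : ∀ a T ω, (∀ z, site z ≠ ω) → f a T ω = 0 := by
    intro a T ω h
    exact if_neg fun ⟨y, hy⟩ => h _ hy
  have hb : ∀ a T ω, ‖f a T ω‖ ≤ ‖T‖ := by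
    intro a T ω
    simp only [f]
    split_ifs <;> simp
  choose e he using fun (a b : Fin 6) (T : W →L[ℂ] W) => exists_lpOp (f a T) (hb a T) (τ a b)
  have h1 : ∀ a b T ψ c y, e a b T ψ (site (c, y)) =
      if c = a then T (ψ (site (b, y))) else 0 := by
    intro a b T ψ c y
    rw [he, hf]
    split_ifs with h
    · subst h
      have : (τ c b).symm (site (c, y)) = site (b, y) := by
        rw [Equiv.symm_apply_eq, hτ, Equiv.swap_apply_right]
      rw [this]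
    · rfl
  have h2 : ∀ a b T ψ ω, (∀ z, site z ≠ ω) → e a b T ψ ω = 0 := by
    intro a b T ψ ω h
    rw [he, hf' a T ω h]
    rfl
  refine ⟨e, h1, h2, fun a b T => lpOp_star (he a b T) fun ψ ω => ?_⟩
  by_cases h : ∃ z, site z = ω
  · obtain ⟨⟨c, y⟩, rfl⟩ := h
    rw [h1, hτ, hf]
    by_cases hc : c = b
    · subst hc
      simp
    · have : Equiv.swap a b c ≠ a := by
        intro h
        apply hc
        have := congrArg (Equiv.swap a b) h
        simpa using this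
      simp [hc, this]
  · have h' : ∀ z, site z ≠ ω := fun z hz => h ⟨z, hz⟩
    rw [h2 _ _ _ _ _ h', hτ' _ _ _ h', hf' _ _ _ h']
    simp

theorem exists_theta (site : Fin 6 × ℕ ↪ Ω) :
    ∃ Θ : Matrix (Fin 6) (Fin 6) (W →L[ℂ] W) →⋆ₙₐ[ℂ] (L2 Ω W →L[ℂ] L2 Ω W), IsTheta site Θ := by
  obtain ⟨e, e1, e2, e3⟩ := Theta_e (W := W) site
  let F : Matrix (Fin 6) (Fin 6) (W →L[ℂ] W) → (L2 Ω W →L[ℂ] L2 Ω W) := fun A =>
    ∑ a, ∑ b, e a b (A a b)
  have hF : ∀ A ψ ω, F A ψ ω = ∑ a, ∑ b, e a b (A a b) ψ ω := by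
    intro A ψ ω
    simp only [F, _root_.sum_apply, lp.coeFn_sum, Finset.sum_apply]
  have F1 : ∀ A ψ a y, F A ψ (site (a, y)) = ∑ b, A a b (ψ (site (b, y))) := by
    intro A ψ a y
    rw [hF, Finset.sum_comm]
    simp [e1]
  have F2 : ∀ A ψ ω, (∀ z, site z ≠ ω) → F A ψ ω = 0 := by
    intro A ψ ω h
    rw [hF]
    simp [e2 _ _ _ _ _ h]
  refine ⟨{ toFun := F, map_smul' := ?_, map_zero' := ?_, map_add' := ?_, map_mul' := ?_,
            map_star' := ?_ }, F1, F2⟩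
  · intro c A
    refine Theta_ext site (fun ψ a y => ?_) (fun ψ ω h => ?_)
    · simp [F1, Finset.smul_sum]
    · simp [F2 _ _ _ h]
  · refine Theta_ext site (fun ψ a y => ?_) (fun ψ ω h => ?_)
    · simp [F1]
    · simp [F2 _ _ _ h]
  · intro A B
    refine Theta_ext site (fun ψ a y => ?_) (fun ψ ω h => ?_)
    · simp [F1, Finset.sum_add_distrib]
    · simp [F2 _ _ _ h]
  · intro A B
    refine Theta_ext site (fun ψ a y => ?_) (fun ψ ω h => ?_)
    · simp only [F1, mul_apply_eq_comp, Matrix.mul_apply,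
        _root_.sum_apply, map_sum]
      exact Finset.sum_comm
    · simp [F2 _ _ _ h]
  · intro A
    simp only [F, star_sum, e3, Matrix.star_apply]
    exact Finset.sum_comm

variable {site : Fin 6 × ℕ ↪ Ω}
  {Θ : Matrix (Fin 6) (Fin 6) (W →L[ℂ] W) →⋆ₙₐ[ℂ] (L2 Ω W →L[ℂ] L2 Ω W)}
  {T : L2 Ω W →L[ℂ] L2 Ω W} {σ : Equiv.Perm Ω} {A : Matrix (Fin 6) (Fin 6) (W →L[ℂ] W)}

theorem Theta_zero (h : IsTheta site Θ) (I : Finset (Fin 6))
    (hA : ∀ a b, a ∉ I ∨ b ∉ I → A a b = 0) (ψ : L2 Ω W) (ω : Ω)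
    (hω : ∀ b ∈ I, ∀ y, site (b, y) ≠ ω) : Θ A ψ ω = 0 := by
  by_cases hz : ∃ z, site z = ω
  · obtain ⟨⟨a, y⟩, rfl⟩ := hz
    have ha : a ∉ I := fun ha => hω a ha y rfl
    simp [h.1, hA a _ (Or.inl ha)]
  · exact h.2 _ _ _ fun z hz' => hz ⟨z, hz'⟩

theorem IsTheta.fix (h : IsTheta site Θ) (hT : ∀ ψ ω, T ψ ω = ψ (σ.symm ω)) (I : Finset (Fin 6))
    (hA : ∀ a b, a ∉ I ∨ b ∉ I → A a b = 0) (hσ : ∀ b ∈ I, ∀ y, σ (site (b, y)) = site (b, y)) :
    T * Θ A = Θ A * T := by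
  refine Theta_ext site (fun ψ a y => ?_) (fun ψ ω hω => ?_)
  · simp only [mul_apply_eq_comp, hT, h.1]
    by_cases ha : a ∈ I
    · have hs : ∀ b ∈ I, σ.symm (site (b, y)) = site (b, y) := fun b hb => by
        rw [Equiv.symm_apply_eq, hσ b hb]
      rw [hs a ha, h.1]
      refine Finset.sum_congr rfl fun b _ => ?_
      by_cases hb : b ∈ I
      · rw [hs b hb]
      · simp [hA a b (Or.inr hb)]
    · have : ∀ b, A a b = 0 := fun b => hA a b (Or.inl ha)
      simp only [this, _root_.zero_apply, Finset.sum_const_zero]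
      refine Theta_zero h I hA ψ _ fun b hb y' hy => ha ?_
      rw [Equiv.eq_symm_apply, hσ b hb] at hy
      have := (Prod.mk.inj (site.injective hy)).1
      exact this ▸ hb
  · simp only [mul_apply_eq_comp, hT, h.2 _ _ _ hω]
    refine Theta_zero h I hA ψ _ fun b hb y' hy => ?_
    rw [Equiv.eq_symm_apply, hσ b hb] at hy
    exact hω _ hy

theorem IsTheta.relab (h : IsTheta site Θ) (hT : ∀ ψ ω, T ψ ω = ψ (σ.symm ω))
    (τ : Equiv.Perm (Fin 6)) (hσ : ∀ b y, σ (site (b, y)) = site (τ b, y)) :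
    T * Θ A = Θ (A.submatrix τ.symm τ.symm) * T := by
  have hs : ∀ b y, σ.symm (site (b, y)) = site (τ.symm b, y) := fun b y => by
    rw [Equiv.symm_apply_eq, hσ, Equiv.apply_symm_apply]
  refine Theta_ext site (fun ψ a y => ?_) (fun ψ ω hω => ?_)
  · simp only [mul_apply_eq_comp, hT, h.1, hs, Matrix.submatrix_apply]
    exact (Equiv.sum_comp τ.symm fun b => A (τ.symm a) b (ψ (site (b, y)))).symm
  · simp only [mul_apply_eq_comp, hT, h.2 _ _ _ hω]
    refine h.2 _ _ _ fun z hz => ?_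
    rw [Equiv.eq_symm_apply, hσ z.1 z.2] at hz
    exact hω _ hz

theorem IsTheta.dbl (h : IsTheta site Θ) (hT : ∀ ψ ω, T ψ ω = ψ (σ.symm ω))
    (hA : ∀ a b, a ∉ ({1, 2} : Finset (Fin 6)) ∨ b ∉ ({1, 2} : Finset (Fin 6)) → A a b = 0)
    (hσ : ∀ y, σ (site (1, 2 * y)) = site (1, y) ∧ σ (site (1, 2 * y + 1)) = site (3, y) ∧
      σ (site (2, 2 * y)) = site (2, y) ∧ σ (site (2, 2 * y + 1)) = site (4, y)) :
    T * Θ A = (Θ A + Θ (A.submatrix ![0, 3, 4, 1, 2, 5] ![0, 3, 4, 1, 2, 5])) * T := by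
  have s1 : ∀ y, σ.symm (site (1, y)) = site (1, 2 * y) := fun y => by
    rw [Equiv.symm_apply_eq, (hσ y).1]
  have s3 : ∀ y, σ.symm (site (3, y)) = site (1, 2 * y + 1) := fun y => by
    rw [Equiv.symm_apply_eq, (hσ y).2.1]
  have s2 : ∀ y, σ.symm (site (2, y)) = site (2, 2 * y) := fun y => by
    rw [Equiv.symm_apply_eq, (hσ y).2.2.1]
  have s4 : ∀ y, σ.symm (site (4, y)) = site (2, 2 * y + 1) := fun y => by
    rw [Equiv.symm_apply_eq, (hσ y).2.2.2]
  have hz : ∀ ψ ω, (∀ a y, a ≠ 0 → a ≠ 5 → site (a, y) ≠ ω) → Θ A ψ (σ.symm ω) = 0 := by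
    intro ψ ω hω
    refine Theta_zero h _ hA ψ _ fun b hb y hy => ?_
    rw [Equiv.eq_symm_apply] at hy
    simp only [Finset.mem_insert, Finset.mem_singleton] at hb
    obtain ⟨k, rfl | rfl⟩ := Nat.even_or_odd' y <;> rcases hb with rfl | rfl
    · exact hω 1 k (by decide) (by decide) ((hσ k).1.symm.trans hy)
    · exact hω 2 k (by decide) (by decide) ((hσ k).2.2.1.symm.trans hy)
    · exact hω 3 k (by decide) (by decide) ((hσ k).2.1.symm.trans hy)
    · exact hω 4 k (by decide) (by decide) ((hσ k).2.2.2.symm.trans hy)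
  have r0 : ∀ b, A 0 b = 0 := fun b => hA _ _ (Or.inl (by decide))
  have r3 : ∀ b, A 3 b = 0 := fun b => hA _ _ (Or.inl (by decide))
  have r4 : ∀ b, A 4 b = 0 := fun b => hA _ _ (Or.inl (by decide))
  have r5 : ∀ b, A 5 b = 0 := fun b => hA _ _ (Or.inl (by decide))
  have c0 : ∀ b, A b 0 = 0 := fun b => hA _ _ (Or.inr (by decide))
  have c3 : ∀ b, A b 3 = 0 := fun b => hA _ _ (Or.inr (by decide))
  have c4 : ∀ b, A b 4 = 0 := fun b => hA _ _ (Or.inr (by decide))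
  have c5 : ∀ b, A b 5 = 0 := fun b => hA _ _ (Or.inr (by decide))
  refine Theta_ext site (fun ψ a y => ?_) (fun ψ ω hω => ?_)
  · simp only [mul_apply_eq_comp, _root_.add_apply, lp.coeFn_add,
      Pi.add_apply, hT, h.1, Matrix.submatrix_apply, Fin.sum_univ_six]
    have z0 := hz ψ (site (0, y)) fun a y' h0 _ hy => h0 (Prod.mk.inj (site.injective hy)).1
    have z5 := hz ψ (site (5, y)) fun a y' _ h5 hy => h5 (Prod.mk.inj (site.injective hy)).1
    fin_cases a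
    · simp [r0, z0]
    · simp [s1, s2, h.1, Fin.sum_univ_six, r3, c0, c3, c4, c5]
    · simp [s1, s2, h.1, Fin.sum_univ_six, r4, c0, c3, c4, c5]
    · simp [s3, s4, h.1, Fin.sum_univ_six, r3, c0, c3, c4, c5]
    · simp [s3, s4, h.1, Fin.sum_univ_six, r4, c0, c3, c4, c5]
    · simp [r5, z5]
  · simp only [mul_apply_eq_comp, _root_.add_apply, lp.coeFn_add,
      Pi.add_apply, hT, h.2 _ _ _ hω, add_zero]
    exact hz ψ ω fun a y _ _ => hω _

end Pool.Agent.Work.MP_3b70de_al.E
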