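import Pool.Agent.Work.MP_3b70de_al.Defs3
import Mathlib.Analysis.CStarAlgebra.lpSpace
import Mathlib.Analysis.CStarAlgebra.Spectrum
import Mathlib.Analysis.Normed.Ring.TransferInstance
import Mathlib.Algebra.Star.TransferInstance
import Mathlib.Algebra.Algebra.TransferInstance
import Mathlib.Algebra.FreeAlgebra
import Mathlib.Logic.Small.Set
import Mathlib.Topology.Sequences

/-! Existence of universal C*-algebras for bounded families of generators. -/

namespace Pool.Agent.Work.MP_3b70de_al.E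

open scoped ENNReal CStarAlgebra
open Filter Topology

/-- Transport of a C*-algebra structure along a bijection. -/
theorem exists_transport {α : Type} {β : Type 1} [CStarAlgebra β] (e : α ≃ β) :
    ∃ _ : CStarAlgebra α, Nonempty (α ≃⋆ₐ[ℂ] β) := by
  let : NormedRing α := e.normedRing
  let : StarRing α := e.starRing
  let : Algebra ℂ α := e.algebra ℂ
  have hn : ∀ x : α, ‖x‖ = ‖e x‖ := fun _ => rfl
  let a : α ≃ₐ[ℂ] β := e.algEquiv ℂ
  have hs : ∀ x : α, a (star x) = star (a x) := fun x => e.apply_symm_apply _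
  have hiso : Isometry a := AddMonoidHomClass.isometry_of_norm a fun x => (hn x).symm
  let : NormedAlgebra ℂ α := ⟨fun c x => by
    rw [hn, hn]
    exact (congrArg norm (map_smul a c x)).trans_le (norm_smul_le c (a x))⟩
  have : CompleteSpace α :=
    (completeSpace_congr (e := e) hiso.isUniformEmbedding).2 inferInstance
  have : CStarRing α := ⟨fun x => by
    have : e (star x * x) = star (e x) * e x := (map_mul a _ _).trans (congrArg (· * a x) (hs x))
    rw [hn, hn (star x * x), this]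
    exact CStarRing.norm_mul_self_le _⟩
  have : StarModule ℂ α := ⟨fun c x => a.injective (by
    rw [hs, map_smul, map_smul, hs, star_smul])⟩
  exact ⟨{}, ⟨{ a with map_star' := hs, map_smul' := map_smul a }⟩⟩

theorem small_closure {X : Type 1} [MetricSpace X] (s : Set X) [Small.{0} s] :
    Small.{0} (closure s) := by
  have h : ∀ x : closure s, ∃ u : ℕ → s, Tendsto (fun n => (u n : X)) atTop (𝓝 x) := fun x => by
    obtain ⟨u, hu, h⟩ := mem_closure_iff_seq_limit.1 x.2
    exact ⟨fun n => ⟨u n, hu n⟩, h⟩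
  choose u hu using h
  exact small_of_injective (f := u) fun x y hxy =>
    Subtype.ext (tendsto_nhds_unique (hu x) (hxy ▸ hu y))

/-- A nonzero C*-algebra with a family satisfying the relations. -/
structure Sat {S : Type} (Rel : ∀ (B : Type) [CStarAlgebra B], (S → B) → Prop) : Type 1 where
  B : Type
  inst : CStarAlgebra B
  nt : Nontrivial B
  y : S → B
  h : Rel B y

instance {S : Type} {Rel : ∀ (B : Type) [CStarAlgebra B], (S → B) → Prop} (i : Sat Rel) :
    CStarAlgebra i.B := i.inst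

instance {S : Type} {Rel : ∀ (B : Type) [CStarAlgebra B], (S → B) → Prop} (i : Sat Rel) :
    Nontrivial i.B := i.nt

noncomputable instance lpCStar {I : Type 1} {A : I → Type} [∀ i, Nontrivial (A i)]
    [∀ i, CStarAlgebra (A i)] : CStarAlgebra (lp A ∞) where

/-- Evaluation at a coordinate. -/
noncomputable def lpEval {I : Type 1} {A : I → Type} [∀ i, Nontrivial (A i)]
    [∀ i, CStarAlgebra (A i)] (i : I) : lp A ∞ →⋆ₐ[ℂ] A i where
  toFun f := f i
  map_one' := rfl
  map_mul' _ _ := rfl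
  map_zero' := rfl
  map_add' _ _ := rfl
  commutes' _ := rfl
  map_star' _ := rfl

theorem exists_univ {S : Type} (Rel : ∀ (B : Type) [CStarAlgebra B], (S → B) → Prop)
    (hb : ∀ (B : Type) [CStarAlgebra B] (y : S → B), Rel B y → ∀ s, ‖y s‖ ≤ 1) :
    ∃ (C : Type) (_ : CStarAlgebra C) (x : S → C),
      (∀ (B : Type) [CStarAlgebra B] (y : S → B), Rel B y →
        ∃! φ : C →⋆ₐ[ℂ] B, ∀ s, φ (x s) = y s) ∧
      ∀ a b : C, (∀ (B : Type) [CStarAlgebra B] (φ : C →⋆ₐ[ℂ] B),
        Rel B (fun s => φ (x s)) → φ a = φ b) → a = b := by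
  let X : S → lp (fun i : Sat Rel => i.B) ∞ := fun s =>
    ⟨fun i => i.y s, memℓp_infty ⟨1, by rintro _ ⟨i, rfl⟩; exact hb _ _ i.h s⟩⟩
  let D0 := StarAlgebra.adjoin ℂ (Set.range X)
  let D := D0.topologicalClosure
  have hD : IsClosed (D : Set (lp (fun i : Sat Rel => i.B) ∞)) := D0.isClosed_topologicalClosure
  let : CStarAlgebra D := StarSubalgebra.cstarAlgebra D
  have h0 : Small.{0} D0 := by
    let f : S ⊕ S → lp (fun i : Sat Rel => i.B) ∞ := Sum.elim X fun s => star (X s)
    have h : (D0 : Set (lp (fun i : Sat Rel => i.B) ∞)) ⊆ Set.range (FreeAlgebra.lift ℂ f) := by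
      rw [← AlgHom.coe_range, ← Algebra.adjoin_range_eq_range_freeAlgebra_lift]
      refine Algebra.adjoin_mono (R := ℂ) (s := Set.range X ∪ star (Set.range X)) ?_
      rintro z (⟨s, rfl⟩ | ⟨s, hs⟩)
      · exact ⟨Sum.inl s, rfl⟩
      · exact ⟨Sum.inr s, by simp [f, hs]⟩
    exact small_subset h
  have h1 : Small.{0} D := small_closure (D0 : Set (lp (fun i : Sat Rel => i.B) ∞))
  obtain ⟨C, ⟨e0⟩⟩ := h1.equiv_small
  obtain ⟨inst, ⟨e⟩⟩ := exists_transport e0.symm
  have hX : ∀ s, X s ∈ D := fun s =>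
    D0.le_topologicalClosure (StarAlgebra.subset_adjoin ℂ _ ⟨s, rfl⟩)
  let ev : ∀ i : Sat Rel, C →⋆ₐ[ℂ] i.B := fun i =>
    ((lpEval i).comp D.subtype).comp (e : C →⋆ₐ[ℂ] D)
  have hev : ∀ i s, ev i (e.symm ⟨X s, hX s⟩) = i.y s := fun i s => by
    change lpEval i (e (e.symm ⟨X s, hX s⟩)).1 = _
    rw [e.apply_symm_apply]
    rfl
  refine ⟨C, inst, fun s => e.symm ⟨X s, hX s⟩, fun B _ y hy => ?_, fun a b h => ?_⟩
  · refine existsUnique_of_exists_of_unique ?_ fun φ ψ hφ hψ => ?_
    · rcases subsingleton_or_nontrivial B with hB | hB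
      · exact ⟨{ toFun := fun _ => 0
                 map_one' := Subsingleton.elim _ _
                 map_mul' := fun _ _ => Subsingleton.elim _ _
                 map_zero' := rfl
                 map_add' := fun _ _ => Subsingleton.elim _ _
                 commutes' := fun _ => Subsingleton.elim _ _
                 map_star' := fun _ => Subsingleton.elim _ _ }, fun _ => Subsingleton.elim _ _⟩
      · exact ⟨ev ⟨B, inferInstance, hB, y, hy⟩, hev _⟩
    · have : φ.comp (e.symm : D →⋆ₐ[ℂ] C) = ψ.comp (e.symm : D →⋆ₐ[ℂ] C) := by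
        refine StarAlgHom.ext_topologicalClosure (map_continuous _) (map_continuous _)
          (StarAlgHom.ext_adjoin fun z hz => ?_)
        obtain ⟨s, hs⟩ := hz
        have : StarSubalgebra.inclusion D0.le_topologicalClosure z = ⟨X s, hX s⟩ :=
          Subtype.ext hs.symm
        change φ (e.symm (StarSubalgebra.inclusion D0.le_topologicalClosure z)) =
          ψ (e.symm (StarSubalgebra.inclusion D0.le_topologicalClosure z))
        rw [this, hφ, hψ]
      ext c
      have := congrArg (fun f : D →⋆ₐ[ℂ] B => f (e c)) this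
      simpa using this
  · refine e.injective (Subtype.ext (lp.ext (funext fun i => ?_)))
    exact h i.B (ev i) (by simp only [hev]; exact i.h)

theorem norm_le_one_of_proj {B : Type} [CStarAlgebra B] {p : B} (h1 : p * p = p)
    (h2 : star p = p) : ‖p‖ ≤ 1 := by
  have : ‖p‖ * ‖p‖ = ‖p‖ := by rw [← CStarRing.norm_star_mul_self, h2, h1]
  nlinarith [norm_nonneg p]

theorem norm_le_one_of_unit {B : Type} [CStarAlgebra B] {u : B} (h : star u * u = 1) :
    ‖u‖ ≤ 1 := by
  have h1 : ‖(1 : B)‖ ≤ 1 := norm_le_one_of_proj (mul_one 1) (star_one _)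
  rw [← h, CStarRing.norm_star_mul_self] at h1
  nlinarith [norm_nonneg u]

theorem exists_isoAlg {V W : Type} [Fintype V] [Fintype W] (G : SimpleGraph V)
    (H : SimpleGraph W) : ∃ (A : Type) (_ : CStarAlgebra A) (p : V → W → A), IsIsoAlg G H p := by
  obtain ⟨A, _, x, h1, h2⟩ := exists_univ (S := V × W)
    (fun B _ y => IsoRel G H fun g h => y (g, h))
    fun B _ y hy s => norm_le_one_of_proj (hy.1 _ _) (hy.2.1 _ _)
  refine ⟨A, inferInstance, fun g h => x (g, h), ⟨fun g h => h2 _ _ fun B _ φ hφ => ?_,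
    fun g h => h2 _ _ fun B _ φ hφ => ?_, fun g => h2 _ _ fun B _ φ hφ => ?_,
    fun h => h2 _ _ fun B _ φ hφ => ?_, fun g g' h h' hh => h2 _ _ fun B _ φ hφ => ?_⟩,
    fun B _ q hq => ?_⟩
  · rw [map_mul]; exact hφ.1 g h
  · rw [map_star]; exact hφ.2.1 g h
  · rw [map_sum, map_one]; exact hφ.2.2.1 g
  · rw [map_sum, map_one]; exact hφ.2.2.2.1 h
  · rw [map_mul, map_zero]; exact hφ.2.2.2.2 g g' h h' hh
  · simpa only [Prod.forall] using h1 B (fun s => q s.1 s.2) hq

theorem exists_fullGroupAlg (Γ : Type) [Group Γ] :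
    ∃ (C : Type) (_ : CStarAlgebra C) (u : Γ →* unitary C), IsFullGroupAlg u := by
  obtain ⟨C, _, x, h1, h2⟩ := exists_univ (S := Γ)
    (fun B _ y => ∃ v : Γ →* unitary B, ∀ γ, (v γ : B) = y γ)
    fun B _ y ⟨v, hv⟩ s => hv s ▸ norm_le_one_of_unit (v s).2.1
  refine ⟨C, inferInstance,
    { toFun := fun γ => ⟨x γ, h2 _ _ fun B _ φ ⟨v, hv⟩ => ?_, h2 _ _ fun B _ φ ⟨v, hv⟩ => ?_⟩
      map_one' := Subtype.ext (h2 _ _ fun B _ φ ⟨v, hv⟩ => ?_)
      map_mul' := fun a b => Subtype.ext (h2 _ _ fun B _ φ ⟨v, hv⟩ => ?_) },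
    fun B _ v => h1 B _ ⟨v, fun _ => rfl⟩⟩
  all_goals replace hv : ∀ γ, φ (x γ) = v γ := fun γ => (hv γ).symm
  · rw [map_mul, map_star, map_one, hv]; exact (v γ).2.1
  · rw [map_mul, map_star, map_one, hv]; exact (v γ).2.2
  · change φ (x 1) = φ 1
    rw [hv, map_one, map_one]; rfl
  · change φ (x (a * b)) = φ (x a * x b)
    rw [map_mul, hv, hv, hv, map_mul]; rfl

theorem exists_solAlg {m n : ℕ} (M : Matrix (Fin m) (Fin n) (ZMod 2)) (b : Fin m → ZMod 2) :
    ∃ (C : Type) (_ : CStarAlgebra C) (x : Fin n → C), IsSolAlg M b x := by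
  obtain ⟨C, _, x, h1, h2⟩ := exists_univ (S := Fin n) (fun B _ y => IsSol M b y)
    fun B _ y hy s => norm_le_one_of_unit (by rw [hy.1, hy.2.1])
  refine ⟨C, inferInstance, x, ⟨fun i => h2 _ _ fun B _ φ hφ => ?_,
    fun i => h2 _ _ fun B _ φ hφ => ?_, fun k i j hi hj => h2 _ _ fun B _ φ hφ => ?_,
    fun k => h2 _ _ fun B _ φ hφ => ?_⟩, h1⟩
  · rw [map_star]; exact hφ.1 i
  · rw [map_mul, map_one]; exact hφ.2.1 i
  · rw [map_mul, map_mul]; exact hφ.2.2.1 k i j hi hj
  · simpa [map_list_prod, List.map_ofFn, Function.comp_def] using hφ.2.2.2 k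

end Pool.Agent.Work.MP_3b70de_al.E
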