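import Pool.Agent.Work.MP_3b70de_al.E.Minus
import Pool.Agent.Work.MP_3b70de_al.E.Univ
import Pool.Agent.Work.MP_3b70de_al.Proof

/-! The final forms. -/

namespace Pool.Agent.Work.MP_3b70de_al.E

variable {V W : Type} [Fintype V] [Fintype W] {G : SimpleGraph V} {H : SimpleGraph W}
  {A : Type} [CStarAlgebra A] {p : V → W → A}

theorem top_nonunital (hA : IsIsoAlg G H p) :
    ∃ (m n : ℕ) (M : Matrix (Fin m) (Fin n) (ZMod 2)) (C : Type) (_ : CStarAlgebra C)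
      (u : SolGroup M 0 →* unitary C), IsFullGroupAlg u ∧
        ∃ φ : A →⋆ₙₐ[ℂ] C, Function.Injective φ := by
  obtain ⟨m, n, M, hM⟩ := embed_group G H
  obtain ⟨C, _, u, hu⟩ := exists_fullGroupAlg (SolGroup M 0)
  exact ⟨m, n, M, C, inferInstance, u, hu, (hM A p hA C u hu).1⟩

theorem top_unital (hA : IsIsoAlg G H p) :
    (∃ (m n : ℕ) (M : Matrix (Fin m) (Fin n) (ZMod 2)) (b : Fin m → ZMod 2) (C : Type)
      (_ : CStarAlgebra C) (u : SolGroup M b →* unitary C), IsFullGroupAlg u ∧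
        ∃ φ : A →⋆ₐ[ℂ] C, Function.Injective φ) ↔ Nonempty (G ≃g H) := by
  refine ⟨fun ⟨_, _, _, _, _, _, _, hu, φ, _⟩ => iso_of_hom hA.1 hu φ, fun e => ?_⟩
  obtain ⟨m, n, M, hM⟩ := embed_group G H
  obtain ⟨C, _, u, hu⟩ := exists_fullGroupAlg (SolGroup M 0)
  exact ⟨m, n, M, 0, C, inferInstance, u, hu, (hM A p hA C u hu).2 e⟩

theorem top_example : ∃ (G H : SimpleGraph (Fin 24)) (A : Type) (_ : CStarAlgebra A)
    (p : Fin 24 → Fin 24 → A), IsIsoAlg G H p ∧ Nontrivial A ∧ IsEmpty (G ≃g H) := by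
  obtain ⟨A, _, p, hA⟩ := exists_isoAlg GG HH
  obtain ⟨φ, -, -⟩ := hA.2 _ magic magic_rel
  have := E4_nontrivial
  refine ⟨GG, HH, A, inferInstance, p, hA, φ.toRingHom.domain_nontrivial, ⟨fun e => ?_⟩⟩
  obtain ⟨c, hc⟩ := char_of_iso e
  exact no_scalar c hc.2.2.2.1 hc.2.2.2.2

theorem top_sol (hA : IsIsoAlg G H p) :
    ∃ (m n : ℕ) (M : Matrix (Fin m) (Fin n) (ZMod 2)) (C : Type) (_ : CStarAlgebra C)
      (x : Fin n → C), IsSolAlg M 0 x ∧ ∃ φ : A →⋆ₙₐ[ℂ] C, Function.Injective φ := by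
  obtain ⟨m, n, M, hM⟩ := embed_sol G H
  obtain ⟨C, _, x, hx⟩ := exists_solAlg M 0
  exact ⟨m, n, M, C, inferInstance, x, hx, hM A p hA C x hx⟩

theorem top_minus (hA : IsIsoAlg G H p) [Nontrivial A] :
    (∃ (m n : ℕ) (M : Matrix (Fin m) (Fin n) (ZMod 2)) (b : Fin m → ZMod 2) (C : Type)
      (_ : CStarAlgebra C) (x : Fin n → C), IsSolAlg M b x ∧
        ∃ φ : A →⋆ₐ[ℂ] C, Function.Injective φ) ↔
    ∃ (m n : ℕ) (M : Matrix (Fin m) (Fin n) (ZMod 2)) (b : Fin m → ZMod 2) (C : Type)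
      (_ : CStarAlgebra C) (x : Fin n → C), IsSolAlg M b x ∧ Nontrivial C ∧
        Nonempty (A →⋆ₐ[ℂ] C) := by
  refine ⟨fun ⟨m, n, M, b, C, i, x, hx, φ, hφ⟩ => ⟨m, n, M, b, C, i, x, hx, hφ.nontrivial, ⟨φ⟩⟩,
    fun ⟨_, _, _, _, _, _, _, hx, _, ⟨φ⟩⟩ => ?_⟩
  obtain ⟨m, n, M, b, h⟩ := embed_minus hA hx φ
  obtain ⟨C, _, x, hx⟩ := exists_solAlg M b
  exact ⟨m, n, M, b, C, inferInstance, x, hx, h C x hx⟩

end Pool.Agent.Work.MP_3b70de_al.E
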